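import Pool.Agent.IWE.Basic

/-! # IWE/AdmExt (MP_88b97d_al, helper45)

(1) An extension of admissible representations is admissible if it is smooth: `q` maps `E.fix K` to `B.fix K` (finite
dimensional) and the kernel of `E.fix K → B.fix K` is the image of `A.fix K` (if `i a` is fixed by `K` so is `a`, as `i` is
injective). (`Module.Finite` of kernel and range, e.g. `Module.Finite.of_submodule_quotient`, or rank-nullity / Noetherian
modules: `isNoetherian_of_range_eq_ker`.)
(2) By induction: zero module; `N` is smooth by `smooth_of_inj`.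
-/

namespace Pool.Agent.IWE

open scoped TensorProduct

variable {C : Type} [Field C] {G : Type} [Group G] [TopologicalSpace G] {H : Type} [Group H] [TopologicalSpace H]


theorem adm_ext {A E B : RR C G} {i : A.V →ₗ[C] E.V} {q : E.V →ₗ[C] B.V} (hs : SES A E B i q)
    (hE : E.Smooth) (hA : A.Adm) (hB : B.Adm) : E.Adm := by
  refine ⟨hE, fun K hK hK' => ?_⟩
  have h1 := hA.2 K hK hK'
  have h2 := hB.2 K hK hK'
  let f : A.fix K →ₗ[C] E.fix K := i.restrict (p := A.fix K) (q := E.fix K)
    (fun v hv g hg => by rw [← hs.hi g v, hv g hg])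
  let g : E.fix K →ₗ[C] B.fix K := q.restrict (p := E.fix K) (q := B.fix K)
    (fun v hv g hg => by rw [← hs.hq g v, hv g hg])
  have h : LinearMap.range f = LinearMap.ker g := by
    ext x
    constructor
    · rintro ⟨a, rfl⟩
      rw [LinearMap.mem_ker]
      exact Subtype.ext (hs.comp_zero a.1)
    · intro hx
      rw [LinearMap.mem_ker] at hx
      have hx' : q x.1 = 0 := congrArg Subtype.val hx
      obtain ⟨n, hn⟩ := (hs.ex _).1 hx'
      refine ⟨⟨n, fun k hk => hs.inj ?_⟩, Subtype.ext hn⟩
      rw [hs.hi k n, hn]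
      exact x.2 k hk
  have h3 : IsNoetherian C (E.fix K) := isNoetherian_of_range_eq_ker f g h
  exact inferInstance

theorem finLen_adm {A : RR C G} (hA : FinLen A) (hs : A.Smooth) : A.Adm := by
  induction hA with
  | zero A h0 =>
    refine ⟨hs, fun K _ _ => ?_⟩
    have : Subsingleton (A.fix K) := ⟨fun a b => Subtype.ext ((h0 _).trans (h0 _).symm)⟩
    exact inferInstance
  | step N E B i q hse hN hB hBA ih =>
    exact adm_ext hse hs (ih (smooth_of_inj hse.hi hse.inj hs)) hBA

end Pool.Agent.IWE
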