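import Pool.Agent.IWE.EndD

/-! # IWE/Bal (MP_88b97d_al, helper45; proof by helper22)

Balanced maps vanish on the kernel of the evaluation `M ⊗ B → E`.
-/

namespace Pool.Agent.IWE

open scoped TensorProduct

variable {C : Type} [Field C] {H : Type} [Group H]

namespace Bal

/-- `φ` is a combination of the `φs` with coefficients in `homs B B`. -/
def InSpan {B E : RR C H} {n : ℕ} (φ : B.V →ₗ[C] E.V) (φs : Fin n → (B.V →ₗ[C] E.V)) : Prop :=
  ∃ d : Fin n → (B.V →ₗ[C] B.V), (∀ j, d j ∈ homs B B) ∧ φ = ∑ j, (φs j).comp (d j)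

/-- no member is a combination of the later ones -/
def Ind {B E : RR C H} : (n : ℕ) → (Fin n → (B.V →ₗ[C] E.V)) → Prop
  | 0, _ => True
  | n + 1, φ => Ind n (fun j => φ j.succ) ∧ ¬ InSpan (φ 0) (fun j => φ j.succ)

/-- `w ↦ ∑ φ_k w_k` -/
def T {B E : RR C H} {n : ℕ} (φ : Fin n → (B.V →ₗ[C] E.V)) : (Fin n → B.V) →ₗ[C] E.V :=
  ∑ k, (φ k).comp (LinearMap.proj k)

theorem T_apply {B E : RR C H} {n : ℕ} (φ : Fin n → (B.V →ₗ[C] E.V)) (w : Fin n → B.V) :
    T φ w = ∑ k, φ k (w k) := by
  simp [T]

theorem T_inj {B E : RR C H} (hB : B.Irr) : ∀ (n : ℕ) (φ : Fin n → (B.V →ₗ[C] E.V)),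
    (∀ k, IsHom B E (φ k)) → Ind n φ → Function.Injective (T φ) := by
  intro n
  induction n with
  | zero =>
    intro φ _ _ w w' _
    exact Subsingleton.elim _ _
  | succ n ih =>
    intro φ hφ hI
    obtain ⟨hI1, hI2⟩ := hI
    have ih1 := ih (fun j => φ j.succ) (fun k => hφ _) hI1
    set T' := T (fun j : Fin n => φ j.succ) with hT'
    -- equivariance of T'
    have heq : ∀ (g : H) (w : Fin n → B.V), T' (fun k => B.ρ g (w k)) = E.ρ g (T' w) := by
      intro g w
      rw [hT', T_apply, T_apply, map_sum]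
      exact Finset.sum_congr rfl (fun k _ => hφ k.succ g (w k))
    have hR : B.Stable ((LinearMap.range T').comap (φ 0)) := by
      intro g w hw
      rw [Submodule.mem_comap] at hw ⊢
      obtain ⟨u, hu⟩ := hw
      refine ⟨fun k => B.ρ g (u k), ?_⟩
      rw [heq, hu, hφ 0 g w]
    have key : LinearMap.ker (T φ) = ⊥ := by
      rw [LinearMap.ker_eq_bot']
      intro w hw
      rw [T_apply, Fin.sum_univ_succ] at hw
      have hw' : φ 0 (w 0) + T' (fun j => w j.succ) = 0 := by
        rw [hT', T_apply]; exact hw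
      rcases hB.2 _ hR with h | h
      · have h0 : w 0 ∈ ((LinearMap.range T').comap (φ 0)) := by
          rw [Submodule.mem_comap]
          refine ⟨-(fun j => w j.succ), ?_⟩
          rw [map_neg]
          exact (eq_neg_of_add_eq_zero_left hw').symm
        rw [h, Submodule.mem_bot] at h0
        have h1 : T' (fun j => w j.succ) = T' 0 := by
          rw [h0, map_zero, zero_add] at hw'
          rw [hw', map_zero]
        have h2 := ih1 h1
        funext k
        refine Fin.cases ?_ ?_ k
        · exact h0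
        · intro j
          exact congrFun h2 j
      · exfalso
        apply hI2
        have hr : ∀ v : B.V, φ 0 v ∈ LinearMap.range T' := by
          intro v
          have : v ∈ ((LinearMap.range T').comap (φ 0)) := by rw [h]; exact Submodule.mem_top
          exact this
        let e := LinearEquiv.ofInjective T' ih1
        let s : B.V →ₗ[C] (Fin n → B.V) := e.symm.toLinearMap.comp ((φ 0).codRestrict (LinearMap.range T') hr)
        have hs : ∀ v, T' (s v) = φ 0 v := by
          intro v
          have h1 : e (s v) = (φ 0).codRestrict (LinearMap.range T') hr v := by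
            show e (e.symm _) = _
            rw [LinearEquiv.apply_symm_apply]
          have h2 := congrArg Subtype.val h1
          simpa [e] using h2
        refine ⟨fun j => (LinearMap.proj j).comp s, ?_, ?_⟩
        · intro j g v
          have h3 : s (B.ρ g v) = fun k => B.ρ g (s v k) := by
            apply ih1
            rw [hs, heq, hs, hφ 0 g v]
          show s (B.ρ g v) j = B.ρ g (s v j)
          rw [h3]
        · apply LinearMap.ext
          intro v
          rw [← hs v, hT', T_apply]
          simp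
    exact LinearMap.ker_eq_bot.1 key

end Bal

open Bal in
theorem bal {B E : RR C H} (hB : B.Irr) (M : Submodule C (B.V →ₗ[C] E.V)) (hM : ∀ φ ∈ M, IsHom B E φ)
    (hD : ∀ φ ∈ M, ∀ d ∈ homs B B, φ.comp d ∈ M) {X : Type} [AddCommGroup X] [Module C X]
    (β : M →ₗ[C] B.V →ₗ[C] X)
    (hβ : ∀ (φ : M) (d : B.V →ₗ[C] B.V) (hd : d ∈ homs B B) (w : B.V),
      β ⟨φ.1.comp d, hD φ.1 φ.2 d hd⟩ w = β φ (d w))
    (x : M ⊗[C] B.V) (hx : TensorProduct.lift M.subtype x = 0) : TensorProduct.lift β x = 0 := by
  classical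
  -- the property of being congruent to an independent sum
  let P : M ⊗[C] B.V → Prop := fun x => ∃ (n : ℕ) (φ : Fin n → M) (w : Fin n → B.V),
    Ind n (fun k => (φ k).1) ∧
    TensorProduct.lift M.subtype x = ∑ k, (φ k).1 (w k) ∧
    TensorProduct.lift β x = ∑ k, β (φ k) (w k)
  have hstep : ∀ (ψ : M) (u : B.V) (y : M ⊗[C] B.V), P y → P (ψ ⊗ₜ[C] u + y) := by
    rintro ψ u y ⟨n, φ, w, hI, h1, h2⟩
    by_cases hs : InSpan ψ.1 (fun k => (φ k).1)
    · obtain ⟨d, hd, hψ⟩ := hs
      have hψ' : ψ = ∑ j, (⟨(φ j).1.comp (d j), hD (φ j).1 (φ j).2 (d j) (hd j)⟩ : M) := by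
        apply Subtype.ext
        rw [AddSubmonoidClass.coe_finsetSum]
        exact hψ
      refine ⟨n, φ, fun k => d k u + w k, hI, ?_, ?_⟩
      · rw [map_add, h1, TensorProduct.lift.tmul]
        have : M.subtype ψ u = ∑ k, (φ k).1 (d k u) := by
          show ψ.1 u = _
          rw [hψ]
          simp
        rw [this, ← Finset.sum_add_distrib]
        exact Finset.sum_congr rfl (fun k _ => (map_add _ _ _).symm)
      · rw [map_add, h2, TensorProduct.lift.tmul]
        have : β ψ u = ∑ k, β (φ k) (d k u) := by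
          rw [hψ', map_sum, LinearMap.sum_apply]
          exact Finset.sum_congr rfl (fun k _ => hβ (φ k) (d k) (hd k) u)
        rw [this, ← Finset.sum_add_distrib]
        exact Finset.sum_congr rfl (fun k _ => (map_add _ _ _).symm)
    · refine ⟨n + 1, Fin.cons ψ φ, Fin.cons u w, ?_, ?_, ?_⟩
      · refine ⟨?_, ?_⟩
        · simpa using hI
        · simpa using hs
      · rw [map_add, h1, TensorProduct.lift.tmul, Fin.sum_univ_succ]
        simp
      · rw [map_add, h2, TensorProduct.lift.tmul, Fin.sum_univ_succ]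
        simp
  have hall : ∀ z y : M ⊗[C] B.V, P y → P (z + y) := by
    intro z
    induction z using TensorProduct.induction_on with
    | zero => intro y hy; rw [zero_add]; exact hy
    | tmul φ u => intro y hy; exact hstep φ u y hy
    | add a b ha hb => intro y hy; rw [add_assoc]; exact ha _ (hb _ hy)
  have h0 : P 0 := ⟨0, Fin.elim0, Fin.elim0, trivial, by simp, by simp⟩
  have hPx : P x := by
    have := hall x 0 h0
    rwa [add_zero] at this
  obtain ⟨n, φ, w, hI, h1, h2⟩ := hPx
  have hinj := T_inj hB n (fun k => (φ k).1) (fun k => hM _ (φ k).2) hI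
  have hw : w = 0 := by
    apply hinj
    rw [map_zero, T_apply, ← h1, hx]
  rw [h2, hw]
  simp

end Pool.Agent.IWE
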