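import Pool.Agent.IWE.Defs

/-! # IWE/Basic (MP_88b97d_al, helper45): elementary lemmas -/

namespace Pool.Agent.IWE

open scoped TensorProduct

variable {C : Type} [Field C] {G : Type} [Group G] {H : Type} [Group H]

namespace RR

theorem one_apply (A : RR C G) (v : A.V) : A.ρ 1 v = v := by rw [map_one]; rfl

theorem mul_apply (A : RR C G) (g h : G) (v : A.V) : A.ρ (g * h) v = A.ρ g (A.ρ h v) := by
  rw [map_mul]; rfl

theorem inv_apply (A : RR C G) (g : G) (v : A.V) : A.ρ g⁻¹ (A.ρ g v) = v := by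
  rw [← mul_apply, inv_mul_cancel, one_apply]

theorem apply_inv (A : RR C G) (g : G) (v : A.V) : A.ρ g (A.ρ g⁻¹ v) = v := by
  rw [← mul_apply, mul_inv_cancel, one_apply]

theorem mem_fix {A : RR C G} {K : Subgroup G} {v : A.V} : v ∈ A.fix K ↔ ∀ g ∈ K, A.ρ g v = v := Iff.rfl

theorem fix_anti (A : RR C G) {K K' : Subgroup G} (h : K ≤ K') : A.fix K' ≤ A.fix K :=
  fun _ hv g hg => hv g (h hg)

/-- the actions of `(g, 1)` and `(1, h)` commute -/
theorem comm₂ (E : RR C (G × H)) (g : G) (h : H) (v : E.V) :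
    E.ρ (g, 1) (E.ρ (1, h) v) = E.ρ (1, h) (E.ρ (g, 1) v) := by
  rw [← mul_apply, ← mul_apply]; simp

theorem split₂ (E : RR C (G × H)) (g : G) (h : H) (v : E.V) :
    E.ρ (g, h) v = E.ρ (g, 1) (E.ρ (1, h) v) := by
  rw [← mul_apply]; simp

end RR

theorem IsHom.comp {A B D : RR C G} {f : A.V →ₗ[C] B.V} {f' : B.V →ₗ[C] D.V} (hf : IsHom A B f)
    (hf' : IsHom B D f') : IsHom A D (f'.comp f) := fun g v => by
  rw [LinearMap.comp_apply, LinearMap.comp_apply, hf g v, hf' g _]

theorem isHom_id (A : RR C G) : IsHom A A LinearMap.id := fun _ _ => rfl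

theorem isHom_zero (A B : RR C G) : IsHom A B 0 := fun _ _ => by simp

/-- to be a homomorphism for `G × H` it is enough to be equivariant for `G × 1` and `1 × H` -/
theorem isHom₂ {A B : RR C (G × H)} {f : A.V →ₗ[C] B.V} (h₁ : ∀ g v, f (A.ρ (g, 1) v) = B.ρ (g, 1) (f v))
    (h₂ : ∀ h v, f (A.ρ (1, h) v) = B.ρ (1, h) (f v)) : IsHom A B f := by
  rintro ⟨g, h⟩ v
  rw [RR.split₂, h₁, h₂, ← RR.split₂]

/-- to be a homomorphism it is enough to be equivariant for `P` and `Q` if they generate `G` -/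
theorem isHom_of_sup {A B : RR C G} {f : A.V →ₗ[C] B.V} {P Q : Subgroup G} (hPQ : P ⊔ Q = ⊤)
    (h₁ : ∀ g ∈ P, ∀ v, f (A.ρ g v) = B.ρ g (f v)) (h₂ : ∀ g ∈ Q, ∀ v, f (A.ρ g v) = B.ρ g (f v)) :
    IsHom A B f := by
  intro g
  have hg : g ∈ P ⊔ Q := by rw [hPQ]; exact Subgroup.mem_top g
  rw [Subgroup.sup_eq_closure] at hg
  induction hg using Subgroup.closure_induction with
  | mem x hx =>
    rcases hx with hx | hx
    · exact h₁ x hx
    · exact h₂ x hx
  | one => intro v; rw [RR.one_apply, RR.one_apply]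
  | mul x y _ _ hx hy => intro v; rw [RR.mul_apply, hx, hy, RR.mul_apply]
  | inv x _ hx =>
    intro v
    have h1 := hx (A.ρ x⁻¹ v)
    rw [RR.apply_inv] at h1
    rw [h1, RR.inv_apply]

theorem ker_stable {A B : RR C G} {f : A.V →ₗ[C] B.V} (hf : IsHom A B f) : A.Stable (LinearMap.ker f) := by
  intro g w hw
  rw [LinearMap.mem_ker] at hw ⊢
  rw [hf g w, hw, map_zero]

theorem range_stable {A B : RR C G} {f : A.V →ₗ[C] B.V} (hf : IsHom A B f) :
    B.Stable (LinearMap.range f) := by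
  rintro g _ ⟨v, rfl⟩
  exact ⟨A.ρ g v, hf g v⟩

theorem sub_isHom (A : RR C G) (W : Submodule C A.V) (hW : A.Stable W) :
    IsHom (A.sub W hW) A W.subtype := fun _ _ => rfl

theorem SES.comp_zero {N E B : RR C G} {i : N.V →ₗ[C] E.V} {q : E.V →ₗ[C] B.V} (h : SES N E B i q) (n : N.V) :
    q (i n) = 0 := (h.ex _).2 ⟨n, rfl⟩

section top

variable [TopologicalSpace G] [TopologicalSpace H]

theorem smooth_of_inj {A B : RR C G} {f : A.V →ₗ[C] B.V} (hf : IsHom A B f) (hi : Function.Injective f)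
    (hB : B.Smooth) : A.Smooth := by
  intro v
  obtain ⟨U, hU, h⟩ := hB (f v)
  exact ⟨U, hU, fun g hg => hi (by rw [hf g v, h g hg])⟩

theorem smooth_of_surj {A B : RR C G} {f : A.V →ₗ[C] B.V} (hf : IsHom A B f) (hs : Function.Surjective f)
    (hA : A.Smooth) : B.Smooth := by
  intro w
  obtain ⟨v, rfl⟩ := hs w
  obtain ⟨U, hU, h⟩ := hA v
  exact ⟨U, hU, fun g hg => by rw [← hf g v, h g hg]⟩

omit [TopologicalSpace G] in
theorem fix_finite_of_inj {A B : RR C G} {f : A.V →ₗ[C] B.V} (hf : IsHom A B f) (hi : Function.Injective f)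
    {K : Subgroup G} (hB : Module.Finite C (B.fix K)) : Module.Finite C (A.fix K) := by
  let g : A.fix K →ₗ[C] B.fix K := f.restrict (p := A.fix K) (q := B.fix K)
    (fun v hv g hg => by rw [← hf g v, hv g hg])
  refine Module.Finite.of_injective g ?_
  intro a b hab
  apply Subtype.ext
  exact hi (congrArg Subtype.val hab)

theorem adm_of_inj {A B : RR C G} {f : A.V →ₗ[C] B.V} (hf : IsHom A B f) (hi : Function.Injective f)
    (hB : B.Adm) : A.Adm :=
  ⟨smooth_of_inj hf hi hB.1, fun K hK hK' => fix_finite_of_inj hf hi (hB.2 K hK hK')⟩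

theorem prod_smooth {A B : RR C G} (hA : A.Smooth) (hB : B.Smooth) : (A.prod B).Smooth := by
  rintro ⟨v, w⟩
  obtain ⟨U, hU, h⟩ := hA v
  obtain ⟨U', hU', h'⟩ := hB w
  refine ⟨U ⊓ U', by rw [Subgroup.coe_inf]; exact hU.inter hU', fun g hg => ?_⟩
  show (A.ρ g v, B.ρ g w) = (v, w)
  rw [h g hg.1, h' g hg.2]

theorem prod_adm {A B : RR C G} (hA : A.Adm) (hB : B.Adm) : (A.prod B).Adm := by
  refine ⟨prod_smooth hA.1 hB.1, fun K hK hK' => ?_⟩
  have h1 := hA.2 K hK hK'
  have h2 := hB.2 K hK hK'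
  let f : (A.prod B).fix K →ₗ[C] (A.fix K) × (B.fix K) :=
    { toFun := fun v => (⟨v.1.1, fun g hg => congrArg Prod.fst (v.2 g hg)⟩,
        ⟨v.1.2, fun g hg => congrArg Prod.snd (v.2 g hg)⟩)
      map_add' := fun a b => rfl
      map_smul' := fun c a => rfl }
  refine Module.Finite.of_injective f ?_
  intro a b hab
  apply Subtype.ext
  apply Prod.ext
  · exact congrArg (fun x => x.1.1) hab
  · exact congrArg (fun x => x.2.1) hab

theorem res_smooth {A : RR C G} (hA : A.Smooth) (J : Subgroup G) : (A.res J).Smooth := by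
  intro v
  obtain ⟨U, hU, h⟩ := hA v
  refine ⟨U.subgroupOf J, ?_, fun g hg => h g.1 hg⟩
  exact hU.preimage continuous_subtype_val

theorem fst_smooth {E : RR C (G × H)} (hE : E.Smooth) : E.fst.Smooth := by
  intro v
  obtain ⟨U, hU, h⟩ := hE v
  refine ⟨U.comap (MonoidHom.inl G H), ?_, fun g hg => h _ hg⟩
  exact hU.preimage (by fun_prop : Continuous (fun g : G => (g, (1 : H))))

theorem snd_smooth {E : RR C (G × H)} (hE : E.Smooth) : E.snd.Smooth := by
  intro v
  obtain ⟨U, hU, h⟩ := hE v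
  refine ⟨U.comap (MonoidHom.inr G H), ?_, fun g hg => h _ hg⟩
  exact hU.preimage (by fun_prop : Continuous (fun g : H => ((1 : G), g)))

/-- an open subgroup of a compact subgroup is compact -/
theorem isCompact_of_le [IsTopologicalGroup G] {K J : Subgroup G} (hK : IsOpen (K : Set G))
    (hJ : IsCompact (J : Set G)) (h : K ≤ J) : IsCompact (K : Set G) :=
  hJ.of_isClosed_subset (Subgroup.isClosed_of_isOpen K hK) h

theorem inf_open {K J : Subgroup G} (hK : IsOpen (K : Set G)) (hJ : IsOpen (J : Set G)) :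
    IsOpen ((K ⊓ J : Subgroup G) : Set G) := by
  rw [Subgroup.coe_inf]; exact hK.inter hJ

end top

/-- irreducible: a nonzero stable subspace is everything -/
theorem irr_eq_top {A : RR C G} (hA : A.Irr) {W : Submodule C A.V} (hW : A.Stable W) {w : A.V} (hw : w ∈ W)
    (hw0 : w ≠ 0) : W = ⊤ := by
  rcases hA.2 W hW with h | h
  · rw [h, Submodule.mem_bot] at hw
    exact absurd hw hw0
  · exact h

/-- homomorphisms out of an irreducible representation are zero or injective -/
theorem irr_inj_or_zero {A B : RR C G} (hA : A.Irr) {f : A.V →ₗ[C] B.V} (hf : IsHom A B f) :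
    f = 0 ∨ Function.Injective f := by
  rcases hA.2 _ (ker_stable hf) with h | h
  · right
    exact LinearMap.ker_eq_bot.1 h
  · left
    exact LinearMap.ker_eq_top.1 h

/-- two homomorphisms out of an irreducible representation which agree on a nonzero vector are equal -/
theorem irr_hom_ext {A B : RR C G} (hA : A.Irr) {f f' : A.V →ₗ[C] B.V} (hf : IsHom A B f)
    (hf' : IsHom A B f') {w : A.V} (hw : w ≠ 0) (h : f w = f' w) : f = f' := by
  have h1 : IsHom A B (f - f') := fun g v => by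
    rw [LinearMap.sub_apply, LinearMap.sub_apply, hf g v, hf' g v, map_sub]
  rcases irr_inj_or_zero hA h1 with h2 | h2
  · exact sub_eq_zero.1 h2
  · exfalso
    apply hw
    apply h2
    rw [LinearMap.sub_apply, h, sub_self, map_zero]

end Pool.Agent.IWE
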