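import Pool.Agent.IWE.Fix

/-! # IWE/IrrSub (MP_88b97d_al, helper45)

Among the stable subspaces `W ≠ 0` of `V` choose one with `finrank (W ⊓ V.fix U)` minimal; it is positive by `exists_fixed`.
`W'` = the intersection of all stable subspaces containing `W ⊓ V.fix U` (the span of the orbits): stable, nonzero, `≤ W`. If
`X ≤ W'` is stable and nonzero then `X ⊓ V.fix U ≤ W ⊓ V.fix U` has at least the minimal dimension, so they are equal
(`Submodule.eq_of_le_of_finrank_le`), so `W ⊓ V.fix U ≤ X` and `W' ≤ X`. So `V.sub W'` is irreducible.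
-/

namespace Pool.Agent.IWE

open scoped TensorProduct

variable {C : Type} [Field C] {G : Type} [Group G] [TopologicalSpace G] {H : Type} [Group H] [TopologicalSpace H]


theorem exists_irr_sub (p : ℕ) [Fact p.Prime] [CharP C p] {V : RR C G} (hs : V.Smooth)
    (hne : ∃ v : V.V, v ≠ 0) {U : Subgroup G} (hU : ProP p U) (hfin : Module.Finite C (V.fix U)) :
    ∃ (A : RR C G) (i : A.V →ₗ[C] V.V), A.Irr ∧ IsHom A V i ∧ Function.Injective i := by
  classical
  let P : ℕ → Prop := fun n => ∃ W : Submodule C V.V, V.Stable W ∧ W ≠ ⊥ ∧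
    Module.finrank C (W ⊓ V.fix U : Submodule C V.V) = n
  have hP : ∃ n, P n := by
    obtain ⟨v, hv⟩ := hne
    refine ⟨_, ⊤, fun _ _ _ => Submodule.mem_top, fun h => hv ?_, rfl⟩
    have : v ∈ (⊤ : Submodule C V.V) := Submodule.mem_top
    rw [h] at this
    exact (Submodule.mem_bot C).1 this
  obtain ⟨W, hWs, hW0, hWn⟩ := Nat.find_spec hP
  obtain ⟨w₀, hw₀, hw₀'⟩ := Submodule.exists_mem_ne_zero_of_ne_bot hW0
  obtain ⟨w, hw, hw0, hwU⟩ := exists_fixed p hs hU W (fun g _ => hWs g) hw₀ hw₀'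
  let W' : Submodule C V.V := sInf {X | V.Stable X ∧ W ⊓ V.fix U ≤ X}
  have hW's : V.Stable W' := by
    intro g x hx
    rw [Submodule.mem_sInf] at hx ⊢
    exact fun X hX => hX.1 g x (hx X hX)
  have hle : W ⊓ V.fix U ≤ W' := le_sInf fun X hX => hX.2
  have hW'W : W' ≤ W := sInf_le ⟨hWs, inf_le_left⟩
  have hwW' : w ∈ W' := hle ⟨hw, hwU⟩
  have key : ∀ X : Submodule C V.V, V.Stable X → X ≤ W' → X ≠ ⊥ → W' ≤ X := by
    intro X hXs hX hX0
    have h1 : X ⊓ V.fix U ≤ W ⊓ V.fix U := inf_le_inf_right _ (hX.trans hW'W)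
    have h2 : Module.finrank C (W ⊓ V.fix U : Submodule C V.V) ≤
        Module.finrank C (X ⊓ V.fix U : Submodule C V.V) := by
      rw [hWn]
      exact Nat.find_min' hP ⟨X, hXs, hX0, rfl⟩
    have h3 : Module.Finite C (W ⊓ V.fix U : Submodule C V.V) :=
      Submodule.finiteDimensional_of_le (S₂ := V.fix U) inf_le_right
    have h4 : X ⊓ V.fix U = W ⊓ V.fix U := Submodule.eq_of_le_of_finrank_le h1 h2
    refine sInf_le ⟨hXs, ?_⟩
    rw [← h4]
    exact inf_le_left
  refine ⟨V.sub W' hW's, W'.subtype, ⟨⟨⟨w, hwW'⟩, fun h => hw0 (congrArg Subtype.val h)⟩, ?_⟩,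
    sub_isHom V W' hW's, Subtype.val_injective⟩
  intro X hX
  by_cases hX0 : X = ⊥
  · exact Or.inl hX0
  · right
    have h1 : V.Stable (X.map W'.subtype) := by
      rintro g _ ⟨y, hy, rfl⟩
      exact ⟨_, hX g y hy, rfl⟩
    have h2 : X.map W'.subtype ≤ W' := by
      rintro _ ⟨y, hy, rfl⟩
      exact y.2
    have h3 : X.map W'.subtype ≠ ⊥ := by
      intro h
      apply hX0
      rw [eq_bot_iff]
      intro y hy
      have : W'.subtype y ∈ X.map W'.subtype := ⟨y, hy, rfl⟩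
      rw [h] at this
      exact (Submodule.mem_bot C).2 (Subtype.ext ((Submodule.mem_bot C).1 this))
    rw [eq_top_iff]
    intro y _
    obtain ⟨z, hz, hzy⟩ := key _ h1 h2 h3 y.2
    have : z = y := Subtype.ext hzy
    exact this ▸ hz

end Pool.Agent.IWE
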