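import Pool.Agent.IWE.FinExt
import Pool.Agent.IWE.IrrSub

/-! # IWE/Cliff (MP_88b97d_al, helper45)

Clifford theory for `Z ⊔ G₀ ≤ G` of finite index. `W = B.res G₀` is admissible (an open compact subgroup of the open subgroup
`G₀` is open and compact in `G`, same fixed vectors). `exists_irr_sub` (with `U`) gives an irreducible `X` and an injective
`i : X → W`. For `g : G` let `X^g = X.comap (conjugation by g⁻¹ on G₀, MulAut.conjNormal g⁻¹)`: irreducible (the automorphism is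
surjective, same stable subspaces) and `f_g v = B.ρ g (i v)` is an injective homomorphism `X^g → W`
(`B.ρ h (B.ρ g (i v)) = B.ρ g (B.ρ (g⁻¹ h g) (i v))`), so `X^g` is admissible (`adm_of_inj`).
Representatives `x_j`, `j : Fin n`, of `G ⧸ (Z ⊔ G₀)`; every element of `Z ⊔ G₀` is `z h` (`Subgroup.mem_sup_of_normal_right` or
`Subgroup.mul_normal`). `S = ⨆ j, range (f_{x_j})` contains all `B.ρ g (i v)`: `g = x_j z h`, `B.ρ g (i v) = χ(z) • f_{x_j} (X.ρ h v)`;
so it is stable under `G` and nonzero: `S = ⊤` as `B` is irreducible. `finLen_sum₂`.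
`res_finLen`: induction on `FinLen A`; `Z` acts by `χ` on subrepresentations and quotients; `finLen_ext` (the restriction of an
exact sequence is exact). The smoothness of `N` is not needed in `finLen_ext`.
-/

namespace Pool.Agent.IWE

open scoped TensorProduct

variable {C : Type} [Field C] {G : Type} [Group G] [TopologicalSpace G] [IsTopologicalGroup G]

private theorem res_adm (G₀ : Subgroup G) (oG : IsOpen (G₀ : Set G)) {B : RR C G}
    (hBa : B.Adm) : (B.res G₀).Adm := by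
  refine ⟨res_smooth hBa.1 G₀, fun K hK hK' => ?_⟩
  have h1 : IsOpen ((K.map G₀.subtype : Subgroup G) : Set G) := by
    rw [Subgroup.coe_map]
    exact oG.isOpenMap_subtype_val _ hK
  have h2 : IsCompact ((K.map G₀.subtype : Subgroup G) : Set G) := by
    rw [Subgroup.coe_map]
    exact hK'.image continuous_subtype_val
  have h3 := hBa.2 _ h1 h2
  have h4 : (B.res G₀).fix K = B.fix (K.map G₀.subtype) := by
    ext v
    constructor
    · rintro hv _ ⟨g, hg, rfl⟩
      exact hv g hg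
    · intro hv g hg
      exact hv g ⟨g, hg, rfl⟩
  rw [h4]
  exact h3

private theorem conj_hom {G₀ : Subgroup G} [G₀.Normal] {B : RR C G} {X : RR C G₀}
    {i : X.V →ₗ[C] B.V} (hi : IsHom X (B.res G₀) i) (g : G) :
    IsHom (X.comap (MulAut.conjNormal g⁻¹ : G₀ ≃* G₀).toMonoidHom) (B.res G₀)
      ((B.ρ g).comp i) := by
  intro h v
  show B.ρ g (i (X.ρ ((MulAut.conjNormal g⁻¹ : G₀ ≃* G₀) h) v)) = B.ρ (h : G) (B.ρ g (i v))
  rw [hi]
  show B.ρ g (B.ρ (((MulAut.conjNormal g⁻¹ : G₀ ≃* G₀) h : G₀) : G) (i v)) =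
    B.ρ (h : G) (B.ρ g (i v))
  rw [← RR.mul_apply, ← RR.mul_apply, MulAut.conjNormal_apply]
  congr 2
  group

private theorem conj_irr {G₀ : Subgroup G} [G₀.Normal] {X : RR C G₀} (hX : X.Irr) (g : G) :
    (X.comap (MulAut.conjNormal g⁻¹ : G₀ ≃* G₀).toMonoidHom).Irr := by
  refine ⟨hX.1, fun W hW => hX.2 W fun h w hw => ?_⟩
  have h1 := hW ((MulAut.conjNormal g⁻¹ : G₀ ≃* G₀).symm h) w hw
  have h2 : X.ρ ((MulAut.conjNormal g⁻¹ : G₀ ≃* G₀)
      ((MulAut.conjNormal g⁻¹ : G₀ ≃* G₀).symm h)) w ∈ W := h1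
  rwa [MulEquiv.apply_symm_apply] at h2

theorem res_finLen_irr (p : ℕ) [Fact p.Prime] [CharP C p] (G₀ Z : Subgroup G) [G₀.Normal]
    (oG : IsOpen (G₀ : Set G)) (hfin : (Z ⊔ G₀).FiniteIndex) (χ : Z →* Cˣ) {U : Subgroup G₀}
    (oU : IsOpen (U : Set G₀)) (cU : IsCompact (U : Set G₀)) (hU : ProP p U) {B : RR C G} (hB : B.Irr)
    (hBa : B.Adm) (hχ : ∀ (z : Z) (v : B.V), B.ρ z v = (χ z : C) • v) : FinLen (B.res G₀) := by
  have hWa := res_adm G₀ oG hBa
  obtain ⟨X, i, hX, hi, hinj⟩ := exists_irr_sub p hWa.1 hB.1 hU (hWa.2 U oU cU)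
  have hfQ : Finite (G ⧸ (Z ⊔ G₀)) := Subgroup.finite_quotient_of_finiteIndex
  obtain ⟨n, ⟨e⟩⟩ := Finite.exists_equiv_fin (G ⧸ (Z ⊔ G₀))
  let x : Fin n → G := fun j => (e.symm j).out
  have hginj : ∀ g : G, Function.Injective ((B.ρ g).comp i) := by
    intro g a b hab
    apply hinj
    have h1 : B.ρ g⁻¹ (B.ρ g (i a)) = B.ρ g⁻¹ (B.ρ g (i b)) := congrArg (B.ρ g⁻¹) hab
    rwa [RR.inv_apply, RR.inv_apply] at h1
  set S : Submodule C B.V := ⨆ j, LinearMap.range ((B.ρ (x j)).comp i) with hS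
  have hmem : ∀ (g : G) (v : X.V), B.ρ g (i v) ∈ S := by
    intro g v
    set j := e (QuotientGroup.mk g : G ⧸ (Z ⊔ G₀)) with hj
    have h1 : (x j)⁻¹ * g ∈ Z ⊔ G₀ := by
      rw [← QuotientGroup.eq]
      show ((e.symm j).out : G ⧸ (Z ⊔ G₀)) = _
      rw [QuotientGroup.out_eq', hj, Equiv.symm_apply_apply]
    obtain ⟨z, hz, h, hh, hzh⟩ := Subgroup.mem_sup_of_normal_right.1 h1
    have h2 : g = x j * (z * h) := by rw [hzh]; group
    have h3 : B.ρ g (i v) = (χ ⟨z, hz⟩ : C) • ((B.ρ (x j)).comp i) (X.ρ ⟨h, hh⟩ v) := by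
      rw [h2, RR.mul_apply, RR.mul_apply]
      have h4 : B.ρ h (i v) = i (X.ρ ⟨h, hh⟩ v) := (hi ⟨h, hh⟩ v).symm
      rw [h4, hχ ⟨z, hz⟩, map_smul]
      rfl
    rw [h3]
    apply Submodule.smul_mem
    exact (le_iSup (fun j => LinearMap.range ((B.ρ (x j)).comp i)) j) ⟨_, rfl⟩
  have hSs : B.Stable S := by
    intro g
    have h1 : S ≤ S.comap (B.ρ g) := by
      rw [hS]
      refine iSup_le fun j => ?_
      rintro _ ⟨v, rfl⟩
      rw [← hS]
      show B.ρ g (B.ρ (x j) (i v)) ∈ S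
      rw [← RR.mul_apply]
      exact hmem _ v
    exact fun w hw => h1 hw
  have hStop : S = ⊤ := by
    rcases hB.2 S hSs with h | h
    · exfalso
      obtain ⟨v, hv⟩ := hX.1
      apply hv
      apply hinj
      have h1 := hmem 1 v
      rw [h, Submodule.mem_bot, RR.one_apply] at h1
      rw [h1, map_zero]
    · exact h
  exact finLen_sum₂ n (fun k => X.comap (MulAut.conjNormal (x k)⁻¹ : G₀ ≃* G₀).toMonoidHom)
    (fun k => conj_irr hX (x k)) (fun k => adm_of_inj (conj_hom hi (x k)) (hginj (x k)) hWa)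
    (fun k => (B.ρ (x k)).comp i) (fun k => conj_hom hi (x k)) hStop

theorem res_finLen (p : ℕ) [Fact p.Prime] [CharP C p] (G₀ Z : Subgroup G) [G₀.Normal]
    (oG : IsOpen (G₀ : Set G)) (hfin : (Z ⊔ G₀).FiniteIndex) (χ : Z →* Cˣ) {U : Subgroup G₀}
    (oU : IsOpen (U : Set G₀)) (cU : IsCompact (U : Set G₀)) (hU : ProP p U) {A : RR C G}
    (hA : FinLen A) (hχ : ∀ (z : Z) (v : A.V), A.ρ z v = (χ z : C) • v) : FinLen (A.res G₀) := by
  induction hA with
  | zero A h => exact FinLen.zero _ h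
  | step N E B i q hses hN hBirr hBadm ih =>
    have hχN : ∀ (z : Z) (v : N.V), N.ρ z v = (χ z : C) • v := by
      intro z v
      apply hses.inj
      rw [hses.hi, hχ, map_smul]
    have hχB : ∀ (z : Z) (v : B.V), B.ρ z v = (χ z : C) • v := by
      intro z v
      obtain ⟨w, rfl⟩ := hses.surj v
      rw [← hses.hq, hχ, map_smul]
    have hB := res_finLen_irr p G₀ Z oG hfin χ oU cU hU hBirr hBadm hχB
    refine finLen_ext hB (N.res G₀) (E.res G₀) i q ?_ (ih hχN)
    exact ⟨fun g v => hses.hi g v, fun g v => hses.hq g v, hses.inj, hses.surj, hses.ex⟩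

end Pool.Agent.IWE
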