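import Mathlib

/-! # IWE/Defs (MP_88b97d_al, helper45): representations of locally profinite groups, definitions

Everything lives in `Type`. `C` is a field, `G` a group. A representation is bundled as `RR C G`.
-/

namespace Pool.Agent.IWE

open scoped TensorProduct

/-- A representation of `G` on a `C`-vector space. -/
structure RR (C : Type) [Field C] (G : Type) [Group G] where
  /-- the underlying vector space -/
  V : Type
  [ag : AddCommGroup V]
  [md : Module C V]
  /-- the action of `G` -/
  ρ : Representation C G V

attribute [instance] RR.ag RR.md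

variable {C : Type} [Field C] {G : Type} [Group G]

/-- `f` is `G`-equivariant. -/
def IsHom (A B : RR C G) (f : A.V →ₗ[C] B.V) : Prop :=
  ∀ (g : G) (v : A.V), f (A.ρ g v) = B.ρ g (f v)

/-- `0 → N → E → B → 0` is an exact sequence of representations. -/
structure SES (N E B : RR C G) (i : N.V →ₗ[C] E.V) (q : E.V →ₗ[C] B.V) : Prop where
  hi : IsHom N E i
  hq : IsHom E B q
  inj : Function.Injective i
  surj : Function.Surjective q
  ex : ∀ e : E.V, q e = 0 ↔ ∃ n, i n = e

namespace RR

/-- The subspace of the vectors fixed by `K`. -/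
def fix (A : RR C G) (K : Subgroup G) : Submodule C A.V where
  carrier := {v | ∀ g ∈ K, A.ρ g v = v}
  add_mem' := fun {a b} ha hb g hg => by rw [map_add, ha g hg, hb g hg]
  zero_mem' := fun g _ => map_zero _
  smul_mem' := fun c v hv g hg => by rw [map_smul, hv g hg]

/-- `W` is stable under `G`. -/
def Stable (A : RR C G) (W : Submodule C A.V) : Prop := ∀ (g : G), ∀ w ∈ W, A.ρ g w ∈ W

/-- `A` is irreducible: it is not zero, and `0` and `A` are its only subrepresentations. -/
def Irr (A : RR C G) : Prop :=
  (∃ v : A.V, v ≠ 0) ∧ ∀ W : Submodule C A.V, A.Stable W → W = ⊥ ∨ W = ⊤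

/-- The restriction of `A` to the subgroup `J`. -/
abbrev res (A : RR C G) (J : Subgroup G) : RR C J := ⟨A.V, A.ρ.comp J.subtype⟩

variable [TopologicalSpace G]

/-- `A` is smooth: every vector is fixed by an open subgroup. -/
def Smooth (A : RR C G) : Prop :=
  ∀ v : A.V, ∃ U : Subgroup G, IsOpen (U : Set G) ∧ ∀ g ∈ U, A.ρ g v = v

/-- `A` is admissible: it is smooth and `A^K` is finite dimensional for every compact open subgroup `K`. -/
def Adm (A : RR C G) : Prop :=
  A.Smooth ∧ ∀ K : Subgroup G, IsOpen (K : Set G) → IsCompact (K : Set G) → Module.Finite C (A.fix K)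

/-- `A` has the extension property of injective objects in the category of smooth representations of `G`. -/
def Inj (A : RR C G) : Prop :=
  ∀ X Y : RR C G, X.Smooth → Y.Smooth →
    ∀ i : X.V →ₗ[C] Y.V, IsHom X Y i → Function.Injective i →
    ∀ h : X.V →ₗ[C] A.V, IsHom X A h → ∃ k : Y.V →ₗ[C] A.V, IsHom Y A k ∧ ∀ x, k (i x) = h x

/-- The restriction of `A` to `J` is an injective object of the category of smooth representations of `J`. -/
def InjOn (A : RR C G) (J : Subgroup G) : Prop := (A.res J).Inj

end RR

variable [TopologicalSpace G]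

/-- `A` has finite length in the category of admissible representations: it is an iterated extension of
irreducible admissible representations. -/
inductive FinLen : RR C G → Prop
  | zero (A : RR C G) : (∀ v : A.V, v = 0) → FinLen A
  | step (N E B : RR C G) (i : N.V →ₗ[C] E.V) (q : E.V →ₗ[C] B.V) :
      SES N E B i q → FinLen N → B.Irr → B.Adm → FinLen E

omit [TopologicalSpace G] in
/-- `G` is the amalgamated product of its subgroups `P` and `Q` over `P ⊓ Q`. -/
def IsAmalgam (P Q : Subgroup G) : Prop :=
  P ⊔ Q = ⊤ ∧ ∀ (L : Type) [Group L] (f : P →* L) (g : Q →* L),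
    (∀ (x : G) (hP : x ∈ P) (hQ : x ∈ Q), f ⟨x, hP⟩ = g ⟨x, hQ⟩) →
    ∃ h : G →* L, (∀ x : P, h x = f x) ∧ (∀ x : Q, h x = g x)

/-- `U` is a pro-`p` group: its open normal subgroups of `p`-power index are arbitrarily small. -/
def ProP (p : ℕ) (U : Subgroup G) : Prop :=
  ∀ V : Subgroup G, IsOpen (V : Set G) → ∃ N : Subgroup G, N ≤ V ∧ N ≤ U ∧ IsOpen (N : Set G) ∧
    (∀ u ∈ U, ∀ n ∈ N, u * n * u⁻¹ ∈ N) ∧ ∃ k : ℕ, N.relIndex U = p ^ k

/-- `G` is the amalgamated product of the compact open subgroups `P` and `Q`, and `P ⊓ Q` has an open pro-`p`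
subgroup. -/
structure RankOne (p : ℕ) (P Q : Subgroup G) : Prop where
  oP : IsOpen (P : Set G)
  cP : IsCompact (P : Set G)
  oQ : IsOpen (Q : Set G)
  cQ : IsCompact (Q : Set G)
  am : IsAmalgam P Q
  pro : ∃ U : Subgroup G, U ≤ P ⊓ Q ∧ IsOpen (U : Set G) ∧ ProP p U

/-- A class `T` of admissible representations, injective on `J`, in which irreducible admissible representations
embed and extensions by irreducible admissible representations are killed. -/
structure Good (J : Subgroup G) (T : RR C G → Prop) : Prop where
  ne : ∃ A, T A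
  adm : ∀ A, T A → A.Adm
  inj : ∀ A, T A → A.InjOn J
  emb : ∀ A : RR C G, A.Irr → A.Adm →
    ∃ B, T B ∧ ∃ f : A.V →ₗ[C] B.V, IsHom A B f ∧ Function.Injective f
  eff : ∀ A, T A → ∀ (N E B : RR C G) (i : N.V →ₗ[C] E.V) (q : E.V →ₗ[C] B.V), SES N E B i q →
    E.Smooth → B.Irr → B.Adm → ∀ h : N.V →ₗ[C] A.V, IsHom N A h →
    ∃ A', T A' ∧ ∃ (j : A.V →ₗ[C] A'.V) (f : E.V →ₗ[C] A'.V),
      IsHom A A' j ∧ Function.Injective j ∧ IsHom E A' f ∧ ∀ n, f (i n) = j (h n)
  dir : ∀ A B, T A → T B → ∃ D, T D ∧ ∃ (a : A.V →ₗ[C] D.V) (b : B.V →ₗ[C] D.V),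
    IsHom A D a ∧ IsHom B D b ∧ ∀ x y, a x + b y = 0 → x = 0 ∧ y = 0

/-- what is propagated through products -/
def HasGood (p : ℕ) (C : Type) [Field C] (J : Subgroup G) : Prop :=
  IsOpen (J : Set G) ∧ IsCompact (J : Set G) ∧ (∃ U : Subgroup G, U ≤ J ∧ IsOpen (U : Set G) ∧ ProP p U) ∧
    ∃ T : RR C G → Prop, Good J T

/-! ### constructions -/

omit [TopologicalSpace G] in
/-- the product of two representations of `G` -/
abbrev RR.prod (A B : RR C G) : RR C G where
  V := A.V × B.V
  ρ :=
    { toFun := fun g => LinearMap.prodMap (A.ρ g) (B.ρ g)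
      map_one' := by ext <;> simp
      map_mul' := fun g h => by ext <;> simp }

omit [TopologicalSpace G] in
/-- the power `A ^ ι` -/
abbrev RR.pi (ι : Type) (A : RR C G) : RR C G where
  V := ι → A.V
  ρ :=
    { toFun := fun g => LinearMap.pi (fun k => (A.ρ g).comp (LinearMap.proj k))
      map_one' := by ext v k; simp
      map_mul' := fun g h => by ext v k; simp }

omit [TopologicalSpace G] in
/-- a stable subspace as a representation -/
abbrev RR.sub (A : RR C G) (W : Submodule C A.V) (hW : A.Stable W) : RR C G where
  V := W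
  ρ :=
    { toFun := fun g => (A.ρ g).restrict (hW g)
      map_one' := by ext v; simp
      map_mul' := fun g h => by ext v; simp }

variable {H : Type} [Group H]

omit [TopologicalSpace G] in
/-- the external tensor product, a representation of `G × H` -/
abbrev tens (A : RR C G) (B : RR C H) : RR C (G × H) where
  V := A.V ⊗[C] B.V
  ρ :=
    { toFun := fun g => TensorProduct.map (A.ρ g.1) (B.ρ g.2)
      map_one' := by ext x y; simp
      map_mul' := fun g h => by ext x y; simp }

omit [TopologicalSpace G] in
/-- restriction of a representation of `G × H` to the first factor -/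
abbrev RR.fst (E : RR C (G × H)) : RR C G := ⟨E.V, E.ρ.comp (MonoidHom.inl G H)⟩

omit [TopologicalSpace G] in
/-- restriction of a representation of `G × H` to the second factor -/
abbrev RR.snd (E : RR C (G × H)) : RR C H := ⟨E.V, E.ρ.comp (MonoidHom.inr G H)⟩

omit [TopologicalSpace G] in
/-- pullback of a representation along a homomorphism -/
abbrev RR.comap (A : RR C H) (f : G →* H) : RR C G := ⟨A.V, A.ρ.comp f⟩

omit [TopologicalSpace G] in
/-- the space of the equivariant maps -/
def homs (A B : RR C G) : Submodule C (A.V →ₗ[C] B.V) where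
  carrier := {f | IsHom A B f}
  add_mem' := fun {a b} ha hb g v => by
    rw [LinearMap.add_apply, LinearMap.add_apply, ha g v, hb g v, map_add]
  zero_mem' := fun g v => by simp
  smul_mem' := fun c f hf g v => by
    rw [LinearMap.smul_apply, LinearMap.smul_apply, hf g v, map_smul]

omit [TopologicalSpace G] in
/-- the space of the `H`-equivariant maps `B → E`, for a representation `E` of `G × H` -/
def homs₂ (B : RR C H) (E : RR C (G × H)) : Submodule C (B.V →ₗ[C] E.V) where
  carrier := {f | ∀ (h : H) (v : B.V), f (B.ρ h v) = E.ρ (1, h) (f v)}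
  add_mem' := fun {a b} ha hb g v => by
    rw [LinearMap.add_apply, LinearMap.add_apply, ha g v, hb g v, map_add]
  zero_mem' := fun g v => by simp
  smul_mem' := fun c f hf g v => by
    rw [LinearMap.smul_apply, LinearMap.smul_apply, hf g v, map_smul]

omit [TopologicalSpace G] in
/-- `Hom_H(B, E)` as a representation of `G`, for a representation `E` of `G × H` -/
abbrev homRep (B : RR C H) (E : RR C (G × H)) : RR C G where
  V := homs₂ B E
  ρ :=
    { toFun := fun g =>
        { toFun := fun φ => ⟨(E.ρ (g, 1)).comp φ.1, by
            intro h v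
            show E.ρ (g, 1) (φ.1 (B.ρ h v)) = E.ρ (1, h) (E.ρ (g, 1) (φ.1 v))
            rw [φ.2 h v, ← Module.End.mul_apply, ← Module.End.mul_apply, ← map_mul, ← map_mul]
            simp⟩
          map_add' := fun a b => by
            apply Subtype.ext
            show (E.ρ (g, 1)).comp (a.1 + b.1) = (E.ρ (g, 1)).comp a.1 + (E.ρ (g, 1)).comp b.1
            rw [LinearMap.comp_add]
          map_smul' := fun c a => by
            apply Subtype.ext
            show (E.ρ (g, 1)).comp (c • a.1) = c • (E.ρ (g, 1)).comp a.1
            rw [LinearMap.comp_smul] }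
      map_one' := by
        apply LinearMap.ext
        intro φ
        apply Subtype.ext
        apply LinearMap.ext
        intro v
        show E.ρ ((1 : G), (1 : H)) (φ.1 v) = φ.1 v
        have : ((1 : G), (1 : H)) = 1 := rfl
        rw [this, map_one]
        rfl
      map_mul' := fun g g' => by
        apply LinearMap.ext
        intro φ
        apply Subtype.ext
        apply LinearMap.ext
        intro v
        show E.ρ (g * g', (1 : H)) (φ.1 v) = E.ρ (g, 1) (E.ρ (g', 1) (φ.1 v))
        have : (g * g', (1 : H)) = (g, 1) * (g', 1) := by simp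
        rw [this, map_mul]
        rfl }

omit [TopologicalSpace G] in
/-- the vectors of `E` fixed by `K × 1`, as a representation of `H` -/
abbrev fixSnd (E : RR C (G × H)) (K : Subgroup G) : RR C H where
  V := E.fix (K.prod ⊥)
  ρ :=
    { toFun := fun h => (E.ρ (1, h)).restrict (by
        intro v hv g hg
        rw [Subgroup.mem_prod, Subgroup.mem_bot] at hg
        obtain ⟨g1, g2⟩ := g
        simp only at hg
        obtain ⟨hg1, rfl⟩ := hg
        have h1 : E.ρ (g1, 1) v = v := hv (g1, 1) (Subgroup.mem_prod.2 ⟨hg1, Subgroup.mem_bot.2 rfl⟩)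
        conv_rhs => rw [← h1]
        rw [← Module.End.mul_apply, ← Module.End.mul_apply, ← map_mul, ← map_mul]
        simp)
      map_one' := by
        apply LinearMap.ext
        intro φ
        apply Subtype.ext
        show E.ρ ((1 : G), (1 : H)) φ.1 = φ.1
        have : ((1 : G), (1 : H)) = 1 := rfl
        rw [this, map_one]
        rfl
      map_mul' := fun g g' => by
        apply LinearMap.ext
        intro φ
        apply Subtype.ext
        show E.ρ ((1 : G), g * g') φ.1 = E.ρ (1, g) (E.ρ (1, g') φ.1)
        have : ((1 : G), g * g') = (1, g) * (1, g') := by simp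
        rw [this, map_mul]
        rfl }

/-- the space of the uniformly locally constant functions `G → W` -/
def LCs (C : Type) [Field C] (G : Type) [Group G] [TopologicalSpace G] (W : Type) [AddCommGroup W] [Module C W] :
    Submodule C (G → W) where
  carrier := {f | ∃ U : Subgroup G, IsOpen (U : Set G) ∧ ∀ x, ∀ u ∈ U, f (x * u) = f x}
  add_mem' := fun {a b} ⟨U, hU, hU'⟩ ⟨U', hU₂, hU₂'⟩ => ⟨U ⊓ U', by
    rw [Subgroup.coe_inf]; exact hU.inter hU₂, fun x u hu => by
    rw [Pi.add_apply, Pi.add_apply, hU' x u hu.1, hU₂' x u hu.2]⟩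
  zero_mem' := ⟨⊤, isOpen_univ, fun x u _ => rfl⟩
  smul_mem' := fun c f ⟨U, hU, hU'⟩ => ⟨U, hU, fun x u hu => by
    rw [Pi.smul_apply, Pi.smul_apply, hU' x u hu]⟩

/-- the uniformly locally constant functions `G → W`, with the action of `G` by right translation -/
abbrev LCf (C : Type) [Field C] (G : Type) [Group G] [TopologicalSpace G] [IsTopologicalGroup G]
    (W : Type) [AddCommGroup W] [Module C W] : RR C G where
  V := LCs C G W
  ρ :=
    { toFun := fun g =>
        { toFun := fun f => ⟨fun x => f.1 (x * g), by
            obtain ⟨U, hU, hU'⟩ := f.2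
            refine ⟨U.comap (MulAut.conj g⁻¹).toMonoidHom, ?_, ?_⟩
            · rw [Subgroup.coe_comap]
              refine hU.preimage ?_
              show Continuous (fun x => g⁻¹ * x * g⁻¹⁻¹)
              fun_prop
            · intro x u hu
              rw [Subgroup.mem_comap] at hu
              have h1 : g⁻¹ * u * g ∈ U := by simpa [MulAut.conj_apply] using hu
              have h2 := hU' (x * g) _ h1
              show f.1 (x * u * g) = f.1 (x * g)
              rw [← h2]
              group⟩
          map_add' := fun a b => rfl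
          map_smul' := fun c a => rfl }
      map_one' := by
        apply LinearMap.ext
        intro f
        apply Subtype.ext
        funext x
        show f.1 (x * 1) = f.1 x
        rw [mul_one]
      map_mul' := fun g h => by
        apply LinearMap.ext
        intro f
        apply Subtype.ext
        funext x
        show f.1 (x * (g * h)) = f.1 (x * g * h)
        rw [mul_assoc] }

end Pool.Agent.IWE
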