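import Pool.Agent.IWE.Basic

/-! # IWE/EffF (MP_88b97d_al, helper45)

Killing extensions by representations of finite length, for finite families of classes.
`effL`: induction on `FinLen B`, generalizing everything. Zero: `q = 0`, so `i` is bijective; `A' = A`, `j = id`, `f = h ∘ i⁻¹`.
Step: `B` is an extension of an irreducible `B'` by `N_B` (`i_B`, `q_B`). Let `E₁ = E.sub (comap q (range i_B))`; `i` maps into
it, `q` induces a surjection `q₁ : E₁ → N_B` (`i_B` is injective), `SES N E₁ N_B`. The induction hypothesis gives `A₁, j₁, f₁`.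
`SES E₁ E B'` (inclusion, `q_B ∘ q`) and `hT.eff A₁` with `h = f₁` give `A₂, j₂, f₂`. Answer: `A₂, j₂ ∘ j₁, f₂`.
`effF`: induction on `m`: after the first `m` maps (`A₁, j₁, f k`) apply `effL` to `j₁ ∘ h m` and compose the `f k` with the
new embedding (`Fin.lastCases` / `Fin.snoc`, or `Fin.cons`).
-/

namespace Pool.Agent.IWE

open scoped TensorProduct

variable {C : Type} [Field C] {G : Type} [Group G] [TopologicalSpace G] {H : Type} [Group H] [TopologicalSpace H]


theorem Good.effL {J : Subgroup G} {T : RR C G → Prop} (hT : Good J T) {B : RR C G} (hB : FinLen B) :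
    ∀ (A N E : RR C G) (i : N.V →ₗ[C] E.V) (q : E.V →ₗ[C] B.V), T A → SES N E B i q → E.Smooth →
    ∀ h : N.V →ₗ[C] A.V, IsHom N A h →
    ∃ A', T A' ∧ ∃ (j : A.V →ₗ[C] A'.V) (f : E.V →ₗ[C] A'.V),
      IsHom A A' j ∧ Function.Injective j ∧ IsHom E A' f ∧ ∀ n, f (i n) = j (h n) := by
  induction hB with
  | zero B hz =>
    intro A N E i q hA hs hE h hh
    have hsurj : Function.Surjective i := fun e => (hs.ex e).1 (hz _)
    let e := LinearEquiv.ofBijective i ⟨hs.inj, hsurj⟩
    have he : ∀ n, e.symm (i n) = n := fun n => e.symm_apply_apply n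
    refine ⟨A, hA, LinearMap.id, h.comp e.symm.toLinearMap, isHom_id A, fun _ _ h => h, ?_, ?_⟩
    · intro g x
      obtain ⟨n, rfl⟩ := hsurj x
      show h (e.symm (E.ρ g (i n))) = A.ρ g (h (e.symm (i n)))
      rw [← hs.hi g n, he, he, hh g n]
    · intro n
      show h (e.symm (i n)) = h n
      rw [he]
  | step NB EB BB iB qB hses hN hirr hadm ih =>
    intro A N E i q hA hs hE h hh
    let W : Submodule C E.V := (LinearMap.range iB).comap q
    have hW : E.Stable W := by
      intro g w hw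
      show q (E.ρ g w) ∈ LinearMap.range iB
      rw [hs.hq g w]
      exact range_stable hses.hi g _ hw
    let E₁ : RR C G := E.sub W hW
    have hiW : ∀ n, i n ∈ W := fun n => by
      show q (i n) ∈ LinearMap.range iB
      rw [hs.comp_zero n]
      exact Submodule.zero_mem _
    let i₁ : N.V →ₗ[C] E₁.V := i.codRestrict W hiW
    let eB := LinearEquiv.ofInjective iB hses.inj
    let q₁ : E₁.V →ₗ[C] NB.V :=
      eB.symm.toLinearMap.comp ((q.comp W.subtype).codRestrict (LinearMap.range iB) (fun w => w.2))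
    have hq₁ : ∀ w : W, iB (q₁ w) = q w.1 := by
      intro w
      have h1 := eB.apply_symm_apply ⟨q w.1, w.2⟩
      exact congrArg Subtype.val h1
    have hses1 : SES N E₁ NB i₁ q₁ := by
      refine ⟨?_, ?_, ?_, ?_, ?_⟩
      · intro g n
        apply Subtype.ext
        exact hs.hi g n
      · intro g w
        apply hses.inj
        rw [hq₁, hses.hi g, hq₁]
        exact hs.hq g w.1
      · intro a b hab
        exact hs.inj (congrArg Subtype.val hab)
      · intro nb
        obtain ⟨e, he⟩ := hs.surj (iB nb)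
        refine ⟨⟨e, ⟨nb, he.symm⟩⟩, ?_⟩
        apply hses.inj
        rw [hq₁]
        exact he
      · intro w
        constructor
        · intro hw
          have h1 : q w.1 = 0 := by rw [← hq₁, hw, map_zero]
          obtain ⟨n, hn⟩ := (hs.ex w.1).1 h1
          exact ⟨n, Subtype.ext hn⟩
        · rintro ⟨n, rfl⟩
          apply hses.inj
          rw [hq₁, map_zero]
          exact hs.comp_zero n
    have hE₁ : E₁.Smooth := smooth_of_inj (sub_isHom E W hW) Subtype.val_injective hE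
    obtain ⟨A₁, hA₁, j₁, f₁, hj₁, hj₁i, hf₁, hfj₁⟩ := ih A N E₁ i₁ q₁ hA hses1 hE₁ h hh
    have hses2 : SES E₁ E BB W.subtype (qB.comp q) := by
      refine ⟨sub_isHom E W hW, hs.hq.comp hses.hq, Subtype.val_injective,
        hses.surj.comp hs.surj, ?_⟩
      intro e
      constructor
      · intro he
        obtain ⟨nb, hnb⟩ := (hses.ex (q e)).1 he
        exact ⟨⟨e, ⟨nb, hnb⟩⟩, rfl⟩
      · rintro ⟨w, rfl⟩
        obtain ⟨nb, hnb⟩ := w.2
        exact (hses.ex (q w.1)).2 ⟨nb, hnb⟩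
    obtain ⟨A₂, hA₂, j₂, f₂, hj₂, hj₂i, hf₂, hfj₂⟩ :=
      hT.eff A₁ hA₁ E₁ E BB W.subtype (qB.comp q) hses2 hE hirr hadm f₁ hf₁
    refine ⟨A₂, hA₂, j₂.comp j₁, f₂, hj₁.comp hj₂, hj₂i.comp hj₁i, hf₂, ?_⟩
    intro n
    have h1 := hfj₂ (i₁ n)
    rw [hfj₁] at h1
    exact h1

theorem Good.effF {J : Subgroup G} {T : RR C G → Prop} (hT : Good J T) {B : RR C G} (hB : FinLen B)
    {A N E : RR C G} {i : N.V →ₗ[C] E.V} {q : E.V →ₗ[C] B.V} (hA : T A) (hs : SES N E B i q)
    (hE : E.Smooth) (m : ℕ) (h : Fin m → (N.V →ₗ[C] A.V)) (hh : ∀ k, IsHom N A (h k)) :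
    ∃ A', T A' ∧ ∃ (j : A.V →ₗ[C] A'.V) (f : Fin m → (E.V →ₗ[C] A'.V)),
      IsHom A A' j ∧ Function.Injective j ∧ (∀ k, IsHom E A' (f k)) ∧ ∀ k n, f k (i n) = j (h k n) := by
  induction m with
  | zero =>
    exact ⟨A, hA, LinearMap.id, fun _ => 0, isHom_id A, fun _ _ h => h, fun k => k.elim0,
      fun k => k.elim0⟩
  | succ m ih =>
    obtain ⟨A₁, hA₁, j₁, f₁, hj₁, hj₁i, hf₁, hfj₁⟩ :=
      ih (fun k => h k.castSucc) (fun k => hh k.castSucc)
    obtain ⟨A₂, hA₂, j₂, f₂, hj₂, hj₂i, hf₂, hfj₂⟩ :=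
      hT.effL hB A₁ N E i q hA₁ hs hE (j₁.comp (h (Fin.last m))) ((hh (Fin.last m)).comp hj₁)
    refine ⟨A₂, hA₂, j₂.comp j₁,
      fun k => Fin.lastCases (motive := fun _ => E.V →ₗ[C] A₂.V) f₂ (fun k' => j₂.comp (f₁ k')) k,
      hj₁.comp hj₂, hj₂i.comp hj₁i, ?_, ?_⟩
    · intro k
      refine Fin.lastCases ?_ (fun k' => ?_) k
      · beta_reduce
        rw [Fin.lastCases_last]
        exact hf₂
      · beta_reduce
        rw [Fin.lastCases_castSucc]
        exact (hf₁ k').comp hj₂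
    · intro k
      refine Fin.lastCases ?_ (fun k' => ?_) k
      · intro n
        beta_reduce
        rw [Fin.lastCases_last]
        exact hfj₂ n
      · intro n
        beta_reduce
        rw [Fin.lastCases_castSucc]
        show j₂ (f₁ k' (i n)) = j₂ (j₁ (h k'.castSucc n))
        rw [hfj₁]

end Pool.Agent.IWE
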