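import Pool.Agent.IWE.HomRep

/-! # IWE/HomTens (MP_88b97d_al, helper45; proof by helper22)

`Hom_H (B, A ⊗ A₂) = A ⊗ Hom_H (B, A₂)` for an irreducible `B`.
-/

namespace Pool.Agent.IWE

open scoped TensorProduct

variable {C : Type} [Field C] {G : Type} [Group G] {H : Type} [Group H]

namespace HomTens

/-- contraction with a linear form on the first factor -/
def con {V W : Type} [AddCommGroup V] [Module C V] [AddCommGroup W] [Module C W] (l : V →ₗ[C] C) :
    V ⊗[C] W →ₗ[C] W :=
  (TensorProduct.lid C W).toLinearMap.comp (l.rTensor W)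

theorem con_tmul {V W : Type} [AddCommGroup V] [Module C V] [AddCommGroup W] [Module C W] (l : V →ₗ[C] C)
    (v : V) (w : W) : con l (v ⊗ₜ[C] w) = l v • w := by
  simp [con]

theorem con_map {V W : Type} [AddCommGroup V] [Module C V] [AddCommGroup W] [Module C W] (l : V →ₗ[C] C)
    (f : W →ₗ[C] W) (x : V ⊗[C] W) :
    con l (TensorProduct.map LinearMap.id f x) = f (con l x) := by
  induction x using TensorProduct.induction_on with
  | zero => simp
  | tmul v w => rw [TensorProduct.map_tmul, con_tmul, con_tmul, map_smul]; rfl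
  | add a b ha hb => rw [map_add, map_add, ha, hb, map_add, map_add]

theorem con_coord {V W : Type} [AddCommGroup V] [Module C V] [AddCommGroup W] [Module C W] {ι : Type} [DecidableEq ι]
    (e : Module.Basis ι C V) (i : ι) (x : V ⊗[C] W) :
    con (e.coord i) x = TensorProduct.equivFinsuppOfBasisLeft e x i :=
  (TensorProduct.equivFinsuppOfBasisLeft_apply e x i).symm

end HomTens

open HomTens in
theorem hom_tens {B A₂ : RR C H} (A : RR C G) (hB : B.Irr) (hfin : Module.Finite C (homs B A₂)) :
    ∃ (r : ℕ) (ψ : Fin r → (B.V →ₗ[C] A₂.V)) (c : Fin r → ((homRep B (tens A A₂)).V →ₗ[C] A.V)),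
      (∀ k, IsHom B A₂ (ψ k)) ∧ (∀ k, IsHom (homRep B (tens A A₂)) A (c k)) ∧
      ∀ (n : (homRep B (tens A A₂)).V) (w : B.V), n.1 w = ∑ k, (c k n) ⊗ₜ[C] (ψ k w) := by
  classical
  let r := Module.finrank C (homs B A₂)
  let bψ : Module.Basis (Fin r) C (homs B A₂) := Module.finBasis C (homs B A₂)
  let ψ : Fin r → (B.V →ₗ[C] A₂.V) := fun k => (bψ k).1
  have hψ : ∀ k, IsHom B A₂ (ψ k) := fun k => (bψ k).2
  let Φ : (Fin r → A.V) →ₗ[C] (homRep B (tens A A₂)).V :=
    { toFun := fun a => ⟨∑ k, (TensorProduct.mk C A.V A₂.V (a k)).comp (ψ k), by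
        intro h v
        rw [LinearMap.sum_apply, LinearMap.sum_apply, map_sum]
        refine Finset.sum_congr rfl (fun k _ => ?_)
        show (a k) ⊗ₜ[C] (ψ k (B.ρ h v)) = TensorProduct.map (A.ρ 1) (A₂.ρ h) ((a k) ⊗ₜ[C] (ψ k v))
        rw [TensorProduct.map_tmul, hψ k h v, RR.one_apply]⟩
      map_add' := fun a b => by
        apply Subtype.ext
        apply LinearMap.ext
        intro v
        show (∑ k, (TensorProduct.mk C A.V A₂.V (a k + b k)).comp (ψ k)) v =
          (∑ k, (TensorProduct.mk C A.V A₂.V (a k)).comp (ψ k)) v +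
          (∑ k, (TensorProduct.mk C A.V A₂.V (b k)).comp (ψ k)) v
        rw [LinearMap.sum_apply, LinearMap.sum_apply, LinearMap.sum_apply, ← Finset.sum_add_distrib]
        refine Finset.sum_congr rfl (fun k _ => ?_)
        exact TensorProduct.add_tmul _ _ _
      map_smul' := fun t a => by
        apply Subtype.ext
        apply LinearMap.ext
        intro v
        show (∑ k, (TensorProduct.mk C A.V A₂.V (t • a k)).comp (ψ k)) v =
          t • ((∑ k, (TensorProduct.mk C A.V A₂.V (a k)).comp (ψ k)) v)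
        rw [LinearMap.sum_apply, LinearMap.sum_apply, Finset.smul_sum]
        refine Finset.sum_congr rfl (fun k _ => ?_)
        exact (TensorProduct.smul_tmul' _ _ _).symm }
  have hΦ : ∀ (a : Fin r → A.V) (w : B.V), (Φ a).1 w = ∑ k, (a k) ⊗ₜ[C] (ψ k w) := by
    intro a w
    show (∑ k, (TensorProduct.mk C A.V A₂.V (a k)).comp (ψ k)) w = _
    rw [LinearMap.sum_apply]
    rfl
  -- injectivity
  have hinj : Function.Injective Φ := by
    rw [← LinearMap.ker_eq_bot, LinearMap.ker_eq_bot']
    intro a ha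
    funext k
    show a k = 0
    rw [← Module.forall_dual_apply_eq_zero_iff C (a k)]
    intro l
    have h1 : ∑ j, l (a j) • bψ j = 0 := by
      apply Subtype.ext
      apply LinearMap.ext
      intro w
      have h2 : con l ((Φ a).1 w) = 0 := by
        rw [ha]
        show con l ((0 : B.V →ₗ[C] A.V ⊗[C] A₂.V) w) = 0
        rw [LinearMap.zero_apply, map_zero]
      rw [hΦ, map_sum] at h2
      simp only [con_tmul] at h2
      rw [AddSubmonoidClass.coe_finsetSum, LinearMap.sum_apply]
      exact h2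
    exact (Fintype.linearIndependent_iff.1 bψ.linearIndependent) (fun j => l (a j)) h1 k
  -- surjectivity
  obtain ⟨w₀, hw₀⟩ := hB.1
  let e := Module.Basis.ofVectorSpace C A.V
  have hsurj : Function.Surjective Φ := by
    intro n
    -- coordinates
    let ν : _ → (B.V →ₗ[C] A₂.V) := fun i => (con (e.coord i)).comp n.1
    have hν : ∀ i, IsHom B A₂ (ν i) := by
      intro i h v
      show con (e.coord i) (n.1 (B.ρ h v)) = A₂.ρ h (con (e.coord i) (n.1 v))
      rw [n.2 h v]
      show con (e.coord i) (TensorProduct.map (A.ρ 1) (A₂.ρ h) (n.1 v)) = _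
      have h1 : A.ρ 1 = LinearMap.id := by rw [map_one]; rfl
      rw [h1, con_map]
    let s := (TensorProduct.equivFinsuppOfBasisLeft e (n.1 w₀)).support
    have hs : ∀ i, i ∉ s → ν i = 0 := by
      intro i hi
      refine irr_hom_ext hB (hν i) (isHom_zero _ _) hw₀ ?_
      show con (e.coord i) (n.1 w₀) = 0
      rw [con_coord]
      exact Finsupp.notMem_support_iff.1 hi
    have hn : ∀ w, n.1 w = ∑ i ∈ s, e i ⊗ₜ[C] ν i w := by
      intro w
      have h1 := (TensorProduct.equivFinsuppOfBasisLeft_symm_apply e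
        (TensorProduct.equivFinsuppOfBasisLeft e (n.1 w)))
      rw [LinearEquiv.symm_apply_apply] at h1
      rw [h1, Finsupp.sum]
      rw [← Finset.sum_subset (s₁ := (TensorProduct.equivFinsuppOfBasisLeft e (n.1 w)).support) (s₂ := s)]
      · refine Finset.sum_congr rfl (fun i _ => ?_)
        rw [← con_coord]
        rfl
      · intro i hi
        by_contra hc
        have h2 := hs i hc
        rw [Finsupp.mem_support_iff, ← con_coord] at hi
        apply hi
        show (ν i) w = 0
        rw [h2, LinearMap.zero_apply]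
      · intro i _ hi
        have : ν i w = 0 := by
          show con (e.coord i) (n.1 w) = 0
          rw [con_coord]
          exact Finsupp.notMem_support_iff.1 hi
        rw [this, TensorProduct.tmul_zero]
    refine ⟨fun k => ∑ i ∈ s, (bψ.repr ⟨ν i, hν i⟩ k) • e i, ?_⟩
    apply Subtype.ext
    apply LinearMap.ext
    intro w
    rw [hΦ, hn]
    simp only [TensorProduct.sum_tmul]
    rw [Finset.sum_comm]
    refine Finset.sum_congr rfl (fun i _ => ?_)
    have h1 : ν i w = ∑ k, (bψ.repr ⟨ν i, hν i⟩ k) • ψ k w := by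
      have h2 := bψ.sum_repr ⟨ν i, hν i⟩
      have h3 := congrArg (fun f : homs B A₂ => f.1 w) h2
      simp only at h3
      rw [AddSubmonoidClass.coe_finsetSum, LinearMap.sum_apply] at h3
      exact h3.symm
    rw [h1, TensorProduct.tmul_sum]
    refine Finset.sum_congr rfl (fun k _ => ?_)
    exact TensorProduct.smul_tmul _ _ _
  let Ψ := LinearEquiv.ofBijective Φ ⟨hinj, hsurj⟩
  refine ⟨r, ψ, fun k => (LinearMap.proj k).comp Ψ.symm.toLinearMap, hψ, ?_, ?_⟩
  · intro k g n
    have h1 : Ψ.symm ((homRep B (tens A A₂)).ρ g n) = fun k => A.ρ g (Ψ.symm n k) := by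
      rw [LinearEquiv.symm_apply_eq]
      show _ = Φ _
      apply Subtype.ext
      apply LinearMap.ext
      intro w
      rw [hΦ]
      have h2 : n = Φ (Ψ.symm n) := (LinearEquiv.apply_symm_apply Ψ n).symm
      have h3 : n.1 w = ∑ k, (Ψ.symm n k) ⊗ₜ[C] (ψ k w) := by
        conv_lhs => rw [h2]
        rw [hΦ]
      show TensorProduct.map (A.ρ g) (A₂.ρ 1) (n.1 w) = _
      rw [h3, map_sum]
      refine Finset.sum_congr rfl (fun k _ => ?_)
      rw [TensorProduct.map_tmul, RR.one_apply]
    show Ψ.symm ((homRep B (tens A A₂)).ρ g n) k = A.ρ g (Ψ.symm n k)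
    rw [h1]
  · intro n w
    have h2 : n = Φ (Ψ.symm n) := (LinearEquiv.apply_symm_apply Ψ n).symm
    conv_lhs => rw [h2]
    rw [hΦ]
    rfl

end Pool.Agent.IWE
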