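import Pool.Agent.IWE.EffF
import Pool.Agent.IWE.HomTens

/-! # IWE/EffW3 (MP_88b97d_al, helper45)

`X` = the representation of `G` on the pairs `(φ, m) ∈ (homRep B E).V × M.V` with `q ∘ φ = (w ↦ m ⊗ w)` (a stable subspace of
`(homRep B E).prod M`, smooth: `homRep_smooth`, `prod_smooth`, `smooth_of_inj`). `q_X : X → M`, `(φ, m) ↦ m`, is surjective: its range is
stable and contains `M.fix K` (`hl`). `N_X = homRep B (tens A₁ A₂) → X`, `n ↦ (i ∘ n, 0)`, is injective with range `ker q_X` (if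
`q ∘ φ = 0` then `φ = i ∘ n`, `n` linear and equivariant because `i` is injective). `SES N_X X M`.
`hom_tens` (finite by `homs_finite`) gives `ψ_k`, `c_k : N_X → A₁`; `hT.effF` gives `A₁', j₁, f_k : X → A₁'` with
`f_k (i ∘ n, 0) = j₁ (c_k n)`.
Let `Ψ : (X ⊗ B) × (A₁ ⊗ A₂) → E`, `((φ, m) ⊗ w, a) ↦ φ w + i a`, and `Φ : (X ⊗ B) × (A₁ ⊗ A₂) → A₁' ⊗ A₂`,
`(x ⊗ w, a) ↦ ∑ f_k x ⊗ ψ_k w + (j₁ ⊗ 1) a`. `Ψ` is surjective (`q (Ψ (x ⊗ w, 0)) = q_X x ⊗ w`, `q_X` surjective, `ker q = range i`).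
`ker Ψ ≤ ker Φ`: if `Ψ (t, a) = 0` then `(q_X ⊗ 1) t = 0` in `M ⊗ B`, so (exactness of `⊗`) `t = ∑ (i ∘ n_l, 0) ⊗ w_l`,
`i (∑ n_l w_l + a) = 0`, `∑ n_l w_l = - a`, and `Φ (t, a) = ∑_l ∑_k j₁ (c_k n_l) ⊗ ψ_k w_l + (j₁ ⊗ 1) a = (j₁ ⊗ 1)(∑ n_l w_l + a) = 0`.
So `f` with `f ∘ Ψ = Φ` exists; it is equivariant (`Ψ` surjective; `Ψ`, `Φ` equivariant), `f ∘ i = j₁ ⊗ 1`.
-/

namespace Pool.Agent.IWE

open scoped TensorProduct

section aux

variable {C : Type} [Field C] {G : Type} [Group G] {H : Type} [Group H]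

/-- the subspace of the pairs `(φ, m)` with `q ∘ φ = (w ↦ m ⊗ w)` -/
private def w3W {M : RR C G} {B : RR C H} {E : RR C (G × H)} (q : E.V →ₗ[C] (tens M B).V) :
    Submodule C ((homRep B E).prod M).V where
  carrier := {x | ∀ w : B.V, q (x.1.1 w) = x.2 ⊗ₜ[C] w}
  add_mem' := fun {a b} ha hb w => by
    show q ((a.1.1 + b.1.1) w) = (a.2 + b.2) ⊗ₜ[C] w
    rw [LinearMap.add_apply, map_add, ha w, hb w, TensorProduct.add_tmul]
  zero_mem' := fun w => by
    show q ((0 : B.V →ₗ[C] E.V) w) = (0 : M.V) ⊗ₜ[C] w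
    rw [LinearMap.zero_apply, map_zero, TensorProduct.zero_tmul]
  smul_mem' := fun c x hx w => by
    show q ((c • x.1.1) w) = (c • x.2) ⊗ₜ[C] w
    rw [LinearMap.smul_apply, map_smul, hx w, TensorProduct.smul_tmul']

private theorem w3W_stable {M : RR C G} {B : RR C H} {E : RR C (G × H)} {q : E.V →ₗ[C] (tens M B).V}
    (hq : IsHom E (tens M B) q) : ((homRep B E).prod M).Stable (w3W q) := by
  intro g x hx w
  show q (E.ρ (g, 1) (x.1.1 w)) = (M.ρ g x.2) ⊗ₜ[C] w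
  rw [hq (g, 1) (x.1.1 w), hx w]
  show TensorProduct.map (M.ρ g) (B.ρ 1) (x.2 ⊗ₜ[C] w) = _
  rw [TensorProduct.map_tmul, RR.one_apply]

/-- the representation `X` -/
private abbrev w3X {M : RR C G} {B : RR C H} {E : RR C (G × H)} {q : E.V →ₗ[C] (tens M B).V}
    (hq : IsHom E (tens M B) q) : RR C G :=
  ((homRep B E).prod M).sub (w3W q) (w3W_stable hq)

/-- `q_X` -/
private def w3q {M : RR C G} {B : RR C H} {E : RR C (G × H)} {q : E.V →ₗ[C] (tens M B).V}
    (hq : IsHom E (tens M B) q) : (w3X hq).V →ₗ[C] M.V where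
  toFun := fun x => x.1.2
  map_add' := fun _ _ => rfl
  map_smul' := fun _ _ => rfl

/-- the evaluation `X → Hom(B, E)` -/
private def w3ev {M : RR C G} {B : RR C H} {E : RR C (G × H)} {q : E.V →ₗ[C] (tens M B).V}
    (hq : IsHom E (tens M B) q) : (w3X hq).V →ₗ[C] (B.V →ₗ[C] E.V) where
  toFun := fun x => x.1.1.1
  map_add' := fun _ _ => rfl
  map_smul' := fun _ _ => rfl

/-- `N_X → X` -/
private def w3i {N : RR C (G × H)} {M : RR C G} {B : RR C H} {E : RR C (G × H)} {i : N.V →ₗ[C] E.V}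
    {q : E.V →ₗ[C] (tens M B).V} (hs : SES N E (tens M B) i q) :
    (homRep B N).V →ₗ[C] (w3X hs.hq).V where
  toFun := fun n => ⟨(⟨i.comp n.1, fun h v => by
      show i (n.1 (B.ρ h v)) = E.ρ (1, h) (i (n.1 v))
      rw [n.2 h v, hs.hi]⟩, 0), fun w => by
      show q (i (n.1 w)) = (0 : M.V) ⊗ₜ[C] w
      rw [hs.comp_zero, TensorProduct.zero_tmul]⟩
  map_add' := fun a b => by
    apply Subtype.ext
    apply Prod.ext
    · apply Subtype.ext
      show i.comp (a.1 + b.1) = i.comp a.1 + i.comp b.1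
      rw [LinearMap.comp_add]
    · show (0 : M.V) = 0 + 0
      rw [add_zero]
  map_smul' := fun c a => by
    apply Subtype.ext
    apply Prod.ext
    · apply Subtype.ext
      show i.comp (c • a.1) = c • i.comp a.1
      rw [LinearMap.comp_smul]
    · show (0 : M.V) = c • (0 : M.V)
      rw [smul_zero]

private theorem w3ses {N : RR C (G × H)} {M : RR C G} {B : RR C H} {E : RR C (G × H)} {i : N.V →ₗ[C] E.V}
    {q : E.V →ₗ[C] (tens M B).V} (hs : SES N E (tens M B) i q) {K : Subgroup G}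
    (hK : ∀ W : Submodule C M.V, M.Stable W → M.fix K ≤ W → W = ⊤)
    (hl : ∀ m ∈ M.fix K, ∃ σ ∈ homs₂ B E, ∀ w : B.V, q (σ w) = m ⊗ₜ[C] w) :
    SES (homRep B N) (w3X hs.hq) M (w3i hs) (w3q hs.hq) := by
  have hq' : IsHom (w3X hs.hq) M (w3q hs.hq) := fun g v => rfl
  refine ⟨?_, hq', ?_, ?_, ?_⟩
  · intro g n
    apply Subtype.ext
    apply Prod.ext
    · apply Subtype.ext
      apply LinearMap.ext
      intro v
      show i (N.ρ (g, 1) (n.1 v)) = E.ρ (g, 1) (i (n.1 v))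
      rw [hs.hi]
    · show (0 : M.V) = M.ρ g (0 : M.V)
      rw [map_zero]
  · intro a b hab
    apply Subtype.ext
    apply LinearMap.ext
    intro v
    apply hs.inj
    have h1 : (w3ev hs.hq (w3i hs a)) v = (w3ev hs.hq (w3i hs b)) v := by rw [hab]
    exact h1
  · rw [← LinearMap.range_eq_top]
    apply hK _ (range_stable hq')
    intro m hm
    obtain ⟨σ, hσ, hσ'⟩ := hl m hm
    exact ⟨⟨(⟨σ, hσ⟩, m), hσ'⟩, rfl⟩
  · intro x
    constructor
    · intro hx
      have h0 : ∀ w : B.V, q (x.1.1.1 w) = 0 := by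
        intro w
        have h1 := x.2 w
        have h2 : x.1.2 = 0 := hx
        rw [h2, TensorProduct.zero_tmul] at h1
        exact h1
      have h1 : ∀ w : B.V, ∃ n, i n = x.1.1.1 w := fun w => (hs.ex _).1 (h0 w)
      choose n hn using h1
      let n' : B.V →ₗ[C] N.V :=
        { toFun := n
          map_add' := fun a b => by
            apply hs.inj
            rw [map_add, hn, hn, hn, map_add]
          map_smul' := fun c a => by
            apply hs.inj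
            rw [map_smul, hn, hn, map_smul] 
            rfl }
      refine ⟨⟨n', ?_⟩, ?_⟩
      · intro h v
        apply hs.inj
        show i (n (B.ρ h v)) = i (N.ρ (1, h) (n v))
        rw [hn, hs.hi, hn]
        exact x.1.1.2 h v
      · apply Subtype.ext
        apply Prod.ext
        · apply Subtype.ext
          apply LinearMap.ext
          intro v
          exact hn v
        · exact (show x.1.2 = 0 from hx).symm
    · rintro ⟨n, rfl⟩
      rfl

/-- factoring through a surjection -/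
private theorem w3factor {V W U : Type} [AddCommGroup V] [Module C V] [AddCommGroup W] [Module C W]
    [AddCommGroup U] [Module C U] (Ψ : V →ₗ[C] W) (Φ : V →ₗ[C] U) (hs : Function.Surjective Ψ)
    (hk : ∀ x, Ψ x = 0 → Φ x = 0) : ∃ f : W →ₗ[C] U, ∀ x, f (Ψ x) = Φ x := by
  have h1 : ∀ x y, Ψ x = Ψ y → Φ x = Φ y := by
    intro x y h
    have h2 := hk (x - y) (by rw [map_sub, h, sub_self])
    rw [map_sub] at h2
    exact sub_eq_zero.1 h2
  choose s hs' using hs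
  refine ⟨{ toFun := fun w => Φ (s w), map_add' := ?_, map_smul' := ?_ }, ?_⟩
  · intro a b
    rw [← map_add]
    apply h1
    rw [map_add, hs', hs', hs']
  · intro c a
    rw [RingHom.id_apply, ← map_smul]
    apply h1
    rw [map_smul, hs', hs']
  · intro x
    exact h1 _ _ (hs' _)

end aux

variable {C : Type} [Field C] {G : Type} [Group G] [TopologicalSpace G] [IsTopologicalGroup G]
  {H : Type} [Group H] [TopologicalSpace H] [IsTopologicalGroup H]

theorem effW3 {J : Subgroup G} {T : RR C G → Prop} (hT : Good J T) {A₁ : RR C G} {A₂ : RR C H}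
    (h₁ : T A₁) (h₂ : A₂.Adm) {L : Subgroup H} (oL : IsOpen (L : Set H)) (cL : IsCompact (L : Set H))
    {M : RR C G} {B : RR C H} (hM : FinLen M) (hMs : M.Smooth) (hB : B.Irr) (hBs : B.Smooth)
    {E : RR C (G × H)} {i : (tens A₁ A₂).V →ₗ[C] E.V} {q : E.V →ₗ[C] (tens M B).V}
    (hs : SES (tens A₁ A₂) E (tens M B) i q) (hE : E.Smooth) {K : Subgroup G}
    (hK : ∀ W : Submodule C M.V, M.Stable W → M.fix K ≤ W → W = ⊤)
    (hl : ∀ m ∈ M.fix K, ∃ σ ∈ homs₂ B E, ∀ w : B.V, q (σ w) = m ⊗ₜ[C] w) :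
    ∃ A₁', T A₁' ∧ ∃ (j₁ : A₁.V →ₗ[C] A₁'.V) (f : E.V →ₗ[C] (tens A₁' A₂).V),
      IsHom A₁ A₁' j₁ ∧ Function.Injective j₁ ∧ IsHom E (tens A₁' A₂) f ∧
      ∀ n : (tens A₁ A₂).V, f (i n) = j₁.rTensor A₂.V n := by
  have hfin : Module.Finite C (homs B A₂) := homs_finite hB hBs h₂ oL cL
  obtain ⟨r, ψ, c, hψ, hc, hnc⟩ := hom_tens A₁ hB hfin
  have hX : SES (homRep B (tens A₁ A₂)) (w3X hs.hq) M (w3i hs) (w3q hs.hq) := w3ses hs hK hl
  have hXs : (w3X hs.hq).Smooth :=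
    smooth_of_inj (sub_isHom _ _ (w3W_stable hs.hq)) Subtype.val_injective
      (prod_smooth (homRep_smooth hB hE) hMs)
  obtain ⟨A₁', hA₁', j₁, fk, hj, hji, hf, hfi⟩ := hT.effF hM h₁ hX hXs r c hc
  refine ⟨A₁', hA₁', j₁, ?_⟩
  let ΨX : (w3X hs.hq).V ⊗[C] B.V →ₗ[C] E.V := TensorProduct.lift (w3ev hs.hq)
  let ΦX : (w3X hs.hq).V ⊗[C] B.V →ₗ[C] (tens A₁' A₂).V := ∑ k, TensorProduct.map (fk k) (ψ k)
  let Ψ : ((w3X hs.hq).V ⊗[C] B.V) × (tens A₁ A₂).V →ₗ[C] E.V := ΨX.coprod i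
  let Φ : ((w3X hs.hq).V ⊗[C] B.V) × (tens A₁ A₂).V →ₗ[C] (tens A₁' A₂).V :=
    ΦX.coprod (j₁.rTensor A₂.V)
  have hΨt : ∀ x w, ΨX (x ⊗ₜ[C] w) = w3ev hs.hq x w := fun x w => TensorProduct.lift.tmul _ _
  have hΦt : ∀ x w, ΦX (x ⊗ₜ[C] w) = ∑ k, (fk k x) ⊗ₜ[C] (ψ k w) := by
    intro x w
    show (∑ k, TensorProduct.map (fk k) (ψ k)) (x ⊗ₜ[C] w) = _
    rw [LinearMap.sum_apply]
    exact Finset.sum_congr rfl (fun k _ => TensorProduct.map_tmul _ _ _ _)
  have hΨ : ∀ t a, Ψ (t, a) = ΨX t + i a := fun t a => LinearMap.coprod_apply _ _ _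
  have hΦ : ∀ t a, Φ (t, a) = ΦX t + j₁.rTensor A₂.V a := fun t a => LinearMap.coprod_apply _ _ _
  -- q ∘ ΨX
  have hqΨ : ∀ t, q (ΨX t) = (w3q hs.hq).rTensor B.V t := by
    intro t
    induction t using TensorProduct.induction_on with
    | zero => rw [map_zero, map_zero, map_zero]
    | tmul x w =>
      rw [hΨt, LinearMap.rTensor_tmul]
      exact x.2 w
    | add a b ha hb => rw [map_add, map_add, map_add, ha, hb]
  have hsurj : Function.Surjective Ψ := by
    intro e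
    obtain ⟨t, ht⟩ := LinearMap.rTensor_surjective B.V hX.surj (q e)
    have h1 : q (e - ΨX t) = 0 := by rw [map_sub, hqΨ, ht, sub_self]
    obtain ⟨a, ha⟩ := (hs.ex _).1 h1
    refine ⟨(t, a), ?_⟩
    rw [hΨ, ha]
    abel
  -- the evaluation on N_X
  let evN : (homRep B (tens A₁ A₂)).V ⊗[C] B.V →ₗ[C] (tens A₁ A₂).V :=
    TensorProduct.lift (homs₂ B (tens A₁ A₂)).subtype
  have hevN : ∀ n w, evN (n ⊗ₜ[C] w) = n.1 w := fun n w => TensorProduct.lift.tmul _ _
  have hΨN : ∀ s, ΨX ((w3i hs).rTensor B.V s) = i (evN s) := by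
    intro s
    induction s using TensorProduct.induction_on with
    | zero => rw [map_zero, map_zero, map_zero, map_zero]
    | tmul x w =>
      rw [LinearMap.rTensor_tmul, hΨt, hevN]
      rfl
    | add a b ha hb => rw [map_add, map_add, map_add, map_add, ha, hb]
  have hΦN : ∀ s, ΦX ((w3i hs).rTensor B.V s) = j₁.rTensor A₂.V (evN s) := by
    intro s
    induction s using TensorProduct.induction_on with
    | zero => rw [map_zero, map_zero, map_zero, map_zero]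
    | tmul x w =>
      rw [LinearMap.rTensor_tmul, hΦt, hevN, hnc, map_sum]
      refine Finset.sum_congr rfl (fun k _ => ?_)
      rw [hfi, LinearMap.rTensor_tmul]
    | add a b ha hb => rw [map_add, map_add, map_add, map_add, ha, hb]
  have hker : ∀ x, Ψ x = 0 → Φ x = 0 := by
    rintro ⟨t, a⟩ h
    rw [hΨ] at h
    have h1 : (w3q hs.hq).rTensor B.V t = 0 := by
      rw [← hqΨ, eq_neg_of_add_eq_zero_left h, map_neg, hs.comp_zero, neg_zero]
    have hex : Function.Exact (w3i hs) (w3q hs.hq) := by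
      intro y
      rw [hX.ex y]
      rfl
    obtain ⟨s, hs'⟩ := (rTensor_exact B.V hex hX.surj t).1 h1
    rw [← hs', hΨN, ← map_add] at h
    have h2 : evN s + a = 0 := hs.inj (by rw [h, map_zero])
    rw [hΦ, ← hs', hΦN, ← map_add, h2, map_zero]
  obtain ⟨f, hfΨ⟩ := w3factor Ψ Φ hsurj hker
  have hΨe : IsHom ((tens (w3X hs.hq) B).prod (tens A₁ A₂)) E Ψ := by
    rintro ⟨g, h⟩ ⟨t, a⟩
    show Ψ ((tens (w3X hs.hq) B).ρ (g, h) t, (tens A₁ A₂).ρ (g, h) a) = _
    rw [hΨ, hΨ, map_add, hs.hi]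
    congr 1
    induction t using TensorProduct.induction_on with
    | zero => rw [map_zero, map_zero, map_zero]
    | tmul x w =>
      show ΨX (TensorProduct.map ((w3X hs.hq).ρ g) (B.ρ h) (x ⊗ₜ[C] w)) = _
      rw [TensorProduct.map_tmul, hΨt, hΨt, RR.split₂]
      show E.ρ (g, 1) (x.1.1.1 (B.ρ h w)) = E.ρ (g, 1) (E.ρ (1, h) (x.1.1.1 w))
      rw [x.1.1.2 h w]
    | add a b ha hb => rw [map_add, map_add, map_add, map_add, ha, hb]
  have hΦe : IsHom ((tens (w3X hs.hq) B).prod (tens A₁ A₂)) (tens A₁' A₂) Φ := by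
    rintro ⟨g, h⟩ ⟨t, a⟩
    show Φ ((tens (w3X hs.hq) B).ρ (g, h) t, (tens A₁ A₂).ρ (g, h) a) = _
    rw [hΦ, hΦ, map_add]
    congr 1
    · induction t using TensorProduct.induction_on with
      | zero => rw [map_zero, map_zero, map_zero]
      | tmul x w =>
        show ΦX (TensorProduct.map ((w3X hs.hq).ρ g) (B.ρ h) (x ⊗ₜ[C] w)) =
          TensorProduct.map (A₁'.ρ g) (A₂.ρ h) (ΦX (x ⊗ₜ[C] w))
        rw [TensorProduct.map_tmul, hΦt, hΦt, map_sum]
        refine Finset.sum_congr rfl (fun k _ => ?_)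
        rw [TensorProduct.map_tmul, hf k g x, hψ k h w]
      | add a b ha hb => rw [map_add, map_add, map_add, map_add, ha, hb]
    · induction a using TensorProduct.induction_on with
      | zero => rw [map_zero, map_zero, map_zero]
      | tmul x w =>
        show j₁.rTensor A₂.V (TensorProduct.map (A₁.ρ g) (A₂.ρ h) (x ⊗ₜ[C] w)) =
          TensorProduct.map (A₁'.ρ g) (A₂.ρ h) (j₁.rTensor A₂.V (x ⊗ₜ[C] w))
        rw [TensorProduct.map_tmul, LinearMap.rTensor_tmul, LinearMap.rTensor_tmul, TensorProduct.map_tmul, hj g x]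
      | add a b ha hb => rw [map_add, map_add, map_add, map_add, ha, hb]
  refine ⟨f, hj, hji, ?_, ?_⟩
  · intro g e
    obtain ⟨x, rfl⟩ := hsurj e
    rw [← hΨe g x, hfΨ, hfΨ]
    exact hΦe g x
  · intro n
    have h1 : i n = Ψ (0, n) := by rw [hΨ, map_zero, zero_add]
    rw [h1, hfΨ, hΦ, map_zero, zero_add]

end Pool.Agent.IWE
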