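import Pool.Agent.IWE.EffW2
import Pool.Agent.IWE.EffW3

/-! # IWE/EffW (MP_88b97d_al, helper45)

`push` along `h` reduces to `N = tens A₁ A₂`; `effW2` (with `K`) gives `A₂', E'`; `effW3` for `E'` gives `A₁', j₁, f`. The answer is
`tens A₁' A₂'`, `j = j₁ ⊗ j₂` (injective: `rTensor`/`lTensor` of injective maps over a field), `f ∘ u ∘ u₀`.
-/

namespace Pool.Agent.IWE

open scoped TensorProduct

variable {C : Type} [Field C] {G : Type} [Group G] [TopologicalSpace G] [IsTopologicalGroup G]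
  {H : Type} [Group H] [TopologicalSpace H] [IsTopologicalGroup H]

omit [TopologicalSpace G] [IsTopologicalGroup G] [TopologicalSpace H] [IsTopologicalGroup H] in
private theorem map_isHom' {A B : RR C G} {A' B' : RR C H} {f : A.V →ₗ[C] B.V} {f' : A'.V →ₗ[C] B'.V}
    (hf : IsHom A B f) (hf' : IsHom A' B' f') :
    IsHom (tens A A') (tens B B') (TensorProduct.map f f') := by
  intro g v
  show TensorProduct.map f f' (TensorProduct.map (A.ρ g.1) (A'.ρ g.2) v) =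
    TensorProduct.map (B.ρ g.1) (B'.ρ g.2) (TensorProduct.map f f' v)
  rw [← LinearMap.comp_apply, ← LinearMap.comp_apply, ← TensorProduct.map_comp,
    ← TensorProduct.map_comp]
  have e1 : f ∘ₗ (A.ρ g.1) = (B.ρ g.1) ∘ₗ f := LinearMap.ext fun v => hf g.1 v
  have e2 : f' ∘ₗ (A'.ρ g.2) = (B'.ρ g.2) ∘ₗ f' := LinearMap.ext fun v => hf' g.2 v
  rw [e1, e2]

theorem effW {J : Subgroup G} {T₁ : RR C G → Prop} (hT₁ : Good J T₁) {L : Subgroup H}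
    {T₂ : RR C H → Prop} (hT₂ : Good L T₂) (cJ : IsCompact (J : Set G))
    (oL : IsOpen (L : Set H)) (cL : IsCompact (L : Set H)) {A₁ : RR C G} {A₂ : RR C H} (h₁ : T₁ A₁)
    (h₂ : T₂ A₂) {M : RR C G} {B : RR C H} (hM : FinLen M) (hMs : M.Smooth) (hB : B.Irr) (hBa : B.Adm)
    {K : Subgroup G} (oK : IsOpen (K : Set G)) (hKJ : K ≤ J)
    (hK : ∀ W : Submodule C M.V, M.Stable W → M.fix K ≤ W → W = ⊤)
    {N E : RR C (G × H)} {i : N.V →ₗ[C] E.V} {q : E.V →ₗ[C] (tens M B).V}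
    (hs : SES N E (tens M B) i q) (hE : E.Smooth) {h : N.V →ₗ[C] (tens A₁ A₂).V}
    (hh : IsHom N (tens A₁ A₂) h) :
    ∃ (A₁' : RR C G) (A₂' : RR C H), T₁ A₁' ∧ T₂ A₂' ∧
      ∃ (j : (tens A₁ A₂).V →ₗ[C] (tens A₁' A₂').V) (f : E.V →ₗ[C] (tens A₁' A₂').V),
        IsHom (tens A₁ A₂) (tens A₁' A₂') j ∧ Function.Injective j ∧ IsHom E (tens A₁' A₂') f ∧
        ∀ n, f (i n) = j (h n) := by
  obtain ⟨E', u, v, q', hu, hS', -, huv, hsm⟩ := push hs hh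
  have ha₁ := hT₁.adm _ h₁
  have hE' : E'.Smooth := hsm hE (tens_smooth ha₁.1 (hT₂.adm _ h₂).1)
  obtain ⟨A₂', h₂', j₂, hj₂, hj₂i, E'', u', v', q'', hu', hS'', hE'', huv', hl⟩ :=
    effW2 hT₂ ha₁ h₂ cJ (hT₁.inj _ h₁) oK hKJ hM hMs hB hBa hS' hE'
  obtain ⟨A₁', h₁', j₁, f, hj₁, hj₁i, hf, hfj⟩ :=
    effW3 hT₁ h₁ (hT₂.adm _ h₂') oL cL hM hMs hB hBa.1 hS'' hE'' hK hl
  refine ⟨A₁', A₂', h₁', h₂', TensorProduct.map j₁ j₂, f.comp (u'.comp u), map_isHom' hj₁ hj₂,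
    TensorProduct.map_injective_of_flat_flat j₁ j₂ hj₁i hj₂i, (hu.comp hu').comp hf, ?_⟩
  intro n
  show f (u' (u (i n))) = TensorProduct.map j₁ j₂ (h n)
  rw [huv, huv', hfj, ← LinearMap.comp_apply, LinearMap.rTensor_comp_lTensor]

end Pool.Agent.IWE
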