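import Pool.Agent.IWE.Basic

/-! # IWE/HomRep (MP_88b97d_al, helper45)

Let `w ≠ 0` in `B` (irreducible). `φ ↦ φ w` is injective on `homs₂ B E` (`irr_hom_ext` for `B` and `E.snd`).
`homRep_smooth`: `φ w` is fixed by an open `U ≤ G × H`; for `(g, 1) ∈ U`, `g φ` and `φ` agree at `w`, so they are equal;
`U.comap (MonoidHom.inl G H)` is open. `homRep_adm`: `w` is fixed by an open `L' ≤ H`; `L'' = L' ⊓ L` is open and compact; for `K`
open compact in `G`, `φ ↦ φ w` maps `(homRep B E).fix K` injectively to `E.fix (K.prod L'')` (`(g, h)(φ w) = (g φ)(h w)`), finite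
dimensional (`K.prod L''` is open and compact). `homs_finite`: the same with `A.fix L''`.
-/

namespace Pool.Agent.IWE

open scoped TensorProduct

variable {C : Type} [Field C] {G : Type} [Group G] [TopologicalSpace G] {H : Type} [Group H] [TopologicalSpace H]


omit [TopologicalSpace G] [TopologicalSpace H] in
private theorem homRep_ext {B : RR C H} {E : RR C (G × H)} (hB : B.Irr) {w : B.V} (hw : w ≠ 0)
    {φ ψ : homs₂ B E} (h : φ.1 w = ψ.1 w) : φ = ψ := by
  apply Subtype.ext
  exact irr_hom_ext (A := B) (B := E.snd) hB φ.2 ψ.2 hw h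

theorem homRep_smooth {B : RR C H} {E : RR C (G × H)} (hB : B.Irr) (hE : E.Smooth) :
    (homRep B E).Smooth := by
  intro φ
  obtain ⟨w, hw⟩ := hB.1
  obtain ⟨U, hU, h⟩ := hE (φ.1 w)
  refine ⟨U.comap (MonoidHom.inl G H),
    hU.preimage (by fun_prop : Continuous (fun g : G => (g, (1 : H)))), fun g hg => ?_⟩
  apply homRep_ext hB hw
  exact h _ hg

theorem homRep_adm [IsTopologicalGroup G] [IsTopologicalGroup H] {B : RR C H} {E : RR C (G × H)}
    (hB : B.Irr) (hBs : B.Smooth) (hE : E.Adm) {L : Subgroup H} (oL : IsOpen (L : Set H))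
    (cL : IsCompact (L : Set H)) : (homRep B E).Adm := by
  refine ⟨homRep_smooth hB hE.1, fun K hK hK' => ?_⟩
  obtain ⟨w, hw⟩ := hB.1
  obtain ⟨L', oL', hL'⟩ := hBs w
  have o2 : IsOpen ((L' ⊓ L : Subgroup H) : Set H) := inf_open oL' oL
  have c2 : IsCompact ((L' ⊓ L : Subgroup H) : Set H) := isCompact_of_le o2 cL inf_le_right
  have fin : Module.Finite C (E.fix (K.prod (L' ⊓ L))) := hE.2 _
    (by rw [Subgroup.coe_prod]; exact hK.prod o2) (by rw [Subgroup.coe_prod]; exact hK'.prod c2)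
  let f : (homRep B E).fix K →ₗ[C] E.fix (K.prod (L' ⊓ L)) :=
    { toFun := fun φ => ⟨φ.1.1 w, fun g hg => by
        obtain ⟨g, h⟩ := g
        rw [Subgroup.mem_prod] at hg
        rw [RR.split₂, ← φ.1.2 h w, hL' h hg.2.1]
        exact congrArg (fun ψ : homs₂ B E => ψ.1 w) (φ.2 g hg.1)⟩
      map_add' := fun a b => rfl
      map_smul' := fun c a => rfl }
  refine Module.Finite.of_injective f ?_
  intro φ ψ h
  apply Subtype.ext
  apply homRep_ext hB hw
  exact congrArg Subtype.val h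

theorem homs_finite [IsTopologicalGroup G] {A B : RR C G} (hB : B.Irr) (hBs : B.Smooth) (hA : A.Adm)
    {J : Subgroup G} (oJ : IsOpen (J : Set G)) (cJ : IsCompact (J : Set G)) :
    Module.Finite C (homs B A) := by
  obtain ⟨w, hw⟩ := hB.1
  obtain ⟨L', oL', hL'⟩ := hBs w
  have o2 : IsOpen ((L' ⊓ J : Subgroup G) : Set G) := inf_open oL' oJ
  have c2 : IsCompact ((L' ⊓ J : Subgroup G) : Set G) := isCompact_of_le o2 cJ inf_le_right
  have fin : Module.Finite C (A.fix (L' ⊓ J)) := hA.2 _ o2 c2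
  let f : homs B A →ₗ[C] A.fix (L' ⊓ J) :=
    { toFun := fun φ => ⟨φ.1 w, fun g hg => by rw [← φ.2 g w, hL' g hg.1]⟩
      map_add' := fun a b => rfl
      map_smul' := fun c a => rfl }
  refine Module.Finite.of_injective f ?_
  intro φ ψ h
  apply Subtype.ext
  exact irr_hom_ext hB φ.2 ψ.2 hw (congrArg Subtype.val h)

end Pool.Agent.IWE
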