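import Pool.Agent.IWE.TensInj

/-! # IWE/Surj (MP_88b97d_al, helper45)

`A₂.InjOn ⊥` by `inj_bot`; `A₁.InjOn K` by `injOn_mono`; `K` is compact (`isCompact_of_le`, `K` open, `K ≤ J`); so
`(tens A₁ A₂).InjOn (K.prod ⊥)` by `tens_injOn`. Hence a `K × 1`-equivariant retraction `r : E → A₁ ⊗ A₂` of `i` (`X = (tens A₁ A₂).res _`,
`Y = E.res _`, `h = id`). Given `x` choose `e₀` with `q e₀ = x`; `e = e₀ - i (r e₀)`, `r e = 0`, `q e = x`. For `g ∈ K × 1`:
`q (g e - e) = 0`, so `g e - e = i a` and `a = r (g e - e) = g (r e) - r e = 0`.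
-/

namespace Pool.Agent.IWE

open scoped TensorProduct

variable {C : Type} [Field C] {G : Type} [Group G] [TopologicalSpace G] [IsTopologicalGroup G]
  {H : Type} [Group H] [TopologicalSpace H] [IsTopologicalGroup H]

theorem fix_surj {A₁ : RR C G} {A₂ : RR C H} (h₁ : A₁.Smooth) (h₂ : A₂.Smooth) {J K : Subgroup G}
    (cJ : IsCompact (J : Set G)) (hJ : A₁.InjOn J) (oK : IsOpen (K : Set G)) (hKJ : K ≤ J)
    {E B : RR C (G × H)} {i : (tens A₁ A₂).V →ₗ[C] E.V} {q : E.V →ₗ[C] B.V}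
    (hs : SES (tens A₁ A₂) E B i q) (hE : E.Smooth) :
    ∀ x ∈ B.fix (K.prod ⊥), ∃ e ∈ E.fix (K.prod ⊥), q e = x := by
  intro x hx
  have hA2 : A₂.InjOn ⊥ := inj_bot _
  have hA1 : A₁.InjOn K := injOn_mono h₁ hJ hKJ oK
  have cK : IsCompact (K : Set G) := isCompact_of_le oK cJ hKJ
  have cbot : IsCompact ((⊥ : Subgroup H) : Set H) := by
    rw [Subgroup.coe_bot]
    exact isCompact_singleton
  have hT := tens_injOn h₁ h₂ cK cbot hA1 hA2
  obtain ⟨r, hr, hri⟩ := hT ((tens A₁ A₂).res (K.prod ⊥)) (E.res (K.prod ⊥))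
    (res_smooth (tens_smooth h₁ h₂) _) (res_smooth hE _) i (fun g v => hs.hi g.1 v) hs.inj
    LinearMap.id (fun g v => rfl)
  obtain ⟨e₀, he₀⟩ := hs.surj x
  have hre : r (e₀ - i (r e₀)) = 0 := by
    rw [map_sub]
    have h3 := hri (r e₀)
    rw [h3, LinearMap.id_apply, sub_self]
  have hqe : q (e₀ - i (r e₀)) = x := by
    rw [map_sub, hs.comp_zero, sub_zero, he₀]
  refine ⟨e₀ - i (r e₀), fun g hg => ?_, hqe⟩
  have h4 : q (E.ρ g (e₀ - i (r e₀)) - (e₀ - i (r e₀))) = 0 := by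
    rw [map_sub, hs.hq, hqe, hx g hg, sub_self]
  obtain ⟨a, ha⟩ := (hs.ex _).1 h4
  have h5 : a = 0 := by
    have h6 := hri a
    rw [LinearMap.id_apply] at h6
    rw [← h6, ha, map_sub, hre, sub_zero]
    have h7 := hr ⟨g, hg⟩ (e₀ - i (r e₀))
    rw [hre] at h7
    exact h7.trans (map_zero _)
  rw [h5, map_zero] at ha
  exact (sub_eq_zero.1 ha.symm)

end Pool.Agent.IWE
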