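import Pool.Agent.IWE.Basic

/-! # IWE/TensFix (MP_88b97d_al, helper45)

`x = ∑ a_j ⊗ b_j` with `b_j` a basis of `W`, uniquely; if `g ⊗ 1` fixes `x` then `g a_j = a_j`. (E.g. the isomorphism
`TensorProduct.equivFinsuppOfBasisRight`, `A.V ⊗ W ≃ (ι →₀ A.V)`; or: choose a linear complement / a linear projection onto
the kernel, over a field.) The second statement is symmetric (`TensorProduct.comm`).
-/

namespace Pool.Agent.IWE

open scoped TensorProduct

variable {C : Type} [Field C] {G : Type} [Group G]

private theorem right_apply {V : Type} [AddCommGroup V] [Module C V] {W : Type} [AddCommGroup W]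
    [Module C W] {ι : Type} [DecidableEq ι] (b : Module.Basis ι C W) (f : V →ₗ[C] V)
    (x : V ⊗[C] W) (i : ι) :
    TensorProduct.equivFinsuppOfBasisRight b (f.rTensor W x) i =
      f (TensorProduct.equivFinsuppOfBasisRight b x i) := by
  induction x with
  | zero => simp
  | tmul a w =>
    rw [LinearMap.rTensor_tmul, TensorProduct.equivFinsuppOfBasisRight_apply_tmul_apply,
      TensorProduct.equivFinsuppOfBasisRight_apply_tmul_apply, map_smul]
  | add x y hx hy =>
    rw [map_add, map_add, Finsupp.add_apply, hx, hy, map_add, Finsupp.add_apply, map_add]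

private theorem left_apply {V : Type} [AddCommGroup V] [Module C V] {W : Type} [AddCommGroup W]
    [Module C W] {ι : Type} [DecidableEq ι] (b : Module.Basis ι C W) (f : V →ₗ[C] V)
    (x : W ⊗[C] V) (i : ι) :
    TensorProduct.equivFinsuppOfBasisLeft b (f.lTensor W x) i =
      f (TensorProduct.equivFinsuppOfBasisLeft b x i) := by
  induction x with
  | zero => simp
  | tmul a w =>
    rw [LinearMap.lTensor_tmul, TensorProduct.equivFinsuppOfBasisLeft_apply_tmul_apply,
      TensorProduct.equivFinsuppOfBasisLeft_apply_tmul_apply, map_smul]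
  | add x y hx hy =>
    rw [map_add, map_add, Finsupp.add_apply, hx, hy, map_add, Finsupp.add_apply, map_add]

theorem tens_fix_left (A : RR C G) (W : Type) [AddCommGroup W] [Module C W] (K : Subgroup G)
    (x : A.V ⊗[C] W) (hx : ∀ g ∈ K, (A.ρ g).rTensor W x = x) :
    x ∈ LinearMap.range ((A.fix K).subtype.rTensor W) := by
  classical
  have hfix : ∀ i, TensorProduct.equivFinsuppOfBasisRight (Module.Basis.ofVectorSpace C W) x i ∈
      A.fix K := by
    intro i g hg
    rw [← right_apply, hx g hg]
  have h1 := (TensorProduct.equivFinsuppOfBasisRight (M := A.V)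
    (Module.Basis.ofVectorSpace C W)).symm_apply_apply x
  rw [TensorProduct.equivFinsuppOfBasisRight_symm_apply] at h1
  rw [← h1]
  refine Submodule.sum_mem _ fun i _ => ?_
  exact ⟨(⟨_, hfix i⟩ : A.fix K) ⊗ₜ[C] (Module.Basis.ofVectorSpace C W) i, rfl⟩

theorem tens_fix_right (A : RR C G) (W : Type) [AddCommGroup W] [Module C W] (K : Subgroup G)
    (x : W ⊗[C] A.V) (hx : ∀ g ∈ K, (A.ρ g).lTensor W x = x) :
    x ∈ LinearMap.range ((A.fix K).subtype.lTensor W) := by
  classical
  have hfix : ∀ i, TensorProduct.equivFinsuppOfBasisLeft (Module.Basis.ofVectorSpace C W) x i ∈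
      A.fix K := by
    intro i g hg
    rw [← left_apply, hx g hg]
  have h1 := (TensorProduct.equivFinsuppOfBasisLeft (N := A.V)
    (Module.Basis.ofVectorSpace C W)).symm_apply_apply x
  rw [TensorProduct.equivFinsuppOfBasisLeft_symm_apply] at h1
  rw [← h1]
  refine Submodule.sum_mem _ fun i _ => ?_
  exact ⟨(Module.Basis.ofVectorSpace C W) i ⊗ₜ[C] (⟨_, hfix i⟩ : A.fix K), rfl⟩

end Pool.Agent.IWE
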