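import Pool.Agent.IWE.EffF
import Pool.Agent.IWE.Surj
import Pool.Agent.IWE.AdmExt
import Pool.Agent.IWE.HomRep
import Pool.Agent.IWE.TensFix

/-! # IWE/EffW1 (MP_88b97d_al, helper45)

Killing the extension over `M^K ⊗ B` by enlarging `A₂`. `E₀ = fixSnd E K`. `M.fix K` is finite dimensional (`finLen_adm`,
`K` open compact), basis `m : Fin r → M.V`; `A₁.fix K` too, basis `a : Fin s → A₁.V`.
`q₀ : E₀ → (B.pi (Fin r))` with `q e = ∑ m_k ⊗ (q₀ e)_k`: for `e ∈ E₀` the vector `q e ∈ M ⊗ B` is fixed by `K × 1`, so in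
`(M.fix K) ⊗ B` (`tens_fix_left`), unique coordinates; `q₀` is `H`-equivariant, surjective (`fix_surj` applied to `∑ m_k ⊗ w_k`).
Kernel `N₀ = fixSnd (tens A₁ A₂) K` (via `i`): `n = ∑ a_l ⊗ h_l n` with `h_l : N₀ → A₂` `H`-equivariant (`tens_fix_left`).
`FinLen (B.pi (Fin r))`: induction on `r` (each step an extension of `B` irreducible admissible), or use `finLen_sum` with the
coordinate embeddings. `hT.effF` for `SES N₀ E₀ (B.pi (Fin r))` and the family `h` gives `A₂', j₂, f_l`;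
`f₀ e = ∑ a_l ⊗ f_l e`; for `n` with `i n ∈ E₀`: `f₀ (i n) = ∑ a_l ⊗ j₂ (h_l n) = (1 ⊗ j₂) n`.
-/

namespace Pool.Agent.IWE

open scoped TensorProduct

variable {C : Type} [Field C] {G : Type} [Group G] [TopologicalSpace G] [IsTopologicalGroup G]
  {H : Type} [Group H] [TopologicalSpace H] [IsTopologicalGroup H]

/-- contraction with a functional on the left factor -/
private noncomputable def ew1_cc {V : Type} [AddCommGroup V] [Module C V] (lam : V →ₗ[C] C)
    (W : Type) [AddCommGroup W] [Module C W] : V ⊗[C] W →ₗ[C] W :=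
  (TensorProduct.lid C W).toLinearMap ∘ₗ lam.rTensor W

private theorem ew1_cc_tmul {V : Type} [AddCommGroup V] [Module C V] (lam : V →ₗ[C] C)
    (W : Type) [AddCommGroup W] [Module C W] (v : V) (w : W) :
    ew1_cc lam W (v ⊗ₜ[C] w) = lam v • w := by
  simp [ew1_cc]

private theorem ew1_cc_nat {V : Type} [AddCommGroup V] [Module C V] (lam : V →ₗ[C] C)
    {W W' : Type} [AddCommGroup W] [Module C W] [AddCommGroup W'] [Module C W']
    (f : W →ₗ[C] W') (x : V ⊗[C] W) :
    ew1_cc lam W' (f.lTensor V x) = f (ew1_cc lam W x) := by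
  induction x with
  | zero => simp
  | tmul a w => rw [LinearMap.lTensor_tmul, ew1_cc_tmul, ew1_cc_tmul, map_smul]
  | add x y hx hy => rw [map_add, map_add, hx, hy, map_add, map_add]

private theorem ew1_coords {V : Type} [AddCommGroup V] [Module C V] (F : Submodule C V)
    [Module.Finite C F] : ∃ (r : ℕ) (m : Fin r → V) (lam : Fin r → (V →ₗ[C] C)),
      (∀ k, m k ∈ F) ∧ (∀ k l, lam k (m l) = if k = l then 1 else 0) ∧
      ∀ v ∈ F, ∑ k, lam k v • m k = v := by
  classical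
  obtain ⟨ℓ, hℓ⟩ := F.subtype.exists_leftInverse_of_injective
    (LinearMap.ker_eq_bot.2 Subtype.coe_injective)
  let b := Module.finBasis C F
  have hb : ∀ x : F, ℓ (x : V) = x := fun x => LinearMap.congr_fun hℓ x
  refine ⟨Module.finrank C F, fun k => (b k : V), fun k => (b.coord k) ∘ₗ ℓ, fun k => (b k).2,
    fun k l => ?_, fun v hv => ?_⟩
  · rw [LinearMap.comp_apply, hb, Module.Basis.coord_apply, Module.Basis.repr_self,
      Finsupp.single_apply]
    by_cases h : k = l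
    · rw [if_pos h, if_pos h.symm]
    · rw [if_neg h, if_neg (fun h' => h h'.symm)]
  · have h1 := b.sum_repr ⟨v, hv⟩
    have h2 := congrArg F.subtype h1
    rw [map_sum] at h2
    have h3 : F.subtype ⟨v, hv⟩ = v := rfl
    rw [h3] at h2
    conv_rhs => rw [← h2]
    refine Finset.sum_congr rfl fun k _ => ?_
    rw [LinearMap.comp_apply, map_smul]
    have h4 := hb ⟨v, hv⟩
    rw [show ((⟨v, hv⟩ : F) : V) = v from rfl] at h4
    rw [h4]
    rfl

private theorem ew1_expand {V : Type} [AddCommGroup V] [Module C V] (F : Submodule C V) {r : ℕ}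
    {m : Fin r → V} {lam : Fin r → (V →ₗ[C] C)} (hsum : ∀ v ∈ F, ∑ k, lam k v • m k = v)
    (W : Type) [AddCommGroup W] [Module C W] (x : V ⊗[C] W)
    (hx : x ∈ LinearMap.range (F.subtype.rTensor W)) :
    ∑ k, m k ⊗ₜ[C] ew1_cc (lam k) W x = x := by
  obtain ⟨y, rfl⟩ := hx
  induction y with
  | zero => simp
  | tmul a w =>
    rw [LinearMap.rTensor_tmul]
    have h1 : ∑ k, lam k (a : V) • m k = (a : V) := hsum a a.2
    have h2 : F.subtype a = (a : V) := rfl
    rw [h2]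
    conv_rhs => rw [← h1]
    rw [TensorProduct.sum_tmul]
    refine Finset.sum_congr rfl fun k _ => ?_
    rw [ew1_cc_tmul, TensorProduct.tmul_smul, TensorProduct.smul_tmul']
  | add y z hy hz =>
    rw [map_add]
    conv_rhs => rw [← hy, ← hz]
    rw [← Finset.sum_add_distrib]
    refine Finset.sum_congr rfl fun k _ => ?_
    rw [map_add, TensorProduct.tmul_add]

private theorem ew1_finLen_pi {B : RR C H} (hB : B.Irr) (hBa : B.Adm) (r : ℕ) :
    FinLen (B.pi (Fin r)) := by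
  induction r with
  | zero =>
    refine FinLen.zero _ fun v => ?_
    funext k
    exact k.elim0
  | succ r ih =>
    let i : (B.pi (Fin r)).V →ₗ[C] (B.pi (Fin (r + 1))).V :=
      { toFun := fun v => Fin.cons (α := fun _ => B.V) 0 v
        map_add' := fun v w => by
          funext k
          refine Fin.cases ?_ (fun k => ?_) k
          · show (0 : B.V) = 0 + 0
            rw [add_zero]
          · rfl
        map_smul' := fun a v => by
          funext k
          refine Fin.cases ?_ (fun k => ?_) k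
          · show (0 : B.V) = a • 0
            rw [smul_zero]
          · rfl }
    let q : (B.pi (Fin (r + 1))).V →ₗ[C] B.V := LinearMap.proj 0
    refine FinLen.step (B.pi (Fin r)) (B.pi (Fin (r + 1))) B i q ?_ ih hB hBa
    constructor
    · intro h v
      funext k
      refine Fin.cases ?_ (fun k => ?_) k
      · show (0 : B.V) = B.ρ h 0
        rw [map_zero]
      · rfl
    · intro h v
      rfl
    · intro v w hvw
      funext k
      exact congrFun hvw k.succ
    · intro w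
      exact ⟨Fin.cons (α := fun _ => B.V) w 0, rfl⟩
    · intro e
      constructor
      · intro he
        refine ⟨fun k => e k.succ, ?_⟩
        funext k
        refine Fin.cases ?_ (fun k => ?_) k
        · exact he.symm
        · rfl
      · rintro ⟨v, rfl⟩
        rfl

private theorem ew1_mem {A : RR C G} {W : RR C H} {K : Subgroup G} {x : (tens A W).V}
    (hx : x ∈ (tens A W).fix (K.prod ⊥)) :
    x ∈ LinearMap.range ((A.fix K).subtype.rTensor W.V) := by
  refine tens_fix_left A W.V K x fun g hg => ?_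
  have h1 := hx (g, 1) (Subgroup.mem_prod.2 ⟨hg, Subgroup.mem_bot.2 rfl⟩)
  have h2 : (tens A W).ρ (g, 1) x = TensorProduct.map (A.ρ g) (W.ρ 1) x := rfl
  rw [h2, map_one] at h1
  exact h1

private theorem ew1_lT {A : RR C G} {W : RR C H} (h : H) (x : (tens A W).V) :
    (tens A W).ρ (1, h) x = (W.ρ h).lTensor A.V x := by
  have h2 : (tens A W).ρ (1, h) x = TensorProduct.map (A.ρ 1) (W.ρ h) x := rfl
  rw [h2, map_one]
  rfl

theorem effW1 {L : Subgroup H} {T : RR C H → Prop} (hT : Good L T) {A₁ : RR C G} {A₂ : RR C H}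
    (h₁ : A₁.Adm) (h₂ : T A₂) {J K : Subgroup G} (cJ : IsCompact (J : Set G)) (hJ : A₁.InjOn J)
    (oK : IsOpen (K : Set G)) (hKJ : K ≤ J) {M : RR C G} {B : RR C H} (hM : FinLen M) (hMs : M.Smooth)
    (hB : B.Irr) (hBa : B.Adm) {E : RR C (G × H)} {i : (tens A₁ A₂).V →ₗ[C] E.V}
    {q : E.V →ₗ[C] (tens M B).V} (hs : SES (tens A₁ A₂) E (tens M B) i q) (hE : E.Smooth) :
    ∃ A₂', T A₂' ∧ ∃ (j₂ : A₂.V →ₗ[C] A₂'.V) (f₀ : (fixSnd E K).V →ₗ[C] (tens A₁ A₂').V),
      IsHom A₂ A₂' j₂ ∧ Function.Injective j₂ ∧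
      (∀ (h : H) (e : (fixSnd E K).V), f₀ ((fixSnd E K).ρ h e) = (tens A₁ A₂').ρ (1, h) (f₀ e)) ∧
      ∀ (n : (tens A₁ A₂).V) (hn : i n ∈ E.fix (K.prod ⊥)), f₀ ⟨i n, hn⟩ = j₂.lTensor A₁.V n := by
  classical
  have cK : IsCompact (K : Set G) := isCompact_of_le oK cJ hKJ
  haveI hfM : Module.Finite C (M.fix K) := (finLen_adm hM hMs).2 K oK cK
  haveI hfA : Module.Finite C (A₁.fix K) := h₁.2 K oK cK
  obtain ⟨r, m, lam, hm, hlm, hsum⟩ := ew1_coords (C := C) (M.fix K)
  obtain ⟨s, a, mu, ha, hma, hsuma⟩ := ew1_coords (C := C) (A₁.fix K)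
  have hfs := fix_surj h₁.1 (hT.adm _ h₂).1 cJ hJ oK hKJ hs hE
  -- `q` maps the fixed vectors to the fixed vectors
  have hqfix : ∀ e ∈ E.fix (K.prod ⊥), q e ∈ (tens M B).fix (K.prod ⊥) := by
    intro e he g hg
    rw [← hs.hq g e, he g hg]
  have hifix : ∀ n, i n ∈ E.fix (K.prod ⊥) → n ∈ (tens A₁ A₂).fix (K.prod ⊥) := by
    intro n hn g hg
    apply hs.inj
    rw [hs.hi g n, hn g hg]
  have hifix' : ∀ n ∈ (tens A₁ A₂).fix (K.prod ⊥), i n ∈ E.fix (K.prod ⊥) := by
    intro n hn g hg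
    rw [← hs.hi g n, hn g hg]
  let q₀ : (fixSnd E K).V →ₗ[C] (B.pi (Fin r)).V :=
    LinearMap.pi (fun k => ew1_cc (lam k) B.V ∘ₗ q ∘ₗ (E.fix (K.prod ⊥)).subtype)
  have hq₀ : ∀ (e : (fixSnd E K).V) (k : Fin r), q₀ e k = ew1_cc (lam k) B.V (q e.1) :=
    fun _ _ => rfl
  let i₀ : (fixSnd (tens A₁ A₂) K).V →ₗ[C] (fixSnd E K).V := i.restrict hifix'
  have hi₀ : ∀ n : (fixSnd (tens A₁ A₂) K).V, (i₀ n).1 = i n.1 := fun _ => rfl
  have hρE : ∀ (h : H) (e : (fixSnd E K).V), ((fixSnd E K).ρ h e).1 = E.ρ (1, h) e.1 :=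
    fun _ _ => rfl
  have hρN : ∀ (h : H) (e : (fixSnd (tens A₁ A₂) K).V),
      ((fixSnd (tens A₁ A₂) K).ρ h e).1 = (tens A₁ A₂).ρ (1, h) e.1 := fun _ _ => rfl
  have hs₀ : SES (fixSnd (tens A₁ A₂) K) (fixSnd E K) (B.pi (Fin r)) i₀ q₀ := by
    constructor
    · intro h n
      apply Subtype.ext
      rw [hi₀, hρN, hs.hi, hρE, hi₀]
    · intro h e
      funext k
      rw [hq₀, hρE, hs.hq, ew1_lT, ew1_cc_nat]
      rfl
    · intro n n' hnn
      apply Subtype.ext
      apply hs.inj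
      rw [← hi₀, ← hi₀, hnn]
    · intro w
      have hx : (∑ k, m k ⊗ₜ[C] w k : (tens M B).V) ∈ (tens M B).fix (K.prod ⊥) := by
        refine Submodule.sum_mem _ fun k _ => ?_
        rintro ⟨g, h⟩ hg
        rw [Subgroup.mem_prod, Subgroup.mem_bot] at hg
        obtain ⟨hg1, hg2⟩ := hg
        have hg1' : g ∈ K := hg1
        have hg2' : h = 1 := hg2
        subst hg2'
        show TensorProduct.map (M.ρ g) (B.ρ 1) (m k ⊗ₜ[C] w k) = m k ⊗ₜ[C] w k
        rw [TensorProduct.map_tmul, hm k g hg1', RR.one_apply]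
      obtain ⟨e, he, hqe⟩ := hfs _ hx
      refine ⟨⟨e, he⟩, ?_⟩
      funext k
      rw [hq₀]
      show ew1_cc (lam k) B.V (q e) = w k
      rw [hqe, map_sum]
      rw [Finset.sum_eq_single k]
      · rw [ew1_cc_tmul, hlm, if_pos rfl, one_smul]
      · intro l _ hl
        rw [ew1_cc_tmul, hlm, if_neg (fun h => hl h.symm), zero_smul]
      · intro h
        exact absurd (Finset.mem_univ k) h
    · intro e
      constructor
      · intro he
        have h1 := ew1_expand (M.fix K) hsum B.V (q e.1) (ew1_mem (hqfix e.1 e.2))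
        have h2 : q e.1 = 0 := by
          rw [← h1]
          refine Finset.sum_eq_zero fun k _ => ?_
          rw [← hq₀, he]
          show m k ⊗ₜ[C] (0 : B.V) = 0
          rw [TensorProduct.tmul_zero]
        obtain ⟨n, hn⟩ := (hs.ex e.1).1 h2
        have hn' : i n ∈ E.fix (K.prod ⊥) := by
          rw [hn]
          exact e.2
        refine ⟨⟨n, hifix n hn'⟩, ?_⟩
        apply Subtype.ext
        rw [hi₀]
        exact hn
      · rintro ⟨n, rfl⟩
        funext k
        rw [hq₀, hi₀, hs.comp_zero, map_zero]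
        rfl
  have hE₀ : (fixSnd E K).Smooth :=
    smooth_of_inj (A := fixSnd E K) (B := E.snd) (f := (E.fix (K.prod ⊥)).subtype)
      (fun _ _ => rfl) Subtype.coe_injective (snd_smooth hE)
  let hl : Fin s → ((fixSnd (tens A₁ A₂) K).V →ₗ[C] A₂.V) := fun l =>
    ew1_cc (mu l) A₂.V ∘ₗ ((tens A₁ A₂).fix (K.prod ⊥)).subtype
  have hhl : ∀ l (n : (fixSnd (tens A₁ A₂) K).V), hl l n = ew1_cc (mu l) A₂.V n.1 :=
    fun _ _ => rfl
  obtain ⟨A₂', hA₂', j₂, f, hj₂, hj₂i, hf, hfj⟩ :=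
    hT.effF (ew1_finLen_pi hB hBa r) h₂ hs₀ hE₀ s hl (fun l h n => by
      rw [hhl, hρN, ew1_lT, ew1_cc_nat, ← hhl])
  refine ⟨A₂', hA₂', j₂, ∑ l, (TensorProduct.mk C A₁.V A₂'.V (a l)) ∘ₗ f l, hj₂, hj₂i, ?_, ?_⟩
  · intro h e
    rw [LinearMap.sum_apply, LinearMap.sum_apply, map_sum]
    refine Finset.sum_congr rfl fun l _ => ?_
    rw [LinearMap.comp_apply, LinearMap.comp_apply, hf l h e]
    show a l ⊗ₜ[C] (A₂'.ρ h (f l e)) = TensorProduct.map (A₁.ρ 1) (A₂'.ρ h) (a l ⊗ₜ[C] f l e)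
    rw [TensorProduct.map_tmul, RR.one_apply]
  · intro n hn
    have hn' := hifix n hn
    have h1 : (⟨i n, hn⟩ : (fixSnd E K).V) = i₀ ⟨n, hn'⟩ := rfl
    have h2 := ew1_expand (A₁.fix K) hsuma A₂.V n (ew1_mem hn')
    rw [h1, LinearMap.sum_apply]
    conv_rhs => rw [← h2]
    rw [map_sum]
    refine Finset.sum_congr rfl fun l _ => ?_
    rw [LinearMap.comp_apply, hfj, LinearMap.lTensor_tmul]
    rfl

end Pool.Agent.IWE
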