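import Pool.Agent.IWE.Basic

/-! # IWE/Push (MP_88b97d_al, helper45)

Pushout of an extension. Proof. `D` = range of `n ↦ (i n, - h n)` in `E × A`, a stable subspace of `E.prod A`;
`E' = (E × A) ⧸ D` with the induced action (`Submodule.mapQ`), `u e = [(e, 0)]`, `v a = [(0, a)]`, `q'` = `Submodule.liftQ` of
`(e, a) ↦ q e` (zero on `D`). `v` is injective: `(0, a) = (i n, - h n)` gives `n = 0`, `a = 0`. Kernel of `q'`: `q e = 0` gives
`e = i n` and `(e, a) ≡ (0, a + h n)`. `u (i n) = v (h n)` because `(i n, 0) - (0, h n) ∈ D`. Smooth: `smooth_of_surj` and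
`prod_smooth`.
-/

namespace Pool.Agent.IWE

open scoped TensorProduct

variable {C : Type} [Field C] {G : Type} [Group G] [TopologicalSpace G] {H : Type} [Group H] [TopologicalSpace H]


/-- the quotient representation -/
abbrev RR.quo (A : RR C G) (W : Submodule C A.V) (hW : A.Stable W) : RR C G where
  V := A.V ⧸ W
  ρ :=
    { toFun := fun g => W.mapQ W (A.ρ g) (fun w hw => hW g w hw)
      map_one' := by
        apply LinearMap.ext
        intro x
        obtain ⟨v, rfl⟩ := W.mkQ_surjective x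
        show W.mkQ (A.ρ 1 v) = W.mkQ v
        rw [RR.one_apply]
      map_mul' := fun g h => by
        apply LinearMap.ext
        intro x
        obtain ⟨v, rfl⟩ := W.mkQ_surjective x
        show W.mkQ (A.ρ (g * h) v) = W.mkQ (A.ρ g (A.ρ h v))
        rw [RR.mul_apply] }

theorem push {N E B A : RR C G} {i : N.V →ₗ[C] E.V} {q : E.V →ₗ[C] B.V} (hs : SES N E B i q)
    {h : N.V →ₗ[C] A.V} (hh : IsHom N A h) :
    ∃ (E' : RR C G) (u : E.V →ₗ[C] E'.V) (v : A.V →ₗ[C] E'.V) (q' : E'.V →ₗ[C] B.V),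
      IsHom E E' u ∧ SES A E' B v q' ∧ (∀ e, q' (u e) = q e) ∧ (∀ n, u (i n) = v (h n)) ∧
      (E.Smooth → A.Smooth → E'.Smooth) := by
  let D : Submodule C (E.prod A).V := LinearMap.range (LinearMap.prod i (-h))
  have hmem : ∀ n, ((i n, -(h n)) : E.V × A.V) ∈ D := fun n => ⟨n, rfl⟩
  have hD : (E.prod A).Stable D := by
    rintro g _ ⟨n, rfl⟩
    refine ⟨N.ρ g n, ?_⟩
    show (i (N.ρ g n), -(h (N.ρ g n))) = (E.ρ g (i n), A.ρ g (-(h n)))
    rw [hs.hi g n, hh g n, map_neg]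
  have hker : D ≤ LinearMap.ker (q.comp (LinearMap.fst C E.V A.V)) := by
    rintro _ ⟨n, rfl⟩
    rw [LinearMap.mem_ker]
    show q (i n) = 0
    exact hs.comp_zero n
  let E' : RR C G := (E.prod A).quo D hD
  let u : E.V →ₗ[C] E'.V := D.mkQ.comp (LinearMap.inl C E.V A.V)
  let v : A.V →ₗ[C] E'.V := D.mkQ.comp (LinearMap.inr C E.V A.V)
  let q' : E'.V →ₗ[C] B.V := D.liftQ (q.comp (LinearMap.fst C E.V A.V)) hker
  have hq'mk : ∀ e a, q' (D.mkQ (e, a)) = q e := fun e a => rfl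
  have hEact : ∀ g e a, E'.ρ g (D.mkQ (e, a)) = D.mkQ (E.ρ g e, A.ρ g a) := fun g e a => rfl
  have hu : IsHom E E' u := by
    intro g e
    show D.mkQ (E.ρ g e, 0) = E'.ρ g (D.mkQ (e, 0))
    rw [hEact, map_zero]
  have hv : IsHom A E' v := by
    intro g a
    show D.mkQ (0, A.ρ g a) = E'.ρ g (D.mkQ (0, a))
    rw [hEact, map_zero]
  have huv : ∀ n, u (i n) = v (h n) := by
    intro n
    show D.mkQ (i n, 0) = D.mkQ (0, h n)
    rw [Submodule.mkQ_apply, Submodule.mkQ_apply, Submodule.Quotient.eq]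
    have h1 : ((i n, 0) : E.V × A.V) - (0, h n) = (i n, -(h n)) := by simp
    rw [h1]
    exact hmem n
  refine ⟨E', u, v, q', hu, ⟨hv, ?_, ?_, ?_, ?_⟩, fun e => rfl, huv, ?_⟩
  · intro g x
    obtain ⟨⟨e, a⟩, rfl⟩ := D.mkQ_surjective x
    rw [hEact, hq'mk, hq'mk]
    exact hs.hq g e
  · rw [injective_iff_map_eq_zero]
    intro a ha
    have h1 : ((0, a) : E.V × A.V) ∈ D := by
      have h2 : D.mkQ ((0, a) : E.V × A.V) = 0 := ha
      rwa [Submodule.mkQ_apply, Submodule.Quotient.mk_eq_zero] at h2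
    obtain ⟨n, hn⟩ := h1
    have h3 : i n = 0 := congrArg Prod.fst hn
    have h4 : -(h n) = a := congrArg Prod.snd hn
    have h5 : n = 0 := hs.inj (by rw [h3, map_zero])
    rw [← h4, h5, map_zero, neg_zero]
  · intro b
    obtain ⟨e, rfl⟩ := hs.surj b
    exact ⟨u e, rfl⟩
  · intro x
    obtain ⟨⟨e, a⟩, rfl⟩ := D.mkQ_surjective x
    rw [hq'mk]
    constructor
    · intro he
      obtain ⟨n, rfl⟩ := (hs.ex e).1 he
      refine ⟨a + h n, ?_⟩
      show D.mkQ (0, a + h n) = D.mkQ (i n, a)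
      symm
      rw [Submodule.mkQ_apply, Submodule.mkQ_apply, Submodule.Quotient.eq]
      have h1 : ((i n, a) : E.V × A.V) - (0, a + h n) = (i n, -(h n)) := by
        apply Prod.ext
        · simp
        · show a - (a + h n) = -(h n)
          abel
      rw [h1]
      exact hmem n
    · rintro ⟨a', ha'⟩
      have h1 : q' (v a') = q e := by rw [ha', hq'mk]
      rw [← h1]
      show q 0 = 0
      rw [map_zero]
  · intro hE hA
    have hmk : IsHom (E.prod A) E' D.mkQ := fun g x => rfl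
    exact smooth_of_surj hmk D.mkQ_surjective (prod_smooth hE hA)

end Pool.Agent.IWE
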