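import Pool.Agent.IWE.EffW1
import Pool.Agent.IWE.Push

/-! # IWE/EffW2 (MP_88b97d_al, helper45)

Push `E` out along `1 ⊗ j₂ : tens A₁ A₂ → tens A₁ A₂'` (`push`; `j₂, f₀` from `effW1`): `E', u, v, q'`. The map
`κ = u - v ∘ f₀ : E.fix (K × 1) → E'` is `H`-equivariant, `q' ∘ κ = q`, and it vanishes on the `e` with `q e = 0` (`e = i n`,
`u (i n) = v ((1 ⊗ j₂) n) = v (f₀ (i n))`). For `m ∈ M.fix K`, `w ∈ B`: `m ⊗ w` is fixed by `K × 1`, so `m ⊗ w = q e` with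
`e ∈ E.fix (K × 1)` (`fix_surj`), and `σ w = κ e` does not depend on `e`: linear, `H`-equivariant, `q' (σ w) = m ⊗ w`.
-/

namespace Pool.Agent.IWE

open scoped TensorProduct

variable {C : Type} [Field C] {G : Type} [Group G] [TopologicalSpace G] [IsTopologicalGroup G]
  {H : Type} [Group H] [TopologicalSpace H] [IsTopologicalGroup H]

theorem effW2 {L : Subgroup H} {T : RR C H → Prop} (hT : Good L T) {A₁ : RR C G} {A₂ : RR C H}
    (h₁ : A₁.Adm) (h₂ : T A₂) {J K : Subgroup G} (cJ : IsCompact (J : Set G)) (hJ : A₁.InjOn J)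
    (oK : IsOpen (K : Set G)) (hKJ : K ≤ J) {M : RR C G} {B : RR C H} (hM : FinLen M) (hMs : M.Smooth)
    (hB : B.Irr) (hBa : B.Adm) {E : RR C (G × H)} {i : (tens A₁ A₂).V →ₗ[C] E.V}
    {q : E.V →ₗ[C] (tens M B).V} (hs : SES (tens A₁ A₂) E (tens M B) i q) (hE : E.Smooth) :
    ∃ A₂', T A₂' ∧ ∃ j₂ : A₂.V →ₗ[C] A₂'.V, IsHom A₂ A₂' j₂ ∧ Function.Injective j₂ ∧
      ∃ (E' : RR C (G × H)) (u : E.V →ₗ[C] E'.V) (v : (tens A₁ A₂').V →ₗ[C] E'.V)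
        (q' : E'.V →ₗ[C] (tens M B).V),
        IsHom E E' u ∧ SES (tens A₁ A₂') E' (tens M B) v q' ∧ E'.Smooth ∧
        (∀ n : (tens A₁ A₂).V, u (i n) = v (j₂.lTensor A₁.V n)) ∧
        ∀ m ∈ M.fix K, ∃ σ ∈ homs₂ B E', ∀ w : B.V, q' (σ w) = m ⊗ₜ[C] w := by
  obtain ⟨A₂', hA₂', j₂, f₀, hj, hji, hfe, hfn⟩ := effW1 hT h₁ h₂ cJ hJ oK hKJ hM hMs hB hBa hs hE
  have hh : IsHom (tens A₁ A₂) (tens A₁ A₂') (j₂.lTensor A₁.V) := by
    rintro ⟨g, h⟩ n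
    show j₂.lTensor A₁.V (TensorProduct.map (A₁.ρ g) (A₂.ρ h) n) =
      TensorProduct.map (A₁.ρ g) (A₂'.ρ h) (j₂.lTensor A₁.V n)
    induction n using TensorProduct.induction_on with
    | zero => simp
    | tmul a b =>
      rw [TensorProduct.map_tmul, LinearMap.lTensor_tmul, LinearMap.lTensor_tmul, TensorProduct.map_tmul,
        hj h b]
    | add x y hx hy => simp only [map_add, hx, hy]
  obtain ⟨E', u, v, q', hu, hs', hqu, huv, hsm⟩ := push hs hh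
  have h₂s := (hT.adm _ h₂).1
  refine ⟨A₂', hA₂', j₂, hj, hji, E', u, v, q', hu, hs', hsm hE (tens_smooth h₁.1 (hT.adm _ hA₂').1),
    huv, ?_⟩
  intro m hm
  let κ : (fixSnd E K).V →ₗ[C] E'.V := u.comp (Submodule.subtype _) - v.comp f₀
  have hκ : ∀ e : (fixSnd E K).V, κ e = u e.1 - v (f₀ e) := fun e => rfl
  have hκe : ∀ (h : H) (e : (fixSnd E K).V), κ ((fixSnd E K).ρ h e) = E'.ρ (1, h) (κ e) := by
    intro h e
    rw [hκ, hκ, hfe, hs'.hi, map_sub]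
    congr 1
    exact hu (1, h) e.1
  have hκq : ∀ e : (fixSnd E K).V, q' (κ e) = q e.1 := by
    intro e
    rw [hκ, map_sub, hqu, hs'.comp_zero, sub_zero]
  have hκ0 : ∀ e : (fixSnd E K).V, q e.1 = 0 → κ e = 0 := by
    rintro ⟨e, he⟩ h0
    obtain ⟨n, rfl⟩ := (hs.ex e).1 h0
    rw [hκ, hfn n he, huv, sub_self]
  have hκ1 : ∀ e e' : (fixSnd E K).V, q e.1 = q e'.1 → κ e = κ e' := by
    intro e e' h
    rw [← sub_eq_zero, ← map_sub]
    apply hκ0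
    show q (e.1 - e'.1) = 0
    rw [map_sub, h, sub_self]
  have hmw : ∀ w : B.V, ∃ e : (fixSnd E K).V, q e.1 = m ⊗ₜ[C] w := by
    intro w
    obtain ⟨e, he, hq⟩ := fix_surj h₁.1 h₂s cJ hJ oK hKJ hs hE (m ⊗ₜ[C] w) (by
      rintro ⟨g, h⟩ hg
      rw [Subgroup.mem_prod, Subgroup.mem_bot] at hg
      obtain ⟨hg1, hg2⟩ := hg
      simp only at hg1 hg2
      subst hg2
      show TensorProduct.map (M.ρ g) (B.ρ 1) (m ⊗ₜ[C] w) = m ⊗ₜ[C] w
      rw [TensorProduct.map_tmul, hm g hg1, RR.one_apply])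
    exact ⟨⟨e, he⟩, hq⟩
  choose s hsq using hmw
  refine ⟨{ toFun := fun w => κ (s w), map_add' := ?_, map_smul' := ?_ }, ?_, fun w => ?_⟩
  · intro w w'
    rw [← map_add]
    apply hκ1
    show q (s (w + w')).1 = q ((s w).1 + (s w').1)
    rw [map_add, hsq, hsq, hsq, TensorProduct.tmul_add]
  · intro c w
    rw [RingHom.id_apply, ← map_smul]
    apply hκ1
    show q (s (c • w)).1 = q (c • (s w).1)
    rw [map_smul, hsq, hsq, TensorProduct.tmul_smul]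
  · intro h w
    show κ (s (B.ρ h w)) = E'.ρ (1, h) (κ (s w))
    rw [← hκe]
    apply hκ1
    show q (s (B.ρ h w)).1 = q (E.ρ (1, h) (s w).1)
    rw [hs.hq, hsq, hsq]
    show m ⊗ₜ[C] (B.ρ h w) = TensorProduct.map (M.ρ 1) (B.ρ h) (m ⊗ₜ[C] w)
    rw [TensorProduct.map_tmul, RR.one_apply]
  · show q' (κ (s w)) = m ⊗ₜ[C] w
    rw [hκq, hsq]

end Pool.Agent.IWE
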