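import Pool.Agent.IWE.Basic

/-! # IWE/Embed (MP_88b97d_al, helper45)

Embedding of the representations of finite length. Induction on `FinLen`. Zero: `hT.ne` and `f = 0`.
Step `N, E, B, i, q`: `N` is smooth (`smooth_of_inj`), so `N` embeds by `f₀` in some `A₀` with `T A₀`. `hT.eff A₀ _ N E B i q`
with `h = f₀` gives `A', j, f`; `hT.emb B` gives `g : B → B'`; `hT.dir A' B'` gives `D, a, b`. The map
`e ↦ a (f e) + b (g (q e))` is injective: if it is `0` then `f e = 0` and `g (q e) = 0`, so `q e = 0`, `e = i n`,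
`f (i n) = j (f₀ n) = 0`, `n = 0`.
-/

namespace Pool.Agent.IWE

open scoped TensorProduct

variable {C : Type} [Field C] {G : Type} [Group G] [TopologicalSpace G] {H : Type} [Group H] [TopologicalSpace H]


theorem Good.embed {J : Subgroup G} {T : RR C G → Prop} (hT : Good J T) {A : RR C G} (hf : FinLen A)
    (hA : A.Smooth) : ∃ B, T B ∧ ∃ f : A.V →ₗ[C] B.V, IsHom A B f ∧ Function.Injective f := by
  induction hf with
  | zero A h =>
    obtain ⟨B, hB⟩ := hT.ne
    refine ⟨B, hB, 0, isHom_zero A B, ?_⟩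
    intro a b _
    rw [h a, h b]
  | step N E B i q hs hN hB hBA ih =>
    obtain ⟨A₀, hA₀, f₀, hf₀, hf₀i⟩ := ih (smooth_of_inj hs.hi hs.inj hA)
    obtain ⟨A', hA', j, f, hj, hji, hf, hfj⟩ := hT.eff A₀ hA₀ N E B i q hs hA hB hBA f₀ hf₀
    obtain ⟨B', hB', g, hg, hgi⟩ := hT.emb B hB hBA
    obtain ⟨D, hD, a, b, ha, hb, hab⟩ := hT.dir A' B' hA' hB'
    have hbgq : IsHom E D (b.comp (g.comp q)) := (hs.hq.comp hg).comp hb
    have haf : IsHom E D (a.comp f) := hf.comp ha
    refine ⟨D, hD, a.comp f + b.comp (g.comp q), ?_, ?_⟩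
    · intro x v
      rw [LinearMap.add_apply, LinearMap.add_apply, haf x v, hbgq x v, map_add]
    · rw [← LinearMap.ker_eq_bot, Submodule.eq_bot_iff]
      intro e he
      rw [LinearMap.mem_ker, LinearMap.add_apply, LinearMap.comp_apply, LinearMap.comp_apply,
        LinearMap.comp_apply] at he
      obtain ⟨h1, h2⟩ := hab _ _ he
      have h3 : q e = 0 := hgi (by rw [h2, map_zero])
      obtain ⟨n, rfl⟩ := (hs.ex e).1 h3
      rw [hfj] at h1
      have h4 : f₀ n = 0 := hji (by rw [h1, map_zero])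
      have h5 : n = 0 := hf₀i (by rw [h4, map_zero])
      rw [h5, map_zero]

end Pool.Agent.IWE
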