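import Pool.Agent.IWE.HomRep

/-! # IWE/EndD (MP_88b97d_al, helper45)

Schur: kernel and range of `d` are stable, so `d = 0` or `d` is bijective, and then its inverse is equivariant. Finite: `homs_finite`
with `A = B`, `C` finite. Cardinality: `homs B B` is a nonzero (`id ≠ 0`) finite dimensional space over `C`, so its cardinality is
a positive power of `Nat.card C`, divisible by `p` (`CharP C p`, `C` finite: `(Nat.card C : C) = 0`, e.g. by
`CharP.cast_card_eq_zero`; or: the additive group of a nontrivial finite `C`-space has order divisible by `p`).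
-/

namespace Pool.Agent.IWE

open scoped TensorProduct

variable {C : Type} [Field C] {G : Type} [Group G]

theorem end_inv {B : RR C G} (hB : B.Irr) {d : B.V →ₗ[C] B.V} (hd : d ∈ homs B B) (hd0 : d ≠ 0) :
    ∃ e ∈ homs B B, d.comp e = LinearMap.id ∧ e.comp d = LinearMap.id := by
  have hi : Function.Injective d := (irr_inj_or_zero hB hd).resolve_left hd0
  have hs : LinearMap.range d = ⊤ := by
    rcases hB.2 _ (range_stable hd) with h | h
    · exact absurd (LinearMap.range_eq_bot.1 h) hd0
    · exact h
  let e := LinearEquiv.ofBijective d ⟨hi, LinearMap.range_eq_top.1 hs⟩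
  refine ⟨e.symm.toLinearMap, ?_, ?_, ?_⟩
  · intro g v
    apply hi
    show d (e.symm (B.ρ g v)) = d (B.ρ g (e.symm v))
    rw [hd g]
    show e (e.symm (B.ρ g v)) = B.ρ g (e (e.symm v))
    rw [e.apply_symm_apply, e.apply_symm_apply]
  · apply LinearMap.ext
    intro v
    exact e.apply_symm_apply v
  · apply LinearMap.ext
    intro v
    exact e.symm_apply_apply v

variable [TopologicalSpace G] [IsTopologicalGroup G]

theorem end_finite [Finite C] {B : RR C G} (hB : B.Irr) (hBa : B.Adm) {J : Subgroup G}
    (oJ : IsOpen (J : Set G)) (cJ : IsCompact (J : Set G)) : Finite (homs B B) := by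
  have := homs_finite hB hBa.1 hBa oJ cJ
  exact Module.finite_of_finite C

theorem end_card (p : ℕ) [Fact p.Prime] [CharP C p] [Finite C] {B : RR C G} (hB : B.Irr) (hBa : B.Adm)
    {J : Subgroup G} (oJ : IsOpen (J : Set G)) (cJ : IsCompact (J : Set G)) :
    ((Nat.card (homs B B) : ℕ) : C) = 0 := by
  have := end_finite hB hBa oJ cJ
  obtain ⟨w, hw⟩ := hB.1
  let x : homs B B := ⟨LinearMap.id, isHom_id B⟩
  have hx : x ≠ 0 := fun h => hw (congrArg (fun φ : homs B B => φ.1 w) h)
  have hpx : p • x = 0 := by
    rw [← Nat.cast_smul_eq_nsmul C, CharP.cast_eq_zero, zero_smul]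
  have h1 : addOrderOf x = p := addOrderOf_eq_prime hpx hx
  rw [CharP.cast_eq_zero_iff C p, ← h1]
  exact addOrderOf_dvd_natCard x

end Pool.Agent.IWE
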