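import Pool.Agent.IWE.FinSum

/-! # IWE/FinExt (MP_88b97d_al, helper45)

`finLen_of_equiv`: cases of `FinLen A`; in the step case use `f ∘ i` and `q ∘ f⁻¹`.
`finLen_ext`: induction on `FinLen B` generalizing the rest. Zero: `i` is bijective, `finLen_of_equiv`. Step: `B` an extension of
`B'` irreducible by `N_B` (`i_B`, `q_B`): `E₁ = E.sub (comap q (range i_B))`, `SES N E₁ N_B` gives `FinLen E₁` by the induction
hypothesis, `SES E₁ E B'` (inclusion, `q_B ∘ q`) and `FinLen.step`. (Same construction as in `EffF.effL`.)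
`finLen_sum₂`: as `finLen_sum`, with varying `M k` (the private lemma `finLen_step` of `FinSum` is already general: copy it, or make
it public), for `N.sub (⨆ k, range (f k))`, then transport along the equality with `⊤`.
-/

namespace Pool.Agent.IWE

open scoped TensorProduct

variable {C : Type} [Field C] {G : Type} [Group G] [TopologicalSpace G]

theorem finLen_of_equiv {A B : RR C G} (hA : FinLen A) (f : A.V ≃ₗ[C] B.V)
    (hf : IsHom A B f.toLinearMap) : FinLen B := by
  cases hA with
  | zero A h =>
    refine FinLen.zero B fun v => ?_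
    rw [← f.apply_symm_apply v, h (f.symm v), map_zero]
  | step N E B' i q hs hN hirr hadm =>
    refine FinLen.step N B B' (f.toLinearMap.comp i) (q.comp f.symm.toLinearMap) ?_ hN hirr hadm
    refine ⟨hs.hi.comp hf, ?_, ?_, ?_, ?_⟩
    · intro g v
      show q (f.symm (B.ρ g v)) = B'.ρ g (q (f.symm v))
      rw [← hs.hq g]
      congr 1
      apply f.injective
      have h1 := hf g (f.symm v)
      have h2 : f (A.ρ g (f.symm v)) = B.ρ g (f (f.symm v)) := h1
      rw [h2, f.apply_symm_apply, f.apply_symm_apply]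
    · exact f.injective.comp hs.inj
    · exact hs.surj.comp f.symm.surjective
    · intro e
      show q (f.symm e) = 0 ↔ ∃ n, f (i n) = e
      rw [hs.ex]
      constructor
      · rintro ⟨n, hn⟩
        exact ⟨n, by rw [hn, f.apply_symm_apply]⟩
      · rintro ⟨n, hn⟩
        exact ⟨n, by rw [← hn, f.symm_apply_apply]⟩

theorem finLen_ext {B : RR C G} (hB : FinLen B) : ∀ (N E : RR C G) (i : N.V →ₗ[C] E.V)
    (q : E.V →ₗ[C] B.V), SES N E B i q → FinLen N → FinLen E := by
  induction hB with
  | zero B hz =>
    intro N E i q hs hN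
    have hsurj : Function.Surjective i := fun e => (hs.ex e).1 (hz _)
    exact finLen_of_equiv hN (LinearEquiv.ofBijective i ⟨hs.inj, hsurj⟩) (fun g v => hs.hi g v)
  | step NB EB BB iB qB hses hN hirr hadm ih =>
    intro N E i q hs hFN
    let W : Submodule C E.V := (LinearMap.range iB).comap q
    have hW : E.Stable W := by
      intro g w hw
      show q (E.ρ g w) ∈ LinearMap.range iB
      rw [hs.hq g w]
      exact range_stable hses.hi g _ hw
    let E₁ : RR C G := E.sub W hW
    have hiW : ∀ n, i n ∈ W := fun n => by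
      show q (i n) ∈ LinearMap.range iB
      rw [hs.comp_zero n]
      exact Submodule.zero_mem _
    let i₁ : N.V →ₗ[C] E₁.V := i.codRestrict W hiW
    let eB := LinearEquiv.ofInjective iB hses.inj
    let q₁ : E₁.V →ₗ[C] NB.V :=
      eB.symm.toLinearMap.comp ((q.comp W.subtype).codRestrict (LinearMap.range iB) (fun w => w.2))
    have hq₁ : ∀ w : W, iB (q₁ w) = q w.1 := by
      intro w
      have h1 := eB.apply_symm_apply ⟨q w.1, w.2⟩
      exact congrArg Subtype.val h1
    have hses1 : SES N E₁ NB i₁ q₁ := by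
      refine ⟨?_, ?_, ?_, ?_, ?_⟩
      · intro g n
        apply Subtype.ext
        exact hs.hi g n
      · intro g w
        apply hses.inj
        rw [hq₁, hses.hi g, hq₁]
        exact hs.hq g w.1
      · intro a b hab
        exact hs.inj (congrArg Subtype.val hab)
      · intro nb
        obtain ⟨e, he⟩ := hs.surj (iB nb)
        refine ⟨⟨e, ⟨nb, he.symm⟩⟩, ?_⟩
        apply hses.inj
        rw [hq₁]
        exact he
      · intro w
        constructor
        · intro hw
          have h1 : q w.1 = 0 := by rw [← hq₁, hw, map_zero]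
          obtain ⟨n, hn⟩ := (hs.ex w.1).1 h1
          exact ⟨n, Subtype.ext hn⟩
        · rintro ⟨n, rfl⟩
          apply hses.inj
          rw [hq₁, map_zero]
          exact hs.comp_zero n
    have hses2 : SES E₁ E BB W.subtype (qB.comp q) := by
      refine ⟨sub_isHom E W hW, hs.hq.comp hses.hq, Subtype.val_injective,
        hses.surj.comp hs.surj, ?_⟩
      intro e
      constructor
      · intro he
        obtain ⟨nb, hnb⟩ := (hses.ex (q e)).1 he
        exact ⟨⟨e, ⟨nb, hnb⟩⟩, rfl⟩
      · rintro ⟨w, rfl⟩
        obtain ⟨nb, hnb⟩ := w.2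
        exact (hses.ex (q w.1)).2 ⟨nb, hnb⟩
    exact FinLen.step E₁ E BB _ _ hses2 (ih N E₁ i₁ q₁ hses1 hFN) hirr hadm

private theorem finLen_step₂ {M₀ N : RR C G} (h₀ : M₀.Irr) (h₀' : M₀.Adm) {W' : Submodule C N.V}
    (hW' : N.Stable W') (hF : FinLen (N.sub W' hW')) {g : M₀.V →ₗ[C] N.V} (hg : IsHom M₀ N g)
    {W : Submodule C N.V} (hW : N.Stable W) (hWW : W = W' ⊔ LinearMap.range g) :
    FinLen (N.sub W hW) := by
  have hst : M₀.Stable (W'.comap g) := by
    intro x m hm
    rw [Submodule.mem_comap] at hm ⊢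
    rw [hg x m]
    exact hW' x _ hm
  rcases h₀.2 _ hst with h | h
  · have huniq : ∀ m, g m ∈ W' → m = 0 := by
      intro m hm
      have : m ∈ W'.comap g := hm
      rw [h] at this
      exact (Submodule.mem_bot C).1 this
    have hex : ∀ w : W, ∃ m, (w : N.V) - g m ∈ W' := by
      intro w
      have h1 : (w : N.V) ∈ W' ⊔ LinearMap.range g := hWW ▸ w.2
      obtain ⟨a, ha, b, ⟨m, rfl⟩, hab⟩ := Submodule.mem_sup.1 h1
      refine ⟨m, ?_⟩
      rw [← hab, add_sub_cancel_right]
      exact ha
    choose q₀ hq₀ using hex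
    have huq : ∀ (w : W) (m : M₀.V), (w : N.V) - g m ∈ W' → q₀ w = m := by
      intro w m hm
      have h1 : g (q₀ w - m) ∈ W' := by
        have h2 := W'.sub_mem hm (hq₀ w)
        rw [map_sub]
        have h3 : (w : N.V) - g m - ((w : N.V) - g (q₀ w)) = g (q₀ w) - g m := by abel
        rw [h3] at h2
        exact h2
      exact sub_eq_zero.1 (huniq _ h1)
    let q : W →ₗ[C] M₀.V :=
      { toFun := q₀
        map_add' := fun a b => by
          apply huq
          have h1 := W'.add_mem (hq₀ a) (hq₀ b)
          rw [Submodule.coe_add, map_add]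
          have h3 : ((a : N.V) - g (q₀ a)) + ((b : N.V) - g (q₀ b)) =
            (a : N.V) + (b : N.V) - (g (q₀ a) + g (q₀ b)) := by abel
          rw [h3] at h1
          exact h1
        map_smul' := fun c a => by
          apply huq
          have h1 := W'.smul_mem c (hq₀ a)
          rw [Submodule.coe_smul, RingHom.id_apply, map_smul, ← smul_sub]
          exact h1 }
    have hle : W' ≤ W := by rw [hWW]; exact le_sup_left
    refine FinLen.step (N.sub W' hW') (N.sub W hW) M₀ (Submodule.inclusion hle) q ?_ hF h₀ h₀'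
    refine ⟨fun x w => rfl, ?_, Submodule.inclusion_injective hle, ?_, ?_⟩
    · intro x w
      apply huq
      show N.ρ x (w : N.V) - g (M₀.ρ x (q₀ w)) ∈ W'
      rw [hg x, ← map_sub]
      exact hW' x _ (hq₀ w)
    · intro m
      have hm : g m ∈ W := by
        rw [hWW]
        exact Submodule.mem_sup_right ⟨m, rfl⟩
      refine ⟨⟨g m, hm⟩, ?_⟩
      apply huq
      rw [sub_self]
      exact W'.zero_mem
    · intro e
      constructor
      · intro he
        have h1 := hq₀ e
        have he' : q₀ e = 0 := he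
        rw [he', map_zero, sub_zero] at h1
        exact ⟨⟨_, h1⟩, rfl⟩
      · rintro ⟨n, rfl⟩
        apply huq
        rw [map_zero, sub_zero]
        exact n.2
  · have h1 : LinearMap.range g ≤ W' := by
      rintro _ ⟨m, rfl⟩
      have : m ∈ W'.comap g := by rw [h]; exact Submodule.mem_top
      exact this
    have h2 : W = W' := by rw [hWW]; exact sup_eq_left.2 h1
    subst h2
    exact hF

omit [TopologicalSpace G] in
private theorem sup_stable₂ {N : RR C G} (n : ℕ) (M : Fin n → RR C G)
    (f : ∀ k, (M k).V →ₗ[C] N.V) (hf : ∀ k, IsHom (M k) N (f k)) :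
    N.Stable (⨆ k, LinearMap.range (f k)) := by
  intro x w hw
  induction hw using Submodule.iSup_induction' with
  | mem k y hy =>
    exact Submodule.mem_iSup_of_mem k (range_stable (hf k) x y hy)
  | zero =>
    rw [map_zero]
    exact Submodule.zero_mem _
  | add y z _ _ h1 h2 =>
    rw [map_add]
    exact Submodule.add_mem _ h1 h2

private theorem finLen_sum_aux {N : RR C G} (n : ℕ) (M : Fin n → RR C G) (hM : ∀ k, (M k).Irr)
    (hMa : ∀ k, (M k).Adm) (f : ∀ k, (M k).V →ₗ[C] N.V) (hf : ∀ k, IsHom (M k) N (f k))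
    (hW : N.Stable (⨆ k, LinearMap.range (f k))) :
    FinLen (N.sub (⨆ k, LinearMap.range (f k)) hW) := by
  induction n with
  | zero =>
    refine FinLen.zero _ ?_
    rintro ⟨v, hv⟩
    apply Subtype.ext
    rw [iSup_of_empty] at hv
    exact (Submodule.mem_bot C).1 hv
  | succ n ih =>
    refine finLen_step₂ (hM (Fin.last n)) (hMa (Fin.last n))
      (sup_stable₂ n (fun k => M k.castSucc) (fun k => f k.castSucc) (fun k => hf k.castSucc))
      (ih (fun k => M k.castSucc) (fun k => hM k.castSucc) (fun k => hMa k.castSucc)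
        (fun k => f k.castSucc) (fun k => hf k.castSucc) _) (hf (Fin.last n)) hW ?_
    apply le_antisymm
    · refine iSup_le fun k => ?_
      refine Fin.lastCases ?_ (fun k' => ?_) k
      · exact le_sup_right
      · exact le_sup_of_le_left (le_iSup (fun k : Fin n => LinearMap.range (f k.castSucc)) k')
    · refine sup_le (iSup_le fun k => ?_) ?_
      · exact le_iSup (fun k => LinearMap.range (f k)) k.castSucc
      · exact le_iSup (fun k => LinearMap.range (f k)) (Fin.last n)

theorem finLen_sum₂ {N : RR C G} (n : ℕ) (M : Fin n → RR C G) (hM : ∀ k, (M k).Irr)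
    (hMa : ∀ k, (M k).Adm) (f : ∀ k, (M k).V →ₗ[C] N.V) (hf : ∀ k, IsHom (M k) N (f k))
    (hsup : (⨆ k, LinearMap.range (f k)) = ⊤) : FinLen N := by
  have hW := sup_stable₂ n M f hf
  have h1 := finLen_sum_aux n M hM hMa f hf hW
  refine finLen_of_equiv h1 (LinearEquiv.ofTop _ hsup) ?_
  intro g v
  rfl

end Pool.Agent.IWE
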