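import Pool.Agent.IWE.Basic

/-! # IWE/FinSum (MP_88b97d_al, helper45)

Let `W_n = ∑_{k < n} range (f k)`. It is stable. Induction on `n` for `FinLen (N.sub W_n)`. `n = 0`: zero. Step: `f_n⁻¹ (W_n)` is a
stable subspace of the irreducible `M₀`: if it is everything then `W_{n+1} = W_n` (transport `FinLen` along the equality of
subspaces); if it is `0` then `f_n` is injective, `W_n ∩ range f_n = 0`, and `w + f_n m ↦ m` is a well defined surjection
`W_{n+1} → M₀` with kernel `W_n`: `FinLen.step` with `N := N.sub W_n`, `E := N.sub W_{n+1}`, `B := M₀`.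
-/

namespace Pool.Agent.IWE

open scoped TensorProduct

variable {C : Type} [Field C] {G : Type} [Group G] [TopologicalSpace G] {H : Type} [Group H] [TopologicalSpace H]


private theorem finLen_step {M₀ N : RR C G} (h₀ : M₀.Irr) (h₀' : M₀.Adm) {W' : Submodule C N.V}
    (hW' : N.Stable W') (hF : FinLen (N.sub W' hW')) {g : M₀.V →ₗ[C] N.V} (hg : IsHom M₀ N g)
    {W : Submodule C N.V} (hW : N.Stable W) (hWW : W = W' ⊔ LinearMap.range g) :
    FinLen (N.sub W hW) := by
  have hst : M₀.Stable (W'.comap g) := by
    intro x m hm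
    rw [Submodule.mem_comap] at hm ⊢
    rw [hg x m]
    exact hW' x _ hm
  rcases h₀.2 _ hst with h | h
  · have huniq : ∀ m, g m ∈ W' → m = 0 := by
      intro m hm
      have : m ∈ W'.comap g := hm
      rw [h] at this
      exact (Submodule.mem_bot C).1 this
    have hex : ∀ w : W, ∃ m, (w : N.V) - g m ∈ W' := by
      intro w
      have h1 : (w : N.V) ∈ W' ⊔ LinearMap.range g := hWW ▸ w.2
      obtain ⟨a, ha, b, ⟨m, rfl⟩, hab⟩ := Submodule.mem_sup.1 h1
      refine ⟨m, ?_⟩
      rw [← hab, add_sub_cancel_right]
      exact ha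
    choose q₀ hq₀ using hex
    have huq : ∀ (w : W) (m : M₀.V), (w : N.V) - g m ∈ W' → q₀ w = m := by
      intro w m hm
      have h1 : g (q₀ w - m) ∈ W' := by
        have h2 := W'.sub_mem hm (hq₀ w)
        rw [map_sub]
        have h3 : (w : N.V) - g m - ((w : N.V) - g (q₀ w)) = g (q₀ w) - g m := by abel
        rw [h3] at h2
        exact h2
      exact sub_eq_zero.1 (huniq _ h1)
    let q : W →ₗ[C] M₀.V :=
      { toFun := q₀
        map_add' := fun a b => by
          apply huq
          have h1 := W'.add_mem (hq₀ a) (hq₀ b)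
          rw [Submodule.coe_add, map_add]
          have h3 : ((a : N.V) - g (q₀ a)) + ((b : N.V) - g (q₀ b)) =
            (a : N.V) + (b : N.V) - (g (q₀ a) + g (q₀ b)) := by abel
          rw [h3] at h1
          exact h1
        map_smul' := fun c a => by
          apply huq
          have h1 := W'.smul_mem c (hq₀ a)
          rw [Submodule.coe_smul, RingHom.id_apply, map_smul, ← smul_sub]
          exact h1 }
    have hle : W' ≤ W := by rw [hWW]; exact le_sup_left
    refine FinLen.step (N.sub W' hW') (N.sub W hW) M₀ (Submodule.inclusion hle) q ?_ hF h₀ h₀'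
    refine ⟨fun x w => rfl, ?_, Submodule.inclusion_injective hle, ?_, ?_⟩
    · intro x w
      apply huq
      show N.ρ x (w : N.V) - g (M₀.ρ x (q₀ w)) ∈ W'
      rw [hg x, ← map_sub]
      exact hW' x _ (hq₀ w)
    · intro m
      have hm : g m ∈ W := by
        rw [hWW]
        exact Submodule.mem_sup_right ⟨m, rfl⟩
      refine ⟨⟨g m, hm⟩, ?_⟩
      apply huq
      rw [sub_self]
      exact W'.zero_mem
    · intro e
      constructor
      · intro he
        have h1 := hq₀ e
        have he' : q₀ e = 0 := he
        rw [he', map_zero, sub_zero] at h1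
        exact ⟨⟨_, h1⟩, rfl⟩
      · rintro ⟨n, rfl⟩
        apply huq
        rw [map_zero, sub_zero]
        exact n.2
  · have h1 : LinearMap.range g ≤ W' := by
      rintro _ ⟨m, rfl⟩
      have : m ∈ W'.comap g := by rw [h]; exact Submodule.mem_top
      exact this
    have h2 : W = W' := by rw [hWW]; exact sup_eq_left.2 h1
    subst h2
    exact hF

private theorem sup_stable {M₀ N : RR C G} (n : ℕ) (f : Fin n → (M₀.V →ₗ[C] N.V))
    (hf : ∀ k, IsHom M₀ N (f k)) : N.Stable (⨆ k, LinearMap.range (f k)) := by
  intro x w hw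
  induction hw using Submodule.iSup_induction' with
  | mem k y hy =>
    exact Submodule.mem_iSup_of_mem k (range_stable (hf k) x y hy)
  | zero =>
    rw [map_zero]
    exact Submodule.zero_mem _
  | add y z _ _ h1 h2 =>
    rw [map_add]
    exact Submodule.add_mem _ h1 h2

theorem finLen_sum {M₀ N : RR C G} (h₀ : M₀.Irr) (h₀' : M₀.Adm) (n : ℕ) (f : Fin n → (M₀.V →ₗ[C] N.V))
    (hf : ∀ k, IsHom M₀ N (f k)) (hW : N.Stable (⨆ k, LinearMap.range (f k))) :
    FinLen (N.sub (⨆ k, LinearMap.range (f k)) hW) := by
  induction n with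
  | zero =>
    refine FinLen.zero _ ?_
    rintro ⟨v, hv⟩
    apply Subtype.ext
    rw [iSup_of_empty] at hv
    exact (Submodule.mem_bot C).1 hv
  | succ n ih =>
    refine finLen_step h₀ h₀' (sup_stable n (fun k => f k.castSucc) (fun k => hf k.castSucc))
      (ih (fun k => f k.castSucc) (fun k => hf k.castSucc) _) (hf (Fin.last n)) hW ?_
    apply le_antisymm
    · refine iSup_le fun k => ?_
      refine Fin.lastCases ?_ (fun k' => ?_) k
      · exact le_sup_right
      · exact le_sup_of_le_left (le_iSup (fun k : Fin n => LinearMap.range (f k.castSucc)) k')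
    · refine sup_le (iSup_le fun k => ?_) ?_
      · exact le_iSup (fun k => LinearMap.range (f k)) k.castSucc
      · exact le_iSup (fun k => LinearMap.range (f k)) (Fin.last n)

end Pool.Agent.IWE
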