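import Pool.Agent.IWE.Basic

/-! # IWE/Fix (MP_88b97d_al, helper45)

Fixed vectors of pro-`p` groups. Let `0 ≠ w ∈ W`, fixed by the open subgroup `V`; `N ≤ V` normalised by `U`, `N ≤ U`,
`N.relIndex U = p ^ k`. The orbit `O` of `w` under `U` is finite (at most `p ^ k` elements: `N` fixes `w`). `X` = the additive
subgroup of `A.V` generated by `O`: finitely generated, killed by `p` (`CharP C p`), so finite; contained in `W`; stable under `U`;
`N` acts trivially on it (`n u w = u (u⁻¹ n u) w = u w`). `U` acts on the finite set `X` through a group of order dividing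
`p ^ k` (the image of `U` in `Equiv.Perm X`, or `U ⧸ N.subgroupOf U`), `0 ∈ X` is fixed, `p` divides `Nat.card X` (`X ≠ 0` is a
`p`-group); `IsPGroup.exists_fixed_point_of_prime_dvd_card_of_fixed_point` gives a second fixed point.
-/

namespace Pool.Agent.IWE

open scoped TensorProduct

variable {C : Type} [Field C] {G : Type} [Group G] [TopologicalSpace G] {H : Type} [Group H] [TopologicalSpace H]


theorem exists_fixed (p : ℕ) [Fact p.Prime] [CharP C p] {A : RR C G} (hs : A.Smooth) {U : Subgroup G}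
    (hU : ProP p U) (W : Submodule C A.V) (hW : ∀ g ∈ U, ∀ w ∈ W, A.ρ g w ∈ W) {w₀ : A.V} (hw₀ : w₀ ∈ W)
    (hne : w₀ ≠ 0) : ∃ w ∈ W, w ≠ 0 ∧ ∀ g ∈ U, A.ρ g w = w := by
  classical
  obtain ⟨V, hVo, hV⟩ := hs w₀
  obtain ⟨N, hNV, hNU, -, hnorm, k, hk⟩ := hU V hVo
  -- the structure of a vector space over `ZMod p`
  let _ : Algebra (ZMod p) C := ZMod.algebra C p
  let _ : Module (ZMod p) A.V := Module.compHom A.V (algebraMap (ZMod p) C)
  have hsm : ∀ (z : ZMod p) (v : A.V), z • v = (algebraMap (ZMod p) C z) • v := fun _ _ => rfl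
  -- the quotient group
  set N' : Subgroup U := N.subgroupOf U with hN'
  have hNn : N'.Normal := by
    refine ⟨fun n hn g => ?_⟩
    rw [hN', Subgroup.mem_subgroupOf] at hn ⊢
    exact hnorm g.1 g.2 n.1 hn
  have hcard : Nat.card (U ⧸ N') = p ^ k := hk
  have hpp : 0 < p := (Fact.out : p.Prime).pos
  have hfin : Finite (U ⧸ N') := by
    apply Nat.finite_of_card_ne_zero
    rw [hcard]
    positivity
  -- the orbit
  set O : Set A.V := Set.range (fun u : U => A.ρ u.1 w₀) with hO
  have hOfin : O.Finite := by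
    refine (Set.finite_range (fun q : U ⧸ N' => A.ρ (q.out : U).1 w₀)).subset ?_
    rintro _ ⟨u, rfl⟩
    refine ⟨(u : U ⧸ N'), ?_⟩
    obtain ⟨n, hn⟩ := QuotientGroup.mk_out_eq_mul N' u
    show A.ρ ((u : U ⧸ N').out : U).1 w₀ = A.ρ u.1 w₀
    rw [hn]
    show A.ρ (u.1 * n.1.1) w₀ = A.ρ u.1 w₀
    rw [RR.mul_apply, hV _ (hNV (Subgroup.mem_subgroupOf.1 n.2))]
  set X : Submodule (ZMod p) A.V := Submodule.span (ZMod p) O with hX
  have : Module.Finite (ZMod p) X := FiniteDimensional.span_of_finite (ZMod p) hOfin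
  have : Finite X := Module.finite_of_finite (ZMod p)
  have hw₀X : w₀ ∈ X := Submodule.subset_span ⟨1, by
    show A.ρ (1 : G) w₀ = w₀
    rw [RR.one_apply]⟩
  -- `X` is contained in `W`
  have hXW : ∀ x ∈ X, x ∈ W := by
    intro x hx
    induction hx using Submodule.span_induction with
    | mem x hx =>
      obtain ⟨u, rfl⟩ := hx
      exact hW u.1 u.2 w₀ hw₀
    | zero => exact W.zero_mem
    | add x y _ _ hx hy => exact W.add_mem hx hy
    | smul a x _ hx =>
      rw [hsm]
      exact W.smul_mem _ hx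
  -- `X` is stable
  have hst : ∀ (u : U) (x : A.V), x ∈ X → A.ρ u.1 x ∈ X := by
    intro u x hx
    induction hx using Submodule.span_induction with
    | mem x hx =>
      obtain ⟨u', rfl⟩ := hx
      refine Submodule.subset_span ⟨u * u', ?_⟩
      show A.ρ (u.1 * u'.1) w₀ = _
      rw [RR.mul_apply]
    | zero =>
      rw [map_zero]
      exact X.zero_mem
    | add x y _ _ hx hy =>
      rw [map_add]
      exact X.add_mem hx hy
    | smul a x _ hx =>
      rw [hsm, map_smul, ← hsm]
      exact X.smul_mem _ hx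
  -- `N` acts trivially
  have htr : ∀ n ∈ N, ∀ x : A.V, x ∈ X → A.ρ n x = x := by
    intro n hn x hx
    induction hx using Submodule.span_induction with
    | mem x hx =>
      obtain ⟨u, rfl⟩ := hx
      show A.ρ n (A.ρ u.1 w₀) = A.ρ u.1 w₀
      have h1 : u.1⁻¹ * n * u.1 ∈ N := by
        have := hnorm u.1⁻¹ (U.inv_mem u.2) n hn
        rwa [inv_inv] at this
      have h2 : n * u.1 = u.1 * (u.1⁻¹ * n * u.1) := by group
      rw [← RR.mul_apply, h2, RR.mul_apply, hV _ (hNV h1)]
    | zero => rw [map_zero]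
    | add x y _ _ hx hy => rw [map_add, hx, hy]
    | smul a x _ hx => rw [hsm, map_smul, hx]
  -- the action of the quotient group
  let act : MulAction U X :=
    { smul := fun u x => ⟨A.ρ u.1 x.1, hst u x.1 x.2⟩
      one_smul := fun x => Subtype.ext (RR.one_apply A x.1)
      mul_smul := fun u v x => Subtype.ext (RR.mul_apply A u.1 v.1 x.1) }
  have hact : ∀ (u : U) (x : X), ((u • x : X) : A.V) = A.ρ u.1 x.1 := fun _ _ => rfl
  let g : (U ⧸ N') →* Equiv.Perm X := QuotientGroup.lift N' (MulAction.toPermHom U X) (by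
    intro n hn
    rw [MonoidHom.mem_ker]
    ext x
    show A.ρ n.1 x.1 = x.1
    exact htr n.1 (Subgroup.mem_subgroupOf.1 hn) x.1 x.2)
  let act' : MulAction (U ⧸ N') X := MulAction.compHom X g
  have hact' : ∀ (u : U) (x : X), (((u : U ⧸ N') • x : X) : A.V) = A.ρ u.1 x.1 := fun _ _ => rfl
  have hP : IsPGroup p (U ⧸ N') := IsPGroup.of_card hcard
  have hdvd : p ∣ Nat.card X := by
    rw [Module.natCard_eq_pow_finrank (K := ZMod p) (V := X), Nat.card_zmod]
    apply dvd_pow_self
    intro h
    have h1 := (Module.finrank_zero_iff (R := ZMod p) (M := X)).1 h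
    apply hne
    exact congrArg Subtype.val (h1.elim ⟨w₀, hw₀X⟩ 0)
  have hfix : (0 : X) ∈ MulAction.fixedPoints (U ⧸ N') X := by
    intro q
    induction q using QuotientGroup.induction_on with
    | H u =>
      apply Subtype.ext
      rw [hact']
      exact map_zero _
  obtain ⟨b, hb, hb0⟩ := hP.exists_fixed_point_of_prime_dvd_card_of_fixed_point X hdvd hfix
  refine ⟨b.1, hXW b.1 b.2, fun h => hb0 (Subtype.ext h.symm), fun u hu => ?_⟩
  have h1 := hb ((⟨u, hu⟩ : U) : U ⧸ N')
  have h2 := congrArg Subtype.val h1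
  rwa [hact'] at h2

end Pool.Agent.IWE
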