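import Pool.Agent.IWE.Basic

/-! # IWE/Glue (MP_88b97d_al, helper45)

Gluing along `J = P ⊓ Q`. Let `Z` be injective and smooth for `J`, `i`, `j : A → Z` injective `J`-maps. Injectivity of `Z` (with
`X = A.res J`, `Y = Z`, smooth) gives `J`-maps `a, b : Z → Z` with `a ∘ i = j`, `b ∘ j = i`. `Θ : Z × Z → Z × Z` is the composite of
`(z, w) ↦ (z, w + a z)`, `(z, w) ↦ (z - b w, w)`, `(z, w) ↦ (w, z)`: a linear automorphism commuting with `J` and
`Θ (i v, 0) = (j v, 0)`. `P` acts on `Z × Z` by `ρP × ρP`, `Q` by `Θ⁻¹ ∘ (ρQ × ρQ) ∘ Θ`; they agree on `J`. `IsAmalgam` with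
`L = ((Z.V × Z.V) ≃ₗ[C] (Z.V × Z.V))` (or the units of `Module.End`) gives the action of `G`; `f v = (i v, 0)` is equivariant for
`P` and for `Q`, so for `G` (`isHom_of_sup`).
-/

namespace Pool.Agent.IWE

open scoped TensorProduct

variable {C : Type} [Field C] {G : Type} [Group G] [TopologicalSpace G] {H : Type} [Group H] [TopologicalSpace H]


theorem glue {A : RR C G} (hA : A.Smooth) {P Q : Subgroup G} (am : IsAmalgam P Q)
    (Z : RR C ↥(P ⊓ Q)) (hZ : Z.Inj) (hZs : Z.Smooth)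
    (ρP : Representation C P Z.V) (i : A.V →ₗ[C] Z.V)
    (hP : ∀ (g : G) (h : g ∈ P ⊓ Q) (z : Z.V), ρP ⟨g, h.1⟩ z = Z.ρ ⟨g, h⟩ z) (hi : Function.Injective i)
    (hPi : ∀ (g : P) (v : A.V), i (A.ρ g v) = ρP g (i v))
    (ρQ : Representation C Q Z.V) (j : A.V →ₗ[C] Z.V)
    (hQ : ∀ (g : G) (h : g ∈ P ⊓ Q) (z : Z.V), ρQ ⟨g, h.2⟩ z = Z.ρ ⟨g, h⟩ z) (hj : Function.Injective j)
    (hQj : ∀ (g : Q) (v : A.V), j (A.ρ g v) = ρQ g (j v)) :
    ∃ (ρ : Representation C G (Z.V × Z.V)) (f : A.V →ₗ[C] (Z.V × Z.V)),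
      (∀ (g : G) (h : g ∈ P ⊓ Q) (z : Z.V × Z.V), ρ g z = (Z.prod Z).ρ ⟨g, h⟩ z) ∧
      (∀ (g : G) (v : A.V), f (A.ρ g v) = ρ g (f v)) ∧ Function.Injective f := by
  have hiJ : IsHom (A.res (P ⊓ Q)) Z i := fun g v => by
    have h1 := hPi ⟨g.1, g.2.1⟩ v
    rw [hP g.1 g.2] at h1
    exact h1
  have hjJ : IsHom (A.res (P ⊓ Q)) Z j := fun g v => by
    have h1 := hQj ⟨g.1, g.2.2⟩ v
    rw [hQ g.1 g.2] at h1
    exact h1
  obtain ⟨a, ha, hai⟩ := hZ (A.res (P ⊓ Q)) Z (res_smooth hA _) hZs i hiJ hi j hjJ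
  obtain ⟨b, hb, hbj⟩ := hZ (A.res (P ⊓ Q)) Z (res_smooth hA _) hZs j hjJ hj i hiJ
  let e₁ : (Z.V × Z.V) ≃ₗ[C] (Z.V × Z.V) :=
    { toFun := fun x => (x.1, x.2 + a x.1)
      invFun := fun x => (x.1, x.2 - a x.1)
      map_add' := fun x y => by
        apply Prod.ext
        · rfl
        · show x.2 + y.2 + a (x.1 + y.1) = x.2 + a x.1 + (y.2 + a y.1)
          rw [map_add]
          abel
      map_smul' := fun c x => by
        apply Prod.ext
        · rfl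
        · show c • x.2 + a (c • x.1) = c • (x.2 + a x.1)
          rw [map_smul, smul_add]
      left_inv := fun x => by simp
      right_inv := fun x => by simp }
  let e₂ : (Z.V × Z.V) ≃ₗ[C] (Z.V × Z.V) :=
    { toFun := fun x => (x.2, x.1 - b x.2)
      invFun := fun x => (x.2 + b x.1, x.1)
      map_add' := fun x y => by
        apply Prod.ext
        · rfl
        · show x.1 + y.1 - b (x.2 + y.2) = x.1 - b x.2 + (y.1 - b y.2)
          rw [map_add]
          abel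
      map_smul' := fun c x => by
        apply Prod.ext
        · rfl
        · show c • x.1 - b (c • x.2) = c • (x.1 - b x.2)
          rw [map_smul, smul_sub]
      left_inv := fun x => by simp
      right_inv := fun x => by simp }
  let Θ : (Z.V × Z.V) ≃ₗ[C] (Z.V × Z.V) := e₁.trans e₂
  have hΘ : ∀ z w, Θ (z, w) = (w + a z, z - b (w + a z)) := fun z w => rfl
  have hΘi : ∀ v, Θ (i v, 0) = (j v, 0) := by
    intro v
    rw [hΘ, zero_add, hai, hbj, sub_self]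
  have hΘsi : ∀ v, Θ.symm (j v, 0) = (i v, 0) := fun v => by
    rw [← hΘi, LinearEquiv.symm_apply_apply]
  have hΘJ : ∀ (g : ↥(P ⊓ Q)) (z w : Z.V), Θ (Z.ρ g z, Z.ρ g w) =
      (Z.ρ g (Θ (z, w)).1, Z.ρ g (Θ (z, w)).2) := by
    intro g z w
    rw [hΘ, hΘ]
    simp only [map_add, map_sub]
    rw [ha g z, hb g w, hb g (a z)]
  -- the two actions
  let ρPP : Representation C P (Z.V × Z.V) :=
    { toFun := fun g => LinearMap.prodMap (ρP g) (ρP g)
      map_one' := by ext <;> simp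
      map_mul' := fun g h => by ext <;> simp }
  let ρQQ : Representation C Q (Z.V × Z.V) :=
    { toFun := fun g => LinearMap.prodMap (ρQ g) (ρQ g)
      map_one' := by ext <;> simp
      map_mul' := fun g h => by ext <;> simp }
  let Θu : (Module.End C (Z.V × Z.V))ˣ :=
    { val := Θ.toLinearMap
      inv := Θ.symm.toLinearMap
      val_inv := by
        apply LinearMap.ext
        intro x
        exact Θ.apply_symm_apply x
      inv_val := by
        apply LinearMap.ext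
        intro x
        exact Θ.symm_apply_apply x }
  let fP : P →* (Module.End C (Z.V × Z.V))ˣ := ρPP.asGroupHom
  let fQ : Q →* (Module.End C (Z.V × Z.V))ˣ :=
    (MulAut.conj Θu⁻¹).toMonoidHom.comp ρQQ.asGroupHom
  have hfP : ∀ (g : P) (x : Z.V × Z.V), (fP g).val x = (ρP g x.1, ρP g x.2) := fun g x => rfl
  have hfQ : ∀ (g : Q) (x : Z.V × Z.V), (fQ g).val x =
      Θ.symm (ρQ g (Θ x).1, ρQ g (Θ x).2) := fun g x => rfl
  obtain ⟨h, h1, h2⟩ := am.2 (Module.End C (Z.V × Z.V))ˣ fP fQ (by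
    intro x hxP hxQ
    apply Units.ext
    apply LinearMap.ext
    rintro ⟨z, w⟩
    rw [hfP, hfQ, hQ x ⟨hxP, hxQ⟩, hQ x ⟨hxP, hxQ⟩, hP x ⟨hxP, hxQ⟩, hP x ⟨hxP, hxQ⟩,
      ← hΘJ, LinearEquiv.symm_apply_apply])
  let ρ : Representation C G (Z.V × Z.V) := (Units.coeHom (Module.End C (Z.V × Z.V))).comp h
  have hρP : ∀ (g : G) (hg : g ∈ P) (x : Z.V × Z.V), ρ g x = (ρP ⟨g, hg⟩ x.1, ρP ⟨g, hg⟩ x.2) := by
    intro g hg x
    show (h g).val x = _
    rw [show h g = fP ⟨g, hg⟩ from h1 ⟨g, hg⟩]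
    exact hfP ⟨g, hg⟩ x
  have hρQ : ∀ (g : G) (hg : g ∈ Q) (x : Z.V × Z.V), ρ g x =
      Θ.symm (ρQ ⟨g, hg⟩ (Θ x).1, ρQ ⟨g, hg⟩ (Θ x).2) := by
    intro g hg x
    show (h g).val x = _
    rw [show h g = fQ ⟨g, hg⟩ from h2 ⟨g, hg⟩]
    exact hfQ ⟨g, hg⟩ x
  let f : A.V →ₗ[C] (Z.V × Z.V) := (LinearMap.inl C Z.V Z.V).comp i
  have hf : ∀ v, f v = (i v, 0) := fun v => rfl
  refine ⟨ρ, f, ?_, ?_, ?_⟩
  · intro g hg z
    rw [hρP g hg.1 z, hP g hg, hP g hg]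
    rfl
  · let B : RR C G := ⟨Z.V × Z.V, ρ⟩
    have hhom : IsHom A B f := by
      refine isHom_of_sup am.1 ?_ ?_
      · intro g hg v
        show f (A.ρ g v) = ρ g (f v)
        rw [hf, hf, hρP g hg, map_zero]
        exact Prod.ext (hPi ⟨g, hg⟩ v) rfl
      · intro g hg v
        show f (A.ρ g v) = ρ g (f v)
        rw [hf, hf, hρQ g hg, hΘi, map_zero]
        have h3 := hQj ⟨g, hg⟩ v
        rw [← h3, hΘsi]
    exact hhom
  · intro v w hvw
    exact hi (congrArg Prod.fst hvw)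

end Pool.Agent.IWE
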