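import Pool.Agent.IWE.Basic

/-! # IWE/LCfInj (MP_88b97d_al, helper45)

Uniformly locally constant functions. `LCf_smooth`: `U` from the definition fixes `f` (`(u·f)(x) = f(x u) = f(x)`).
`LCf_inj`: given `i : X → Y`, `h : X → LCf C G W`, the linear map `x ↦ (h x)(1)`, `X → W`, extends to `Λ : Y → W`
(`LinearMap.exists_extend` or a left inverse of `i`, everything over a field); `k y = (g ↦ Λ (g y))`, uniformly locally constant
because `y` is fixed by an open subgroup; `k (i x) g = (h (g x)) 1 = (g·h x)(1) = (h x)(g)`.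
`LCf_adm`: for `K` open, `fix K` injects in the functions `G ⧸ K → W` (`f (x g) = f x` for `g ∈ K`), and `G ⧸ K` is finite
(`Subgroup.quotient_finite_of_isOpen`).
-/

namespace Pool.Agent.IWE

open scoped TensorProduct

variable (C : Type) [Field C] (G : Type) [Group G] [TopologicalSpace G] [IsTopologicalGroup G]
  (W : Type) [AddCommGroup W] [Module C W]

theorem LCf_smooth : (LCf C G W).Smooth := by
  intro f
  obtain ⟨U, hU, hU'⟩ := f.2
  exact ⟨U, hU, fun g hg => Subtype.ext (funext fun x => hU' x g hg)⟩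

theorem LCf_inj : (LCf C G W).Inj := by
  intro X Y _ hY i hi hinj h hh
  obtain ⟨r, hr⟩ := LinearMap.exists_leftInverse_of_injective i (LinearMap.ker_eq_bot.2 hinj)
  have hr' : ∀ x, r (i x) = x := fun x => LinearMap.congr_fun hr x
  let ev : (LCf C G W).V →ₗ[C] W :=
    { toFun := fun f => f.1 1
      map_add' := fun a b => rfl
      map_smul' := fun c a => rfl }
  let Λ : Y.V →ₗ[C] W := ev.comp (h.comp r)
  have hΛ : ∀ x, Λ (i x) = (h x).1 1 := fun x => by
    show (h (r (i x))).1 1 = (h x).1 1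
    rw [hr']
  let k : Y.V →ₗ[C] (LCf C G W).V :=
    { toFun := fun y => ⟨fun g => Λ (Y.ρ g y), by
        obtain ⟨U, hU, hU'⟩ := hY y
        refine ⟨U, hU, fun x u hu => ?_⟩
        show Λ (Y.ρ (x * u) y) = Λ (Y.ρ x y)
        rw [RR.mul_apply, hU' u hu]⟩
      map_add' := fun a b => by
        apply Subtype.ext
        funext g
        show Λ (Y.ρ g (a + b)) = Λ (Y.ρ g a) + Λ (Y.ρ g b)
        rw [map_add, map_add]
      map_smul' := fun c a => by
        apply Subtype.ext
        funext g
        show Λ (Y.ρ g (c • a)) = c • Λ (Y.ρ g a)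
        rw [map_smul, map_smul] }
  refine ⟨k, ?_, ?_⟩
  · intro g v
    apply Subtype.ext
    funext x
    show Λ (Y.ρ x (Y.ρ g v)) = Λ (Y.ρ (x * g) v)
    rw [RR.mul_apply]
  · intro x
    apply Subtype.ext
    funext g
    show Λ (Y.ρ g (i x)) = (h x).1 g
    rw [← hi g x, hΛ, hh g x]
    show (h x).1 (1 * g) = (h x).1 g
    rw [one_mul]

theorem LCf_adm [CompactSpace G] [Module.Finite C W] : (LCf C G W).Adm := by
  refine ⟨LCf_smooth C G W, fun K hK _ => ?_⟩
  have hfin : Finite (G ⧸ K) := Subgroup.quotient_finite_of_isOpen K hK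
  let φ : (LCf C G W).fix K →ₗ[C] (G ⧸ K → W) :=
    { toFun := fun f c => f.1.1 c.out
      map_add' := fun a b => rfl
      map_smul' := fun c a => rfl }
  have hfix : ∀ f : (LCf C G W).fix K, ∀ x : G, f.1.1 x = f.1.1 ((x : G ⧸ K).out) := by
    intro f x
    obtain ⟨u, hu⟩ := QuotientGroup.mk_out_eq_mul K x
    have h1 := congrArg (fun z : (LCf C G W).V => z.1 x) (f.2 u.1 u.2)
    have h2 : f.1.1 (x * u.1) = f.1.1 x := h1
    rw [hu, h2]
  refine Module.Finite.of_injective φ ?_
  intro f f' hff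
  apply Subtype.ext
  apply Subtype.ext
  funext x
  rw [hfix f x, hfix f' x]
  exact congrFun hff _

end Pool.Agent.IWE
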