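import Pool.Agent.IWE.Fix
import Pool.Agent.IWE.LCfInj

/-! # IWE/Half (MP_88b97d_al, helper45)

Half of the rank one construction. `Z = LCf C J (Fin N → C)`.
(1) `U` is compact (`isCompact_of_le`), so `A.fix U` is finite dimensional of dimension `≤ c`: choose an injective linear map
`κ : A.fix U → (Fin c → C)` and a linear retraction `ℓ : A.V → A.fix U` of the inclusion. `ε v (x) = κ (ℓ (x v))`, `x : P`, is an
injective `P`-map `A → LCf C P (Fin c → C)`: the kernel of `v ↦ (x ↦ ℓ (x v))` is stable under `P ≥ U`; if it is not `0` it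
contains a `U`-fixed `w ≠ 0` by `exists_fixed`, but `ℓ w = w`.
(2) `m = J.relIndex P` is finite and nonzero (`J` open in the compact `P`). With representatives `x_s`, `s : Fin m`, of
`P ⧸ J` and `Fin N ≃ Fin m × Fin c`, `Φ f (y) (s, t) = f (x_s y) (t)` is a linear bijection
`LCf C P (Fin c → C) → LCf C J (Fin N → C)` (a function on `P` is the family of its restrictions to the cosets `x_s J`;
uniform local constancy: an open subgroup of `P` meets `J` in an open subgroup, and an open subgroup of `J` is open in `P`).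
(3) `ρP g = Φ ∘ (translation by g) ∘ Φ⁻¹`, `i = Φ ∘ ε`. For `g ∈ J`: `Φ (g f) (y) = f (x_s y g) = Φ f (y g)`.
-/

namespace Pool.Agent.IWE

open scoped TensorProduct

variable {C : Type} [Field C] {G : Type} [Group G] [TopologicalSpace G] [IsTopologicalGroup G]

private theorem half_kappa {X : Type} [AddCommGroup X] [Module C X] [Module.Finite C X] (c : ℕ)
    (hc : Module.finrank C X ≤ c) : ∃ κ : X →ₗ[C] (Fin c → C), Function.Injective κ := by
  let e := (Module.finBasis C X).equivFun
  let f : (Fin (Module.finrank C X) → C) →ₗ[C] (Fin c → C) :=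
    { toFun := fun v j => if h : (j : ℕ) < Module.finrank C X then v ⟨j, h⟩ else 0
      map_add' := fun v w => by
        funext j
        by_cases h : (j : ℕ) < Module.finrank C X
        · simp [h]
        · simp [h]
      map_smul' := fun a v => by
        funext j
        by_cases h : (j : ℕ) < Module.finrank C X
        · simp [h]
        · simp [h] }
  refine ⟨f.comp e.toLinearMap, ?_⟩
  have hf : Function.Injective f := by
    intro v w hvw
    funext j
    have h1 := congrFun hvw ⟨j, lt_of_lt_of_le j.2 hc⟩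
    have h2 : ∀ u : Fin (Module.finrank C X) → C, f u ⟨j, lt_of_lt_of_le j.2 hc⟩ = u j := by
      intro u
      show (if h : (j : ℕ) < Module.finrank C X then u ⟨j, h⟩ else 0) = u j
      rw [dif_pos j.2]
    rw [h2, h2] at h1
    exact h1
  exact hf.comp e.injective

/-- the component in `J` of an element of `P`, for the chosen representatives of `P ⧸ J` -/
private noncomputable def halfJel {J P : Subgroup G} (x : P) : J :=
  ⟨(((Quotient.out (QuotientGroup.mk x : P ⧸ J.subgroupOf P))⁻¹ * x : P) : G), by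
    have h1 : (QuotientGroup.mk (Quotient.out (QuotientGroup.mk x : P ⧸ J.subgroupOf P)) :
        P ⧸ J.subgroupOf P) = QuotientGroup.mk x := Quotient.out_eq' _
    have h2 := QuotientGroup.eq.1 h1
    exact Subgroup.mem_subgroupOf.1 h2⟩

private theorem halfJel_coe {J P : Subgroup G} (x : P) : ((halfJel (J := J) x : J) : G) =
    (((Quotient.out (QuotientGroup.mk x : P ⧸ J.subgroupOf P))⁻¹ * x : P) : G) := rfl

private theorem half_mk_mul {J P : Subgroup G} (x u : P) (hu : (u : G) ∈ J) :
    (QuotientGroup.mk (x * u) : P ⧸ J.subgroupOf P) = QuotientGroup.mk x := by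
  rw [QuotientGroup.eq]
  rw [mul_inv_rev, inv_mul_cancel_right]
  exact Subgroup.mem_subgroupOf.2 (J.inv_mem hu)

private theorem halfJel_mul {J P : Subgroup G} (hJP : J ≤ P) (x : P) (v : J) :
    halfJel (J := J) (x * ⟨v, hJP v.2⟩) = halfJel x * v := by
  apply Subtype.ext
  rw [Subgroup.coe_mul, halfJel_coe, halfJel_coe, half_mk_mul x _ v.2, ← mul_assoc]
  rfl

private theorem halfJel_out {J P : Subgroup G} (hJP : J ≤ P) (s : P ⧸ J.subgroupOf P) (y : J) :
    halfJel (J := J) (Quotient.out s * ⟨y, hJP y.2⟩) = y := by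
  apply Subtype.ext
  rw [halfJel_coe, half_mk_mul (Quotient.out s) (⟨y, hJP y.2⟩ : P) y.2]
  have h1 : (QuotientGroup.mk (Quotient.out s) : P ⧸ J.subgroupOf P) = s := Quotient.out_eq' s
  rw [h1, inv_mul_cancel_left]

private theorem half_phi {J P : Subgroup G} (hJP : J ≤ P) (oJ : IsOpen (J : Set G)) {c N : ℕ}
    (e : (P ⧸ J.subgroupOf P) × Fin c ≃ Fin N) :
    ∃ Φ : (LCf C P (Fin c → C)).V ≃ₗ[C] (LCf C J (Fin N → C)).V,
      ∀ (g : G) (hg : g ∈ J) (f : (LCf C P (Fin c → C)).V),
        Φ ((LCf C P (Fin c → C)).ρ ⟨g, hJP hg⟩ f) = (LCf C J (Fin N → C)).ρ ⟨g, hg⟩ (Φ f) := by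
  let Φ : (LCf C P (Fin c → C)).V ≃ₗ[C] (LCf C J (Fin N → C)).V :=
    { toFun := fun f => ⟨fun y k => f.1 (Quotient.out (e.symm k).1 * ⟨y, hJP y.2⟩) (e.symm k).2, by
        obtain ⟨V, hV, hV'⟩ := f.2
        refine ⟨V.comap (Subgroup.inclusion hJP), ?_, ?_⟩
        · exact hV.preimage (continuous_inclusion hJP)
        · intro y u hu
          funext k
          have h1 := hV' (Quotient.out (e.symm k).1 * ⟨y, hJP y.2⟩) (Subgroup.inclusion hJP u) hu
          have h2 : Quotient.out (e.symm k).1 * (⟨((y * u : J) : G), hJP (y * u).2⟩ : P) =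
              Quotient.out (e.symm k).1 * ⟨y, hJP y.2⟩ * Subgroup.inclusion hJP u := by
            rw [mul_assoc]
            rfl
          show f.1 (Quotient.out (e.symm k).1 * (⟨((y * u : J) : G), hJP (y * u).2⟩ : P))
            (e.symm k).2 = f.1 (Quotient.out (e.symm k).1 * ⟨y, hJP y.2⟩) (e.symm k).2
          rw [h2, h1]⟩
      map_add' := fun a b => rfl
      map_smul' := fun a b => rfl
      invFun := fun h => ⟨fun x t => h.1 (halfJel x) (e (QuotientGroup.mk x, t)), by
        obtain ⟨V, hV, hV'⟩ := h.2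
        refine ⟨(V.map J.subtype).subgroupOf P, ?_, ?_⟩
        · have h1 : IsOpen ((V.map J.subtype : Subgroup G) : Set G) := by
            rw [Subgroup.coe_map]
            exact oJ.isOpenMap_subtype_val _ hV
          exact h1.preimage continuous_subtype_val
        · intro x u hu
          obtain ⟨v, hv, hvu⟩ := Subgroup.mem_map.1 (Subgroup.mem_subgroupOf.1 hu)
          have h2 : u = (⟨v, hJP v.2⟩ : P) := Subtype.ext hvu.symm
          subst h2
          funext t
          show h.1 (halfJel (x * ⟨v, hJP v.2⟩)) (e (QuotientGroup.mk (x * ⟨v, hJP v.2⟩), t)) =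
            h.1 (halfJel x) (e (QuotientGroup.mk x, t))
          rw [halfJel_mul hJP, half_mk_mul x _ v.2, hV' (halfJel x) v hv]⟩
      left_inv := fun f => by
        apply Subtype.ext
        funext x t
        show f.1 (Quotient.out (e.symm (e (QuotientGroup.mk x, t))).1 *
          ⟨(halfJel (J := J) x : J), hJP (halfJel (J := J) x).2⟩)
            (e.symm (e (QuotientGroup.mk x, t))).2 = f.1 x t
        rw [Equiv.symm_apply_apply]
        have h1 : Quotient.out (QuotientGroup.mk x : P ⧸ J.subgroupOf P) *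
            (⟨(halfJel (J := J) x : J), hJP (halfJel (J := J) x).2⟩ : P) = x := by
          have h2 : (⟨(halfJel (J := J) x : J), hJP (halfJel (J := J) x).2⟩ : P) =
              (Quotient.out (QuotientGroup.mk x : P ⧸ J.subgroupOf P))⁻¹ * x := by
            apply Subtype.ext
            exact halfJel_coe x
          rw [h2, mul_inv_cancel_left]
        show f.1 (Quotient.out (QuotientGroup.mk x : P ⧸ J.subgroupOf P) *
            (⟨(halfJel (J := J) x : J), hJP (halfJel (J := J) x).2⟩ : P)) t = f.1 x t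
        rw [h1]
      right_inv := fun h => by
        apply Subtype.ext
        funext y k
        show h.1 (halfJel (Quotient.out (e.symm k).1 * ⟨y, hJP y.2⟩))
          (e (QuotientGroup.mk (Quotient.out (e.symm k).1 * ⟨y, hJP y.2⟩), (e.symm k).2)) = h.1 y k
        have h1 : (QuotientGroup.mk (Quotient.out (e.symm k).1) : P ⧸ J.subgroupOf P) =
          (e.symm k).1 := Quotient.out_eq' _
        rw [halfJel_out hJP, half_mk_mul (Quotient.out (e.symm k).1) (⟨y, hJP y.2⟩ : P) y.2, h1]
        rw [Prod.mk.eta, Equiv.apply_symm_apply] }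
  refine ⟨Φ, fun g hg f => ?_⟩
  apply Subtype.ext
  funext y k
  show f.1 (Quotient.out (e.symm k).1 * ⟨y, hJP y.2⟩ * ⟨g, hJP hg⟩) (e.symm k).2 =
    f.1 (Quotient.out (e.symm k).1 * ⟨((y * ⟨g, hg⟩ : J) : G), hJP (y * ⟨g, hg⟩ : J).2⟩)
      (e.symm k).2
  rw [mul_assoc]
  rfl

private theorem half_eps (p : ℕ) [Fact p.Prime] [CharP C p] {A : RR C G} (hA : A.Smooth)
    {P U : Subgroup G} (hUP : U ≤ P) (hU : ProP p U) (c : ℕ) (κ : A.fix U →ₗ[C] (Fin c → C))
    (hκ : Function.Injective κ) :
    ∃ ε : A.V →ₗ[C] (LCf C P (Fin c → C)).V, Function.Injective ε ∧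
      ∀ (g : P) (v : A.V), ε (A.ρ g v) = (LCf C P (Fin c → C)).ρ g (ε v) := by
  obtain ⟨ℓ, hℓ⟩ := (A.fix U).subtype.exists_leftInverse_of_injective
    (LinearMap.ker_eq_bot.2 Subtype.coe_injective)
  let ε : A.V →ₗ[C] (LCf C P (Fin c → C)).V :=
    { toFun := fun v => ⟨fun x => κ (ℓ (A.ρ x v)), by
        obtain ⟨V, hV, hV'⟩ := hA v
        refine ⟨V.subgroupOf P, hV.preimage continuous_subtype_val, ?_⟩
        intro x u hu
        have h1 : A.ρ ((x * u : P) : G) v = A.ρ (x : G) v := by
          rw [Subgroup.coe_mul, RR.mul_apply, hV' _ (Subgroup.mem_subgroupOf.1 hu)]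
        show κ (ℓ (A.ρ ((x * u : P) : G) v)) = κ (ℓ (A.ρ (x : G) v))
        rw [h1]⟩
      map_add' := fun v w => by
        apply Subtype.ext
        funext x
        show κ (ℓ (A.ρ x (v + w))) = κ (ℓ (A.ρ x v)) + κ (ℓ (A.ρ x w))
        rw [map_add, map_add, map_add]
      map_smul' := fun a v => by
        apply Subtype.ext
        funext x
        show κ (ℓ (A.ρ x (a • v))) = a • κ (ℓ (A.ρ x v))
        rw [map_smul, map_smul, map_smul] }
  have hε : ∀ v (x : P), (ε v).1 x = κ (ℓ (A.ρ x v)) := fun _ _ => rfl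
  refine ⟨ε, ?_, ?_⟩
  · rw [injective_iff_map_eq_zero]
    intro v hv
    by_contra hne
    let W : Submodule C A.V :=
      { carrier := {w | ∀ x : P, ℓ (A.ρ x w) = 0}
        add_mem' := fun {a b} ha hb x => by rw [map_add, map_add, ha x, hb x, add_zero]
        zero_mem' := fun x => by rw [map_zero, map_zero]
        smul_mem' := fun a w hw x => by rw [map_smul, map_smul, hw x, smul_zero] }
    have hW : ∀ g ∈ U, ∀ w ∈ W, A.ρ g w ∈ W := by
      intro g hg w hw x
      have h1 := hw (x * ⟨g, hUP hg⟩)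
      rw [Subgroup.coe_mul, RR.mul_apply] at h1
      exact h1
    have hvW : v ∈ W := by
      intro x
      have h1 : (ε v).1 x = 0 := by rw [hv]; rfl
      rw [hε] at h1
      exact (map_eq_zero_iff κ hκ).1 h1
    obtain ⟨w, hw, hw0, hfix⟩ := exists_fixed p hA hU W hW hvW hne
    have h1 : ℓ w = 0 := by
      have h2 := hw 1
      rw [Subgroup.coe_one, RR.one_apply] at h2
      exact h2
    have h2 : ℓ w = ⟨w, hfix⟩ := by
      have h3 := LinearMap.congr_fun hℓ (⟨w, hfix⟩ : A.fix U)
      exact h3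
    rw [h1] at h2
    exact hw0 (congrArg Subtype.val h2).symm
  · intro g v
    apply Subtype.ext
    funext x
    show κ (ℓ (A.ρ (x : G) (A.ρ (g : G) v))) = κ (ℓ (A.ρ ((x * g : P) : G) v))
    rw [Subgroup.coe_mul, RR.mul_apply]

theorem half (p : ℕ) [Fact p.Prime] [CharP C p] {A : RR C G} (hA : A.Adm) {J P U : Subgroup G}
    (hJP : J ≤ P) (oJ : IsOpen (J : Set G)) (cP : IsCompact (P : Set G)) (hUJ : U ≤ J)
    (oU : IsOpen (U : Set G)) (hU : ProP p U) (c : ℕ) (hc : Module.finrank C (A.fix U) ≤ c) (N : ℕ)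
    (hN : N = J.relIndex P * c) :
    ∃ (ρP : Representation C P (LCf C J (Fin N → C)).V) (i : A.V →ₗ[C] (LCf C J (Fin N → C)).V),
      (∀ (g : G) (hg : g ∈ J) (z : (LCf C J (Fin N → C)).V),
        ρP ⟨g, hJP hg⟩ z = (LCf C J (Fin N → C)).ρ ⟨g, hg⟩ z) ∧
      Function.Injective i ∧ ∀ (g : P) (v : A.V), i (A.ρ g v) = ρP g (i v) := by
  subst hN
  have hUP : U ≤ P := hUJ.trans hJP
  have hfin : Module.Finite C (A.fix U) := hA.2 U oU (isCompact_of_le oU cP hUP)
  obtain ⟨κ, hκ⟩ := half_kappa (C := C) (X := A.fix U) c hc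
  haveI : CompactSpace P := isCompact_iff_compactSpace.1 cP
  haveI hq : Finite (P ⧸ J.subgroupOf P) :=
    Subgroup.quotient_finite_of_isOpen _ (oJ.preimage continuous_subtype_val)
  let e : (P ⧸ J.subgroupOf P) × Fin c ≃ Fin (J.relIndex P * c) :=
    (Equiv.prodCongr (Finite.equivFinOfCardEq rfl) (Equiv.refl _)).trans finProdFinEquiv
  obtain ⟨Φ, hΦ⟩ := half_phi (C := C) hJP oJ e
  obtain ⟨ε, hεi, hεe⟩ := half_eps p hA.1 hUP hU c κ hκ
  refine ⟨{ toFun := fun g => Φ.toLinearMap ∘ₗ (LCf C P (Fin c → C)).ρ g ∘ₗ Φ.symm.toLinearMap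
            map_one' := by
              apply LinearMap.ext
              intro z
              show Φ ((LCf C P (Fin c → C)).ρ 1 (Φ.symm z)) = z
              rw [RR.one_apply, LinearEquiv.apply_symm_apply]
            map_mul' := fun g h => by
              apply LinearMap.ext
              intro z
              show Φ ((LCf C P (Fin c → C)).ρ (g * h) (Φ.symm z)) =
                Φ ((LCf C P (Fin c → C)).ρ g
                  (Φ.symm (Φ ((LCf C P (Fin c → C)).ρ h (Φ.symm z)))))
              rw [RR.mul_apply, LinearEquiv.symm_apply_apply] },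
    Φ.toLinearMap ∘ₗ ε, ?_, Φ.injective.comp hεi, ?_⟩
  · intro g hg z
    show Φ ((LCf C P (Fin c → C)).ρ ⟨g, hJP hg⟩ (Φ.symm z)) = _
    rw [hΦ g hg, LinearEquiv.apply_symm_apply]
  · intro g v
    show Φ (ε (A.ρ g v)) = Φ ((LCf C P (Fin c → C)).ρ g (Φ.symm (Φ (ε v))))
    rw [LinearEquiv.symm_apply_apply, hεe]

end Pool.Agent.IWE
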