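import Pool.Agent.IWE.IndRep

/-! # IWE/IndAdm (MP_88b97d_al, helper45)

With `x_j` from `exists_reps`; `(g F)(x_j) = F (x_j g x_j⁻¹ x_j) = (x_j g x_j⁻¹) F(x_j)` for `g ∈ G₀` (take `z = 1`, `h = x_j g x_j⁻¹`).
Smooth: `F (x_j)` is fixed by an open subgroup `V_j` of `G₀` (open in `G`); `g ∈ G₀` with `x_j g x_j⁻¹ ∈ V_j` for all `j` fixes `F`
(a finite intersection of open subgroups; `F` is determined by the `F (x_j)`: `ind_equiv`).
Admissible: for `K` open compact in `G`, `F ∈ fix K` gives `F (x_j)` fixed by `K_j = {h ∈ G₀ | x_j⁻¹ h x_j ∈ K}`, an open compact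
subgroup of `G₀` (the image of `K ∩ G₀`, closed in the compact `K`, under conjugation); so `fix K` injects in the finite product
of the finite dimensional spaces `B.fix K_j`.
-/

namespace Pool.Agent.IWE

open scoped TensorProduct

variable {C : Type} [Field C] {G : Type} [Group G] [TopologicalSpace G] [IsTopologicalGroup G]

omit [TopologicalSpace G] [IsTopologicalGroup G] in
private theorem ia_act {G₀ Z : Subgroup G} [G₀.Normal] {χ : Z →* Cˣ} {B : RR C G₀}
    (F : (ind G₀ Z χ B).V) (g : G₀) (x : G) :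
    ((ind G₀ Z χ B).ρ (g : G) F).1 x = B.ρ (MulAut.conjNormal x g) (F.1 x) := by
  have h1 := F.2 1 (MulAut.conjNormal x g) x
  rw [map_one, Units.val_one, one_smul] at h1
  rw [← h1]
  show F.1 (x * g) = _
  congr 1
  rw [MulAut.conjNormal_apply]
  simp

private theorem ia_cont {G₀ : Subgroup G} [G₀.Normal] (x : G) :
    Continuous (fun g : G₀ => MulAut.conjNormal x g) := by
  refine continuous_induced_rng.2 ?_
  have h1 : ((fun g : G₀ => (g : G)) ∘ fun g : G₀ => MulAut.conjNormal x g) =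
      fun g : G₀ => x * (g : G) * x⁻¹ := by
    funext g
    exact MulAut.conjNormal_apply x g
  rw [h1]
  fun_prop

omit [TopologicalSpace G] [IsTopologicalGroup G] in
private theorem ia_ext {G₀ Z : Subgroup G} (hZ : Z ≤ Subgroup.center G) (χ : Z →* Cˣ)
    {B : RR C G₀} {n : ℕ} {x : Fin n → G} (hx : ∀ g : G, ∃ (j : Fin n) (z : Z) (h : G₀), g = z * h * x j)
    (hx' : ∀ (j j' : Fin n) (z z' : Z) (h h' : G₀), (z : G) * h * x j = z' * h' * x j' →
      j = j' ∧ z = z' ∧ h = h') {F F' : (ind G₀ Z χ B).V} (h : ∀ j, F.1 (x j) = F'.1 (x j)) :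
    F = F' := by
  obtain ⟨Φ, hΦ⟩ := ind_equiv G₀ Z hZ χ B hx hx'
  apply Φ.injective
  funext j
  rw [hΦ, hΦ, h]

theorem ind_smooth (G₀ Z : Subgroup G) [G₀.Normal] (oG : IsOpen (G₀ : Set G))
    (hZ : Z ≤ Subgroup.center G) (hZG : Z ⊓ G₀ = ⊥) (hfin : (Z ⊔ G₀).FiniteIndex) (χ : Z →* Cˣ)
    {B : RR C G₀} (hB : B.Smooth) : (ind G₀ Z χ B).Smooth := by
  obtain ⟨n, x, hx, hx'⟩ := exists_reps G₀ Z hZG hfin
  intro F
  choose U hU hUF using fun j => hB (F.1 (x j))
  let V : Subgroup G₀ := ⨅ j, (U j).comap (MulAut.conjNormal (x j)).toMonoidHom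
  have hV : IsOpen (V : Set G₀) := by
    rw [Subgroup.coe_iInf]
    exact isOpen_iInter_of_finite fun j => (hU j).preimage (ia_cont (x j))
  refine ⟨V.map G₀.subtype, ?_, ?_⟩
  · rw [Subgroup.coe_map]
    exact oG.isOpenMap_subtype_val _ hV
  · rintro _ ⟨h, hh, rfl⟩
    refine ia_ext hZ χ hx hx' fun j => ?_
    have h1 := ia_act F h (x j)
    have h2 : h ∈ (U j).comap (MulAut.conjNormal (x j)).toMonoidHom := (Subgroup.mem_iInf.1 hh) j
    exact h1.trans (hUF j _ h2)

theorem ind_adm (G₀ Z : Subgroup G) [G₀.Normal] (oG : IsOpen (G₀ : Set G))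
    (hZ : Z ≤ Subgroup.center G) (hZG : Z ⊓ G₀ = ⊥) (hfin : (Z ⊔ G₀).FiniteIndex) (χ : Z →* Cˣ)
    {B : RR C G₀} (hB : B.Adm) : (ind G₀ Z χ B).Adm := by
  obtain ⟨n, x, hx, hx'⟩ := exists_reps G₀ Z hZG hfin
  refine ⟨ind_smooth G₀ Z oG hZ hZG hfin χ hB.1, fun K oK cK => ?_⟩
  have cl : IsClosed (G₀ : Set G) := Subgroup.isClosed_of_isOpen G₀ oG
  have oK' : IsOpen ((K.subgroupOf G₀ : Subgroup G₀) : Set G₀) := oK.preimage continuous_subtype_val
  have cK' : IsCompact ((K.subgroupOf G₀ : Subgroup G₀) : Set G₀) :=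
    cl.isClosedEmbedding_subtypeVal.isCompact_preimage cK
  let KK : Fin n → Subgroup G₀ := fun j =>
    (K.subgroupOf G₀).map (MulAut.conjNormal (x j)).toMonoidHom
  have hKK : ∀ j, Module.Finite C (B.fix (KK j)) := by
    intro j
    refine hB.2 (KK j) ?_ ?_
    · have h1 : ((KK j : Subgroup G₀) : Set G₀) =
          (fun g : G₀ => MulAut.conjNormal (x j)⁻¹ g) ⁻¹' ((K.subgroupOf G₀ : Subgroup G₀) : Set G₀) := by
        ext h
        constructor
        · rintro ⟨g, hg, rfl⟩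
          show MulAut.conjNormal (x j)⁻¹ (MulAut.conjNormal (x j) g) ∈ K.subgroupOf G₀
          rw [← MulAut.mul_apply, ← map_mul, inv_mul_cancel, map_one]
          exact hg
        · intro hh
          refine ⟨_, hh, ?_⟩
          show MulAut.conjNormal (x j) (MulAut.conjNormal (x j)⁻¹ h) = h
          rw [← MulAut.mul_apply, ← map_mul, mul_inv_cancel, map_one]
          rfl
      rw [h1]
      exact oK'.preimage (ia_cont _)
    · exact cK'.image (ia_cont (x j))
  let f : (ind G₀ Z χ B).fix K →ₗ[C] ((j : Fin n) → B.fix (KK j)) :=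
    { toFun := fun F j => ⟨F.1.1 (x j), by
        rintro _ ⟨g, hg, rfl⟩
        have h1 := ia_act F.1 g (x j)
        have h2 : (ind G₀ Z χ B).ρ (g : G) F.1 = F.1 := F.2 _ hg
        rw [h2] at h1
        exact h1.symm⟩
      map_add' := fun a b => rfl
      map_smul' := fun c a => rfl }
  refine Module.Finite.of_injective f ?_
  intro F F' hF
  apply Subtype.ext
  refine ia_ext hZ χ hx hx' fun j => ?_
  exact congrArg (fun u => (u j).1) hF

end Pool.Agent.IWE
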