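import Pool.Agent.IWE.Basic

/-! # IWE/IndDefs (MP_88b97d_al, helper45): induction from `Z × G₀` to `G`

`G₀` is a normal subgroup of `G`, `Z` a central subgroup with `Z ⊓ G₀ = ⊥`, `χ : Z →* Cˣ`, and `B` a representation of `G₀`.
`ind G₀ Z χ B` is the space of the functions `F : G → B` with `F (z h x) = χ(z) h F(x)`, with the action of `G` by right
translation.
-/

namespace Pool.Agent.IWE

variable {C : Type} [Field C] {G : Type} [Group G]

/-- the space of the induced representation -/
def indS (G₀ Z : Subgroup G) (χ : Z →* Cˣ) (B : RR C G₀) : Submodule C (G → B.V) where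
  carrier := {F | ∀ (z : Z) (h : G₀) (x : G), F (z * h * x) = (χ z : C) • B.ρ h (F x)}
  add_mem' := fun {a b} ha hb z h x => by
    rw [Pi.add_apply, Pi.add_apply, ha, hb, map_add, smul_add]
  zero_mem' := fun z h x => by simp
  smul_mem' := fun c F hF z h x => by
    rw [Pi.smul_apply, Pi.smul_apply, hF, map_smul, smul_comm]

/-- the induced representation -/
abbrev ind (G₀ Z : Subgroup G) (χ : Z →* Cˣ) (B : RR C G₀) : RR C G where
  V := indS G₀ Z χ B
  ρ :=
    { toFun := fun g =>
        { toFun := fun F => ⟨fun x => F.1 (x * g), fun z h x => by
            show F.1 (z * h * x * g) = _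
            rw [mul_assoc _ x g]
            exact F.2 z h (x * g)⟩
          map_add' := fun a b => rfl
          map_smul' := fun c a => rfl }
      map_one' := by
        apply LinearMap.ext
        intro f
        apply Subtype.ext
        funext x
        show f.1 (x * 1) = f.1 x
        rw [mul_one]
      map_mul' := fun g h => by
        apply LinearMap.ext
        intro f
        apply Subtype.ext
        funext x
        show f.1 (x * (g * h)) = f.1 (x * g * h)
        rw [mul_assoc] }

end Pool.Agent.IWE
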