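import Pool.Agent.IWE.LCfInj

/-! # IWE/Retract (MP_88b97d_al, helper45)

`inj_of_retract`: extend `s ∘ h` to `k` and take `r ∘ k`.
`exists_retract`: `e v = (g ↦ g v)` (in `LCs` because `v` is fixed by an open subgroup), a homomorphism, injective
(`e v 1 = v`); `LCf` is smooth (`LCf_smooth`), so `hA` applied to `X = A`, `Y = LCf C G A.V`, `h = id` gives `r`.
`inj_prod`: componentwise. `inj_comap`: pull `X`, `Y` back along `e.symm` (smooth: the image of an open subgroup under the
homeomorphism is open, i.e. use `Subgroup.comap e.symm`), a homomorphism for one structure is one for the other.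
`inj_bot`: a representation of a trivial group (`Subsingleton`) is injective: extend a linear map.
-/

namespace Pool.Agent.IWE

open scoped TensorProduct

variable {C : Type} [Field C] {G : Type} [Group G] [TopologicalSpace G] {H : Type} [Group H] [TopologicalSpace H]

theorem inj_of_retract {A B : RR C G} (s : A.V →ₗ[C] B.V) (r : B.V →ₗ[C] A.V) (hs : IsHom A B s)
    (hr : IsHom B A r) (h : ∀ v, r (s v) = v) (hB : B.Inj) : A.Inj := by
  intro X Y hX hY i hi inj f hf
  obtain ⟨k, hk, hki⟩ := hB X Y hX hY i hi inj (s.comp f) (hf.comp hs)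
  refine ⟨r.comp k, hk.comp hr, fun x => ?_⟩
  show r (k (i x)) = f x
  rw [hki]
  exact h (f x)

theorem exists_retract [IsTopologicalGroup G] {A : RR C G} (hs : A.Smooth) (hA : A.Inj) :
    ∃ (e : A.V →ₗ[C] (LCf C G A.V).V) (r : (LCf C G A.V).V →ₗ[C] A.V), IsHom A (LCf C G A.V) e ∧
      IsHom (LCf C G A.V) A r ∧ (∀ v, r (e v) = v) ∧ ∀ v g, (e v).1 g = A.ρ g v := by
  let e : A.V →ₗ[C] (LCf C G A.V).V :=
    { toFun := fun v => ⟨fun g => A.ρ g v, by
        obtain ⟨U, hU, h⟩ := hs v
        refine ⟨U, hU, fun x u hu => ?_⟩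
        show A.ρ (x * u) v = A.ρ x v
        rw [RR.mul_apply, h u hu]⟩
      map_add' := fun v w => by
        apply Subtype.ext
        funext g
        exact map_add (A.ρ g) v w
      map_smul' := fun c v => by
        apply Subtype.ext
        funext g
        exact map_smul (A.ρ g) c v }
  have he : ∀ v g, (e v).1 g = A.ρ g v := fun v g => rfl
  have heh : IsHom A (LCf C G A.V) e := by
    intro g v
    apply Subtype.ext
    funext x
    show A.ρ x (A.ρ g v) = A.ρ (x * g) v
    rw [RR.mul_apply]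
  have hinj : Function.Injective e := by
    intro v w hvw
    have h1 : (e v).1 1 = (e w).1 1 := by rw [hvw]
    rw [he, he, RR.one_apply, RR.one_apply] at h1
    exact h1
  obtain ⟨r, hr, hre⟩ := hA A (LCf C G A.V) hs (LCf_smooth C G A.V) e heh hinj LinearMap.id
    (isHom_id A)
  exact ⟨e, r, heh, hr, hre, he⟩

theorem inj_prod {A B : RR C G} (hA : A.Inj) (hB : B.Inj) : (A.prod B).Inj := by
  intro X Y hX hY i hi inj f hf
  obtain ⟨k₁, hk₁, hki₁⟩ := hA X Y hX hY i hi inj ((LinearMap.fst C A.V B.V).comp f)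
    (fun g v => congrArg Prod.fst (hf g v))
  obtain ⟨k₂, hk₂, hki₂⟩ := hB X Y hX hY i hi inj ((LinearMap.snd C A.V B.V).comp f)
    (fun g v => congrArg Prod.snd (hf g v))
  refine ⟨LinearMap.prod k₁ k₂, fun g v => ?_, fun x => ?_⟩
  · exact Prod.ext (hk₁ g v) (hk₂ g v)
  · exact Prod.ext (hki₁ x) (hki₂ x)

theorem inj_comap (e : G ≃* H) (he : Continuous e) (he' : Continuous e.symm) {A : RR C H} (hA : A.Inj) :
    (A.comap e.toMonoidHom).Inj := by
  intro X Y hX hY i hi inj f hf
  have hsm : ∀ Z : RR C G, Z.Smooth → (Z.comap e.symm.toMonoidHom).Smooth := by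
    intro Z hZ v
    obtain ⟨U, hU, h⟩ := hZ v
    exact ⟨U.comap e.symm.toMonoidHom, hU.preimage he', fun g hg => h _ hg⟩
  have hf' : IsHom (X.comap e.symm.toMonoidHom) A f := by
    intro g v
    have h1 := hf (e.symm g) v
    have h2 : (A.comap e.toMonoidHom).ρ (e.symm g) (f v) = A.ρ g (f v) := by
      show A.ρ (e (e.symm g)) (f v) = A.ρ g (f v)
      rw [MulEquiv.apply_symm_apply]
    rw [h2] at h1
    exact h1
  obtain ⟨k, hk, hki⟩ := hA (X.comap e.symm.toMonoidHom) (Y.comap e.symm.toMonoidHom) (hsm X hX)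
    (hsm Y hY) i (fun g v => hi (e.symm g) v) inj f hf'
  refine ⟨k, fun g v => ?_, hki⟩
  have h1 := hk (e g) v
  have h2 : (Y.comap e.symm.toMonoidHom).ρ (e g) v = Y.ρ g v := by
    show Y.ρ (e.symm (e g)) v = Y.ρ g v
    rw [MulEquiv.symm_apply_apply]
  rw [h2] at h1
  exact h1

theorem inj_bot [Subsingleton G] (A : RR C G) : A.Inj := by
  intro X Y hX hY i hi inj f hf
  obtain ⟨p, hp⟩ := i.exists_leftInverse_of_injective (LinearMap.ker_eq_bot.2 inj)
  refine ⟨f.comp p, fun g v => ?_, fun x => ?_⟩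
  · have h1 : g = 1 := Subsingleton.elim _ _
    rw [h1, RR.one_apply, RR.one_apply]
  · show f (p (i x)) = f x
    have h2 : p (i x) = x := LinearMap.congr_fun hp x
    rw [h2]

end Pool.Agent.IWE
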