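import Pool.Agent.IWE.IndRep
import Pool.Agent.IWE.Retract

/-! # IWE/IndInj (MP_88b97d_al, helper45)

`I` is a subgroup of `G₀` all of whose `G`-conjugates are `G₀`-conjugate to it.
(1) If `B.InjOn I` then `B.InjOn (I.map (conj y))` for `y ∈ G₀`: the linear automorphism `B.ρ y` intertwines (`inj_comap` along
the isomorphism `I ≃* y I y⁻¹`, then `inj_of_retract` with `B.ρ y`, `B.ρ y⁻¹`).
(2) So `B.InjOn I_j` for `I_j = x_j I x_j⁻¹` (`hconj`).
(3) Let `i : X → Y`, `h : X → ind` be `I`-equivariant (`I.map G₀.subtype` as a topological group is isomorphic to `I`). For each `j`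
the map `X → B`, `x ↦ (h x)(x_j)`, is equivariant for `I` acting on `B` through `κ ↦ x_j κ x_j⁻¹ ∈ I_j`; it extends to `k_j : Y → B` with
the same equivariance (`B.InjOn I_j` transported along the isomorphism `I ≃* I_j`, `inj_comap`). `k y` = the element of `ind` with
`(k y)(x_j) = k_j y` (`ind_equiv`); it is `I`-equivariant because `(κ F)(x_j) = (x_j κ x_j⁻¹) F (x_j)`, and `k (i x) = h x`.
-/

namespace Pool.Agent.IWE

open scoped TensorProduct

variable {C : Type} [Field C] {G : Type} [Group G] [TopologicalSpace G] [IsTopologicalGroup G]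

theorem injOn_conj {B : RR C G} {I : Subgroup G} (hB : B.InjOn I) (y : G) :
    B.InjOn (I.map (MulAut.conj y).toMonoidHom) := by
  obtain ⟨e, he⟩ : ∃ e : ↥(I.map (MulAut.conj y).toMonoidHom) ≃* I,
      ∀ κ, ((e κ : I) : G) = y⁻¹ * κ * y := by
    have hin : Function.Injective ⇑((MulAut.conj y).toMonoidHom) := (MulAut.conj y).injective
    refine ⟨(Subgroup.equivMapOfInjective I (MulAut.conj y).toMonoidHom hin).symm, ?_⟩
    intro κ
    obtain ⟨κ', rfl⟩ := (Subgroup.equivMapOfInjective I (MulAut.conj y).toMonoidHom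
      hin).surjective κ
    rw [MulEquiv.symm_apply_apply]
    show (κ' : G) = y⁻¹ * (y * κ' * y⁻¹) * y
    group
  have he' : ∀ η, ((e.symm η : ↥(I.map (MulAut.conj y).toMonoidHom)) : G) = y * η * y⁻¹ := by
    intro η
    have h1 := he (e.symm η)
    rw [MulEquiv.apply_symm_apply] at h1
    rw [h1]
    group
  have hc : Continuous e := by
    refine continuous_induced_rng.2 ?_
    have h1 : (Subtype.val ∘ e : _ → G) =
        fun κ : ↥(I.map (MulAut.conj y).toMonoidHom) => y⁻¹ * (κ : G) * y := funext he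
    rw [h1]
    fun_prop
  have hc' : Continuous e.symm := by
    refine continuous_induced_rng.2 ?_
    have h1 : (Subtype.val ∘ e.symm : _ → G) = fun κ : ↥I => y * (κ : G) * y⁻¹ := funext he'
    rw [h1]
    fun_prop
  have h1 := inj_comap e hc hc' (A := B.res I) hB
  refine inj_of_retract (A := B.res (I.map (MulAut.conj y).toMonoidHom))
    (B := (B.res I).comap e.toMonoidHom) (B.ρ y⁻¹) (B.ρ y) ?_ ?_ ?_ h1
  · intro κ v
    show B.ρ y⁻¹ (B.ρ (κ : G) v) = B.ρ ((e κ : I) : G) (B.ρ y⁻¹ v)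
    rw [he, ← RR.mul_apply, ← RR.mul_apply]
    congr 2
    group
  · intro κ v
    show B.ρ y (B.ρ ((e κ : I) : G) v) = B.ρ (κ : G) (B.ρ y v)
    rw [he, ← RR.mul_apply, ← RR.mul_apply]
    congr 2
    group
  · intro v
    exact RR.apply_inv B y v

theorem ind_injOn (G₀ Z : Subgroup G) [G₀.Normal]
    (hZ : Z ≤ Subgroup.center G) (hZG : Z ⊓ G₀ = ⊥) (hfin : (Z ⊔ G₀).FiniteIndex) (χ : Z →* Cˣ)
    {B : RR C G₀} {I : Subgroup G₀} (hB : B.InjOn I)
    (hconj : ∀ g : G, ∃ y : G₀, I.map (MulAut.conjNormal g).toMonoidHom = I.map (MulAut.conj y).toMonoidHom) :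
    (ind G₀ Z χ B).InjOn (I.map G₀.subtype) := by
  obtain ⟨n, x, hx, hx'⟩ := exists_reps G₀ Z hZG hfin
  obtain ⟨Φ, hΦ⟩ := ind_equiv G₀ Z hZ χ B hx hx'
  -- the isomorphisms
  have hiso : ∀ g : G, ∃ e : ↥(I.map G₀.subtype) ≃* ↥(I.map (MulAut.conjNormal g).toMonoidHom),
      ∀ κ, (((e κ : ↥(I.map (MulAut.conjNormal g).toMonoidHom)) : G₀) : G) = g * κ * g⁻¹ := by
    intro g
    have hin : Function.Injective ⇑((MulAut.conjNormal g : MulAut G₀).toMonoidHom) :=
      (MulAut.conjNormal g : MulAut G₀).injective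
    refine ⟨(Subgroup.equivMapOfInjective I G₀.subtype G₀.subtype_injective).symm.trans
      (Subgroup.equivMapOfInjective I (MulAut.conjNormal g).toMonoidHom hin), ?_⟩
    intro κ
    obtain ⟨κ', rfl⟩ := (Subgroup.equivMapOfInjective I G₀.subtype
      G₀.subtype_injective).surjective κ
    rw [MulEquiv.trans_apply, MulEquiv.symm_apply_apply]
    exact MulAut.conjNormal_apply g (κ' : G₀)
  -- the injectivity
  have hinj : ∀ g : G, ∃ e : ↥(I.map G₀.subtype) ≃* ↥(I.map (MulAut.conjNormal g).toMonoidHom),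
      (∀ κ, (((e κ : ↥(I.map (MulAut.conjNormal g).toMonoidHom)) : G₀) : G) = g * κ * g⁻¹) ∧
      ((B.res (I.map (MulAut.conjNormal g).toMonoidHom)).comap e.toMonoidHom).Inj := by
    intro g
    obtain ⟨e, he⟩ := hiso g
    refine ⟨e, he, ?_⟩
    have he' : ∀ η, ((e.symm η : ↥(I.map G₀.subtype)) : G) = g⁻¹ * ((η : G₀) : G) * g := by
      intro η
      have h1 := he (e.symm η)
      rw [MulEquiv.apply_symm_apply] at h1
      rw [h1]
      group
    have hc : Continuous e := by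
      refine continuous_induced_rng.2 (continuous_induced_rng.2 ?_)
      have h1 : (Subtype.val ∘ (Subtype.val ∘ e) : _ → G) =
          fun κ : ↥(I.map G₀.subtype) => g * (κ : G) * g⁻¹ := funext he
      rw [h1]
      fun_prop
    have hc' : Continuous e.symm := by
      refine continuous_induced_rng.2 ?_
      have h1 : (Subtype.val ∘ e.symm : _ → G) =
          fun η : ↥(I.map (MulAut.conjNormal g : MulAut G₀).toMonoidHom) =>
            g⁻¹ * ((η : G₀) : G) * g := funext he'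
      rw [h1]
      fun_prop
    obtain ⟨y, hy⟩ := hconj g
    have h2 : B.InjOn (I.map (MulAut.conjNormal g).toMonoidHom) := by
      rw [hy]
      exact injOn_conj hB y
    exact inj_comap e hc hc' h2
  choose e he hinj using fun j => hinj (x j)
  -- the values of the functions
  have hval : ∀ (F : (ind G₀ Z χ B).V) (j : Fin n) (κ : ↥(I.map G₀.subtype)),
      F.1 (x j * κ) = B.ρ (e j κ : G₀) (F.1 (x j)) := by
    intro F j κ
    have h1 := F.2 1 (e j κ : G₀) (x j)
    have h2 : ((1 : Z) : G) * ((e j κ : G₀) : G) * x j = x j * κ := by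
      rw [he]
      simp
    rw [h2, map_one] at h1
    rw [h1]
    simp
  intro X Y hX hY i hi inj h hh
  have hk : ∀ j : Fin n, ∃ k : Y.V →ₗ[C] B.V,
      (∀ (κ : ↥(I.map G₀.subtype)) (v : Y.V), k (Y.ρ κ v) = B.ρ (e j κ : G₀) (k v)) ∧
      ∀ v, k (i v) = (h v).1 (x j) := by
    intro j
    obtain ⟨hj, hhj⟩ : ∃ hj : X.V →ₗ[C] B.V, ∀ v, hj v = (h v).1 (x j) :=
      ⟨(LinearMap.proj (x j)) ∘ₗ (indS G₀ Z χ B).subtype ∘ₗ h, fun v => rfl⟩
    obtain ⟨k, hk1, hk2⟩ := hinj j X Y hX hY i hi inj hj (by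
      intro κ v
      rw [hhj, hh κ v]
      show (h v).1 (x j * κ) = B.ρ (e j κ : G₀) (hj v)
      rw [hval, hhj])
    exact ⟨k, fun κ v => hk1 κ v, fun v => (hk2 v).trans (hhj v)⟩
  choose k hk1 hk2 using hk
  refine ⟨Φ.symm.toLinearMap ∘ₗ LinearMap.pi k, ?_, ?_⟩
  · intro κ v
    apply Φ.injective
    funext j
    have h3 : ∀ w j, Φ ((Φ.symm.toLinearMap ∘ₗ LinearMap.pi k) w) j = k j w := by
      intro w j
      show Φ (Φ.symm (LinearMap.pi k w)) j = k j w
      rw [LinearEquiv.apply_symm_apply]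
      rfl
    rw [h3, hk1, hΦ]
    show _ = ((Φ.symm.toLinearMap ∘ₗ LinearMap.pi k) v).1 (x j * κ)
    rw [hval, ← hΦ, h3]
  · intro v
    apply Φ.injective
    funext j
    show Φ (Φ.symm (LinearMap.pi k (i v))) j = _
    rw [LinearEquiv.apply_symm_apply, hΦ, ← hk2]
    rfl

end Pool.Agent.IWE
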