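import Pool.Agent.IWE.IndInj

/-! # IWE/IndInj2 (MP_88b97d_al, helper45)

The induced representation is injective on a subgroup `I` of `G` with `I ∩ Z G₀ = I₀`.
-/

namespace Pool.Agent.IWE

open scoped TensorProduct

variable {C : Type} [Field C] {G : Type} [Group G] [TopologicalSpace G] [IsTopologicalGroup G]

/-- the conjugate by `g` of a representation injective on `I₀` is injective on `I₀` -/
theorem twist_inj (G₀ : Subgroup G) [G₀.Normal] {B : RR C G₀} {I : Subgroup G₀} (hB : B.InjOn I)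
    (hconj : ∀ g : G, ∃ y : G₀, I.map (MulAut.conjNormal g).toMonoidHom = I.map (MulAut.conj y).toMonoidHom)
    (r : G) : ((B.comap (MulAut.conjNormal r : MulAut G₀).toMonoidHom).res I).Inj := by
  obtain ⟨y, hy⟩ := hconj r
  have h1 : B.InjOn (I.map (MulAut.conjNormal r : MulAut G₀).toMonoidHom) := by
    rw [hy]
    exact injOn_conj hB y
  let e : G₀ ≃* G₀ := (MulAut.conjNormal r : MulAut G₀)
  let φ : I ≃* (I.map e.toMonoidHom : Subgroup G₀) := e.subgroupMap I
  have hc : Continuous e := by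
    rw [continuous_induced_rng]
    show Continuous fun x : G₀ => ((MulAut.conjNormal r x : G₀) : G)
    simp only [MulAut.conjNormal_apply]
    fun_prop
  have hc' : Continuous e.symm := by
    rw [continuous_induced_rng]
    show Continuous fun x : G₀ => (((MulAut.conjNormal r : MulAut G₀).symm x : G₀) : G)
    simp only [MulAut.conjNormal_symm_apply]
    fun_prop
  have hφ : ∀ x : I, ((φ x : (I.map e.toMonoidHom : Subgroup G₀)) : G₀) = e x := fun x => rfl
  have hφs : ∀ x : (I.map e.toMonoidHom : Subgroup G₀), ((φ.symm x : I) : G₀) = e.symm x := by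
    intro x
    obtain ⟨y, rfl⟩ := φ.surjective x
    rw [MulEquiv.symm_apply_apply, hφ, MulEquiv.symm_apply_apply]
  have h2 : Continuous φ := by
    rw [continuous_induced_rng]
    exact hc.comp continuous_subtype_val
  have h3 : Continuous φ.symm := by
    rw [continuous_induced_rng]
    have h4 : (Subtype.val ∘ φ.symm) = fun x : (I.map e.toMonoidHom : Subgroup G₀) =>
        e.symm (x : G₀) := funext hφs
    rw [h4]
    exact hc'.comp continuous_subtype_val
  exact inj_comap φ h2 h3 h1

theorem ind_injOn₂ (G₀ Z : Subgroup G) [G₀.Normal]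
    (hZ : Z ≤ Subgroup.center G) (hZG : Z ⊓ G₀ = ⊥) (χ : Z →* Cˣ)
    {B : RR C G₀} {I₀ : Subgroup G₀} (hB : B.InjOn I₀)
    (hconj : ∀ g : G, ∃ y : G₀, I₀.map (MulAut.conjNormal g).toMonoidHom = I₀.map (MulAut.conj y).toMonoidHom)
    (I : Subgroup G) (hI : I ⊓ (Z ⊔ G₀) = I₀.map G₀.subtype) :
    (ind G₀ Z χ B).InjOn I := by
  intro X Y hX hY i hi hinj h hh
  -- the inclusion of `I₀` in `I`
  have hle : ∀ x : I₀, ((x : G₀) : G) ∈ I := fun x => by
    have h1 : ((x : G₀) : G) ∈ I ⊓ (Z ⊔ G₀) := by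
      rw [hI]
      exact ⟨x, x.2, rfl⟩
    exact h1.1
  let ι : I₀ →* I :=
    { toFun := fun x => ⟨((x : G₀) : G), hle x⟩
      map_one' := rfl
      map_mul' := fun a b => rfl }
  have hιc : Continuous ι := by
    show Continuous fun x : I₀ => (⟨((x : G₀) : G), hle x⟩ : I)
    exact Continuous.subtype_mk (continuous_subtype_val.comp continuous_subtype_val) _
  have hsm : ∀ W : RR C I, W.Smooth → (W.comap ι).Smooth := by
    intro W hW v
    obtain ⟨U, hU, h⟩ := hW v
    exact ⟨U.comap ι, hU.preimage hιc, fun g hg => h _ hg⟩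
  -- double cosets
  have hz : ∀ (z : Z) (g : G), (z : G) * g = g * z := fun z g =>
    ((Subgroup.mem_center_iff.1 (hZ z.2)) g).symm
  let S : Setoid G :=
    { r := fun x y => ∃ (z : Z) (a : G₀) (κ : I), y = z * a * x * κ
      iseqv :=
        { refl := fun x => ⟨1, 1, 1, by simp⟩
          symm := by
            rintro x y ⟨z, a, κ, rfl⟩
            refine ⟨z⁻¹, a⁻¹, κ⁻¹, ?_⟩
            have h1 := hz z ((a : G)⁻¹)
            push_cast
            calc x = (z : G)⁻¹ * (z * (a : G)⁻¹) * a * x := by group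
              _ = (z : G)⁻¹ * ((a : G)⁻¹ * z) * a * x := by rw [h1]
              _ = _ := by group
          trans := by
            rintro x y w ⟨z, a, κ, rfl⟩ ⟨z', a', κ', rfl⟩
            refine ⟨z' * z, a' * a, κ * κ', ?_⟩
            push_cast
            have h1 := hz z (a' : G)
            calc (z' : G) * a' * (z * a * x * κ) * κ' = z' * (a' * z) * a * x * κ * κ' := by group
              _ = z' * (z * a') * a * x * κ * κ' := by rw [h1]
              _ = _ := by group } }
  let r : G → G := fun x => (Quotient.mk S x).out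
  have hr : ∀ x, ∃ (z : Z) (a : G₀) (κ : I), x = z * a * r x * κ := fun x =>
    Quotient.mk_out (s := S) x
  have hr' : ∀ (z : Z) (a : G₀) (x : G) (κ : I), r (z * a * x * κ) = r x := by
    intro z a x κ
    have h1 : Quotient.mk S (z * a * x * κ) = Quotient.mk S x := by
      apply Quotient.sound
      exact S.symm ⟨z, a, κ, rfl⟩
    show (Quotient.mk S (z * a * x * κ)).out = (Quotient.mk S x).out
    rw [h1]
  choose zz aa kk hzak using hr
  -- the extensions at the representatives
  have hF : ∀ (F : (ind G₀ Z χ B).V) (z : Z) (a : G₀) (x : G), F.1 (z * a * x) = (χ z : C) • B.ρ a (F.1 x) :=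
    fun F z a x => F.2 z a x
  have hF1 : ∀ (F : (ind G₀ Z χ B).V) (a : G₀) (x : G), F.1 (a * x) = B.ρ a (F.1 x) := by
    intro F a x
    have := hF F 1 a x
    simpa using this
  let ev : G → ((ind G₀ Z χ B).V →ₗ[C] B.V) := fun x =>
    { toFun := fun F => F.1 x
      map_add' := fun a b => rfl
      map_smul' := fun c a => rfl }
  have hρ : ∀ (g x : G) (F : (ind G₀ Z χ B).V), ((ind G₀ Z χ B).ρ g F).1 x = F.1 (x * g) := fun g x F => rfl
  have hext : ∀ t : G, ∃ k : Y.V →ₗ[C] B.V,
      (∀ (κ : I₀) (y : Y.V), k (Y.ρ (ι κ) y) = B.ρ (MulAut.conjNormal t (κ : G₀)) (k y)) ∧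
      ∀ x, k (i x) = (h x).1 t := by
    intro t
    obtain ⟨k, hk, hk'⟩ := twist_inj G₀ hB hconj t (X.comap ι) (Y.comap ι) (hsm X hX) (hsm Y hY) i
      (fun g v => hi (ι g) v) hinj ((ev t).comp h) (by
        intro κ v
        show (h (X.ρ (ι κ) v)).1 t = B.ρ (MulAut.conjNormal t (κ : G₀)) ((h v).1 t)
        rw [hh (ι κ) v, ← hF1]
        show (h v).1 (t * ((κ : G₀) : G)) = _
        rw [MulAut.conjNormal_apply]
        group)
    exact ⟨k, hk, hk'⟩
  choose k hk hk' using hext
  -- the key lemma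
  have key : ∀ (t : G) (z z' : Z) (a a' : G₀) (κ κ' : I) (y : Y.V),
      (z : G) * a * t * κ = z' * a' * t * κ' →
      (χ z : C) • B.ρ a (k t (Y.ρ κ y)) = (χ z' : C) • B.ρ a' (k t (Y.ρ κ' y)) := by
    intro t z z' a a' κ κ' y he
    have h1 : (κ * κ'⁻¹ : G) = (z⁻¹ * z' : Z) * (t⁻¹ * (a⁻¹ * a' : G₀) * t : G) := by
      have h2 := hz (z⁻¹ * z') (t⁻¹ * (a : G)⁻¹)
      push_cast at h2 ⊢
      have h3 := hz (z⁻¹ * z') ((a : G)⁻¹ )
      push_cast at h3
      have h4 : (κ : G) = t⁻¹ * (a : G)⁻¹ * ((z : G)⁻¹ * z') * a' * t * κ' := by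
        have h5 : (κ : G) = t⁻¹ * (a : G)⁻¹ * (z : G)⁻¹ * (z * a * t * κ) := by group
        rw [h5, he]
        group
      rw [h4, ← h2]
      group
    have h2 : (t⁻¹ * (a⁻¹ * a' : G₀) * t : G) ∈ G₀ := by
      have := (inferInstance : G₀.Normal).conj_mem _ (a⁻¹ * a' : G₀).2 t⁻¹
      simpa using this
    have h3 : (κ * κ'⁻¹ : G) ∈ I ⊓ (Z ⊔ G₀) := by
      refine ⟨I.mul_mem κ.2 (I.inv_mem κ'.2), ?_⟩
      rw [h1]
      exact Subgroup.mul_mem_sup (z⁻¹ * z').2 h2
    rw [hI] at h3
    obtain ⟨b, hb, hb'⟩ := h3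
    have h4 : ((z⁻¹ * z' : Z) : G) ∈ Z ⊓ G₀ := by
      refine ⟨(z⁻¹ * z').2, ?_⟩
      have h5 : ((z⁻¹ * z' : Z) : G) = (κ * κ'⁻¹ : G) * (t⁻¹ * (a⁻¹ * a' : G₀) * t : G)⁻¹ := by
        rw [h1]
        group
      rw [h5, ← hb']
      exact G₀.mul_mem b.2 (G₀.inv_mem h2)
    rw [hZG, Subgroup.mem_bot] at h4
    have h5 : z = z' := by
      have h6 : z⁻¹ * z' = 1 := Subtype.ext h4
      exact (inv_mul_eq_one.1 h6)
    subst h5
    congr 1
    have h6 : κ = ι ⟨b, hb⟩ * κ' := by
      apply Subtype.ext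
      show (κ : G) = (b : G) * κ'
      have : (b : G) = κ * κ'⁻¹ := hb'
      rw [this]
      simp
    rw [h6, map_mul, Module.End.mul_apply, hk, ← Module.End.mul_apply, ← map_mul]
    congr 2
    apply Subtype.ext
    push_cast
    rw [MulAut.conjNormal_apply]
    have h7 : (b : G) = κ * κ'⁻¹ := hb'
    rw [h7, h1]
    simp only [inv_mul_cancel, Subgroup.coe_one, one_mul]
    push_cast
    group
  -- the extension
  let K : Y.V →ₗ[C] (ind G₀ Z χ B).V :=
    { toFun := fun y => ⟨fun x => (χ (zz x) : C) • B.ρ (aa x) (k (r x) (Y.ρ (kk x) y)), by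
        intro z a x
        have h1 : r ((z : G) * a * x) = r x := by
          have := hr' z a x 1
          simpa using this
        have h2 := hzak ((z : G) * a * x)
        rw [h1] at h2
        have h3 : ((zz (z * a * x) : Z) : G) * aa (z * a * x) * r x * kk (z * a * x) =
            (z * zz x : Z) * (a * aa x : G₀) * r x * kk x := by
          rw [← h2]
          conv_lhs => rw [hzak x]
          push_cast
          have h4 := hz (zz x) (a : G)
          calc (z : G) * a * (zz x * aa x * r x * kk x) = z * (a * zz x) * aa x * r x * kk x := by group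
            _ = z * (zz x * a) * aa x * r x * kk x := by rw [h4]
            _ = _ := by group
        show (χ (zz (z * a * x)) : C) • B.ρ (aa (z * a * x)) (k (r (z * a * x)) (Y.ρ (kk (z * a * x)) y)) = _
        rw [h1, key (r x) _ _ _ _ _ _ y h3, map_mul, map_mul, Module.End.mul_apply, map_smul, smul_smul]
        push_cast
        rfl⟩
      map_add' := fun a b => by
        apply Subtype.ext
        funext x
        show (χ (zz x) : C) • B.ρ (aa x) (k (r x) (Y.ρ (kk x) (a + b))) =
          (χ (zz x) : C) • B.ρ (aa x) (k (r x) (Y.ρ (kk x) a)) + (χ (zz x) : C) • B.ρ (aa x) (k (r x) (Y.ρ (kk x) b))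
        rw [map_add, map_add, map_add, smul_add]
      map_smul' := fun c a => by
        apply Subtype.ext
        funext x
        show (χ (zz x) : C) • B.ρ (aa x) (k (r x) (Y.ρ (kk x) (c • a))) =
          c • (χ (zz x) : C) • B.ρ (aa x) (k (r x) (Y.ρ (kk x) a))
        rw [map_smul, map_smul, map_smul, smul_comm] }
  have hK : ∀ y x, (K y).1 x = (χ (zz x) : C) • B.ρ (aa x) (k (r x) (Y.ρ (kk x) y)) := fun y x => rfl
  refine ⟨K, ?_, ?_⟩
  · intro κ y
    apply Subtype.ext
    funext x
    show (K (Y.ρ κ y)).1 x = (K y).1 (x * κ)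
    rw [hK, hK]
    have h1 : r (x * κ) = r x := by
      have := hr' 1 1 x κ
      simpa using this
    have h2 := hzak (x * κ)
    rw [h1] at h2
    rw [h1, ← Module.End.mul_apply (Y.ρ (kk x)), ← map_mul]
    apply key
    rw [← h2]
    push_cast
    conv_rhs => rw [hzak x]
    group
  · intro x
    apply Subtype.ext
    funext g
    rw [hK]
    have h1 : Y.ρ (kk g) (i x) = i (X.ρ (kk g) x) := (hi (kk g) x).symm
    rw [h1, hk', hh (kk g) x]
    show (χ (zz g) : C) • B.ρ (aa g) ((h x).1 (r g * kk g)) = (h x).1 g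
    rw [← hF]
    conv_rhs => rw [hzak g]
    group

end Pool.Agent.IWE
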