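import Pool.Agent.IWE.IndDefs

/-! # IWE/IndRep (MP_88b97d_al, helper45)

`exists_reps`: representatives of the right cosets `(Z ⊔ G₀) x` (finitely many; e.g. inverses of representatives of
`G ⧸ (Z ⊔ G₀)`); every element of `Z ⊔ G₀` is `z h` with `z ∈ Z`, `h ∈ G₀` (`G₀` normal), uniquely as `Z ⊓ G₀ = ⊥`.
`ind_equiv`: `F ↦ (F (x j))` is injective (`F (z h x_j) = χ(z) h F(x_j)`) and surjective: given `b : Fin n → B.V` put
`F (z h x_j) = χ(z) h b_j`; then `F (z' h' z h x_j) = F ((z' z) (h' h) x_j)` (`z` central) has the right form.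
`ind_embed`: `v ↦ (x ↦ f₀ (x v))`.
-/

namespace Pool.Agent.IWE

open scoped TensorProduct

variable {C : Type} [Field C] {G : Type} [Group G]

theorem exists_reps (G₀ Z : Subgroup G) [G₀.Normal] (hZG : Z ⊓ G₀ = ⊥)
    (hfin : (Z ⊔ G₀).FiniteIndex) : ∃ (n : ℕ) (x : Fin n → G),
      (∀ g : G, ∃ (j : Fin n) (z : Z) (h : G₀), g = z * h * x j) ∧
      ∀ (j j' : Fin n) (z z' : Z) (h h' : G₀), (z : G) * h * x j = z' * h' * x j' → j = j' ∧ z = z' ∧ h = h' := by
  classical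
  have : Finite (G ⧸ (Z ⊔ G₀)) := Subgroup.finite_quotient_of_finiteIndex
  obtain ⟨n, ⟨e⟩⟩ := Finite.exists_equiv_fin (G ⧸ (Z ⊔ G₀))
  have hout : ∀ q : G ⧸ (Z ⊔ G₀), (QuotientGroup.mk (Quotient.out q) : G ⧸ (Z ⊔ G₀)) = q :=
    fun q => Quotient.out_eq q
  refine ⟨n, fun j => (Quotient.out (e.symm j))⁻¹, ?_, ?_⟩
  · intro g
    have h1 : (QuotientGroup.mk (Quotient.out (e.symm (e (QuotientGroup.mk g⁻¹)))) : G ⧸ (Z ⊔ G₀)) =
        QuotientGroup.mk g⁻¹ := by rw [hout, Equiv.symm_apply_apply]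
    rw [QuotientGroup.eq] at h1
    have h2 : g * Quotient.out (e.symm (e (QuotientGroup.mk g⁻¹ : G ⧸ (Z ⊔ G₀)))) ∈ Z ⊔ G₀ := by
      have h3 := (Z ⊔ G₀).inv_mem h1
      rwa [mul_inv_rev, inv_inv, inv_inv] at h3
    obtain ⟨z, hz, h, hh, hzh⟩ := Subgroup.mem_sup_of_normal_right.1 h2
    refine ⟨e (QuotientGroup.mk g⁻¹), ⟨z, hz⟩, ⟨h, hh⟩, ?_⟩
    show g = z * h * _
    rw [hzh, mul_inv_cancel_right]
  · intro j j' z z' h h' heq
    have hzh : (z : G) * h ∈ Z ⊔ G₀ := Subgroup.mul_mem_sup z.2 h.2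
    have hzh' : (z' : G) * h' ∈ Z ⊔ G₀ := Subgroup.mul_mem_sup z'.2 h'.2
    have h1 : j = j' := by
      have h2 : (QuotientGroup.mk (Quotient.out (e.symm j)) : G ⧸ (Z ⊔ G₀)) =
          QuotientGroup.mk (Quotient.out (e.symm j')) := by
        rw [QuotientGroup.eq]
        have h3 : (Quotient.out (e.symm j))⁻¹ * Quotient.out (e.symm j') =
            ((z : G) * h)⁻¹ * ((z' : G) * h') := by
          have h4 : (Quotient.out (e.symm j))⁻¹ =
              ((z : G) * h)⁻¹ * (z' * h' * (Quotient.out (e.symm j'))⁻¹) := by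
            rw [← heq]
            group
          rw [h4]
          group
        rw [h3]
        exact (Z ⊔ G₀).mul_mem ((Z ⊔ G₀).inv_mem hzh) hzh'
      rw [hout, hout] at h2
      exact e.symm.injective h2
    subst h1
    have h2 : (z : G) * h = z' * h' := mul_right_cancel heq
    have h3 : (z' : G)⁻¹ * z = h' * (h : G)⁻¹ := by
      rw [eq_mul_inv_iff_mul_eq, mul_assoc, h2, inv_mul_cancel_left]
    have h4 : (z' : G)⁻¹ * z ∈ Z ⊓ G₀ := by
      refine ⟨Z.mul_mem (Z.inv_mem z'.2) z.2, ?_⟩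
      rw [h3]
      exact G₀.mul_mem h'.2 (G₀.inv_mem h.2)
    rw [hZG, Subgroup.mem_bot] at h4
    have h5 : (z : G) = z' := by
      rw [inv_mul_eq_one] at h4
      exact h4.symm
    refine ⟨rfl, Subtype.ext h5, Subtype.ext ?_⟩
    rw [h5] at h2
    exact mul_left_cancel h2

theorem ind_equiv (G₀ Z : Subgroup G) (hZ : Z ≤ Subgroup.center G) (χ : Z →* Cˣ)
    (B : RR C G₀) {n : ℕ} {x : Fin n → G} (hx : ∀ g : G, ∃ (j : Fin n) (z : Z) (h : G₀), g = z * h * x j)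
    (hx' : ∀ (j j' : Fin n) (z z' : Z) (h h' : G₀), (z : G) * h * x j = z' * h' * x j' →
      j = j' ∧ z = z' ∧ h = h') :
    ∃ Φ : (ind G₀ Z χ B).V ≃ₗ[C] (Fin n → B.V), ∀ F j, Φ F j = F.1 (x j) := by
  classical
  let φ : (ind G₀ Z χ B).V →ₗ[C] (Fin n → B.V) :=
    { toFun := fun F j => F.1 (x j)
      map_add' := fun a b => rfl
      map_smul' := fun c a => rfl }
  have hinj : Function.Injective φ := by
    intro F F' hFF
    apply Subtype.ext
    funext g
    obtain ⟨j, z, h, rfl⟩ := hx g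
    rw [F.2 z h (x j), F'.2 z h (x j)]
    have h1 : F.1 (x j) = F'.1 (x j) := congrFun hFF j
    rw [h1]
  have hsurj : Function.Surjective φ := by
    intro b
    choose jj zz hh hg using hx
    have key : ∀ (j : Fin n) (z : Z) (h : G₀), jj (z * h * x j) = j ∧ zz (z * h * x j) = z ∧
        hh (z * h * x j) = h := by
      intro j z h
      have h1 := hx' _ _ _ _ _ _ (hg ((z : G) * h * x j))
      exact ⟨h1.1.symm, h1.2.1.symm, h1.2.2.symm⟩
    let F : G → B.V := fun g => (χ (zz g) : C) • B.ρ (hh g) (b (jj g))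
    have hF : ∀ (j : Fin n) (z : Z) (h : G₀), F (z * h * x j) = (χ z : C) • B.ρ h (b j) := by
      intro j z h
      obtain ⟨h1, h2, h3⟩ := key j z h
      show (χ (zz _) : C) • B.ρ (hh _) (b (jj _)) = _
      rw [h1, h2, h3]
    have hF1 : ∀ (z : Z) (h : G₀) (g : G), F (z * h * g) = (χ z : C) • B.ρ h (F g) := by
      intro z h g
      obtain ⟨j, z', h', hg'⟩ : ∃ (j : Fin n) (z : Z) (h : G₀), g = z * h * x j := ⟨_, _, _, hg g⟩
      have hc : (h : G) * z' = z' * h := (Subgroup.mem_center_iff.1 (hZ z'.2) h)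
      have h1 : (z : G) * h * g = ((z * z' : Z) : G) * ((h * h' : G₀) : G) * x j := by
        rw [hg', Subgroup.coe_mul, Subgroup.coe_mul]
        calc (z : G) * h * (z' * h' * x j) = z * (h * z') * h' * x j := by group
          _ = z * (z' * h) * h' * x j := by rw [hc]
          _ = _ := by group
      rw [h1, hF, hg', hF, map_mul, Units.val_mul, map_smul, smul_smul, RR.mul_apply]
    refine ⟨⟨F, hF1⟩, ?_⟩
    funext j
    show F (x j) = b j
    have h1 := hF j 1 1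
    rw [map_one, Units.val_one, one_smul, RR.one_apply] at h1
    rw [← h1]
    congr 1
    simp
  exact ⟨LinearEquiv.ofBijective φ ⟨hinj, hsurj⟩, fun F j => rfl⟩

theorem ind_char (G₀ Z : Subgroup G) (hZ : Z ≤ Subgroup.center G) (χ : Z →* Cˣ) (B : RR C G₀) (z : Z)
    (F : (ind G₀ Z χ B).V) : (ind G₀ Z χ B).ρ z F = (χ z : C) • F := by
  apply Subtype.ext
  funext x
  show F.1 (x * z) = (χ z : C) • F.1 x
  have hc : x * (z : G) = z * x := Subgroup.mem_center_iff.1 (hZ z.2) x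
  have h1 := F.2 z 1 x
  rw [RR.one_apply] at h1
  rw [← h1, hc]
  congr 1
  simp

theorem ind_embed (G₀ Z : Subgroup G) (χ : Z →* Cˣ) {A : RR C G} {B : RR C G₀}
    (hχ : ∀ (z : Z) (v : A.V), A.ρ z v = (χ z : C) • v) (f₀ : A.V →ₗ[C] B.V)
    (hf₀ : IsHom (A.res G₀) B f₀) (hi : Function.Injective f₀) :
    ∃ f : A.V →ₗ[C] (ind G₀ Z χ B).V, IsHom A (ind G₀ Z χ B) f ∧ Function.Injective f := by
  refine ⟨{ toFun := fun v => ⟨fun x => f₀ (A.ρ x v), ?_⟩, map_add' := ?_, map_smul' := ?_ }, ?_, ?_⟩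
  · intro z h x
    show f₀ (A.ρ (z * h * x) v) = (χ z : C) • B.ρ h (f₀ (A.ρ x v))
    rw [mul_assoc, RR.mul_apply, hχ, map_smul, RR.mul_apply]
    have h1 : f₀ (A.ρ (h : G) (A.ρ x v)) = B.ρ h (f₀ (A.ρ x v)) := hf₀ h (A.ρ x v)
    rw [h1]
  · intro v w
    apply Subtype.ext
    funext x
    show f₀ (A.ρ x (v + w)) = f₀ (A.ρ x v) + f₀ (A.ρ x w)
    rw [map_add, map_add]
  · intro c v
    apply Subtype.ext
    funext x
    show f₀ (A.ρ x (c • v)) = c • f₀ (A.ρ x v)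
    rw [map_smul, map_smul]
  · intro g v
    apply Subtype.ext
    funext x
    show f₀ (A.ρ x (A.ρ g v)) = f₀ (A.ρ (x * g) v)
    rw [RR.mul_apply]
  · intro v w hvw
    have h1 : f₀ (A.ρ 1 v) = f₀ (A.ρ 1 w) := congrFun (congrArg Subtype.val hvw) 1
    rw [RR.one_apply, RR.one_apply] at h1
    exact hi h1

end Pool.Agent.IWE
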