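import Pool.Agent.IWE.Retract

/-! # IWE/InjRes (MP_88b97d_al, helper45)

Injectivity restricts to open subgroups. Apply `exists_retract` to `A.res J` (smooth by `res_smooth`, `J` is a topological
group): `e v = (g ↦ g v)`, `r : LCf C J A.V → A.V`. Choose representatives: every `x : J` is `x = σ(x) κ(x)` with `κ(x) ∈ K` and
`σ(x)` depending only on the coset `x K` (`K.subgroupOf J`, `Quotient.out`). Given `i : X → Y` and `h : X → A` for `K`, for each
coset `s` with representative `x_s` extend the linear map `x ↦ x_s · h x` to `Λ_s : Y → A.V` (`Λ_s (i x) = x_s · h x`), and let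
`F_y (x_s κ) = Λ_s (κ y)`, a uniformly locally constant function on `J` (the stabiliser of `y` in `K` is open in `K`, so in `J`),
linear in `y`, with `F_{κ' y} (x) = F_y (x κ')` for `κ' ∈ K`. `k y = r F_y` is `K`-equivariant and `F_{i x} = e (h x)`, so
`k (i x) = h x`.
-/

namespace Pool.Agent.IWE

open scoped TensorProduct

variable {C : Type} [Field C] {G : Type} [Group G] [TopologicalSpace G] {H : Type} [Group H] [TopologicalSpace H]


theorem injOn_mono [IsTopologicalGroup G] {A : RR C G} (hs : A.Smooth) {J K : Subgroup G}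
    (hJ : A.InjOn J) (hKJ : K ≤ J) (hK : IsOpen (K : Set G)) : A.InjOn K := by
  obtain ⟨e, r, he, hr, hre, hev⟩ := exists_retract (A := A.res J) (res_smooth hs J) hJ
  intro X Y hX hY i hi hinj h hh
  obtain ⟨p, hp⟩ := i.exists_leftInverse_of_injective (LinearMap.ker_eq_bot.2 hinj)
  have hp' : ∀ x, p (i x) = x := fun x => congrArg (fun f => f x) hp
  -- representatives
  let σ : J → J := fun x => (QuotientGroup.mk x : J ⧸ K.subgroupOf J).out
  have hσ : ∀ x : J, ((σ x)⁻¹ * x : J).1 ∈ K := by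
    intro x
    have h1 : (QuotientGroup.mk (σ x) : J ⧸ K.subgroupOf J) = QuotientGroup.mk x :=
      QuotientGroup.out_eq' _
    rw [QuotientGroup.eq] at h1
    exact h1
  let κ : J → K := fun x => ⟨((σ x)⁻¹ * x : J).1, hσ x⟩
  have hσκ : ∀ x : J, (σ x).1 * (κ x).1 = x.1 := by
    intro x
    show (σ x).1 * ((σ x).1⁻¹ * x.1) = x.1
    rw [mul_inv_cancel_left]
  have hσm : ∀ (x : J) (u : J), u.1 ∈ K → σ (x * u) = σ x := by
    intro x u hu
    show (QuotientGroup.mk (x * u) : J ⧸ K.subgroupOf J).out = (QuotientGroup.mk x : J ⧸ K.subgroupOf J).out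
    congr 1
    rw [QuotientGroup.eq]
    show ((x * u)⁻¹ * x : J).1 ∈ K
    have : ((x * u)⁻¹ * x : J).1 = u.1⁻¹ := by
      simp
    rw [this]
    exact K.inv_mem hu
  have hκm : ∀ (x : J) (u : J) (hu : u.1 ∈ K), κ (x * u) = κ x * ⟨u.1, hu⟩ := by
    intro x u hu
    apply Subtype.ext
    show (σ (x * u)).1⁻¹ * (x.1 * u.1) = (σ x).1⁻¹ * x.1 * u.1
    rw [hσm x u hu, mul_assoc]
  have hLC : ∀ y : Y.V, (fun x : J => A.ρ (σ x).1 (h (p (Y.ρ (κ x) y)))) ∈ LCs C J A.V := by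
    intro y
    obtain ⟨U₀, hU₀, hU₀'⟩ := hY y
    refine ⟨(U₀.map K.subtype).subgroupOf J, ?_, ?_⟩
    · have h1 : IsOpen ((U₀.map K.subtype : Subgroup G) : Set G) := by
        rw [Subgroup.coe_map]
        exact hK.isOpenMap_subtype_val _ hU₀
      exact h1.preimage continuous_subtype_val
    · intro x u hu
      rw [Subgroup.mem_subgroupOf, Subgroup.mem_map] at hu
      obtain ⟨w, hw, hwu⟩ := hu
      have huK : u.1 ∈ K := by
        rw [← hwu]
        exact w.2
      have hwu' : (⟨u.1, huK⟩ : K) = w := Subtype.ext hwu.symm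
      show A.ρ (σ (x * u)).1 (h (p (Y.ρ (κ (x * u)) y))) = A.ρ (σ x).1 (h (p (Y.ρ (κ x) y)))
      rw [hσm x u huK, hκm x u huK, RR.mul_apply, hwu', hU₀' w hw]
  let F : Y.V →ₗ[C] (LCf C J A.V).V :=
    { toFun := fun y => ⟨fun x : J => A.ρ (σ x).1 (h (p (Y.ρ (κ x) y))), hLC y⟩
      map_add' := by
        intro a b
        apply Subtype.ext
        funext x
        show A.ρ (σ x).1 (h (p (Y.ρ (κ x) (a + b)))) =
          A.ρ (σ x).1 (h (p (Y.ρ (κ x) a))) + A.ρ (σ x).1 (h (p (Y.ρ (κ x) b)))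
        rw [map_add, map_add, map_add, map_add]
      map_smul' := by
        intro c a
        apply Subtype.ext
        funext x
        show A.ρ (σ x).1 (h (p (Y.ρ (κ x) (c • a)))) = c • A.ρ (σ x).1 (h (p (Y.ρ (κ x) a)))
        rw [map_smul, map_smul, map_smul, map_smul] }
  refine ⟨r.comp F, ?_, ?_⟩
  · intro g y
    have hgJ : g.1 ∈ J := hKJ g.2
    have h1 : F (Y.ρ g y) = (LCf C J A.V).ρ ⟨g.1, hgJ⟩ (F y) := by
      apply Subtype.ext
      funext x
      show A.ρ (σ x).1 (h (p (Y.ρ (κ x) (Y.ρ g y)))) =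
        A.ρ (σ (x * ⟨g.1, hgJ⟩)).1 (h (p (Y.ρ (κ (x * ⟨g.1, hgJ⟩)) y)))
      rw [hσm x ⟨g.1, hgJ⟩ g.2, hκm x ⟨g.1, hgJ⟩ g.2, RR.mul_apply]
    show r (F (Y.ρ g y)) = A.ρ g.1 (r (F y))
    rw [h1, hr ⟨g.1, hgJ⟩ (F y)]
    rfl
  · intro x₀
    have h1 : F (i x₀) = e (h x₀) := by
      apply Subtype.ext
      funext x
      rw [hev]
      show A.ρ (σ x).1 (h (p (Y.ρ (κ x) (i x₀)))) = A.ρ x.1 (h x₀)
      rw [← hi, hp', hh]
      show A.ρ (σ x).1 (A.ρ (κ x).1 (h x₀)) = A.ρ x.1 (h x₀)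
      rw [← RR.mul_apply, hσκ]
    show r (F (i x₀)) = h x₀
    rw [h1, hre]

end Pool.Agent.IWE
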