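import Pool.Agent.IWE.PiGood

/-! # IWE/Main (MP_88b97d_al, helper45)

The general theorem: `HasGood.pi`, `RankOne.hasGood`, `Good.embed`.
-/

namespace Pool.Agent.IWE

open scoped TensorProduct

theorem main {p : ℕ} [Fact p.Prime] {C : Type} [Field C] [CharP C p] [Finite C] (n : ℕ) (G : Fin n → Type)
    [∀ i, Group (G i)] [∀ i, TopologicalSpace (G i)] [∀ i, IsTopologicalGroup (G i)]
    (P Q : ∀ i, Subgroup (G i)) (h : ∀ i, RankOne p (P i) (Q i)) (A : RR C (∀ i, G i)) (hA : A.Adm)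
    (hf : FinLen A) :
    ∃ B : RR C (∀ i, G i), B.Adm ∧ B.InjOn (Subgroup.pi Set.univ (fun i => P i ⊓ Q i)) ∧
      ∃ f : A.V →ₗ[C] B.V, IsHom A B f ∧ Function.Injective f := by
  obtain ⟨-, -, -, T, hT⟩ := HasGood.pi (C := C) n G (fun i => P i ⊓ Q i) (fun i => (h i).hasGood p)
  obtain ⟨B, hB, f, hf1, hf2⟩ := hT.embed hf hA.1
  exact ⟨B, hT.adm B hB, hT.inj B hB, f, hf1, hf2⟩

end Pool.Agent.IWE
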