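import Pool.Agent.IWE.PiGood
import Pool.Agent.IWE.Cliff
import Pool.Agent.IWE.IndAdm
import Pool.Agent.IWE.IndInj

/-! # IWE/Main2 (MP_88b97d_al, helper45)

The theorem for groups `G` with an open normal subgroup `G₀` that is a finite product of amalgams, and a central subgroup `Z`
with `Z ∩ G₀ = 1` and `Z G₀` of finite index.
-/

namespace Pool.Agent.IWE

open scoped TensorProduct

theorem main2 {p : ℕ} [Fact p.Prime] {C : Type} [Field C] [CharP C p] [Finite C]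
    {G : Type} [Group G] [TopologicalSpace G] [IsTopologicalGroup G] (G₀ Z : Subgroup G) [G₀.Normal]
    (oG : IsOpen (G₀ : Set G)) (hZ : Z ≤ Subgroup.center G) (hZG : Z ⊓ G₀ = ⊥)
    (hfin : (Z ⊔ G₀).FiniteIndex) (χ : Z →* Cˣ)
    {I : Subgroup G₀} (hI : HasGood p C I)
    (hconj : ∀ g : G, ∃ y : G₀, I.map (MulAut.conjNormal g).toMonoidHom = I.map (MulAut.conj y).toMonoidHom)
    (A : RR C G) (hA : A.Adm) (hχ : ∀ (z : Z) (v : A.V), A.ρ z v = (χ z : C) • v) (hf : FinLen A) :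
    ∃ B : RR C G, B.Adm ∧ (∀ (z : Z) (v : B.V), B.ρ z v = (χ z : C) • v) ∧
      B.InjOn (I.map G₀.subtype) ∧ ∃ f : A.V →ₗ[C] B.V, IsHom A B f ∧ Function.Injective f := by
  obtain ⟨oI, cI, ⟨U, hUI, oU, hU⟩, T, hT⟩ := hI
  have hres : FinLen (A.res G₀) := res_finLen p G₀ Z oG hfin χ oU (isCompact_of_le oU cI hUI) hU hf hχ
  obtain ⟨B₀, hB₀, f₀, hf₀, hf₀i⟩ := hT.embed hres (res_smooth hA.1 G₀)
  obtain ⟨f, hf1, hf2⟩ := ind_embed G₀ Z χ hχ f₀ hf₀ hf₀i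
  exact ⟨ind G₀ Z χ B₀, ind_adm G₀ Z oG hZ hZG hfin χ (hT.adm _ hB₀), fun z v => ind_char G₀ Z hZ χ B₀ z v,
    ind_injOn G₀ Z hZ hZG hfin χ (hT.inj _ hB₀) hconj, f, hf1, hf2⟩

end Pool.Agent.IWE
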