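import Pool.Agent.IWE.Basic

/-! # IWE/Quot (MP_88b97d_al, helper45): quotients by kernels contained in `J` -/

namespace Pool.Agent.IWE

open scoped TensorProduct

variable {C : Type} [Field C] {G : Type} [Group G] {H : Type} [Group H]

/-- the vectors of `B` fixed by the kernel of `φ : H → G` (surjective), as a representation of `G` -/
noncomputable abbrev qrep (φ : H →* G) (hφ : Function.Surjective φ) (B : RR C H) : RR C G where
  V := B.fix φ.ker
  ρ :=
    { toFun := fun g => (B.ρ (Function.surjInv hφ g)).restrict (by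
        intro v hv n hn
        have h1 : (Function.surjInv hφ g)⁻¹ * n * Function.surjInv hφ g ∈ φ.ker := by
          have := (MonoidHom.normal_ker φ).conj_mem n hn (Function.surjInv hφ g)⁻¹
          simpa using this
        have h2 := hv _ h1
        conv_rhs => rw [← h2]
        rw [← Module.End.mul_apply, ← Module.End.mul_apply, ← map_mul, ← map_mul]
        congr 2
        group)
      map_one' := by
        apply LinearMap.ext
        intro v
        apply Subtype.ext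
        show B.ρ (Function.surjInv hφ 1) v.1 = v.1
        exact v.2 _ (MonoidHom.mem_ker.2 (Function.surjInv_eq hφ 1))
      map_mul' := fun g g' => by
        apply LinearMap.ext
        intro v
        apply Subtype.ext
        show B.ρ (Function.surjInv hφ (g * g')) v.1 =
          B.ρ (Function.surjInv hφ g) (B.ρ (Function.surjInv hφ g') v.1)
        have h1 : (Function.surjInv hφ g * Function.surjInv hφ g')⁻¹ * Function.surjInv hφ (g * g') ∈ φ.ker := by
          rw [MonoidHom.mem_ker, map_mul, map_inv, map_mul, Function.surjInv_eq hφ, Function.surjInv_eq hφ,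
            Function.surjInv_eq hφ, inv_mul_cancel]
        have h2 := v.2 _ h1
        rw [← Module.End.mul_apply, ← map_mul]
        conv_rhs => rw [← h2]
        rw [← Module.End.mul_apply, ← map_mul]
        congr 2
        group }

theorem qrep_apply (φ : H →* G) (hφ : Function.Surjective φ) (B : RR C H) (h : H) (v : (qrep φ hφ B).V) :
    (((qrep φ hφ B).ρ (φ h) v : B.fix φ.ker) : B.V) = B.ρ h v.1 := by
  show B.ρ (Function.surjInv hφ (φ h)) v.1 = B.ρ h v.1
  have h1 : h⁻¹ * Function.surjInv hφ (φ h) ∈ φ.ker := by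
    rw [MonoidHom.mem_ker, map_mul, map_inv, Function.surjInv_eq hφ, inv_mul_cancel]
  have h2 := v.2 _ h1
  conv_rhs => rw [← h2]
  rw [← Module.End.mul_apply, ← map_mul]
  congr 2
  group

variable [TopologicalSpace G] [TopologicalSpace H]

theorem qrep_smooth {φ : H →* G} (hφ : Function.Surjective φ) (ho : IsOpenMap φ) {B : RR C H}
    (hB : B.Smooth) : (qrep φ hφ B).Smooth := by
  intro v
  obtain ⟨U, hU, hU'⟩ := hB v.1
  refine ⟨U.map φ, ?_, ?_⟩
  · rw [Subgroup.coe_map]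
    exact ho _ hU
  · rintro _ ⟨u, hu, rfl⟩
    apply Subtype.ext
    rw [qrep_apply, hU' u hu]

theorem comap_smooth {φ : H →* G} (hc : Continuous φ) {A : RR C G} (hA : A.Smooth) :
    (A.comap φ).Smooth := by
  intro v
  obtain ⟨U, hU, h⟩ := hA v
  exact ⟨U.comap φ, hU.preimage hc, fun g hg => h _ hg⟩

omit [TopologicalSpace G] [TopologicalSpace H] in
theorem comap_irr {φ : H →* G} (hφ : Function.Surjective φ) {A : RR C G} (hA : A.Irr) :
    (A.comap φ).Irr := by
  refine ⟨hA.1, fun W hW => hA.2 W ?_⟩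
  intro g w hw
  obtain ⟨h, rfl⟩ := hφ g
  exact hW h w hw

theorem comap_adm {φ : H →* G} (hc : Continuous φ) (ho : IsOpenMap φ) {A : RR C G} (hA : A.Adm) :
    (A.comap φ).Adm := by
  refine ⟨comap_smooth hc hA.1, fun K hK hK' => ?_⟩
  have h1 := hA.2 (K.map φ) (by rw [Subgroup.coe_map]; exact ho _ hK) (by
    rw [Subgroup.coe_map]; exact hK'.image hc)
  have h2 : (A.comap φ).fix K = A.fix (K.map φ) := by
    ext v
    constructor
    · rintro h _ ⟨g, hg, rfl⟩
      exact h g hg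
    · intro h g hg
      exact h _ ⟨g, hg, rfl⟩
  rw [h2]
  exact h1

/-- the preimage of a compact open subgroup is compact if the kernel is contained in a compact open subgroup -/
theorem preimage_compact [IsTopologicalGroup H] {φ : H →* G} (hc : Continuous φ) (ho : IsOpenMap φ)
    {J : Subgroup H} (oJ : IsOpen (J : Set H)) (cJ : IsCompact (J : Set H)) (hker : φ.ker ≤ J)
    (hφ : Function.Surjective φ) {K : Subgroup G} (oK : IsOpen (K : Set G)) (cK : IsCompact (K : Set G)) :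
    IsCompact ((K.comap φ : Subgroup H) : Set H) := by
  have h1 : ∀ h : H, IsOpen (φ '' ((fun x => h * x) '' (J : Set H))) := fun h =>
    ho _ ((Homeomorph.mulLeft h).isOpenMap _ oJ)
  have h2 : (K : Set G) ⊆ ⋃ h : H, φ '' ((fun x => h * x) '' (J : Set H)) := by
    intro g _
    obtain ⟨h, rfl⟩ := hφ g
    exact Set.mem_iUnion.2 ⟨h, h, ⟨1, J.one_mem, mul_one _⟩, rfl⟩
  obtain ⟨t, ht⟩ := cK.elim_finite_subcover _ h1 h2
  have h3 : IsCompact (⋃ h ∈ t, (fun x => h * x) '' (J : Set H)) :=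
    t.isCompact_biUnion fun h _ => cJ.image (continuous_const_mul h)
  refine h3.of_isClosed_subset ?_ ?_
  · exact (Subgroup.isOpen_of_mem_nhds _ (g := 1) ((oK.preimage hc).mem_nhds (by
      show φ 1 ∈ K
      rw [map_one]; exact K.one_mem))) |> fun h => (K.comap φ).isClosed_of_isOpen h
  · intro x hx
    have h4 := ht hx
    simp only [Set.mem_iUnion] at h4 ⊢
    obtain ⟨h, hh, _, ⟨y, hy, rfl⟩, h5⟩ := h4
    refine ⟨h, hh, h⁻¹ * x, ?_, by simp⟩
    have h6 : (h * y)⁻¹ * x ∈ φ.ker := by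
      rw [MonoidHom.mem_ker, map_mul, map_inv, h5, inv_mul_cancel]
    have h7 : h⁻¹ * x = y * ((h * y)⁻¹ * x) := by group
    rw [h7]
    exact J.mul_mem hy (hker h6)

theorem qrep_adm [IsTopologicalGroup H] {φ : H →* G} (hc : Continuous φ) (ho : IsOpenMap φ)
    {J : Subgroup H} (oJ : IsOpen (J : Set H)) (cJ : IsCompact (J : Set H)) (hker : φ.ker ≤ J)
    (hφ : Function.Surjective φ) {B : RR C H} (hB : B.Adm) : (qrep φ hφ B).Adm := by
  refine ⟨qrep_smooth hφ ho hB.1, fun K oK cK => ?_⟩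
  have h1 := hB.2 (K.comap φ) (oK.preimage hc) (preimage_compact hc ho oJ cJ hker hφ oK cK)
  let f : (qrep φ hφ B).fix K →ₗ[C] B.fix (K.comap φ) :=
    { toFun := fun v => ⟨v.1.1, fun h hh => by
        rw [← qrep_apply φ hφ B h v.1, v.2 _ hh]⟩
      map_add' := fun a b => rfl
      map_smul' := fun c a => rfl }
  refine Module.Finite.of_injective f ?_
  intro a b hab
  apply Subtype.ext
  apply Subtype.ext
  exact congrArg (fun z : B.fix (K.comap φ) => (z : B.V)) hab

/-- a map from a representation of `G` to a representation of `H` has its image in the fixed vectors of the kernel -/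
def qlift (φ : H →* G) (hφ : Function.Surjective φ) (A : RR C G) (B : RR C H) (f : A.V →ₗ[C] B.V)
    (hf : IsHom (A.comap φ) B f) : A.V →ₗ[C] (qrep φ hφ B).V :=
  LinearMap.codRestrict (B.fix φ.ker) f (fun v n hn => by
    rw [← hf n v]
    show f (A.ρ (φ n) v) = f v
    rw [MonoidHom.mem_ker.1 hn, map_one]
    rfl)

omit [TopologicalSpace G] [TopologicalSpace H] in
theorem qlift_hom {φ : H →* G} (hφ : Function.Surjective φ) {A : RR C G} {B : RR C H} {f : A.V →ₗ[C] B.V}
    (hf : IsHom (A.comap φ) B f) : IsHom A (qrep φ hφ B) (qlift φ hφ A B f hf) := by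
  intro g v
  obtain ⟨h, rfl⟩ := hφ g
  apply Subtype.ext
  rw [qrep_apply]
  exact hf h v

/-- a homomorphism of representations of `H` on the fixed vectors of the kernel -/
def qmap (φ : H →* G) (hφ : Function.Surjective φ) (A B : RR C H) (f : A.V →ₗ[C] B.V)
    (hf : IsHom A B f) : (qrep φ hφ A).V →ₗ[C] (qrep φ hφ B).V :=
  LinearMap.restrict f (fun v hv n hn => by rw [← hf n v, hv n hn])

omit [TopologicalSpace G] [TopologicalSpace H] in
theorem qmap_hom {φ : H →* G} (hφ : Function.Surjective φ) {A B : RR C H} {f : A.V →ₗ[C] B.V}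
    (hf : IsHom A B f) : IsHom (qrep φ hφ A) (qrep φ hφ B) (qmap φ hφ A B f hf) := by
  intro g v
  obtain ⟨h, rfl⟩ := hφ g
  apply Subtype.ext
  rw [qrep_apply]
  show f (((qrep φ hφ A).ρ (φ h) v : A.fix φ.ker) : A.V) = B.ρ h (f v.1)
  rw [qrep_apply, hf]

theorem qrep_injOn {φ : H →* G} (hc : Continuous φ) (hφ : Function.Surjective φ)
    {J : Subgroup H} (hker : φ.ker ≤ J) {B : RR C H} (hB : B.InjOn J) :
    (qrep φ hφ B).InjOn (J.map φ) := by
  intro X Y hX hY i hi hinj h hh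
  let ψ : J →* (J.map φ : Subgroup G) := φ.subgroupMap J
  have hψ : ∀ x : J, ((ψ x : (J.map φ : Subgroup G)) : G) = φ x := fun x => rfl
  have hψc : Continuous ψ := by
    rw [continuous_induced_rng]
    exact hc.comp continuous_subtype_val
  have hXs : (X.comap ψ).Smooth := comap_smooth hψc hX
  have hYs : (Y.comap ψ).Smooth := comap_smooth hψc hY
  obtain ⟨k, hk, hk'⟩ := hB (X.comap ψ) (Y.comap ψ) hXs hYs i (fun g v => hi (ψ g) v) hinj
    ((B.fix φ.ker).subtype.comp h) (fun g v => by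
      show ((h (X.ρ (ψ g) v) : B.fix φ.ker) : B.V) = B.ρ g (h v).1
      rw [hh (ψ g) v]
      exact qrep_apply φ hφ B g (h v))
  have hkf : ∀ y, k y ∈ B.fix φ.ker := by
    intro y n hn
    have h1 := hk ⟨n, hker hn⟩ y
    have h2 : (Y.comap ψ).ρ ⟨n, hker hn⟩ y = y := by
      show Y.ρ (ψ ⟨n, hker hn⟩) y = y
      have h3 : ψ ⟨n, hker hn⟩ = 1 := Subtype.ext (MonoidHom.mem_ker.1 hn)
      rw [h3, map_one]
      rfl
    rw [h2] at h1
    exact h1.symm
  refine ⟨LinearMap.codRestrict (B.fix φ.ker) k hkf, ?_, ?_⟩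
  · rintro ⟨_, x, hx, rfl⟩ y
    apply Subtype.ext
    have h1 := hk ⟨x, hx⟩ y
    show k (Y.ρ (ψ ⟨x, hx⟩) y) = (((qrep φ hφ B).ρ (φ x) _ : B.fix φ.ker) : B.V)
    rw [qrep_apply]
    exact h1
  · intro x
    apply Subtype.ext
    exact hk' x

omit [TopologicalSpace G] [TopologicalSpace H] in
private theorem relIndex_map_dvd (φ : H →* G) {N U : Subgroup H} (hNU : N ≤ U) :
    (N.map φ).relIndex (U.map φ) ∣ N.relIndex U := by
  have h1 : (N.subgroupOf U).map (φ.subgroupMap U) = (N.map φ).subgroupOf (U.map φ) := by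
    ext ⟨y, hy⟩
    constructor
    · rintro ⟨⟨x, hx⟩, hx', h2⟩
      rw [Subgroup.mem_subgroupOf]
      refine ⟨x, hx', ?_⟩
      exact congrArg Subtype.val h2
    · intro h2
      rw [Subgroup.mem_subgroupOf] at h2
      obtain ⟨x, hx, h3⟩ := h2
      exact ⟨⟨x, hNU hx⟩, hx, Subtype.ext h3⟩
  have h2 : Function.Surjective (φ.subgroupMap U) := φ.subgroupMap_surjective U
  show ((N.map φ).subgroupOf (U.map φ)).index ∣ (N.subgroupOf U).index
  rw [← h1]
  exact Subgroup.index_map_dvd _ h2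

theorem proP_map {p : ℕ} [Fact p.Prime] {φ : H →* G} (hc : Continuous φ) (ho : IsOpenMap φ) {U : Subgroup H}
    (hU : ProP p U) : ProP p (U.map φ) := by
  intro V hV
  obtain ⟨N, hNV, hNU, hN, hnorm, k, hk⟩ := hU (V.comap φ) (hV.preimage hc)
  have h1 := relIndex_map_dvd φ hNU
  rw [hk] at h1
  obtain ⟨m, -, hm⟩ := (Nat.dvd_prime_pow (Fact.out : p.Prime)).1 h1
  refine ⟨N.map φ, ?_, Subgroup.map_mono hNU, ?_, ?_, m, hm⟩
  · rintro _ ⟨g, hg, rfl⟩
    exact hNV hg
  · rw [Subgroup.coe_map]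
    exact ho _ hN
  · rintro _ ⟨u, hu, rfl⟩ _ ⟨n, hn, rfl⟩
    exact ⟨u * n * u⁻¹, hnorm u hu n hn, by simp⟩

theorem HasGood.quot {p : ℕ} [Fact p.Prime] [IsTopologicalGroup H] {φ : H →* G} (hc : Continuous φ)
    (ho : IsOpenMap φ) (hφ : Function.Surjective φ) {J : Subgroup H} (hker : φ.ker ≤ J)
    (hJ : HasGood p C J) : HasGood p C (J.map φ) := by
  obtain ⟨oJ, cJ, ⟨U, hUJ, hUo, hUp⟩, T, hT⟩ := hJ
  refine ⟨by rw [Subgroup.coe_map]; exact ho _ oJ, by rw [Subgroup.coe_map]; exact cJ.image hc,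
    ⟨U.map φ, Subgroup.map_mono hUJ, by rw [Subgroup.coe_map]; exact ho _ hUo, proP_map hc ho hUp⟩,
    fun A => ∃ B, T B ∧ A = qrep φ hφ B, ?_, ?_, ?_, ?_, ?_, ?_⟩
  · obtain ⟨B, hB⟩ := hT.ne
    exact ⟨_, B, hB, rfl⟩
  · rintro A ⟨B, hB, rfl⟩
    exact qrep_adm hc ho oJ cJ hker hφ (hT.adm B hB)
  · rintro A ⟨B, hB, rfl⟩
    exact qrep_injOn hc hφ hker (hT.inj B hB)
  · intro A hA hA'
    obtain ⟨B, hB, f, hf, hinj⟩ := hT.emb (A.comap φ) (comap_irr hφ hA) (comap_adm hc ho hA')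
    refine ⟨_, ⟨B, hB, rfl⟩, qlift φ hφ A B f hf, qlift_hom hφ hf, ?_⟩
    intro a b hab
    exact hinj (congrArg Subtype.val hab)
  · rintro A ⟨A₀, hA₀, rfl⟩ N E B i q hs hE hB hB' h hh
    have hs' : SES (N.comap φ) (E.comap φ) (B.comap φ) i q :=
      ⟨fun g v => hs.hi (φ g) v, fun g v => hs.hq (φ g) v, hs.inj, hs.surj, hs.ex⟩
    obtain ⟨A', hA', j, f, hj, hji, hf, hfj⟩ := hT.eff A₀ hA₀ (N.comap φ) (E.comap φ) (B.comap φ) i q hs'
      (comap_smooth hc hE) (comap_irr hφ hB) (comap_adm hc ho hB') ((A₀.fix φ.ker).subtype.comp h)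
      (fun g v => by
        show ((h (N.ρ (φ g) v) : A₀.fix φ.ker) : A₀.V) = A₀.ρ g (h v).1
        rw [hh (φ g) v]
        exact qrep_apply φ hφ A₀ g (h v))
    refine ⟨_, ⟨A', hA', rfl⟩, qmap φ hφ A₀ A' j hj, qlift φ hφ E A' f hf, qmap_hom hφ hj, ?_,
      qlift_hom hφ hf, ?_⟩
    · intro a b hab
      exact Subtype.ext (hji (congrArg Subtype.val hab))
    · intro n
      exact Subtype.ext (hfj n)
  · rintro A B ⟨A₀, hA₀, rfl⟩ ⟨B₀, hB₀, rfl⟩
    obtain ⟨D, hD, a, b, ha, hb, hab⟩ := hT.dir _ _ hA₀ hB₀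
    refine ⟨_, ⟨D, hD, rfl⟩, qmap φ hφ A₀ D a ha, qmap φ hφ B₀ D b hb, qmap_hom hφ ha, qmap_hom hφ hb, ?_⟩
    intro x y hxy
    have h1 := hab x.1 y.1 (congrArg Subtype.val hxy)
    exact ⟨Subtype.ext h1.1, Subtype.ext h1.2⟩

end Pool.Agent.IWE
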