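import Pool.Agent.IWE.PiGood
import Pool.Agent.IWE.Cliff
import Pool.Agent.IWE.IndAdm
import Pool.Agent.IWE.IndInj2
import Pool.Agent.IWE.Quot

/-! # IWE/Main3 (MP_88b97d_al, helper45)

The general theorem: `φ : ∏ H_i → G` continuous and open with normal image and kernel in `∏ (P_i ∩ Q_i)`, `Z` central in `G` with
`Z ∩ im φ = 1` and `Z im φ` of finite index, `I ≤ G` with `I ∩ Z im φ = φ(∏ (P_i ∩ Q_i))`.
-/

namespace Pool.Agent.IWE

open scoped TensorProduct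

theorem main3 {p : ℕ} [Fact p.Prime] {C : Type} [Field C] [CharP C p] [Finite C]
    {G : Type} [Group G] [TopologicalSpace G] [IsTopologicalGroup G] (G₀ Z : Subgroup G) [G₀.Normal]
    (oG : IsOpen (G₀ : Set G)) (hZ : Z ≤ Subgroup.center G) (hZG : Z ⊓ G₀ = ⊥)
    (hfin : (Z ⊔ G₀).FiniteIndex) (χ : Z →* Cˣ)
    {I₀ : Subgroup G₀} (hI₀ : HasGood p C I₀)
    (hconj : ∀ g : G, ∃ y : G₀, I₀.map (MulAut.conjNormal g).toMonoidHom = I₀.map (MulAut.conj y).toMonoidHom)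
    (I : Subgroup G) (hI : I ⊓ (Z ⊔ G₀) = I₀.map G₀.subtype)
    (A : RR C G) (hχ : ∀ (z : Z) (v : A.V), A.ρ z v = (χ z : C) • v) (hf : FinLen A) (hA : A.Smooth) :
    ∃ B : RR C G, B.Adm ∧ (∀ (z : Z) (v : B.V), B.ρ z v = (χ z : C) • v) ∧
      B.InjOn I ∧ ∃ f : A.V →ₗ[C] B.V, IsHom A B f ∧ Function.Injective f := by
  obtain ⟨oI, cI, ⟨U, hUI, oU, hU⟩, T, hT⟩ := hI₀
  have hres : FinLen (A.res G₀) := res_finLen p G₀ Z oG hfin χ oU (isCompact_of_le oU cI hUI) hU hf hχ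
  obtain ⟨B₀, hB₀, f₀, hf₀, hf₀i⟩ := hT.embed hres (res_smooth hA G₀)
  obtain ⟨f, hf1, hf2⟩ := ind_embed G₀ Z χ hχ f₀ hf₀ hf₀i
  exact ⟨ind G₀ Z χ B₀, ind_adm G₀ Z oG hZ hZG hfin χ (hT.adm _ hB₀), fun z v => ind_char G₀ Z hZ χ B₀ z v,
    ind_injOn₂ G₀ Z hZ hZG χ (hT.inj _ hB₀) hconj I hI, f, hf1, hf2⟩

theorem main4 {p : ℕ} [Fact p.Prime] {C : Type} [Field C] [CharP C p] [Finite C] {n : ℕ} {H : Fin n → Type}
    [∀ i, Group (H i)] [∀ i, TopologicalSpace (H i)] [∀ i, IsTopologicalGroup (H i)]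
    (P Q : ∀ i, Subgroup (H i)) (h : ∀ i, RankOne p (P i) (Q i))
    {G : Type} [Group G] [TopologicalSpace G] [IsTopologicalGroup G]
    (φ : (∀ i, H i) →* G) (hc : Continuous φ) (ho : IsOpenMap φ) (hn : φ.range.Normal)
    (hker : φ.ker ≤ Subgroup.pi Set.univ (fun i => P i ⊓ Q i))
    (Z : Subgroup G) (hZ : Z ≤ Subgroup.center G) (hZG : Z ⊓ φ.range = ⊥)
    (hfin : (Z ⊔ φ.range).FiniteIndex) (I : Subgroup G)
    (hI : I ⊓ (Z ⊔ φ.range) = (Subgroup.pi Set.univ (fun i => P i ⊓ Q i)).map φ)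
    (hconj : ∀ g : G, ∃ y : (∀ i, H i),
      ((Subgroup.pi Set.univ (fun i => P i ⊓ Q i)).map φ).map (MulAut.conj g).toMonoidHom =
        ((Subgroup.pi Set.univ (fun i => P i ⊓ Q i)).map φ).map (MulAut.conj (φ y)).toMonoidHom)
    (χ : Z →* Cˣ) (A : RR C G) (hA : A.Smooth)
    (hχ : ∀ (z : Z) (v : A.V), A.ρ z v = (χ z : C) • v) (hf : FinLen A) :
    ∃ B : RR C G, B.Adm ∧ (∀ (z : Z) (v : B.V), B.ρ z v = (χ z : C) • v) ∧
      B.InjOn I ∧ ∃ f : A.V →ₗ[C] B.V, IsHom A B f ∧ Function.Injective f := by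
  have h1 := HasGood.pi (C := C) n H (fun i => P i ⊓ Q i) (fun i => (h i).hasGood p)
  have oG : IsOpen (φ.range : Set G) := by
    rw [MonoidHom.coe_range]
    exact ho.isOpen_range
  have hc' : Continuous φ.rangeRestrict := Continuous.subtype_mk hc _
  have ho' : IsOpenMap φ.rangeRestrict := by
    intro U hU
    have h2 : φ.rangeRestrict '' U = Subtype.val ⁻¹' (φ '' U) := by
      ext ⟨y, hy⟩
      constructor
      · rintro ⟨x, hx, h3⟩
        exact ⟨x, hx, congrArg Subtype.val h3⟩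
      · rintro ⟨x, hx, h3⟩
        exact ⟨x, hx, Subtype.ext h3⟩
    rw [h2]
    exact (ho U hU).preimage continuous_subtype_val
  have h2 := h1.quot hc' ho' φ.rangeRestrict_surjective (by rw [MonoidHom.ker_rangeRestrict]; exact hker)
  have h3 : ((Subgroup.pi Set.univ (fun i => P i ⊓ Q i)).map φ.rangeRestrict).map φ.range.subtype =
      (Subgroup.pi Set.univ (fun i => P i ⊓ Q i)).map φ := by
    rw [Subgroup.map_map]
    rfl
  refine main3 φ.range Z oG hZ hZG hfin χ h2 ?_ I (by rw [h3]; exact hI) A hχ hf hA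
  intro g
  obtain ⟨y, hy⟩ := hconj g
  refine ⟨φ.rangeRestrict y, ?_⟩
  have e1 : φ.range.subtype.comp (MulAut.conjNormal g : MulAut φ.range).toMonoidHom =
      (MulAut.conj g).toMonoidHom.comp φ.range.subtype := MonoidHom.ext fun x => MulAut.conjNormal_apply g x
  have e2 : φ.range.subtype.comp (MulAut.conj (φ.rangeRestrict y)).toMonoidHom =
      (MulAut.conj (φ y)).toMonoidHom.comp φ.range.subtype := MonoidHom.ext fun x => rfl
  apply Subgroup.map_injective (f := φ.range.subtype) Subtype.val_injective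
  show Subgroup.map φ.range.subtype (Subgroup.map (MulAut.conjNormal g : MulAut φ.range).toMonoidHom _) =
    Subgroup.map φ.range.subtype (Subgroup.map (MulAut.conj (φ.rangeRestrict y)).toMonoidHom _)
  rw [Subgroup.map_map _ φ.range.subtype (MulAut.conjNormal g : MulAut φ.range).toMonoidHom,
    Subgroup.map_map _ φ.range.subtype (MulAut.conj (φ.rangeRestrict y)).toMonoidHom, e1, e2,
    ← Subgroup.map_map _ (MulAut.conj g).toMonoidHom, ← Subgroup.map_map _ (MulAut.conj (φ y)).toMonoidHom, h3]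
  exact hy

end Pool.Agent.IWE
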