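import Pool.Agent.IWE.Half
import Pool.Agent.IWE.Glue
import Pool.Agent.IWE.Retract
import Pool.Agent.IWE.Push
import Pool.Agent.IWE.AdmExt

/-! # IWE/RankOne (MP_88b97d_al, helper45)

`rank_one_embed`: `J = P ⊓ Q` (open), `U` from `h.pro`, `d = finrank (A.fix U)`, `m = J.relIndex P`, `n = J.relIndex Q` (both
nonzero: open in compact), `N = m * (n * d) = n * (m * d)`; `half` for `P` with `c = n * d ≥ d` and for `Q` with `c = m * d ≥ d`;
`Z = LCf C J (Fin N → C)` is injective, smooth, admissible (`LCfInj`; `J` is compact). `glue` gives `B = ⟨Z.V × Z.V, ρ⟩`.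
`B.res J` is isomorphic to (equal action as) `Z.prod Z`, so `B.InjOn J` (`inj_prod`); smooth: the stabiliser in `J` of a vector is
open in `J`, hence its image is open in `G`; admissible: for `K` open compact, `B.fix K ≤ B.fix (K ⊓ J)` = the vectors of
`Z.prod Z` fixed by the open compact subgroup `K ⊓ J` of `J`.
`RankOne.hasGood`: `T B = B.Adm ∧ B.InjOn J`. `ne`, `emb`: `rank_one_embed` (for `ne` any admissible representation, e.g. the zero
one on `PUnit`). `eff`: `push` gives `E'` (smooth, an extension of `B` by `A`, admissible by `adm_ext`); `rank_one_embed` for `E'`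
gives `g : E' → A'`; `j = g ∘ v`, `f = g ∘ u`. `dir`: `D = A.prod B` (`prod_adm`; `(A.prod B).res J` has the action of
`(A.res J).prod (B.res J)`, `inj_prod`).
-/

namespace Pool.Agent.IWE

open scoped TensorProduct

variable {C : Type} [Field C] {G : Type} [Group G] [TopologicalSpace G] [IsTopologicalGroup G]

private theorem relIndex_pos {J P : Subgroup G} (oJ : IsOpen (J : Set G))
    (cP : IsCompact (P : Set G)) : 1 ≤ J.relIndex P := by
  have : CompactSpace P := isCompact_iff_compactSpace.1 cP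
  have h1 : IsOpen ((J.subgroupOf P : Subgroup P) : Set P) := oJ.preimage continuous_subtype_val
  have : Finite (P ⧸ J.subgroupOf P) := Subgroup.quotient_finite_of_isOpen _ h1
  exact Nat.one_le_iff_ne_zero.2 Subgroup.index_ne_zero_of_finite

theorem rank_one_embed (p : ℕ) [Fact p.Prime] [CharP C p] {P Q : Subgroup G} (h : RankOne p P Q)
    {A : RR C G} (hA : A.Adm) :
    ∃ B : RR C G, B.Adm ∧ B.InjOn (P ⊓ Q) ∧ ∃ f : A.V →ₗ[C] B.V, IsHom A B f ∧ Function.Injective f := by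
  have oJ : IsOpen ((P ⊓ Q : Subgroup G) : Set G) := inf_open h.oP h.oQ
  have cJ : IsCompact ((P ⊓ Q : Subgroup G) : Set G) := isCompact_of_le oJ h.cP inf_le_left
  have : CompactSpace ↥(P ⊓ Q) := isCompact_iff_compactSpace.1 cJ
  obtain ⟨U, hUJ, oU, hU⟩ := h.pro
  have hm := relIndex_pos oJ h.cP
  have hn := relIndex_pos oJ h.cQ
  obtain ⟨d, hd⟩ : ∃ d, d = Module.finrank C (A.fix U) := ⟨_, rfl⟩
  obtain ⟨m, hm'⟩ : ∃ m, m = (P ⊓ Q).relIndex P := ⟨_, rfl⟩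
  obtain ⟨n, hn'⟩ : ∃ n, n = (P ⊓ Q).relIndex Q := ⟨_, rfl⟩
  rw [← hm'] at hm
  rw [← hn'] at hn
  obtain ⟨N, hN⟩ : ∃ N, N = m * (n * d) := ⟨_, rfl⟩
  have hN2 : N = n * (m * d) := by
    rw [hN]
    ring
  obtain ⟨ρP, i, hP, hi, hPi⟩ := half p hA (J := P ⊓ Q) (P := P) inf_le_left oJ h.cP hUJ oU hU
    (n * d) (by rw [← hd]; exact Nat.le_mul_of_pos_left _ hn) N (by rw [hN, hm'])
  obtain ⟨ρQ, j, hQ, hj, hQj⟩ := half p hA (J := P ⊓ Q) (P := Q) inf_le_right oJ h.cQ hUJ oU hU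
    (m * d) (by rw [← hd]; exact Nat.le_mul_of_pos_left _ hm) N (by rw [hN2, hn'])
  have hZ : (LCf C ↥(P ⊓ Q) (Fin N → C)).Inj := LCf_inj C ↥(P ⊓ Q) (Fin N → C)
  have hZs : (LCf C ↥(P ⊓ Q) (Fin N → C)).Smooth := LCf_smooth C ↥(P ⊓ Q) (Fin N → C)
  have hZa : (LCf C ↥(P ⊓ Q) (Fin N → C)).Adm := LCf_adm C ↥(P ⊓ Q) (Fin N → C)
  obtain ⟨Z, hZdef⟩ : ∃ Z, Z = LCf C ↥(P ⊓ Q) (Fin N → C) := ⟨_, rfl⟩
  rw [← hZdef] at hZ hZs hZa
  obtain ⟨ρ, f, h1, h2, h3⟩ := glue (Z := LCf C ↥(P ⊓ Q) (Fin N → C)) hA.1 h.am (hZdef ▸ hZ)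
    (hZdef ▸ hZs) ρP i hP hi hPi ρQ j hQ hj hQj
  subst hZdef
  have hρ : ρ.comp (P ⊓ Q).subtype =
      ((LCf C ↥(P ⊓ Q) (Fin N → C)).prod (LCf C ↥(P ⊓ Q) (Fin N → C))).ρ := by
    apply MonoidHom.ext
    intro g
    apply LinearMap.ext
    intro z
    exact h1 g.1 g.2 z
  have hsm := prod_smooth hZs hZs
  have hadm := prod_adm hZa hZa
  refine ⟨⟨(LCf C ↥(P ⊓ Q) (Fin N → C)).V × (LCf C ↥(P ⊓ Q) (Fin N → C)).V, ρ⟩,
    ⟨?_, ?_⟩, ?_, f, h2, h3⟩
  · intro v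
    obtain ⟨U', hU', hv⟩ := hsm v
    refine ⟨U'.map (P ⊓ Q).subtype, ?_, ?_⟩
    · rw [Subgroup.coe_map]
      exact oJ.isOpenMap_subtype_val _ hU'
    · intro g hg
      obtain ⟨u, hu, rfl⟩ := Subgroup.mem_map.1 hg
      have h4 := h1 u.1 u.2 v
      exact h4.trans (hv u hu)
  · intro K oK cK
    have oK' : IsOpen ((K.subgroupOf (P ⊓ Q) : Subgroup ↥(P ⊓ Q)) : Set ↥(P ⊓ Q)) :=
      oK.preimage continuous_subtype_val
    have cK' : IsCompact ((K.subgroupOf (P ⊓ Q) : Subgroup ↥(P ⊓ Q)) : Set ↥(P ⊓ Q)) :=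
      (Subgroup.isClosed_of_isOpen _ oK').isCompact
    have hfin := hadm.2 _ oK' cK'
    let g : (RR.fix (⟨(LCf C ↥(P ⊓ Q) (Fin N → C)).V × (LCf C ↥(P ⊓ Q) (Fin N → C)).V, ρ⟩ :
        RR C G) K) →ₗ[C] (((LCf C ↥(P ⊓ Q) (Fin N → C)).prod
          (LCf C ↥(P ⊓ Q) (Fin N → C))).fix (K.subgroupOf (P ⊓ Q))) :=
      { toFun := fun v => ⟨v.1, fun x hx => (h1 x.1 x.2 v.1).symm.trans (v.2 x.1 hx)⟩
        map_add' := fun a b => rfl
        map_smul' := fun c a => rfl }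
    refine Module.Finite.of_injective g ?_
    intro a b hab
    exact Subtype.ext (congrArg (fun x => x.1) hab)
  · have hinj := inj_prod hZ hZ
    show RR.Inj (RR.mk ((LCf C ↥(P ⊓ Q) (Fin N → C)).V × (LCf C ↥(P ⊓ Q) (Fin N → C)).V)
      (ρ.comp (P ⊓ Q).subtype))
    rw [hρ]
    exact hinj

theorem RankOne.hasGood (p : ℕ) [Fact p.Prime] [CharP C p] {P Q : Subgroup G} (h : RankOne p P Q) :
    HasGood p C (P ⊓ Q) := by
  have oJ : IsOpen ((P ⊓ Q : Subgroup G) : Set G) := inf_open h.oP h.oQ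
  refine ⟨oJ, isCompact_of_le oJ h.cP inf_le_left, h.pro, fun B => B.Adm ∧ B.InjOn (P ⊓ Q), ?_⟩
  refine ⟨?_, fun A hA => hA.1, fun A hA => hA.2, ?_, ?_, ?_⟩
  · obtain ⟨B, hB, hB', -⟩ := rank_one_embed p h
      (A := (⟨PUnit, (1 : G →* (PUnit →ₗ[C] PUnit))⟩ : RR C G))
      ⟨fun v => ⟨⊤, isOpen_univ, fun g _ => Subsingleton.elim _ _⟩, fun K _ _ => by
        have : Subsingleton (RR.fix (⟨PUnit, (1 : G →* (PUnit →ₗ[C] PUnit))⟩ : RR C G) K) :=
          ⟨fun a b => Subtype.ext (Subsingleton.elim (α := PUnit) _ _)⟩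
        exact inferInstance⟩
    exact ⟨B, hB, hB'⟩
  · intro A _ hA
    obtain ⟨B, hB, hB', f, hf, hfi⟩ := rank_one_embed p h hA
    exact ⟨B, ⟨hB, hB'⟩, f, hf, hfi⟩
  · intro A hA N E B i q hs hE hB hBA k hk
    obtain ⟨E', u, v, q', hu, hs', hq, hui, hsm⟩ := push hs hk
    have hE' : E'.Adm := adm_ext hs' (hsm hE hA.1.1) hA.1 hBA
    obtain ⟨A', hA', hA'', g, hg, hgi⟩ := rank_one_embed p h hE'
    refine ⟨A', ⟨hA', hA''⟩, g.comp v, g.comp u, hs'.hi.comp hg, hgi.comp hs'.inj,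
      hu.comp hg, fun n => ?_⟩
    rw [LinearMap.comp_apply, LinearMap.comp_apply, hui]
  · intro A B hA hB
    refine ⟨A.prod B, ⟨prod_adm hA.1 hB.1, ?_⟩, LinearMap.inl C A.V B.V, LinearMap.inr C A.V B.V,
      ?_, ?_, ?_⟩
    · have hinj := inj_prod hA.2 hB.2
      have hρ : (A.prod B).ρ.comp (P ⊓ Q).subtype =
          ((A.res (P ⊓ Q)).prod (B.res (P ⊓ Q))).ρ := by
        apply MonoidHom.ext
        intro g
        apply LinearMap.ext
        intro z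
        rfl
      show RR.Inj (RR.mk (A.V × B.V) ((A.prod B).ρ.comp (P ⊓ Q).subtype))
      rw [hρ]
      exact hinj
    · intro g v
      show (A.ρ g v, (0 : B.V)) = (A.ρ g v, B.ρ g 0)
      rw [map_zero]
    · intro g v
      show ((0 : A.V), B.ρ g v) = (A.ρ g 0, B.ρ g v)
      rw [map_zero]
    · intro x y hxy
      rw [LinearMap.inl_apply, LinearMap.inr_apply, Prod.mk_add_mk, add_zero, zero_add] at hxy
      exact ⟨congrArg Prod.fst hxy, congrArg Prod.snd hxy⟩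

end Pool.Agent.IWE
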