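import Pool.Agent.IWE.Retract

/-! # IWE/Transp (MP_88b97d_al, helper45)

Transport along an isomorphism of topological groups `e : G ≃* H`. `T' A := T (A.comap e)`. All fields of `Good` are transported by
`A ↦ A.comap e` and `A ↦ A.comap e.symm` (`(A.comap e).comap e.symm = A`: the underlying space is the same, the action agrees up to
`e.apply_symm_apply`; if equality of structures is inconvenient use `T' A := ∃ A₀, T A₀ ∧ A = A₀.comap e.symm`). Subgroups:
`K ↦ K.map e`, `K.comap e`. `InjOn`: `inj_comap` for the isomorphism `J ≃* J.map e` (`MulEquiv.subgroupMap`).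
`ProP`: transport `V ↦ V.comap e`, `N ↦ N.map e`; `relIndex` of the images (`Subgroup.relIndex_map_map_of_injective` or so).
-/

namespace Pool.Agent.IWE

open scoped TensorProduct

variable {C : Type} [Field C] {G : Type} [Group G] [TopologicalSpace G] {H : Type} [Group H] [TopologicalSpace H]

omit [TopologicalSpace G] [TopologicalSpace H] in
private theorem tr_comap_comap (f : G →* H) (f' : H →* G) (h : ∀ g, f' (f g) = g) (A : RR C G) :
    (A.comap f').comap f = A := by
  obtain ⟨V, ρ⟩ := A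
  have h1 : (ρ.comp f').comp f = ρ := by
    apply MonoidHom.ext
    intro g
    show ρ (f' (f g)) = ρ g
    rw [h]
  show (⟨V, (ρ.comp f').comp f⟩ : RR C G) = ⟨V, ρ⟩
  rw [h1]

private theorem tr_smooth (e : G ≃* H) (he : Continuous e) {A : RR C H} (hA : A.Smooth) :
    (A.comap e.toMonoidHom).Smooth := by
  intro v
  obtain ⟨U, hU, h⟩ := hA v
  exact ⟨U.comap e.toMonoidHom, hU.preimage he, fun g hg => h _ hg⟩

omit [TopologicalSpace G] [TopologicalSpace H] in
private theorem tr_irr (e : G ≃* H) {A : RR C H} (hA : A.Irr) :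
    (A.comap e.toMonoidHom).Irr := by
  refine ⟨hA.1, fun W hW => ?_⟩
  refine hA.2 W ?_
  intro h w hw
  have h1 := hW (e.symm h) w hw
  have h2 : (A.comap e.toMonoidHom).ρ (e.symm h) w = A.ρ h w := by
    show A.ρ (e (e.symm h)) w = A.ρ h w
    rw [MulEquiv.apply_symm_apply]
  rw [h2] at h1
  exact h1

omit [TopologicalSpace G] [TopologicalSpace H] in
private theorem tr_map_eq (e : G ≃* H) (K : Subgroup G) :
    ((K.map e.toMonoidHom : Subgroup H) : Set H) = e.symm ⁻¹' (K : Set G) := by
  ext x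
  constructor
  · rintro ⟨y, hy, rfl⟩
    show e.symm (e y) ∈ K
    rw [MulEquiv.symm_apply_apply]
    exact hy
  · intro hx
    exact ⟨e.symm x, hx, e.apply_symm_apply x⟩

private theorem tr_open (e : G ≃* H) (he' : Continuous e.symm) {K : Subgroup G}
    (hK : IsOpen (K : Set G)) : IsOpen ((K.map e.toMonoidHom : Subgroup H) : Set H) := by
  rw [tr_map_eq]
  exact hK.preimage he'

private theorem tr_compact (e : G ≃* H) (he : Continuous e) {K : Subgroup G}
    (hK : IsCompact (K : Set G)) : IsCompact ((K.map e.toMonoidHom : Subgroup H) : Set H) :=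
  hK.image he

omit [TopologicalSpace G] [TopologicalSpace H] in
private theorem tr_fix (e : G ≃* H) (A : RR C H) (K : Subgroup G) (v : A.V) :
    v ∈ (A.comap e.toMonoidHom).fix K ↔ v ∈ A.fix (K.map e.toMonoidHom) := by
  constructor
  · rintro h _ ⟨g, hg, rfl⟩
    exact h g hg
  · intro h g hg
    exact h _ ⟨g, hg, rfl⟩

private theorem tr_adm (e : G ≃* H) (he : Continuous e) (he' : Continuous e.symm) {A : RR C H}
    (hA : A.Adm) : (A.comap e.toMonoidHom).Adm := by
  refine ⟨tr_smooth e he hA.1, fun K hK hK' => ?_⟩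
  have h1 := hA.2 (K.map e.toMonoidHom) (tr_open e he' hK) (tr_compact e he hK')
  have h2 : (A.comap e.toMonoidHom).fix K = A.fix (K.map e.toMonoidHom) := by
    ext v
    exact tr_fix e A K v
  rw [h2]
  exact h1

private theorem tr_proP {p : ℕ} (e : G ≃* H) (he : Continuous e) (he' : Continuous e.symm)
    {U : Subgroup G} (hU : ProP p U) : ProP p (U.map e.toMonoidHom) := by
  intro V hV
  obtain ⟨N, hNV, hNU, hN, hnorm, k, hk⟩ := hU (V.comap e.toMonoidHom) (hV.preimage he)
  refine ⟨N.map e.toMonoidHom, ?_, Subgroup.map_mono hNU, tr_open e he' hN, ?_, k, ?_⟩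
  · rintro _ ⟨g, hg, rfl⟩
    exact hNV hg
  · rintro _ ⟨u, hu, rfl⟩ _ ⟨n, hn, rfl⟩
    exact ⟨u * n * u⁻¹, hnorm u hu n hn, by simp⟩
  · rw [Subgroup.relIndex_map_map_of_injective _ _ e.injective, hk]

omit [TopologicalSpace G] [TopologicalSpace H] in
/-- a homomorphism from the pullback to `B` is one to the pushforward of `B` -/
private theorem tr_hom (e : G ≃* H) {A : RR C H} {B : RR C G} {f : A.V →ₗ[C] B.V}
    (hf : IsHom (A.comap e.toMonoidHom) B f) : IsHom A (B.comap e.symm.toMonoidHom) f := by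
  intro h v
  have h1 := hf (e.symm h) v
  have h2 : (A.comap e.toMonoidHom).ρ (e.symm h) v = A.ρ h v := by
    show A.ρ (e (e.symm h)) v = A.ρ h v
    rw [MulEquiv.apply_symm_apply]
  rw [h2] at h1
  exact h1

private theorem tr_injOn (e : G ≃* H) (he : Continuous e) (he' : Continuous e.symm)
    {A : RR C H} {J : Subgroup G} (hA : (A.comap e.toMonoidHom).InjOn J) :
    A.InjOn (J.map e.toMonoidHom) := by
  have hA' : ((A.comap e.toMonoidHom).res J).Inj := hA
  let φ : J ≃* (J.map e.toMonoidHom : Subgroup H) := e.subgroupMap J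
  have hφ : ∀ x : J, ((φ x : (J.map e.toMonoidHom : Subgroup H)) : H) = e x := fun x => rfl
  have hφs : ∀ x : (J.map e.toMonoidHom : Subgroup H), ((φ.symm x : J) : G) = e.symm x := by
    intro x
    obtain ⟨y, rfl⟩ := φ.surjective x
    rw [MulEquiv.symm_apply_apply, hφ, MulEquiv.symm_apply_apply]
  have h1 : Continuous φ := by
    rw [continuous_induced_rng]
    exact he.comp continuous_subtype_val
  have h2 : Continuous φ.symm := by
    rw [continuous_induced_rng]
    have h3 : (Subtype.val ∘ φ.symm) = fun x : (J.map e.toMonoidHom : Subgroup H) =>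
        e.symm (x : H) := funext hφs
    rw [h3]
    exact he'.comp continuous_subtype_val
  have h4 := inj_comap φ.symm h2 h1 hA'
  have h5 : ((A.comap e.toMonoidHom).res J).comap φ.symm.toMonoidHom
      = A.res (J.map e.toMonoidHom) := by
    have h6 : (((A.ρ.comp e.toMonoidHom).comp J.subtype).comp φ.symm.toMonoidHom)
        = A.ρ.comp (J.map e.toMonoidHom).subtype := by
      apply MonoidHom.ext
      intro x
      show A.ρ (e ((φ.symm x : J) : G)) = A.ρ (x : H)
      rw [hφs, MulEquiv.apply_symm_apply]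
    show (⟨A.V, ((A.ρ.comp e.toMonoidHom).comp J.subtype).comp φ.symm.toMonoidHom⟩ :
      RR C (J.map e.toMonoidHom : Subgroup H)) = ⟨A.V, A.ρ.comp (J.map e.toMonoidHom).subtype⟩
    rw [h6]
  rw [h5] at h4
  exact h4

theorem HasGood.map {p : ℕ} (e : G ≃* H) (he : Continuous e) (he' : Continuous e.symm) {J : Subgroup G}
    (hJ : HasGood p C J) : HasGood p C (J.map e.toMonoidHom) := by
  obtain ⟨hJo, hJc, ⟨U, hUJ, hUo, hUp⟩, T, hT⟩ := hJ
  have hes : ∀ g, e.symm.toMonoidHom (e.toMonoidHom g) = g := fun g => e.symm_apply_apply g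
  have hes' : ∀ h, e.toMonoidHom (e.symm.toMonoidHom h) = h := fun h => e.apply_symm_apply h
  refine ⟨tr_open e he' hJo, tr_compact e he hJc, ⟨U.map e.toMonoidHom, Subgroup.map_mono hUJ,
    tr_open e he' hUo, tr_proP e he he' hUp⟩, fun A => T (A.comap e.toMonoidHom), ?_⟩
  have hup : ∀ B : RR C G, T B → T ((B.comap e.symm.toMonoidHom).comap e.toMonoidHom) := by
    intro B hB
    rw [tr_comap_comap e.toMonoidHom e.symm.toMonoidHom hes B]
    exact hB
  refine ⟨?_, ?_, ?_, ?_, ?_, ?_⟩
  · obtain ⟨A, hA⟩ := hT.ne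
    exact ⟨A.comap e.symm.toMonoidHom, hup A hA⟩
  · intro A hA
    have h1 : ((A.comap e.toMonoidHom).comap e.symm.toMonoidHom).Adm :=
      tr_adm e.symm he' he (hT.adm _ hA)
    rw [tr_comap_comap e.symm.toMonoidHom e.toMonoidHom hes' A] at h1
    exact h1
  · intro A hA
    exact tr_injOn e he he' (hT.inj _ hA)
  · intro A hA hA'
    obtain ⟨B, hB, f, hf, hinj⟩ := hT.emb (A.comap e.toMonoidHom) (tr_irr e hA)
      (tr_adm e he he' hA')
    exact ⟨B.comap e.symm.toMonoidHom, hup B hB, f, tr_hom e hf, hinj⟩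
  · intro A hA N E B i q hs hE hB hB' h hh
    have hs' : SES (N.comap e.toMonoidHom) (E.comap e.toMonoidHom) (B.comap e.toMonoidHom) i q :=
      ⟨fun g v => hs.hi (e g) v, fun g v => hs.hq (e g) v, hs.inj, hs.surj, hs.ex⟩
    obtain ⟨A', hA', j, f, hj, hji, hf, hfj⟩ := hT.eff (A.comap e.toMonoidHom) hA
      (N.comap e.toMonoidHom) (E.comap e.toMonoidHom) (B.comap e.toMonoidHom) i q hs'
      (tr_smooth e he hE) (tr_irr e hB) (tr_adm e he he' hB') h (fun g v => hh (e g) v)
    exact ⟨A'.comap e.symm.toMonoidHom, hup A' hA', j, f, tr_hom e hj, hji, tr_hom e hf, hfj⟩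
  · intro A B hA hB
    obtain ⟨D, hD, a, b, ha, hb, hab⟩ := hT.dir _ _ hA hB
    exact ⟨D.comap e.symm.toMonoidHom, hup D hD, a, b, tr_hom e ha, tr_hom e hb, hab⟩

end Pool.Agent.IWE
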