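import Pool.Agent.IWE.ProdGood
import Pool.Agent.IWE.Transp
import Pool.Agent.IWE.RankOne

/-! # IWE/PiGood (MP_88b97d_al, helper45)

`hasGood_trivial`: `P = Q = ⊤` is `RankOne` for a trivial group (finite, discrete or not: `⊤` is open, compact, `IsAmalgam ⊤ ⊤`
is clear: `h = f ∘ (x ↦ ⟨x, trivial⟩)`; `ProP p ⊤` with `N = ⊤` as every subgroup is `⊤`, relIndex `1 = p ^ 0`).
`HasGood.pi`: induction on `n`. `n = 0`: trivial group. Step: `e : G 0 × (∀ i, G (Fin.succ i)) ≃* ∀ i, G i` (`Fin.cons`), a
homeomorphism; `HasGood.prod` for `J 0` and `Subgroup.pi univ (fun i => J i.succ)`; `HasGood.map` along `e`; the image of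
`(J 0).prod (Subgroup.pi univ _)` is `Subgroup.pi univ J`.
-/

namespace Pool.Agent.IWE

open scoped TensorProduct

variable {C : Type} [Field C]

theorem hasGood_trivial (p : ℕ) [Fact p.Prime] [CharP C p] (G : Type) [Group G] [TopologicalSpace G]
    [IsTopologicalGroup G] [Subsingleton G] : HasGood p C (⊤ : Subgroup G) := by
  have hV : ∀ V : Subgroup G, (⊤ : Subgroup G) ≤ V := fun V x _ => by
    rw [Subsingleton.elim x 1]
    exact V.one_mem
  have ho : IsOpen ((⊤ : Subgroup G) : Set G) := by
    rw [Subgroup.coe_top]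
    exact isOpen_univ
  have hc : IsCompact ((⊤ : Subgroup G) : Set G) := (Set.toFinite _).isCompact
  have h : RankOne p (⊤ : Subgroup G) ⊤ :=
    { oP := ho
      cP := hc
      oQ := ho
      cQ := hc
      am := by
        refine ⟨sup_idem _, fun L _ f g hfg => ⟨f.comp Subgroup.topEquiv.symm.toMonoidHom, ?_, ?_⟩⟩
        · intro x
          exact congrArg f (Subtype.ext rfl)
        · intro x
          rw [← hfg x.1 x.2 x.2]
          exact congrArg f (Subtype.ext rfl)
      pro := by
        refine ⟨⊤, by rw [inf_idem], ho, fun V _ => ⟨⊤, hV V, le_rfl, ho, fun _ _ _ _ =>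
          Subgroup.mem_top _, 0, ?_⟩⟩
        rw [Subgroup.relIndex_self, pow_zero] }
  have h2 := h.hasGood (C := C)
  rwa [inf_idem] at h2

/-- `Fin.cons` as an isomorphism of groups -/
private def consE {n : ℕ} (G : Fin (n + 1) → Type) [∀ i, Group (G i)] :
    (G 0 × (∀ i : Fin n, G i.succ)) ≃* (∀ i, G i) where
  toFun x := Fin.cons x.1 x.2
  invFun f := (f 0, fun i => f i.succ)
  left_inv x := by
    ext
    · rfl
    · rfl
  right_inv f := by
    funext i
    refine Fin.cases ?_ (fun j => ?_) i
    · rfl
    · rfl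
  map_mul' x y := by
    funext i
    refine Fin.cases ?_ (fun j => ?_) i
    · rfl
    · rfl

theorem HasGood.pi {p : ℕ} [Fact p.Prime] [CharP C p] [Finite C] (n : ℕ) (G : Fin n → Type)
    [∀ i, Group (G i)] [∀ i, TopologicalSpace (G i)] [∀ i, IsTopologicalGroup (G i)]
    (J : ∀ i, Subgroup (G i)) (hJ : ∀ i, HasGood p C (J i)) :
    HasGood p C (Subgroup.pi Set.univ J) := by
  induction n with
  | zero =>
    have h1 : Subgroup.pi Set.univ J = (⊤ : Subgroup (∀ i, G i)) := by
      refine top_le_iff.1 fun x _ => ?_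
      rw [Subgroup.mem_pi]
      intro i
      exact i.elim0
    rw [h1]
    exact hasGood_trivial p (∀ i, G i)
  | succ n ih =>
    have h1 : HasGood p C (Subgroup.pi Set.univ fun i : Fin n => J i.succ) :=
      ih (fun i => G i.succ) (fun i => J i.succ) (fun i => hJ i.succ)
    have h2 : HasGood p C ((J 0).prod (Subgroup.pi Set.univ fun i : Fin n => J i.succ)) :=
      (hJ 0).prod h1
    have he : Continuous (consE G) := by
      refine continuous_pi fun i => ?_
      refine Fin.cases ?_ (fun j => ?_) i
      · exact continuous_fst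
      · exact (continuous_apply j).comp continuous_snd
    have he' : Continuous (consE G).symm :=
      (continuous_apply (0 : Fin (n + 1))).prodMk (continuous_pi fun i => continuous_apply i.succ)
    have h3 := HasGood.map (consE G) he he' h2
    have h4 : ((J 0).prod (Subgroup.pi Set.univ fun i : Fin n => J i.succ)).map
        (consE G).toMonoidHom = Subgroup.pi Set.univ J := by
      ext f
      rw [Subgroup.mem_map, Subgroup.mem_pi]
      constructor
      · rintro ⟨x, hx, rfl⟩ i _
        rw [Subgroup.mem_prod, Subgroup.mem_pi] at hx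
        refine Fin.cases ?_ (fun j => ?_) i
        · exact hx.1
        · exact hx.2 j (Set.mem_univ _)
      · intro hf
        refine ⟨(f 0, fun i => f i.succ), ?_, ?_⟩
        · rw [Subgroup.mem_prod, Subgroup.mem_pi]
          exact ⟨hf 0 (Set.mem_univ _), fun j _ => hf j.succ (Set.mem_univ _)⟩
        · exact (consE G).right_inv f
    rwa [h4] at h3

end Pool.Agent.IWE
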