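import Pool.Agent.IWE.Defs

/-! # IWE/PingPong (MP_88b97d_al, helper45)

Ping-pong for amalgams. Let `L, f, g` be as in `IsAmalgam`. `Γ ≤ G × L` is the subgroup generated by the `(x, f x)`, `x ∈ P`, and
`(x, g x)`, `x ∈ Q`. The first projection `Γ → G` is surjective (`P ⊔ Q = ⊤`); it is enough to show: `(1, l) ∈ Γ → l = 1`; then `Γ` is the
graph of a homomorphism `h` with the required properties.
Inductive predicate `Wd b z` (`b = true`: the word `z ∈ G × L` starts with a letter of `P ∖ Q`): `Wd true (x, f x)` for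
`x ∈ P ∖ Q`; `Wd false (x, g x)` for `x ∈ Q ∖ P`; `Wd true ((x, f x) * z)` if `x ∈ P ∖ Q` and `Wd false z`; `Wd false ((x, g x) * z)` if
`x ∈ Q ∖ P` and `Wd true z`. Let `I = {(x, f x) : x ∈ P ⊓ Q}`. The set `I ∪ Wd true ∪ Wd false` contains `1` and is stable under left
multiplication by `(x, f x)`, `x ∈ P`, and `(x, g x)`, `x ∈ Q` (if `x y ∈ P ⊓ Q` for the first letter `y`, absorb `x y` in the next
letter), so it contains `Γ`. If `Wd true (g₀, l)` then for some `x ∈ P ∖ Q`: `g₀ • B₁ ⊆ x • B₁` or `g₀ • B₀ ⊆ x • B₁`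
(induction, simultaneously with: if `Wd false (g₀, l)` then for some `y ∈ Q ∖ P`: `g₀ • B₀ ⊆ y • B₀` or `g₀ • B₁ ⊆ y • B₀`), so `g₀ ≠ 1`:
`B₁ ⊆ x • B₁ ⊆ B₀` is impossible (`B₁` nonempty, disjoint from `B₀`), `B₀ ⊆ x • B₁` is excluded by the strictness hypothesis.
`act` is an action on `X`: `act 1 = id`, `act (g h) = act g ∘ act h`.
-/

namespace Pool.Agent.IWE

open scoped TensorProduct

variable {G : Type} [Group G]

/-- alternating words with letters in `P ∖ Q` and `Q ∖ P`, evaluated in `G × L` -/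
private inductive PPWd {P Q : Subgroup G} {L : Type} [Group L] (f : P →* L) (g : Q →* L) :
    Bool → G × L → Prop
  | p1 (x : G) (hP : x ∈ P) (hQ : x ∉ Q) : PPWd f g true (x, f ⟨x, hP⟩)
  | q1 (x : G) (hQ : x ∈ Q) (hP : x ∉ P) : PPWd f g false (x, g ⟨x, hQ⟩)
  | p2 (x : G) (hP : x ∈ P) (hQ : x ∉ Q) (z : G × L) (hz : PPWd f g false z) :
      PPWd f g true ((x, f ⟨x, hP⟩) * z)
  | q2 (x : G) (hQ : x ∈ Q) (hP : x ∉ P) (z : G × L) (hz : PPWd f g true z) :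
      PPWd f g false ((x, g ⟨x, hQ⟩) * z)

section

variable {P Q : Subgroup G} {L : Type} [Group L] {f : P →* L} {g : Q →* L}

private theorem pairP (a x : G) (ha : a ∈ P) (hx : x ∈ P) :
    ((a, f ⟨a, ha⟩) : G × L) * (x, f ⟨x, hx⟩) = (a * x, f ⟨a * x, P.mul_mem ha hx⟩) := by
  rw [Prod.mk_mul_mk, ← map_mul]
  rfl

private theorem pairQ (a x : G) (ha : a ∈ Q) (hx : x ∈ Q) :
    ((a, g ⟨a, ha⟩) : G × L) * (x, g ⟨x, hx⟩) = (a * x, g ⟨a * x, Q.mul_mem ha hx⟩) := by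
  rw [Prod.mk_mul_mk, ← map_mul]
  rfl

/-- multiplication by an element of `P ⊓ Q` -/
private theorem wd_mul_inf (hc : ∀ (x : G) (hP : x ∈ P) (hQ : x ∈ Q), f ⟨x, hP⟩ = g ⟨x, hQ⟩)
    (c : G) (cP : c ∈ P) (cQ : c ∈ Q) {b : Bool} {z : G × L} (hz : PPWd f g b z) :
    PPWd f g b ((c, f ⟨c, cP⟩) * z) := by
  cases hz with
  | p1 x hP hQ =>
    rw [pairP]
    exact PPWd.p1 _ _ (fun h => hQ ((Q.mul_mem_cancel_left cQ).1 h))
  | q1 x hQ hP =>
    rw [hc c cP cQ, pairQ]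
    exact PPWd.q1 _ _ (fun h => hP ((P.mul_mem_cancel_left cP).1 h))
  | p2 x hP hQ z hz =>
    rw [← mul_assoc, pairP]
    exact PPWd.p2 _ _ (fun h => hQ ((Q.mul_mem_cancel_left cQ).1 h)) _ hz
  | q2 x hQ hP z hz =>
    rw [hc c cP cQ, ← mul_assoc, pairQ]
    exact PPWd.q2 _ _ (fun h => hP ((P.mul_mem_cancel_left cP).1 h)) _ hz

/-- the elements of the subgroup generated by the graphs -/
private def PPS (f : P →* L) (g : Q →* L) (z : G × L) : Prop :=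
  (∃ (x : G) (hP : x ∈ P), x ∈ Q ∧ z = (x, f ⟨x, hP⟩)) ∨ ∃ b, PPWd f g b z

private theorem pps_mulP (hc : ∀ (x : G) (hP : x ∈ P) (hQ : x ∈ Q), f ⟨x, hP⟩ = g ⟨x, hQ⟩)
    (a : G) (aP : a ∈ P) {z : G × L} (hz : PPS f g z) : PPS f g ((a, f ⟨a, aP⟩) * z) := by
  by_cases aQ : a ∈ Q
  · rcases hz with ⟨x, xP, xQ, rfl⟩ | ⟨b, hb⟩
    · left
      exact ⟨a * x, P.mul_mem aP xP, Q.mul_mem aQ xQ, pairP _ _ _ _⟩
    · right
      exact ⟨b, wd_mul_inf hc a aP aQ hb⟩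
  · rcases hz with ⟨x, xP, xQ, rfl⟩ | ⟨b, hb⟩
    · right
      refine ⟨true, ?_⟩
      rw [pairP]
      exact PPWd.p1 _ _ (fun h => aQ ((Q.mul_mem_cancel_right xQ).1 h))
    · cases b with
      | false => exact Or.inr ⟨true, PPWd.p2 a aP aQ z hb⟩
      | true =>
        cases hb with
        | p1 x hP hQ =>
          rw [pairP]
          by_cases h : a * x ∈ Q
          · exact Or.inl ⟨a * x, P.mul_mem aP hP, h, rfl⟩
          · exact Or.inr ⟨true, PPWd.p1 _ _ h⟩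
        | p2 x hP hQ z hz =>
          rw [← mul_assoc, pairP]
          by_cases h : a * x ∈ Q
          · exact Or.inr ⟨false, wd_mul_inf hc _ _ h hz⟩
          · exact Or.inr ⟨true, PPWd.p2 _ _ h _ hz⟩

private theorem pps_mulQ (hc : ∀ (x : G) (hP : x ∈ P) (hQ : x ∈ Q), f ⟨x, hP⟩ = g ⟨x, hQ⟩)
    (a : G) (aQ : a ∈ Q) {z : G × L} (hz : PPS f g z) : PPS f g ((a, g ⟨a, aQ⟩) * z) := by
  by_cases aP : a ∈ P
  · rw [← hc a aP aQ]
    exact pps_mulP hc a aP hz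
  · rcases hz with ⟨x, xP, xQ, rfl⟩ | ⟨b, hb⟩
    · right
      refine ⟨false, ?_⟩
      rw [hc x xP xQ, pairQ]
      exact PPWd.q1 _ _ (fun h => aP ((P.mul_mem_cancel_right xP).1 h))
    · cases b with
      | true => exact Or.inr ⟨false, PPWd.q2 a aQ aP z hb⟩
      | false =>
        cases hb with
        | q1 x hQ hP =>
          rw [pairQ]
          by_cases h : a * x ∈ P
          · exact Or.inl ⟨a * x, h, Q.mul_mem aQ hQ, by rw [hc]⟩
          · exact Or.inr ⟨false, PPWd.q1 _ _ h⟩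
        | q2 x hQ hP z hz =>
          rw [← mul_assoc, pairQ]
          by_cases h : a * x ∈ P
          · rw [← hc (a * x) h (Q.mul_mem aQ hQ)]
            exact Or.inr ⟨true, wd_mul_inf hc _ _ (Q.mul_mem aQ hQ) hz⟩
          · exact Or.inr ⟨false, PPWd.q2 _ _ h _ hz⟩

end

theorem amalgam_of_pingpong {P Q : Subgroup G} (hPQ : P ⊔ Q = ⊤) {X : Type} (act : G → X → X)
    (act_one : ∀ x, act 1 x = x) (act_mul : ∀ g h x, act (g * h) x = act g (act h x)) (B₀ B₁ : Set X)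
    (hdis : Disjoint B₀ B₁) (hne₀ : B₀.Nonempty) (hne₁ : B₁.Nonempty)
    (hP : ∀ g ∈ P, g ∉ Q → (act g '' B₁ ⊆ B₀ ∧ ¬ B₀ ⊆ act g '' B₁))
    (hQ : ∀ g ∈ Q, g ∉ P → (act g '' B₀ ⊆ B₁ ∧ ¬ B₁ ⊆ act g '' B₀)) : IsAmalgam P Q := by
  refine ⟨hPQ, ?_⟩
  intro L _ f g hc
  -- the geometry of the words
  have geo : ∀ (b : Bool) (z : G × L), PPWd f g b z →
      (b = true → ∃ x ∈ P, x ∉ Q ∧ (act z.1 '' B₁ ⊆ act x '' B₁ ∨ act z.1 '' B₀ ⊆ act x '' B₁)) ∧
      (b = false → ∃ y ∈ Q, y ∉ P ∧ (act z.1 '' B₀ ⊆ act y '' B₀ ∨ act z.1 '' B₁ ⊆ act y '' B₀)) := by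
    have him : ∀ (x y : G) (B : Set X), act (x * y) '' B = act x '' (act y '' B) := by
      intro x y B
      rw [Set.image_image]
      exact Set.image_congr (fun a _ => act_mul x y a)
    intro b z hz
    induction hz with
    | p1 x xP xQ =>
      exact ⟨fun _ => ⟨x, xP, xQ, Or.inl (le_refl _)⟩, fun h => by simp at h⟩
    | q1 x xQ xP =>
      exact ⟨fun h => by simp at h, fun _ => ⟨x, xQ, xP, Or.inl (le_refl _)⟩⟩
    | p2 x xP xQ z hz ih =>
      refine ⟨fun _ => ⟨x, xP, xQ, ?_⟩, fun h => by simp at h⟩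
      obtain ⟨y, yQ, yP, h⟩ := ih.2 rfl
      show act (x * z.1) '' B₁ ⊆ _ ∨ act (x * z.1) '' B₀ ⊆ _
      rw [him, him]
      rcases h with h | h
      · exact Or.inr (Set.image_mono (h.trans (hQ y yQ yP).1))
      · exact Or.inl (Set.image_mono (h.trans (hQ y yQ yP).1))
    | q2 x xQ xP z hz ih =>
      refine ⟨fun h => by simp at h, fun _ => ⟨x, xQ, xP, ?_⟩⟩
      obtain ⟨y, yP, yQ, h⟩ := ih.1 rfl
      show act (x * z.1) '' B₀ ⊆ _ ∨ act (x * z.1) '' B₁ ⊆ _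
      rw [him, him]
      rcases h with h | h
      · exact Or.inr (Set.image_mono (h.trans (hP y yP yQ).1))
      · exact Or.inl (Set.image_mono (h.trans (hP y yP yQ).1))
  have hne1 : ∀ (b : Bool) (z : G × L), PPWd f g b z → z.1 ≠ 1 := by
    have him : ∀ B : Set X, act 1 '' B = B := by
      intro B
      have : act 1 = id := funext act_one
      rw [this, Set.image_id]
    intro b z hz h1
    have h := geo b z hz
    rw [h1, him, him] at h
    cases b with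
    | true =>
      obtain ⟨x, xP, xQ, h' | h'⟩ := h.1 rfl
      · obtain ⟨w, hw⟩ := hne₁
        exact Set.disjoint_left.1 hdis ((hP x xP xQ).1 (h' hw)) hw
      · exact (hP x xP xQ).2 h'
    | false =>
      obtain ⟨x, xQ, xP, h' | h'⟩ := h.2 rfl
      · obtain ⟨w, hw⟩ := hne₀
        exact Set.disjoint_left.1 hdis hw ((hQ x xQ xP).1 (h' hw))
      · exact (hQ x xQ xP).2 h'
  -- the subgroup generated by the graphs
  let S : Set (G × L) := {z | (∃ (x : G) (h : x ∈ P), z = (x, f ⟨x, h⟩)) ∨ ∃ (x : G) (h : x ∈ Q), z = (x, g ⟨x, h⟩)}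
  let Γ : Subgroup (G × L) := Subgroup.closure S
  have hSP : ∀ (x : G) (h : x ∈ P), ((x, f ⟨x, h⟩) : G × L) ∈ Γ := fun x h =>
    Subgroup.subset_closure (Or.inl ⟨x, h, rfl⟩)
  have hSQ : ∀ (x : G) (h : x ∈ Q), ((x, g ⟨x, h⟩) : G × L) ∈ Γ := fun x h =>
    Subgroup.subset_closure (Or.inr ⟨x, h, rfl⟩)
  have hΓS : ∀ z ∈ Γ, PPS f g z := by
    intro z hz
    have hS1 : PPS f g (1 : G × L) := by
      refine Or.inl ⟨1, P.one_mem, Q.one_mem, ?_⟩
      have : (⟨1, P.one_mem⟩ : P) = 1 := rfl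
      rw [this, map_one]
      rfl
    induction hz using Subgroup.closure_induction_left with
    | one => exact hS1
    | mul_left x hx y hy ih =>
      rcases hx with ⟨a, ha, rfl⟩ | ⟨a, ha, rfl⟩
      · exact pps_mulP hc a ha ih
      · exact pps_mulQ hc a ha ih
    | inv_mul_cancel x hx y hy ih =>
      rcases hx with ⟨a, ha, rfl⟩ | ⟨a, ha, rfl⟩
      · have : ((a, f ⟨a, ha⟩) : G × L)⁻¹ = (a⁻¹, f ⟨a⁻¹, P.inv_mem ha⟩) := by
          rw [Prod.inv_mk, ← map_inv]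
          rfl
        rw [this]
        exact pps_mulP hc _ _ ih
      · have : ((a, g ⟨a, ha⟩) : G × L)⁻¹ = (a⁻¹, g ⟨a⁻¹, Q.inv_mem ha⟩) := by
          rw [Prod.inv_mk, ← map_inv]
          rfl
        rw [this]
        exact pps_mulQ hc _ _ ih
  have hker : ∀ l : L, ((1 : G), l) ∈ Γ → l = 1 := by
    intro l hl
    rcases hΓS _ hl with ⟨x, xP, xQ, h⟩ | ⟨b, hb⟩
    · rw [Prod.mk.injEq] at h
      obtain ⟨rfl, rfl⟩ := h
      have : (⟨1, xP⟩ : P) = 1 := rfl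
      rw [this, map_one]
    · exact absurd rfl (hne1 b _ hb)
  have hsurj : ∀ x : G, ∃ l : L, (x, l) ∈ Γ := by
    intro x
    have hx : x ∈ Γ.map (MonoidHom.fst G L) := by
      have : P ⊔ Q ≤ Γ.map (MonoidHom.fst G L) := by
        refine sup_le ?_ ?_
        · intro a ha
          exact ⟨_, hSP a ha, rfl⟩
        · intro a ha
          exact ⟨_, hSQ a ha, rfl⟩
      rw [hPQ] at this
      exact this (Subgroup.mem_top x)
    obtain ⟨⟨a, l⟩, hz, rfl⟩ := hx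
    exact ⟨l, hz⟩
  have huniq : ∀ (x : G) (l l' : L), (x, l) ∈ Γ → (x, l') ∈ Γ → l = l' := by
    intro x l l' h h'
    have h1 : ((x, l) : G × L)⁻¹ * (x, l') ∈ Γ := Γ.mul_mem (Γ.inv_mem h) h'
    have h2 : ((x, l) : G × L)⁻¹ * (x, l') = (1, l⁻¹ * l') := by
      rw [Prod.inv_mk, Prod.mk_mul_mk, inv_mul_cancel]
    rw [h2] at h1
    exact (inv_mul_eq_one.1 (hker _ h1))
  choose F hF using hsurj
  refine ⟨⟨⟨F, ?_⟩, ?_⟩, ?_, ?_⟩
  · exact huniq 1 _ _ (hF 1) Γ.one_mem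
  · intro a b
    exact huniq (a * b) _ _ (hF (a * b)) (Γ.mul_mem (hF a) (hF b))
  · intro x
    exact huniq x _ _ (hF x) (hSP x x.2)
  · intro x
    exact huniq x _ _ (hF x) (hSQ x x.2)

end Pool.Agent.IWE
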