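import Pool.Agent.IWE.Bal
import Pool.Agent.IWE.FinSum
import Pool.Agent.IWE.IrrSub
import Pool.Agent.IWE.AdmExt

/-! # IWE/Split (MP_88b97d_al, helper45)

An irreducible admissible `τ` of `G × H` is a direct summand of `tens M B` with `B` irreducible and `M` of finite length.
(1) `0 ≠ t ∈ τ` is fixed by an open `V ≤ G × H`; `K₁ = U ⊓ V.comap inl` is open, compact. `fixSnd τ K₁` is a smooth nonzero
representation of `H`, admissible: its vectors fixed by an open compact `K'` are `τ.fix (K₁.prod K')`. `exists_irr_sub` (with `U'`)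
gives an irreducible `B` and `B → fixSnd τ K₁`, so `0 ≠ φ₀ ∈ homs₂ B τ`; `B.Adm` by `adm_of_inj`.
(2) `N = homRep B τ` is admissible (`homRep_adm`), nonzero; `exists_irr_sub` (with `U`) gives an irreducible `M₀` and an injective
`i₀ : M₀ → N`; `M₀.Adm`. `D = homs B B` is finite (`end_finite`), enumerate it `d : Fin r → D`; `f k = (m ↦ (i₀ m) ∘ d k)`,
`M = N.sub (⨆ k, range (f k))`: `FinLen M` by `finLen_sum`; smooth (`smooth_of_inj`). `M` is stable under right composition with `D`.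
(3) `ev = (φ ⊗ w ↦ φ w)`, a homomorphism, surjective (`τ` irreducible, `ev ≠ 0`: `id ∈ D`). `β φ w = - ∑_{0 ≠ d ∈ D} (φ ∘ d⁻¹) ⊗ (d w)`
is balanced: for `0 ≠ e ∈ D` substitute `d = d' e`; `e = 0` trivial. By `bal` (with `E := τ.snd`) `ker ev ≤ ker (lift β)`, so there is a
linear `s : τ → tens M B` with `s ∘ ev = lift β`; it is equivariant (`ev` surjective, `ev` and `lift β` equivariant).
`ev (s (ev (φ ⊗ w))) = - ∑_{d ≠ 0} φ (d⁻¹ (d w)) = - (|D| - 1) φ w = φ w` by `end_card`.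
(4) `0 ≠ m₀ ∈ M₀`, `i₀ m₀` is fixed by an open subgroup `K ≤ U` (`N` smooth). All `(i₀ m₀) ∘ d` are fixed by `K`; a stable `W ≤ M`
containing them contains all `(i₀ m) ∘ d` (for fixed `d` the set of the `m` with `(i₀ m) ∘ d ∈ W` is stable and contains `m₀ ≠ 0`).
-/

namespace Pool.Agent.IWE

open scoped TensorProduct

variable {C : Type} [Field C] {G : Type} [Group G] [TopologicalSpace G] [IsTopologicalGroup G]
  {H : Type} [Group H] [TopologicalSpace H] [IsTopologicalGroup H]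

omit [IsTopologicalGroup G] [IsTopologicalGroup H] in
private theorem factor' {X Y Z : Type} [AddCommGroup X] [Module C X] [AddCommGroup Y] [Module C Y]
    [AddCommGroup Z] [Module C Z] (f : X →ₗ[C] Y) (hf : Function.Surjective f) (g : X →ₗ[C] Z)
    (h : ∀ x, f x = 0 → g x = 0) : ∃ s : Y →ₗ[C] Z, ∀ x, s (f x) = g x := by
  refine ⟨((LinearMap.ker f).liftQ g h).comp (f.quotKerEquivOfSurjective hf).symm.toLinearMap, fun x => ?_⟩
  have h1 : (f.quotKerEquivOfSurjective hf).symm (f x) = Submodule.Quotient.mk x := by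
    rw [LinearEquiv.symm_apply_eq]
    rfl
  show ((LinearMap.ker f).liftQ g h) ((f.quotKerEquivOfSurjective hf).symm (f x)) = g x
  rw [h1]
  exact Submodule.liftQ_apply _ _ _

omit [TopologicalSpace G] [TopologicalSpace H] [IsTopologicalGroup G] [IsTopologicalGroup H] in
private theorem stable_iSup {N : RR C G} {ι : Type} (W : ι → Submodule C N.V) (h : ∀ k, N.Stable (W k)) :
    N.Stable (⨆ k, W k) := by
  intro g w hw
  have h1 : (⨆ k, W k) ≤ (⨆ k, W k).comap (N.ρ g) := by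
    refine iSup_le fun k x hx => ?_
    rw [Submodule.mem_comap]
    exact Submodule.mem_iSup_of_mem k (h k g x hx)
  exact h1 hw

omit [IsTopologicalGroup H] in
/-- (1): an irreducible representation of `H` in `τ` -/
private theorem exists_second (p : ℕ) [Fact p.Prime] [CharP C p] {τ : RR C (G × H)} (hτ : τ.Irr)
    (hτa : τ.Adm) {U : Subgroup G} {U' : Subgroup H} (oU : IsOpen (U : Set G))
    (cU : IsCompact (U : Set G)) (oU' : IsOpen (U' : Set H))
    (cU' : IsCompact (U' : Set H)) (hU' : ProP p U') :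
    ∃ B : RR C H, B.Irr ∧ B.Adm ∧ ∃ φ ∈ homs₂ B τ, φ ≠ 0 := by
  obtain ⟨t, ht⟩ := hτ.1
  obtain ⟨V, oV, hV⟩ := hτa.1 t
  have o1 : IsOpen ((V.comap (MonoidHom.inl G H) : Subgroup G) : Set G) :=
    oV.preimage (by fun_prop : Continuous (fun g : G => (g, (1 : H))))
  set K₁ : Subgroup G := U ⊓ V.comap (MonoidHom.inl G H) with hK₁
  have oK : IsOpen (K₁ : Set G) := inf_open oU o1
  have cK : IsCompact (K₁ : Set G) := isCompact_of_le oK cU inf_le_left
  have hsub : IsHom (fixSnd τ K₁) τ.snd (τ.fix (K₁.prod ⊥)).subtype := fun _ _ => rfl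
  have hinj : Function.Injective (τ.fix (K₁.prod ⊥)).subtype := Subtype.val_injective
  have hFs : (fixSnd τ K₁).Smooth := smooth_of_inj hsub hinj (snd_smooth hτa.1)
  have hFa : (fixSnd τ K₁).Adm := by
    refine ⟨hFs, fun K' oK' cK' => ?_⟩
    have h1 : Module.Finite C (τ.fix (K₁.prod K')) := hτa.2 _ (oK.prod oK') (cK.prod cK')
    let f : (fixSnd τ K₁).fix K' →ₗ[C] τ.fix (K₁.prod K') :=
      { toFun := fun v => ⟨v.1.1, by
          rintro ⟨g, h⟩ hg
          rw [Subgroup.mem_prod] at hg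
          rw [RR.split₂]
          have h2 : τ.ρ (1, h) v.1.1 = v.1.1 := congrArg Subtype.val (v.2 h hg.2)
          rw [h2]
          exact v.1.2 (g, 1) (Subgroup.mem_prod.2 ⟨hg.1, Subgroup.mem_bot.2 rfl⟩)⟩
        map_add' := fun a b => rfl
        map_smul' := fun c a => rfl }
    refine Module.Finite.of_injective f ?_
    intro a b hab
    apply Subtype.ext
    apply Subtype.ext
    have h3 : (f a).1 = (f b).1 := by rw [hab]
    exact h3
  have htm : t ∈ τ.fix (K₁.prod ⊥) := by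
    rintro ⟨g, h⟩ hg
    rw [Subgroup.mem_prod, Subgroup.mem_bot] at hg
    obtain ⟨hg1, hg2⟩ := hg
    simp only at hg1 hg2
    subst hg2
    exact hV (g, 1) hg1.2
  obtain ⟨B, i, hB, hi, hii⟩ := exists_irr_sub p hFs ⟨(⟨t, htm⟩ : τ.fix (K₁.prod ⊥)), fun h => ht (congrArg Subtype.val h)⟩
    hU' (hFa.2 U' oU' cU')
  refine ⟨B, hB, adm_of_inj hi hii hFa, (τ.fix (K₁.prod ⊥)).subtype.comp i, ?_, ?_⟩
  · intro h v
    show (i (B.ρ h v)).1 = τ.ρ (1, h) (i v).1
    rw [hi h v]
    rfl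
  · intro h0
    obtain ⟨b, hb⟩ := hB.1
    apply hb
    apply hii
    rw [map_zero]
    apply Subtype.ext
    exact LinearMap.congr_fun h0 b

section comp

variable {B : RR C H} {τ : RR C (G × H)}

/-- right composition with an endomorphism -/
private def rc (B : RR C H) (τ : RR C (G × H)) (d : homs B B) : (homRep B τ).V →ₗ[C] (homRep B τ).V where
  toFun φ := ⟨φ.1.comp d.1, fun h v => by
    show φ.1 (d.1 (B.ρ h v)) = τ.ρ (1, h) (φ.1 (d.1 v))
    rw [d.2 h v, φ.2 h]⟩
  map_add' a b := rfl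
  map_smul' c a := rfl

omit [TopologicalSpace G] [TopologicalSpace H] [IsTopologicalGroup G] [IsTopologicalGroup H] in
private theorem rc_apply (d : homs B B) (φ : (homRep B τ).V) (w : B.V) : (rc B τ d φ).1 w = φ.1 (d.1 w) := rfl

omit [TopologicalSpace G] [TopologicalSpace H] [IsTopologicalGroup G] [IsTopologicalGroup H] in
private theorem rc_isHom (d : homs B B) : IsHom (homRep B τ) (homRep B τ) (rc B τ d) := fun _ _ => rfl

end comp

omit [TopologicalSpace G] [TopologicalSpace H] [IsTopologicalGroup G] [IsTopologicalGroup H] in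
private theorem exists_inv {B : RR C H} (hB : B.Irr) (d : homs B B) : ∃ e : homs B B,
    (d.1 ≠ 0 → d.1.comp e.1 = LinearMap.id ∧ e.1.comp d.1 = LinearMap.id) ∧ (d.1 = 0 → e.1 = 0) := by
  by_cases hd : d.1 = 0
  · exact ⟨0, fun h => absurd hd h, fun _ => rfl⟩
  · obtain ⟨e, he, h1, h2⟩ := end_inv hB d.2 hd
    exact ⟨⟨e, he⟩, fun _ => ⟨h1, h2⟩, fun h => absurd h hd⟩

omit [TopologicalSpace G] [IsTopologicalGroup G] [TopologicalSpace H] [IsTopologicalGroup H] in
/-- the section -/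
private theorem core {B : RR C H} {τ : RR C (G × H)} (hB : B.Irr) [Fintype (homs B B)]
    (hcard : ((Nat.card (homs B B) : ℕ) : C) = 0) (M : RR C G) (κ : M.V →ₗ[C] (homRep B τ).V)
    (hκ : IsHom M (homRep B τ) κ) (hκi : Function.Injective κ) (R : homs B B → (M.V →ₗ[C] M.V))
    (hR : ∀ d φ, κ (R d φ) = rc B τ d (κ φ)) (ev : (M.V ⊗[C] B.V) →ₗ[C] τ.V)
    (hev : ∀ (φ : M.V) (w : B.V), ev (φ ⊗ₜ w) = (κ φ).1 w) (hsurj : Function.Surjective ev) :
    IsHom (tens M B) τ ev ∧ ∃ s : τ.V →ₗ[C] (M.V ⊗[C] B.V), IsHom τ (tens M B) s ∧ ∀ t, ev (s t) = t := by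
  classical
  have hevh : IsHom (tens M B) τ ev := by
    rintro ⟨g, h⟩ x
    induction x using TensorProduct.induction_on with
    | zero => rw [map_zero, map_zero, map_zero]
    | tmul φ w =>
      show ev ((M.ρ g φ) ⊗ₜ (B.ρ h w)) = τ.ρ (g, h) (ev (φ ⊗ₜ w))
      rw [hev, hev, RR.split₂, hκ g φ]
      show τ.ρ (g, 1) ((κ φ).1 (B.ρ h w)) = _
      rw [(κ φ).2 h w]
    | add x y hx hy => rw [map_add, map_add, hx, hy, map_add, map_add]
  refine ⟨hevh, ?_⟩
  -- `R` is equivariant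
  have hRh : ∀ d, IsHom M M (R d) := by
    intro d g φ
    apply hκi
    rw [hR, hκ, hκ, hR]
    rfl
  choose inv hinv1 hinv0 using exists_inv hB
  let av : (M.V ⊗[C] B.V) →ₗ[C] (M.V ⊗[C] B.V) := -∑ d : homs B B, TensorProduct.map (R (inv d)) d.1
  have hav : ∀ (φ : M.V) (w : B.V), av (φ ⊗ₜ w) = -∑ d : homs B B, (R (inv d) φ) ⊗ₜ[C] (d.1 w) := by
    intro φ w
    show (-∑ d : homs B B, TensorProduct.map (R (inv d)) d.1) (φ ⊗ₜ w) = _
    rw [LinearMap.neg_apply, LinearMap.sum_apply]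
    rfl
  have havh : ∀ (g : G × H) (x : M.V ⊗[C] B.V), av ((tens M B).ρ g x) = (tens M B).ρ g (av x) := by
    rintro ⟨g, h⟩ x
    have e2 : ∀ (φ' : M.V) (w' : B.V), (tens M B).ρ (g, h) (φ' ⊗ₜ w') = (M.ρ g φ') ⊗ₜ (B.ρ h w') :=
      fun _ _ => rfl
    induction x using TensorProduct.induction_on with
    | zero => rw [map_zero, map_zero, map_zero]
    | tmul φ w =>
      rw [e2, hav, hav, map_neg, map_sum]
      refine congrArg Neg.neg (Finset.sum_congr rfl fun d _ => ?_)
      rw [e2, d.2 h w, hRh]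
    | add x y hx hy => rw [map_add, map_add, hx, hy, map_add, map_add]
  -- `R` is a right action
  have hR0 : ∀ (e : homs B B) (φ : M.V), e.1 = 0 → R e φ = 0 := by
    intro e φ he
    apply hκi
    rw [hR, map_zero]
    apply Subtype.ext
    apply LinearMap.ext
    intro v
    show (κ φ).1 (e.1 v) = 0
    rw [he]
    exact map_zero _
  have hRR : ∀ (d e f : homs B B) (φ : M.V), (∀ v, e.1 (d.1 v) = f.1 v) → R d (R e φ) = R f φ := by
    intro d e f φ h
    apply hκi
    rw [hR, hR, hR]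
    apply Subtype.ext
    apply LinearMap.ext
    intro v
    show (κ φ).1 (e.1 (d.1 v)) = (κ φ).1 (f.1 v)
    rw [h]
  -- balancedness
  have hbal : ∀ (φ : M.V) (e : homs B B) (w : B.V), av (R e φ ⊗ₜ w) = av (φ ⊗ₜ e.1 w) := by
    intro φ e w
    rw [hav, hav]
    refine congrArg Neg.neg ?_
    by_cases he : e.1 = 0
    · have h2 : e.1 w = 0 := by rw [he]; rfl
      rw [hR0 e φ he, h2]
      simp
    · -- substitution `d = d' ∘ e`
      obtain ⟨hi1, hi2⟩ := hinv1 e he
      let σ : homs B B ≃ homs B B :=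
        { toFun := fun d => ⟨d.1.comp e.1, IsHom.comp e.2 d.2⟩
          invFun := fun d => ⟨d.1.comp (inv e).1, IsHom.comp (inv e).2 d.2⟩
          left_inv := fun d => by
            apply Subtype.ext
            show (d.1.comp e.1).comp (inv e).1 = d.1
            rw [LinearMap.comp_assoc, hi1, LinearMap.comp_id]
          right_inv := fun d => by
            apply Subtype.ext
            show (d.1.comp (inv e).1).comp e.1 = d.1
            rw [LinearMap.comp_assoc, hi2, LinearMap.comp_id] }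
      rw [← Equiv.sum_comp σ]
      refine Finset.sum_congr rfl fun d _ => ?_
      have h3 : (σ d).1 w = d.1 (e.1 w) := rfl
      rw [h3]
      by_cases hd : d.1 = 0
      · have : d.1 (e.1 w) = 0 := by rw [hd]; rfl
        rw [this, TensorProduct.tmul_zero, TensorProduct.tmul_zero]
      · have hσd : (σ d).1 ≠ 0 := by
          intro h
          apply hd
          have h4 : (d.1.comp e.1).comp (inv e).1 = 0 := by
            show (σ d).1.comp (inv e).1 = 0
            rw [h, LinearMap.zero_comp]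
          rw [LinearMap.comp_assoc, hi1, LinearMap.comp_id] at h4
          exact h4
        obtain ⟨hs1, -⟩ := hinv1 (σ d) hσd
        obtain ⟨-, hd2⟩ := hinv1 d hd
        rw [hRR (inv (σ d)) e (inv d) φ]
        intro v
        have h5 : d.1 (e.1 ((inv (σ d)).1 v)) = v := LinearMap.congr_fun hs1 v
        have h6 : (inv d).1 (d.1 (e.1 ((inv (σ d)).1 v))) = e.1 ((inv (σ d)).1 v) :=
          LinearMap.congr_fun hd2 _
        rw [← h6, h5]
  -- the kernel of `ev` is contained in the kernel of `av`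
  have hker : ∀ x : M.V ⊗[C] B.V, ev x = 0 → av x = 0 := by
    intro x hx
    let κ' : M.V →ₗ[C] (B.V →ₗ[C] τ.snd.V) := (homs₂ B τ).subtype.comp κ
    have hκ' : Function.Injective κ' := fun a b hab => hκi (Subtype.ext hab)
    let MM : Submodule C (B.V →ₗ[C] τ.snd.V) := LinearMap.range κ'
    let ι : M.V ≃ₗ[C] MM := LinearEquiv.ofInjective κ' hκ'
    have hMM : ∀ φ ∈ MM, IsHom B τ.snd φ := by
      rintro _ ⟨φ, rfl⟩
      exact (κ φ).2
    have hcomp : ∀ (φ : M.V) (d : homs B B), (κ' φ).comp d.1 = κ' (R d φ) := by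
      intro φ d
      show (κ φ).1.comp d.1 = (κ (R d φ)).1
      rw [hR]
      rfl
    have hD : ∀ φ ∈ MM, ∀ d ∈ homs B B, φ.comp d ∈ MM := by
      rintro _ ⟨φ, rfl⟩ d hd
      exact ⟨R ⟨d, hd⟩ φ, (hcomp φ ⟨d, hd⟩).symm⟩
    let β : MM →ₗ[C] B.V →ₗ[C] (M.V ⊗[C] B.V) := (TensorProduct.curry av).comp ι.symm.toLinearMap
    have hβι : ∀ (φ : M.V) (w : B.V), β (ι φ) w = av (φ ⊗ₜ w) := by
      intro φ w
      show av (ι.symm (ι φ) ⊗ₜ w) = av (φ ⊗ₜ w)
      rw [LinearEquiv.symm_apply_apply]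
    have hβ : ∀ (φ : MM) (d : B.V →ₗ[C] B.V) (hd : d ∈ homs B B) (w : B.V),
        β ⟨φ.1.comp d, hD φ.1 φ.2 d hd⟩ w = β φ (d w) := by
      intro φ d hd w
      obtain ⟨ψ, rfl⟩ := ι.surjective φ
      have h1 : (⟨(ι ψ).1.comp d, hD (ι ψ).1 (ι ψ).2 d hd⟩ : MM) = ι (R ⟨d, hd⟩ ψ) :=
        Subtype.ext (hcomp ψ ⟨d, hd⟩)
      rw [h1, hβι, hβι]
      exact hbal ψ ⟨d, hd⟩ w
    have e1 : ∀ x : M.V ⊗[C] B.V, TensorProduct.lift MM.subtype (ι.toLinearMap.rTensor B.V x) = ev x := by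
      intro x
      induction x using TensorProduct.induction_on with
      | zero => simp only [map_zero]
      | tmul φ w =>
        rw [hev]
        rfl
      | add x y hx hy => simp only [map_add, hx, hy]
    have e2 : ∀ x : M.V ⊗[C] B.V, TensorProduct.lift β (ι.toLinearMap.rTensor B.V x) = av x := by
      intro x
      induction x using TensorProduct.induction_on with
      | zero => simp only [map_zero]
      | tmul φ w => exact hβι φ w
      | add x y hx hy => simp only [map_add, hx, hy]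
    rw [← e2]
    exact bal hB MM hMM hD β hβ _ (by rw [e1]; exact hx)
  obtain ⟨s, hs⟩ := factor' ev hsurj av hker
  refine ⟨s, ?_, ?_⟩
  · intro g t
    obtain ⟨x, rfl⟩ := hsurj t
    rw [← hevh g x, hs, hs]
    exact havh g x
  · -- `ev ∘ av = ev`
    have h4 : (Finset.univ.filter (fun d : homs B B => ¬ d = 0)).card + 1 = Nat.card (homs B B) := by
      rw [Nat.card_eq_fintype_card, ← Finset.card_univ,
        ← Finset.card_filter_add_card_filter_not (s := Finset.univ) (fun d : homs B B => d = 0)]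
      have : (Finset.univ.filter (fun d : homs B B => d = 0)).card = 1 := by
        rw [Finset.card_eq_one]
        exact ⟨0, by ext d; simp⟩
      rw [this, add_comm]
    have h5 : (((Finset.univ.filter (fun d : homs B B => ¬ d = 0)).card : ℕ) : C) = -1 := by
      have : (((Finset.univ.filter (fun d : homs B B => ¬ d = 0)).card + 1 : ℕ) : C) = 0 := by
        rw [h4]; exact hcard
      push_cast at this
      exact eq_neg_of_add_eq_zero_left this
    have hea : ∀ x : M.V ⊗[C] B.V, ev (av x) = ev x := by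
      intro x
      induction x using TensorProduct.induction_on with
      | zero => rw [map_zero, map_zero]
      | tmul φ w =>
        rw [hav, map_neg, map_sum]
        have h1 : ∀ d : homs B B, ev ((R (inv d) φ) ⊗ₜ[C] (d.1 w)) = if d = 0 then 0 else ev (φ ⊗ₜ w) := by
          intro d
          split_ifs with hd
          · rw [hd]
            have : ((0 : homs B B) : B.V →ₗ[C] B.V) w = 0 := rfl
            rw [this, TensorProduct.tmul_zero, map_zero]
          · have hd' : d.1 ≠ 0 := fun h => hd (Subtype.ext h)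
            obtain ⟨-, h2⟩ := hinv1 d hd'
            rw [hev, hev, hR]
            show (κ φ).1 ((inv d).1 (d.1 w)) = (κ φ).1 w
            have h3 : (inv d).1 (d.1 w) = w := LinearMap.congr_fun h2 w
            rw [h3]
        rw [Finset.sum_congr rfl fun d _ => h1 d, Finset.sum_ite, Finset.sum_const_zero, zero_add,
          Finset.sum_const, ← Nat.cast_smul_eq_nsmul C, h5, neg_smul, one_smul, neg_neg]
      | add x y hx hy => rw [map_add, map_add, hx, hy, map_add]
    intro t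
    obtain ⟨x, rfl⟩ := hsurj t
    rw [hs, hea]


omit [IsTopologicalGroup G] in
private theorem exists_M {N : RR C G} (W : Submodule C N.V) (hW : N.Stable W)
    (hf : FinLen (N.sub W hW)) : ∃ (M : RR C G) (κ : M.V →ₗ[C] N.V), IsHom M N κ ∧ Function.Injective κ ∧
      (∀ x, x ∈ W ↔ ∃ m, κ m = x) ∧ FinLen M :=
  ⟨N.sub W hW, W.subtype, sub_isHom N W hW, Subtype.val_injective,
    fun x => ⟨fun hx => ⟨⟨x, hx⟩, rfl⟩, fun ⟨m, hm⟩ => hm ▸ m.2⟩, hf⟩

omit [TopologicalSpace G] [TopologicalSpace H] [IsTopologicalGroup G] [IsTopologicalGroup H] in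
private theorem lift_through {X Y Z : Type} [AddCommGroup X] [Module C X] [AddCommGroup Y] [Module C Y]
    [AddCommGroup Z] [Module C Z] (κ : Y →ₗ[C] Z) (hκ : Function.Injective κ) (f : X →ₗ[C] Z)
    (h : ∀ x, ∃ y, κ y = f x) : ∃ g : X →ₗ[C] Y, ∀ x, κ (g x) = f x := by
  refine ⟨(LinearEquiv.ofInjective κ hκ).symm.toLinearMap.comp (f.codRestrict (LinearMap.range κ) h), fun x => ?_⟩
  have h1 := (LinearEquiv.ofInjective κ hκ).apply_symm_apply (f.codRestrict (LinearMap.range κ) h x)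
  exact congrArg Subtype.val h1

theorem split (p : ℕ) [Fact p.Prime] [CharP C p] [Finite C] {τ : RR C (G × H)} (hτ : τ.Irr)
    (hτa : τ.Adm) {U : Subgroup G} {U' : Subgroup H} (oU : IsOpen (U : Set G))
    (cU : IsCompact (U : Set G)) (hU : ProP p U) (oU' : IsOpen (U' : Set H))
    (cU' : IsCompact (U' : Set H)) (hU' : ProP p U') :
    ∃ (M : RR C G) (B : RR C H) (ev : (tens M B).V →ₗ[C] τ.V) (s : τ.V →ₗ[C] (tens M B).V),
      FinLen M ∧ M.Smooth ∧ B.Irr ∧ B.Adm ∧ IsHom (tens M B) τ ev ∧ IsHom τ (tens M B) s ∧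
      (∀ t, ev (s t) = t) ∧
      ∃ K : Subgroup G, K ≤ U ∧ IsOpen (K : Set G) ∧
        ∀ W : Submodule C M.V, M.Stable W → M.fix K ≤ W → W = ⊤ := by
  classical
  obtain ⟨B, hB, hBa, φ₀, hφ₀, hφ₀ne⟩ := exists_second p hτ hτa oU cU oU' cU' hU'
  have hNa : (homRep B τ).Adm := homRep_adm hB hBa.1 hτa oU' cU'
  obtain ⟨M₀, i₀, hM₀, hi₀, hi₀i⟩ := exists_irr_sub p hNa.1
    ⟨(⟨φ₀, hφ₀⟩ : homs₂ B τ), fun h => hφ₀ne (congrArg Subtype.val h)⟩ hU (hNa.2 U oU cU)
  have hM₀a : M₀.Adm := adm_of_inj hi₀ hi₀i hNa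
  have hfin : Finite (homs B B) := end_finite hB hBa oU' cU'
  let _ : Fintype (homs B B) := Fintype.ofFinite _
  have hcard : ((Nat.card (homs B B) : ℕ) : C) = 0 := end_card p hB hBa oU' cU'
  -- the enumeration of `D`
  obtain ⟨r, ⟨en⟩⟩ := Finite.exists_equiv_fin (homs B B)
  let f : Fin r → (M₀.V →ₗ[C] (homRep B τ).V) := fun k => (rc B τ (en.symm k)).comp i₀
  have hf : ∀ k, IsHom M₀ (homRep B τ) (f k) := fun k => hi₀.comp (rc_isHom _)
  have hfd : ∀ (d : homs B B) (m : M₀.V), rc B τ d (i₀ m) = f (en d) m := by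
    intro d m
    show rc B τ d (i₀ m) = rc B τ (en.symm (en d)) (i₀ m)
    rw [Equiv.symm_apply_apply]
  have hWs : (homRep B τ).Stable (⨆ k, LinearMap.range (f k)) := stable_iSup _ fun k => range_stable (hf k)
  have hmemW : ∀ (d : homs B B) (m : M₀.V), rc B τ d (i₀ m) ∈ (⨆ k, LinearMap.range (f k)) := by
    intro d m
    rw [hfd]
    exact Submodule.mem_iSup_of_mem (en d) ⟨m, rfl⟩
  have hrcrc : ∀ (d e : homs B B), ∃ d' : homs B B, ∀ φ : (homRep B τ).V, rc B τ d (rc B τ e φ) = rc B τ d' φ :=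
    fun d e => ⟨⟨e.1.comp d.1, IsHom.comp d.2 e.2⟩, fun φ => rfl⟩
  have hWd : ∀ (d : homs B B) (φ : (homRep B τ).V), φ ∈ (⨆ k, LinearMap.range (f k)) →
      rc B τ d φ ∈ (⨆ k, LinearMap.range (f k)) := by
    intro d
    have h1 : (⨆ k, LinearMap.range (f k)) ≤ (⨆ k, LinearMap.range (f k)).comap (rc B τ d) := by
      refine iSup_le fun k => ?_
      rintro _ ⟨m, rfl⟩
      rw [Submodule.mem_comap]
      obtain ⟨d', hd'⟩ := hrcrc d (en.symm k)
      have h2 : rc B τ d (f k m) = rc B τ d' (i₀ m) := hd' (i₀ m)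
      rw [h2]
      exact hmemW d' m
    exact fun φ hφ => h1 hφ
  obtain ⟨M, κ, hκ, hκi, hκW, hMf⟩ := exists_M _ hWs (finLen_sum hM₀ hM₀a r f hf hWs)
  have hMs : M.Smooth := smooth_of_inj hκ hκi hNa.1
  have hR0 : ∀ d : homs B B, ∃ R : M.V →ₗ[C] M.V, ∀ φ, κ (R φ) = rc B τ d (κ φ) := by
    intro d
    refine lift_through κ hκi ((rc B τ d).comp κ) fun x => ?_
    exact (hκW _).1 (hWd d _ ((hκW _).2 ⟨x, rfl⟩))
  choose R hR using hR0
  -- evaluation
  let ev : (M.V ⊗[C] B.V) →ₗ[C] τ.V := TensorProduct.lift ((homs₂ B τ).subtype.comp κ)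
  have hev : ∀ (φ : M.V) (w : B.V), ev (φ ⊗ₜ w) = (κ φ).1 w := fun φ w => rfl
  obtain ⟨m₀, hm₀⟩ := hM₀.1
  let one : homs B B := ⟨LinearMap.id, isHom_id B⟩
  have hsurj : Function.Surjective ev := by
    have h1 : i₀ m₀ ≠ 0 := fun h => hm₀ (hi₀i (by rw [h, map_zero]))
    have h2 : ∃ w, (i₀ m₀).1 w ≠ 0 := by
      by_contra h
      push Not at h
      exact h1 (Subtype.ext (LinearMap.ext h))
    obtain ⟨w, hw⟩ := h2
    obtain ⟨m, hm⟩ := (hκW _).1 (hmemW one m₀)
    have hm' : κ m = i₀ m₀ := hm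
    -- the range of `ev` is stable
    have hst : τ.Stable (LinearMap.range ev) := by
      rintro ⟨g, h⟩ _ ⟨x, rfl⟩
      induction x using TensorProduct.induction_on with
      | zero => rw [map_zero, map_zero]; exact Submodule.zero_mem _
      | tmul φ w =>
        refine ⟨(M.ρ g φ) ⊗ₜ (B.ρ h w), ?_⟩
        rw [hev, hev, RR.split₂, hκ g φ]
        show τ.ρ (g, 1) ((κ φ).1 (B.ρ h w)) = _
        rw [(κ φ).2 h w]
      | add x y hx hy => rw [map_add, map_add]; exact Submodule.add_mem _ hx hy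
    have h3 : ev (m ⊗ₜ w) ∈ LinearMap.range ev := ⟨_, rfl⟩
    have h5 : ev (m ⊗ₜ w) ≠ 0 := by rw [hev, hm']; exact hw
    exact LinearMap.range_eq_top.1 (irr_eq_top hτ hst h3 h5)
  obtain ⟨hevh, s, hs1, hs2⟩ := core hB hcard M κ hκ hκi R hR ev hev hsurj
  refine ⟨M, B, ev, s, hMf, hMs, hB, hBa, hevh, hs1, hs2, ?_⟩
  obtain ⟨K', oK', hK'⟩ := hNa.1 (i₀ m₀)
  refine ⟨K' ⊓ U, inf_le_right, inf_open oK' oU, fun W' hW' hKW => ?_⟩
  -- all `rc d (i₀ m)` are in the image of `W'`
  have h1 : ∀ (d : homs B B) (m : M₀.V), ∀ y : M.V, κ y = rc B τ d (i₀ m) → y ∈ W' := by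
    intro d
    obtain ⟨j, hj⟩ := lift_through κ hκi ((rc B τ d).comp i₀) (fun x => (hκW _).1 (hmemW d x))
    have hj' : ∀ m, κ (j m) = rc B τ d (i₀ m) := hj
    have hjh : IsHom M₀ M j := by
      intro g m
      apply hκi
      rw [hj', hκ, hj', hi₀ g m]
      exact rc_isHom d g _
    have hT : M₀.Stable (W'.comap j) := by
      intro g m hm
      rw [Submodule.mem_comap] at hm ⊢
      rw [hjh]
      exact hW' g _ hm
    have hmT : m₀ ∈ W'.comap j := by
      rw [Submodule.mem_comap]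
      apply hKW
      intro g hg
      rw [← hjh]
      congr 1
      apply hi₀i
      rw [hi₀]
      exact hK' g hg.1
    have hT2 := irr_eq_top hM₀ hT hmT hm₀
    intro m y hy
    have h2 : m ∈ W'.comap j := by rw [hT2]; exact Submodule.mem_top
    have h3 : y = j m := hκi (by rw [hy, hj'])
    rw [h3]
    exact h2
  have h2 : (⨆ k, LinearMap.range (f k)) ≤ W'.map κ := by
    refine iSup_le fun k => ?_
    rintro _ ⟨m, rfl⟩
    obtain ⟨y, hy⟩ := (hκW _).1 (hmemW (en.symm k) m)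
    exact ⟨y, h1 _ m y hy, hy⟩
  rw [eq_top_iff]
  intro x _
  obtain ⟨y, hy, hyx⟩ := h2 ((hκW _).2 ⟨x, rfl⟩)
  rw [← hκi hyx]
  exact hy

end Pool.Agent.IWE
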