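import Pool.Agent.IWE.EffW
import Pool.Agent.IWE.Split
import Pool.Agent.IWE.Embed

/-! # IWE/ProdGood (MP_88b97d_al, helper45)

`T A := ∃ A₁ A₂, T₁ A₁ ∧ T₂ A₂ ∧ A = tens A₁ A₂`. `adm`: `tens_adm`. `inj`: `tens_injOn`. `ne`: clear.
`emb`: `split` (with `U`, `U'` compact by `isCompact_of_le`) gives `M, B, ev, s`; `M` embeds in `A₁` (`Good.embed`), `B` in `A₂`
(`hT₂.emb`); `τ → tens M B → tens A₁ A₂` is injective (`s` is, and `TensorProduct.map` of injective maps over a field is).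
`eff`: `A = tens A₁ A₂`, `E → τ` with kernel `N`, `h : N → tens A₁ A₂`. `split` for `τ`. `Ê` = the subspace of the `(e, x)` in
`E.prod (tens M B)` with `q e = ev x` (stable, smooth: `tens_smooth`), `q̂ (e, x) = x`, surjective (`q` is surjective), kernel
`{(i n, 0)} ≅ N`: `SES N Ê (tens M B)`; `effW` gives `A₁', A₂', j, f̂`; `f e = f̂ (e, s (q e))` (it lies in `Ê` because
`ev (s (q e)) = q e`), equivariant, `f (i n) = f̂ (i n, 0) = j (h n)`.
`dir`: `(tens A₁ A₂)` and `(tens B₁ B₂)` embed in `tens D₁ D₂` by `a₁ ⊗ a₂` and `b₁ ⊗ b₂`; if `(a₁ ⊗ a₂) x + (b₁ ⊗ b₂) y = 0` then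
`x = 0`, `y = 0`: `(a₁, b₁) : A₁ × B₁ → D₁` is injective, so it has a linear left inverse; composing with the projections gives
linear `r₁ : D₁ → A₁` with `r₁ a₁ = id`, `r₁ b₁ = 0`, similarly `r₂`; apply `r₁ ⊗ r₂`.
`proP_prod`: for `V` open in `G × H` take `N₁ ≤ V.comap inl`, `N₂ ≤ V.comap inr` and `N₁.prod N₂`
(`(g, h) = (g, 1) (1, h)`; `relIndex` of products is the product).
-/

namespace Pool.Agent.IWE

open scoped TensorProduct

variable {C : Type} [Field C] {G : Type} [Group G] [TopologicalSpace G] [IsTopologicalGroup G]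
  {H : Type} [Group H] [TopologicalSpace H] [IsTopologicalGroup H]

omit [TopologicalSpace G] [IsTopologicalGroup G] [TopologicalSpace H] [IsTopologicalGroup H] in
private theorem relIndex_prod' (N₁ U : Subgroup G) (N₂ U' : Subgroup H) :
    (N₁.prod N₂).relIndex (U.prod U') = N₁.relIndex U * N₂.relIndex U' := by
  have h1 : (MonoidHom.prodMap U.subtype U'.subtype).range = U.prod U' := by
    ext ⟨g, h⟩
    constructor
    · rintro ⟨⟨a, b⟩, hab⟩
      rw [MonoidHom.prodMap_def] at hab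
      have ha : a.1 = g := congrArg Prod.fst hab
      have hb : b.1 = h := congrArg Prod.snd hab
      rw [Subgroup.mem_prod]
      exact ⟨ha ▸ a.2, hb ▸ b.2⟩
    · intro hgh
      rw [Subgroup.mem_prod] at hgh
      exact ⟨(⟨g, hgh.1⟩, ⟨h, hgh.2⟩), rfl⟩
  rw [← h1, ← Subgroup.index_comap]
  have h2 : (N₁.prod N₂).comap (MonoidHom.prodMap U.subtype U'.subtype) =
      (N₁.subgroupOf U).prod (N₂.subgroupOf U') := by
    ext ⟨a, b⟩
    rw [Subgroup.mem_comap, Subgroup.mem_prod, Subgroup.mem_prod]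
    rfl
  rw [h2, Subgroup.index_prod]
  rfl

omit [IsTopologicalGroup G] [IsTopologicalGroup H] in
theorem proP_prod {p : ℕ} {U : Subgroup G} {U' : Subgroup H} (hU : ProP p U) (hU' : ProP p U') :
    ProP p (U.prod U') := by
  intro V hV
  obtain ⟨N₁, h1V, h1U, h1o, h1n, k₁, hk₁⟩ := hU (V.comap (MonoidHom.inl G H))
    (hV.preimage (by fun_prop : Continuous (fun g : G => (g, (1 : H)))))
  obtain ⟨N₂, h2V, h2U, h2o, h2n, k₂, hk₂⟩ := hU' (V.comap (MonoidHom.inr G H))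
    (hV.preimage (by fun_prop : Continuous (fun g : H => ((1 : G), g))))
  refine ⟨N₁.prod N₂, ?_, ?_, ?_, ?_, k₁ + k₂, ?_⟩
  · rintro ⟨g, h⟩ hgh
    rw [Subgroup.mem_prod] at hgh
    have e : (g, h) = (g, 1) * (1, h) := by simp
    rw [e]
    exact V.mul_mem (h1V hgh.1) (h2V hgh.2)
  · exact Subgroup.prod_mono h1U h2U
  · rw [Subgroup.coe_prod]
    exact h1o.prod h2o
  · rintro ⟨g, h⟩ hgh ⟨a, b⟩ hab
    rw [Subgroup.mem_prod] at hgh hab ⊢
    exact ⟨h1n g hgh.1 a hab.1, h2n h hgh.2 b hab.2⟩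
  · rw [relIndex_prod', hk₁, hk₂, pow_add]


omit [TopologicalSpace G] [IsTopologicalGroup G] [TopologicalSpace H] [IsTopologicalGroup H] in
private theorem map_isHom {A B : RR C G} {A' B' : RR C H} {f : A.V →ₗ[C] B.V} {f' : A'.V →ₗ[C] B'.V}
    (hf : IsHom A B f) (hf' : IsHom A' B' f') :
    IsHom (tens A A') (tens B B') (TensorProduct.map f f') := by
  intro g v
  show TensorProduct.map f f' (TensorProduct.map (A.ρ g.1) (A'.ρ g.2) v) =
    TensorProduct.map (B.ρ g.1) (B'.ρ g.2) (TensorProduct.map f f' v)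
  rw [← LinearMap.comp_apply, ← LinearMap.comp_apply, ← TensorProduct.map_comp,
    ← TensorProduct.map_comp]
  have e1 : f ∘ₗ (A.ρ g.1) = (B.ρ g.1) ∘ₗ f := LinearMap.ext fun v => hf g.1 v
  have e2 : f' ∘ₗ (A'.ρ g.2) = (B'.ρ g.2) ∘ₗ f' := LinearMap.ext fun v => hf' g.2 v
  rw [e1, e2]

private theorem exists_inv {A B D : Type} [AddCommGroup A] [Module C A] [AddCommGroup B] [Module C B]
    [AddCommGroup D] [Module C D] (a : A →ₗ[C] D) (b : B →ₗ[C] D)
    (h : ∀ x y, a x + b y = 0 → x = 0 ∧ y = 0) :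
    (∃ r : D →ₗ[C] A, r ∘ₗ a = LinearMap.id ∧ r ∘ₗ b = 0) ∧
    (∃ r : D →ₗ[C] B, r ∘ₗ b = LinearMap.id ∧ r ∘ₗ a = 0) := by
  have hinj : Function.Injective (a.coprod b) := by
    rw [← LinearMap.ker_eq_bot, LinearMap.ker_eq_bot']
    rintro ⟨x, y⟩ hxy
    rw [LinearMap.coprod_apply] at hxy
    obtain ⟨rfl, rfl⟩ := h x y hxy
    rfl
  obtain ⟨l, hl⟩ := (a.coprod b).exists_leftInverse_of_injective (LinearMap.ker_eq_bot.2 hinj)
  have hl' : ∀ x y, l (a x + b y) = (x, y) := fun x y => by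
    have := congrArg (fun f => f (x, y)) hl
    simpa using this
  have hla : ∀ x, l (a x) = (x, 0) := fun x => by
    have := hl' x 0
    rwa [map_zero, add_zero] at this
  have hlb : ∀ y, l (b y) = (0, y) := fun y => by
    have := hl' 0 y
    rwa [map_zero, zero_add] at this
  refine ⟨⟨(LinearMap.fst C A B) ∘ₗ l, ?_, ?_⟩, ⟨(LinearMap.snd C A B) ∘ₗ l, ?_, ?_⟩⟩
  · ext x; simp [hla]
  · ext x; simp [hlb]
  · ext x; simp [hlb]
  · ext x; simp [hla]

theorem HasGood.prod {p : ℕ} [Fact p.Prime] [CharP C p] [Finite C] {J : Subgroup G} {L : Subgroup H}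
    (hJ : HasGood p C J) (hL : HasGood p C L) : HasGood p C (J.prod L) := by
  obtain ⟨oJ, cJ, ⟨U, hUJ, oU, hU⟩, T₁, hT₁⟩ := hJ
  obtain ⟨oL, cL, ⟨U', hUL, oU', hU'⟩, T₂, hT₂⟩ := hL
  have cU := isCompact_of_le oU cJ hUJ
  have cU' := isCompact_of_le oU' cL hUL
  refine ⟨?_, ?_, ⟨U.prod U', Subgroup.prod_mono hUJ hUL, ?_, proP_prod hU hU'⟩,
    fun A => ∃ A₁ A₂, T₁ A₁ ∧ T₂ A₂ ∧ A = tens A₁ A₂, ?_⟩
  · rw [Subgroup.coe_prod]; exact oJ.prod oL
  · rw [Subgroup.coe_prod]; exact cJ.prod cL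
  · rw [Subgroup.coe_prod]; exact oU.prod oU'
  refine
    { ne := ?_
      adm := ?_
      inj := ?_
      emb := ?_
      eff := ?_
      dir := ?_ }
  · obtain ⟨A₁, h₁⟩ := hT₁.ne
    obtain ⟨A₂, h₂⟩ := hT₂.ne
    exact ⟨tens A₁ A₂, A₁, A₂, h₁, h₂, rfl⟩
  · rintro A ⟨A₁, A₂, h₁, h₂, rfl⟩
    exact tens_adm (hT₁.adm _ h₁) (hT₂.adm _ h₂) oJ cJ oL cL
  · rintro A ⟨A₁, A₂, h₁, h₂, rfl⟩
    exact tens_injOn (hT₁.adm _ h₁).1 (hT₂.adm _ h₂).1 cJ cL (hT₁.inj _ h₁) (hT₂.inj _ h₂)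
  · intro τ hτ hτa
    obtain ⟨M, B, ev, s, hM, hMs, hB, hBa, hev, hs, hevs, -⟩ :=
      split p hτ hτa oU cU hU oU' cU' hU'
    obtain ⟨A₁, h₁, f₁, hf₁, hf₁i⟩ := hT₁.embed hM hMs
    obtain ⟨A₂, h₂, f₂, hf₂, hf₂i⟩ := hT₂.emb B hB hBa
    refine ⟨tens A₁ A₂, ⟨A₁, A₂, h₁, h₂, rfl⟩, (TensorProduct.map f₁ f₂).comp s,
      hs.comp (map_isHom hf₁ hf₂), ?_⟩
    rw [LinearMap.coe_comp]
    exact (TensorProduct.map_injective_of_flat_flat f₁ f₂ hf₁i hf₂i).comp
      (Function.LeftInverse.injective hevs)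
  · rintro A ⟨A₁, A₂, h₁, h₂, rfl⟩ N E τ i q hsq hE hτ hτa h hh
    obtain ⟨M, B, ev, s, hM, hMs, hB, hBa, hev, hs, hevs, K, hKU, oK, hK⟩ :=
      split p hτ hτa oU cU hU oU' cU' hU'
    let P : RR C (G × H) := E.prod (tens M B)
    let W : Submodule C P.V := LinearMap.ker
      (q.comp (LinearMap.fst C E.V (tens M B).V) - ev.comp (LinearMap.snd C E.V (tens M B).V))
    have hmW : ∀ x : P.V, x ∈ W ↔ q x.1 = ev x.2 := by
      intro x
      show _ ∈ LinearMap.ker _ ↔ _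
      rw [LinearMap.mem_ker, LinearMap.sub_apply, sub_eq_zero]
      rfl
    have hW : P.Stable W := by
      intro g x hx
      rw [hmW] at hx ⊢
      show q (E.ρ g x.1) = ev ((tens M B).ρ g x.2)
      rw [hsq.hq, hev, hx]
    let Eh : RR C (G × H) := P.sub W hW
    let qh : Eh.V →ₗ[C] (tens M B).V := (LinearMap.snd C E.V (tens M B).V).comp W.subtype
    have hi'W : ∀ n, ((LinearMap.inl C E.V (tens M B).V).comp i) n ∈ W := by
      intro n
      rw [hmW]
      show q (i n) = ev 0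
      rw [hsq.comp_zero, map_zero]
    let i' : N.V →ₗ[C] Eh.V := LinearMap.codRestrict W _ hi'W
    have hS : SES N Eh (tens M B) i' qh :=
      { hi := by
          intro g n
          apply Subtype.ext
          show ((i (N.ρ g n), 0) : E.V × (tens M B).V) = (E.ρ g (i n), (tens M B).ρ g 0)
          rw [hsq.hi, map_zero]
        hq := fun g x => rfl
        inj := by
          intro a b hab
          apply hsq.inj
          exact congrArg (fun x => x.1.1) hab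
        surj := by
          intro x
          obtain ⟨e, he⟩ := hsq.surj (ev x)
          exact ⟨⟨(e, x), (hmW _).2 he⟩, rfl⟩
        ex := by
          rintro ⟨⟨e, x⟩, hex⟩
          rw [hmW] at hex
          constructor
          · intro h0
            have hx0 : x = 0 := h0
            subst hx0
            have : q e = 0 := by
              rw [show q e = ev 0 from hex, map_zero]
            obtain ⟨n, hn⟩ := (hsq.ex e).1 this
            refine ⟨n, ?_⟩
            apply Subtype.ext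
            show ((i n, 0) : E.V × (tens M B).V) = (e, 0)
            rw [hn]
          · rintro ⟨n, hn⟩
            have := congrArg (fun x => x.1.2) hn
            exact this.symm }
    have hEs : Eh.Smooth := smooth_of_inj (sub_isHom P W hW) Subtype.val_injective
      (prod_smooth hE (tens_smooth hMs hBa.1))
    obtain ⟨A₁', A₂', h₁', h₂', j, f', hj, hji, hf', hfj⟩ :=
      effW hT₁ hT₂ cJ oL cL h₁ h₂ hM hMs hB hBa oK (hKU.trans hUJ) hK hS hEs hh
    have hkW : ∀ e, (LinearMap.prod LinearMap.id (s.comp q)) e ∈ W := by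
      intro e
      rw [hmW]
      show q e = ev (s (q e))
      rw [hevs]
    let k : E.V →ₗ[C] Eh.V := LinearMap.codRestrict W _ hkW
    have hk : IsHom E Eh k := by
      intro g e
      apply Subtype.ext
      show ((E.ρ g e, s (q (E.ρ g e))) : E.V × (tens M B).V) = (E.ρ g e, (tens M B).ρ g (s (q e)))
      rw [hsq.hq, hs]
    refine ⟨tens A₁' A₂', ⟨A₁', A₂', h₁', h₂', rfl⟩, j, f'.comp k, hj, hji, hk.comp hf', ?_⟩
    intro n
    rw [← hfj]
    show f' (k (i n)) = f' (i' n)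
    congr 1
    apply Subtype.ext
    show ((i n, s (q (i n))) : E.V × (tens M B).V) = (i n, 0)
    rw [hsq.comp_zero, map_zero]
  · rintro A B ⟨A₁, A₂, hA₁, hA₂, rfl⟩ ⟨B₁, B₂, hB₁, hB₂, rfl⟩
    obtain ⟨D₁, hD₁, a₁, b₁, ha₁, hb₁, hd₁⟩ := hT₁.dir A₁ B₁ hA₁ hB₁
    obtain ⟨D₂, hD₂, a₂, b₂, ha₂, hb₂, hd₂⟩ := hT₂.dir A₂ B₂ hA₂ hB₂
    refine ⟨tens D₁ D₂, ⟨_, _, hD₁, hD₂, rfl⟩, TensorProduct.map a₁ a₂, TensorProduct.map b₁ b₂,
      map_isHom ha₁ ha₂, map_isHom hb₁ hb₂, ?_⟩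
    obtain ⟨⟨r₁, hr₁, hr₁'⟩, ⟨t₁, ht₁, ht₁'⟩⟩ := exists_inv a₁ b₁ hd₁
    obtain ⟨⟨r₂, hr₂, hr₂'⟩, ⟨t₂, ht₂, ht₂'⟩⟩ := exists_inv a₂ b₂ hd₂
    intro x y hxy
    have ea : ∀ x : A₁.V ⊗[C] A₂.V,
        TensorProduct.map r₁ r₂ (TensorProduct.map a₁ a₂ x) = x := by
      intro x
      rw [← LinearMap.comp_apply, ← TensorProduct.map_comp, hr₁, hr₂, TensorProduct.map_id]
      rfl
    have eb : ∀ y : B₁.V ⊗[C] B₂.V,
        TensorProduct.map r₁ r₂ (TensorProduct.map b₁ b₂ y) = 0 := by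
      intro y
      rw [← LinearMap.comp_apply, ← TensorProduct.map_comp, hr₁', TensorProduct.map_zero_left]
      rfl
    have eb' : ∀ y : B₁.V ⊗[C] B₂.V,
        TensorProduct.map t₁ t₂ (TensorProduct.map b₁ b₂ y) = y := by
      intro x
      rw [← LinearMap.comp_apply, ← TensorProduct.map_comp, ht₁, ht₂, TensorProduct.map_id]
      rfl
    have ea' : ∀ y : A₁.V ⊗[C] A₂.V,
        TensorProduct.map t₁ t₂ (TensorProduct.map a₁ a₂ y) = 0 := by
      intro y
      rw [← LinearMap.comp_apply, ← TensorProduct.map_comp, ht₁', TensorProduct.map_zero_left]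
      rfl
    constructor
    · have := congrArg (TensorProduct.map r₁ r₂) hxy
      rw [map_add, ea, eb, add_zero, map_zero] at this
      exact this
    · have := congrArg (TensorProduct.map t₁ t₂) hxy
      rw [map_add, ea', eb', zero_add, map_zero] at this
      exact this

end Pool.Agent.IWE
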