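import Pool.Agent.IWE.Defs

/-! # IWE/SLDefs (MP_88b97d_al, helper45): subgroups of `SL₂` over a nonarchimedean field -/

namespace Pool.Agent.IWE

open Matrix

variable (F : Type) [NontriviallyNormedField F] [IsUltrametricDist F]

/-- the matrices `(a, b; c, d)` of determinant 1 with `‖a‖, ‖d‖ ≤ 1`, `‖b‖ ≤ r⁻¹`, `‖c‖ ≤ r` -/
def SLr (r : ℝ) (hr : 0 < r) : Subgroup (SpecialLinearGroup (Fin 2) F) where
  carrier := {g | ‖g 0 0‖ ≤ 1 ∧ ‖g 0 1‖ ≤ r⁻¹ ∧ ‖g 1 0‖ ≤ r ∧ ‖g 1 1‖ ≤ 1}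
  mul_mem' := by
    rintro g h ⟨g1, g2, g3, g4⟩ ⟨h1, h2, h3, h4⟩
    have e : ∀ i j, (g * h) i j = g i 0 * h 0 j + g i 1 * h 1 j := fun i j => by
      show (g.1 * h.1) i j = _
      rw [Matrix.mul_apply, Fin.sum_univ_two]
    have hr' : 0 ≤ r⁻¹ := (inv_pos.2 hr).le
    refine ⟨?_, ?_, ?_, ?_⟩
    · rw [e]
      refine (IsUltrametricDist.norm_add_le_max _ _).trans (max_le ?_ ?_)
      · rw [norm_mul]; exact mul_le_one₀ g1 (norm_nonneg _) h1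
      · rw [norm_mul]
        calc ‖g 0 1‖ * ‖h 1 0‖ ≤ r⁻¹ * r := mul_le_mul g2 h3 (norm_nonneg _) hr'
          _ = 1 := inv_mul_cancel₀ hr.ne'
    · rw [e]
      refine (IsUltrametricDist.norm_add_le_max _ _).trans (max_le ?_ ?_)
      · rw [norm_mul]
        calc ‖g 0 0‖ * ‖h 0 1‖ ≤ 1 * r⁻¹ := mul_le_mul g1 h2 (norm_nonneg _) zero_le_one
          _ = r⁻¹ := one_mul _
      · rw [norm_mul]
        calc ‖g 0 1‖ * ‖h 1 1‖ ≤ r⁻¹ * 1 := mul_le_mul g2 h4 (norm_nonneg _) hr'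
          _ = r⁻¹ := mul_one _
    · rw [e]
      refine (IsUltrametricDist.norm_add_le_max _ _).trans (max_le ?_ ?_)
      · rw [norm_mul]
        calc ‖g 1 0‖ * ‖h 0 0‖ ≤ r * 1 := mul_le_mul g3 h1 (norm_nonneg _) hr.le
          _ = r := mul_one _
      · rw [norm_mul]
        calc ‖g 1 1‖ * ‖h 1 0‖ ≤ 1 * r := mul_le_mul g4 h3 (norm_nonneg _) zero_le_one
          _ = r := one_mul _
    · rw [e]
      refine (IsUltrametricDist.norm_add_le_max _ _).trans (max_le ?_ ?_)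
      · rw [norm_mul]
        calc ‖g 1 0‖ * ‖h 0 1‖ ≤ r * r⁻¹ := mul_le_mul g3 h2 (norm_nonneg _) hr.le
          _ = 1 := mul_inv_cancel₀ hr.ne'
      · rw [norm_mul]; exact mul_le_one₀ g4 (norm_nonneg _) h4
  one_mem' := by
    refine ⟨?_, ?_, ?_, ?_⟩ <;> simp [hr.le]
  inv_mem' := by
    rintro g ⟨g1, g2, g3, g4⟩
    have e : ((g⁻¹ : SpecialLinearGroup (Fin 2) F) : Matrix (Fin 2) (Fin 2) F) =
        !![g 1 1, - g 0 1; - g 1 0, g 0 0] := by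
      show Matrix.adjugate g.1 = _
      rw [Matrix.adjugate_fin_two]
    refine ⟨?_, ?_, ?_, ?_⟩
    · rw [e]; simpa using g4
    · rw [e]; simpa using g2
    · rw [e]; simpa using g3
    · rw [e]; simpa using g1

theorem mem_SLr {r : ℝ} {hr : 0 < r} {g : SpecialLinearGroup (Fin 2) F} :
    g ∈ SLr F r hr ↔ ‖g 0 0‖ ≤ 1 ∧ ‖g 0 1‖ ≤ r⁻¹ ∧ ‖g 1 0‖ ≤ r ∧ ‖g 1 1‖ ≤ 1 := Iff.rfl

/-- the Iwahori subgroup: the matrices with integral entries which are upper triangular modulo the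
maximal ideal -/
def Iw : Subgroup (SpecialLinearGroup (Fin 2) F) where
  carrier := {g | (∀ i j, ‖g i j‖ ≤ 1) ∧ ‖g 1 0‖ < 1}
  mul_mem' := by
    rintro g h ⟨g1, g2⟩ ⟨h1, h2⟩
    have e : ∀ i j, (g * h) i j = g i 0 * h 0 j + g i 1 * h 1 j := fun i j => by
      show (g.1 * h.1) i j = _
      rw [Matrix.mul_apply, Fin.sum_univ_two]
    refine ⟨fun i j => ?_, ?_⟩
    · rw [e]
      refine (IsUltrametricDist.norm_add_le_max _ _).trans (max_le ?_ ?_)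
      · rw [norm_mul]; exact mul_le_one₀ (g1 _ _) (norm_nonneg _) (h1 _ _)
      · rw [norm_mul]; exact mul_le_one₀ (g1 _ _) (norm_nonneg _) (h1 _ _)
    · rw [e]
      refine (IsUltrametricDist.norm_add_le_max _ _).trans_lt (max_lt ?_ ?_)
      · rw [norm_mul]
        calc ‖g 1 0‖ * ‖h 0 0‖ ≤ ‖g 1 0‖ * 1 := mul_le_mul_of_nonneg_left (h1 _ _) (norm_nonneg _)
          _ < 1 := by rw [mul_one]; exact g2
      · rw [norm_mul]
        calc ‖g 1 1‖ * ‖h 1 0‖ ≤ 1 * ‖h 1 0‖ := mul_le_mul_of_nonneg_right (g1 _ _) (norm_nonneg _)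
          _ < 1 := by rw [one_mul]; exact h2
  one_mem' := by
    refine ⟨fun i j => ?_, ?_⟩
    · fin_cases i <;> fin_cases j <;> simp
    · simp
  inv_mem' := by
    rintro g ⟨g1, g2⟩
    have e : ((g⁻¹ : SpecialLinearGroup (Fin 2) F) : Matrix (Fin 2) (Fin 2) F) =
        !![g 1 1, - g 0 1; - g 1 0, g 0 0] := by
      show Matrix.adjugate g.1 = _
      rw [Matrix.adjugate_fin_two]
    refine ⟨fun i j => ?_, ?_⟩
    · rw [e]
      fin_cases i <;> fin_cases j <;> simp [g1]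
    · rw [e]; simpa using g2

end Pool.Agent.IWE
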