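import Pool.Agent.IWE.SLDefs

/-! # IWE/SLGen (MP_88b97d_al, helper45)

Let `S` be the subgroup generated by `P = SLr F 1` and `Q = SLr F ‖ϖ‖`. `w = (0, 1; -1, 0) ∈ P`, `w' = (0, ϖ⁻¹; -ϖ, 0) ∈ Q`,
`w' w⁻¹ = diag (ϖ⁻¹, ϖ)` (up to sign), so `t = diag (ϖ⁻¹, ϖ) ∈ S`; `t ^ n (1, x; 0, 1) t ^ (-n) = (1, ϖ ^ (-2 n) x; 0, 1)`, so all
`(1, x; 0, 1)`, `x ∈ F`, are in `S` (choose `n` with `‖ϖ ^ (2 n) x‖ ≤ 1`), and by conjugation with `w` all `(1, 0; x, 1)`. For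
`g = (a, b; c, d)` with `c ≠ 0`: `g = (1, (a-1)/c; 0, 1) (1, 0; c, 1) (1, (d-1)/c; 0, 1)`. If `c = 0` then `a ≠ 0` and the lower left entry
of `w⁻¹ g` or of `(1, 0; 1, 1) g` is nonzero.
-/

namespace Pool.Agent.IWE

open scoped TensorProduct

open Matrix

section

variable {F : Type} [Field F]

/-- matrices with given entries -/
private def slgM (a b c d : F) (h : a * d - b * c = 1) : SpecialLinearGroup (Fin 2) F :=
  ⟨!![a, b; c, d], by rw [Matrix.det_fin_two_of]; exact h⟩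

private theorem slgM_mul (a b c d a' b' c' d' : F) (h : a * d - b * c = 1)
    (h' : a' * d' - b' * c' = 1) (h'' : (a * a' + b * c') * (c * b' + d * d') -
      (a * b' + b * d') * (c * a' + d * c') = 1) :
    slgM a b c d h * slgM a' b' c' d' h' =
      slgM (a * a' + b * c') (a * b' + b * d') (c * a' + d * c') (c * b' + d * d') h'' := by
  apply Subtype.ext
  show !![a, b; c, d] * !![a', b'; c', d'] = _
  rw [Matrix.mul_fin_two]
  rfl

private theorem slgM_congr {a b c d a' b' c' d' : F} (h : a * d - b * c = 1)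
    (h' : a' * d' - b' * c' = 1) (ha : a = a') (hb : b = b') (hc : c = c') (hd : d = d') :
    slgM a b c d h = slgM a' b' c' d' h' := by
  subst ha hb hc hd
  rfl

private theorem slgM_eta (g : SpecialLinearGroup (Fin 2) F) :
    ∃ h, g = slgM (g 0 0) (g 0 1) (g 1 0) (g 1 1) h := by
  have h : g 0 0 * g 1 1 - g 0 1 * g 1 0 = 1 := by
    have := g.2
    rw [Matrix.det_fin_two] at this
    exact this
  refine ⟨h, ?_⟩
  apply Subtype.ext
  exact Matrix.eta_fin_two _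

end

variable (F : Type) [NontriviallyNormedField F] [IsUltrametricDist F]

theorem sl_sup {ϖ : F} (h0 : 0 < ‖ϖ‖) (h1 : ‖ϖ‖ < 1) : SLr F 1 one_pos ⊔ SLr F ‖ϖ‖ h0 = ⊤ := by
  have hϖ : ϖ ≠ 0 := norm_pos_iff.1 h0
  set S : Subgroup (SpecialLinearGroup (Fin 2) F) := SLr F 1 one_pos ⊔ SLr F ‖ϖ‖ h0 with hS
  have hP : ∀ g, g ∈ SLr F 1 one_pos → g ∈ S := fun g hg => Subgroup.mem_sup_left hg
  have hQ : ∀ g, g ∈ SLr F ‖ϖ‖ h0 → g ∈ S := fun g hg => Subgroup.mem_sup_right hg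
  have hw : ∀ h, slgM (0 : F) 1 (-1) 0 h ∈ S := by
    intro h
    apply hP
    rw [mem_SLr]
    simp [slgM]
  have hwi : ∀ h, slgM (0 : F) (-1) 1 0 h ∈ S := by
    intro h
    apply hP
    rw [mem_SLr]
    simp [slgM]
  have hw' : ∀ h, slgM (0 : F) ϖ⁻¹ (-ϖ) 0 h ∈ S := by
    intro h
    apply hQ
    rw [mem_SLr]
    simp [slgM]
  have hwi' : ∀ h, slgM (0 : F) (-ϖ⁻¹) ϖ 0 h ∈ S := by
    intro h
    apply hQ
    rw [mem_SLr]
    simp [slgM]
  have ht : ∀ h, slgM ϖ⁻¹ 0 0 ϖ h ∈ S := by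
    intro h
    have e : slgM ϖ⁻¹ 0 0 ϖ h = slgM 0 ϖ⁻¹ (-ϖ) 0 (by field_simp; ring) *
        slgM 0 (-1) 1 0 (by ring) := by
      rw [slgM_mul _ _ _ _ _ _ _ _ _ _ (by field_simp; ring)]
      apply slgM_congr <;> ring
    rw [e]
    exact S.mul_mem (hw' _) (hwi _)
  have hti : ∀ h, slgM ϖ 0 0 ϖ⁻¹ h ∈ S := by
    intro h
    have e : slgM ϖ 0 0 ϖ⁻¹ h = slgM 0 1 (-1) 0 (by ring) *
        slgM 0 (-ϖ⁻¹) ϖ 0 (by field_simp; ring) := by
      rw [slgM_mul _ _ _ _ _ _ _ _ _ _ (by field_simp; ring)]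
      apply slgM_congr <;> ring
    rw [e]
    exact S.mul_mem (hw _) (hwi' _)
  have hU0 : ∀ (n : ℕ) (x : F), ‖x‖ * ‖ϖ‖ ^ (2 * n) ≤ 1 → ∀ h, slgM 1 x 0 1 h ∈ S := by
    intro n
    induction n with
    | zero =>
      intro x hx h
      apply hP
      rw [mem_SLr]
      simp only [mul_zero, pow_zero, mul_one] at hx
      simp [slgM, hx]
    | succ n ih =>
      intro x hx h
      have h1 : ‖ϖ ^ 2 * x‖ * ‖ϖ‖ ^ (2 * n) ≤ 1 := by
        rw [norm_mul, norm_pow]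
        calc ‖ϖ‖ ^ 2 * ‖x‖ * ‖ϖ‖ ^ (2 * n) = ‖x‖ * ‖ϖ‖ ^ (2 * (n + 1)) := by ring
          _ ≤ 1 := hx
      have e : slgM 1 x 0 1 h = (slgM ϖ⁻¹ 0 0 ϖ (by field_simp; ring) *
          slgM 1 (ϖ ^ 2 * x) 0 1 (by ring)) * slgM ϖ 0 0 ϖ⁻¹ (by field_simp; ring) := by
        rw [slgM_mul _ _ _ _ _ _ _ _ _ _ (by field_simp; ring),
          slgM_mul _ _ _ _ _ _ _ _ _ _ (by field_simp; ring)]
        apply slgM_congr <;> field_simp <;> ring
      rw [e]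
      exact S.mul_mem (S.mul_mem (ht _) (ih _ h1 _)) (hti _)
  have hU : ∀ (x : F) h, slgM 1 x 0 1 h ∈ S := by
    intro x h
    obtain ⟨n, hn⟩ := exists_pow_lt_of_lt_one (show (0 : ℝ) < 1 / (‖x‖ + 1) by positivity) h1
    refine hU0 n x ?_ h
    have h2 : ‖ϖ‖ ^ (2 * n) ≤ ‖ϖ‖ ^ n :=
      pow_le_pow_of_le_one (norm_nonneg _) h1.le (by omega)
    have h3 : ‖ϖ‖ ^ n * (‖x‖ + 1) < 1 := by
      rwa [lt_div_iff₀ (by positivity)] at hn
    have h4 : 0 ≤ ‖ϖ‖ ^ n := by positivity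
    nlinarith [norm_nonneg x]
  have hL : ∀ (x : F) h, slgM 1 0 x 1 h ∈ S := by
    intro x h
    have e : slgM 1 0 x 1 h = (slgM 0 1 (-1) 0 (by ring) * slgM 1 (-x) 0 1 (by ring)) *
        slgM 0 (-1) 1 0 (by ring) := by
      rw [slgM_mul _ _ _ _ _ _ _ _ _ _ (by ring), slgM_mul _ _ _ _ _ _ _ _ _ _ (by ring)]
      apply slgM_congr <;> ring
    rw [e]
    exact S.mul_mem (S.mul_mem (hw _) (hU _ _)) (hwi _)
  have hmain : ∀ a b c d : F, c ≠ 0 → ∀ h, slgM a b c d h ∈ S := by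
    intro a b c d hc h
    have e : slgM a b c d h = (slgM 1 ((a - 1) / c) 0 1 (by ring) * slgM 1 0 c 1 (by ring)) *
        slgM 1 ((d - 1) / c) 0 1 (by ring) := by
      rw [slgM_mul _ _ _ _ _ _ _ _ _ _ (by ring), slgM_mul _ _ _ _ _ _ _ _ _ _ (by ring)]
      apply slgM_congr
      · field_simp
        ring
      · field_simp
        linear_combination (-1 : F) * h
      · ring
      · field_simp
        ring
    rw [e]
    exact S.mul_mem (S.mul_mem (hU _ _) (hL _ _)) (hU _ _)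
  rw [eq_top_iff]
  intro g _
  obtain ⟨h, hg⟩ := slgM_eta g
  rw [hg]
  by_cases hc : g 1 0 = 0
  · have ha : g 0 0 ≠ 0 := by
      intro ha
      rw [ha, hc] at h
      simp at h
    have e : slgM 1 0 (-1) 1 (by ring) * slgM (g 0 0) (g 0 1) (g 0 0 + g 1 0) (g 0 1 + g 1 1)
        (by linear_combination h) = slgM (g 0 0) (g 0 1) (g 1 0) (g 1 1) h := by
      rw [slgM_mul _ _ _ _ _ _ _ _ _ _ (by linear_combination h)]
      apply slgM_congr <;> ring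
    rw [← e]
    refine S.mul_mem (hL _ _) (hmain _ _ _ _ ?_ _)
    rw [hc, add_zero]
    exact ha
  · exact hmain _ _ _ _ hc _

end Pool.Agent.IWE
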