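import Pool.Agent.IWE.SLTop

/-! # IWE/SLPro (MP_88b97d_al, helper45)

For `0 < r < 1` let `N_r` be the set of the `g` with `‖g i j - δ i j‖ ≤ r` for all `i, j`: an open subgroup (products
`(1 + X)(1 + Y)`, inverse = adjugate), contained in `SLr F 1` and in `SLr F s` for `s ≥ r`, `s ≤ 1`, compact
(closed in the compact `SLr F 1`); normalised by `SLr F 1`. The `N_r` are a basis of neighbourhoods of `1`: every open subgroup `V`
contains some `N_r`, `r = ‖ϖ‖ ^ k` (the topology is induced from the matrices; the sup norm balls).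
`U = N_{‖ϖ‖}`. Pro-`p`: given `V` take `N = N_{‖ϖ‖ ^ (k + 1)} ≤ V`. `N.relIndex U` is finite (`N` open in the compact `U`). If
`g = 1 + X` with `‖X‖ ≤ ρ < 1` then `g ^ p = 1 + ∑_{1 ≤ j ≤ p} C(p, j) X ^ j` and `‖C(p, j)‖ ≤ ‖(p : F)‖ ≤ ‖ϖ‖` for `0 < j < p`, so
`‖g ^ p - 1‖ ≤ max (‖ϖ‖ ρ, ρ ^ p)`, hence `g ∈ N_{‖ϖ‖ ^ j}` gives `g ^ p ∈ N_{‖ϖ‖ ^ (j + 1)}`, and `g ^ (p ^ k) ∈ N` for `g ∈ U`: the quotient
of `U` by the normal subgroup `N` is a finite `p`-group, of order `p ^ m` (`IsPGroup.iff_card`).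
-/

namespace Pool.Agent.IWE

open scoped TensorProduct

open Matrix

variable (F : Type) [NontriviallyNormedField F] [IsUltrametricDist F] [ProperSpace F]

section

omit [ProperSpace F]

private theorem mulb {A B : Matrix (Fin 2) (Fin 2) F} {a b : ℝ} (ha : 0 ≤ a)
    (hA : ∀ i j, ‖A i j‖ ≤ a) (hB : ∀ i j, ‖B i j‖ ≤ b) (i j : Fin 2) : ‖(A * B) i j‖ ≤ a * b := by
  rw [Matrix.mul_apply, Fin.sum_univ_two]
  refine (IsUltrametricDist.norm_add_le_max _ _).trans (max_le ?_ ?_)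
  · rw [norm_mul]
    exact mul_le_mul (hA _ _) (hB _ _) (norm_nonneg _) ha
  · rw [norm_mul]
    exact mul_le_mul (hA _ _) (hB _ _) (norm_nonneg _) ha

private theorem addb {A B : Matrix (Fin 2) (Fin 2) F} {a : ℝ}
    (hA : ∀ i j, ‖A i j‖ ≤ a) (hB : ∀ i j, ‖B i j‖ ≤ a) (i j : Fin 2) : ‖(A + B) i j‖ ≤ a := by
  rw [Matrix.add_apply]
  exact (IsUltrametricDist.norm_add_le_max _ _).trans (max_le (hA _ _) (hB _ _))

/-- the congruence subgroup of radius `r` -/
private def Ns (r : ℝ) (hr : 0 < r) (hr1 : r ≤ 1) : Subgroup (SpecialLinearGroup (Fin 2) F) where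
  carrier := {g | ∀ i j, ‖(g.1 - 1) i j‖ ≤ r}
  mul_mem' := by
    intro g h hg hh i j
    have e : (g * h).1 - 1 = (g.1 - 1) * (h.1 - 1) + ((g.1 - 1) + (h.1 - 1)) := by
      rw [show (g * h).1 = g.1 * h.1 from rfl]
      noncomm_ring
    rw [e]
    refine addb F (fun i j => ?_) (addb F hg hh) i j
    refine (mulb F hr.le hg hh i j).trans ?_
    nlinarith
  one_mem' := by
    intro i j
    rw [show (1 : SpecialLinearGroup (Fin 2) F).1 = 1 from rfl, sub_self, Matrix.zero_apply,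
      norm_zero]
    exact hr.le
  inv_mem' := by
    intro g hg i j
    have e : ((g⁻¹ : SpecialLinearGroup (Fin 2) F) : Matrix (Fin 2) (Fin 2) F) =
        !![g 1 1, - g 0 1; - g 1 0, g 0 0] := by
      show Matrix.adjugate g.1 = _
      rw [Matrix.adjugate_fin_two]
    have h00 := hg 0 0
    have h01 := hg 0 1
    have h10 := hg 1 0
    have h11 := hg 1 1
    rw [Matrix.sub_apply] at h00 h01 h10 h11
    show ‖(((g⁻¹ : SpecialLinearGroup (Fin 2) F) : Matrix (Fin 2) (Fin 2) F) - 1) i j‖ ≤ r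
    rw [e, Matrix.sub_apply]
    fin_cases i <;> fin_cases j
    · simpa using h11
    · simpa using h01
    · simpa using h10
    · simpa using h00

private theorem mem_Ns {r : ℝ} {hr : 0 < r} {hr1 : r ≤ 1} {g : SpecialLinearGroup (Fin 2) F} :
    g ∈ Ns F r hr hr1 ↔ ∀ i j, ‖(g.1 - 1) i j‖ ≤ r := Iff.rfl

private theorem Ns_mono {r s : ℝ} {hr : 0 < r} {hr1 : r ≤ 1} {hs : 0 < s} {hs1 : s ≤ 1}
    (h : r ≤ s) : Ns F r hr hr1 ≤ Ns F s hs hs1 := fun _ hg i j => (hg i j).trans h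

private theorem Ns_le {r s : ℝ} {hr : 0 < r} {hr1 : r ≤ 1} {hs : 0 < s} (h : r ≤ s)
    (hs1 : s ≤ 1) : Ns F r hr hr1 ≤ SLr F s hs := by
  intro g hg
  have h00 := hg 0 0
  have h01 := hg 0 1
  have h10 := hg 1 0
  have h11 := hg 1 1
  rw [Matrix.sub_apply] at h00 h01 h10 h11
  simp only [Matrix.one_apply_eq] at h00 h11
  rw [Matrix.one_apply_ne (by decide), sub_zero] at h01 h10
  have hd : ∀ x : F, ‖x - 1‖ ≤ r → ‖x‖ ≤ 1 := by
    intro x hx
    have h1 : x = (x - 1) + 1 := by ring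
    rw [h1]
    refine (IsUltrametricDist.norm_add_le_max _ _).trans (max_le (hx.trans hr1) ?_)
    rw [norm_one]
  rw [mem_SLr]
  refine ⟨hd _ h00, ?_, h10.trans h, hd _ h11⟩
  refine h01.trans (hr1.trans ?_)
  exact (one_le_inv₀ hs).2 hs1

private theorem entries_le {g : SpecialLinearGroup (Fin 2) F} (hg : g ∈ SLr F 1 one_pos)
    (i j : Fin 2) : ‖g.1 i j‖ ≤ 1 := by
  obtain ⟨h1, h2, h3, h4⟩ := hg
  rw [inv_one] at h2
  fin_cases i <;> fin_cases j
  · exact h1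
  · exact h2
  · exact h3
  · exact h4

private theorem Ns_conj {r : ℝ} {hr : 0 < r} {hr1 : r ≤ 1} {u g : SpecialLinearGroup (Fin 2) F}
    (hu : u ∈ SLr F 1 one_pos) (hg : g ∈ Ns F r hr hr1) : u * g * u⁻¹ ∈ Ns F r hr hr1 := by
  intro i j
  have e1 : u.1 * (u⁻¹).1 = 1 := by
    have := congrArg Subtype.val (mul_inv_cancel u)
    exact this
  have e : (u * g * u⁻¹).1 - 1 = u.1 * (g.1 - 1) * (u⁻¹).1 := by
    rw [show (u * g * u⁻¹).1 = u.1 * g.1 * (u⁻¹).1 from rfl, Matrix.mul_sub, Matrix.sub_mul,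
      Matrix.mul_one, e1]
  rw [e]
  have h1 : ∀ i j, ‖(u.1 * (g.1 - 1)) i j‖ ≤ r := fun i j => by
    have := mulb F zero_le_one (entries_le F hu) hg i j
    rwa [one_mul] at this
  have := mulb F hr.le h1 (entries_le F (inv_mem hu)) i j
  rwa [mul_one] at this

private theorem Ns_open {r : ℝ} {hr : 0 < r} {hr1 : r ≤ 1} :
    IsOpen (Ns F r hr hr1 : Set (SpecialLinearGroup (Fin 2) F)) := by
  have h1 : (Ns F r hr hr1 : Set (SpecialLinearGroup (Fin 2) F)) =
      ⋂ i, ⋂ j, (fun g : SpecialLinearGroup (Fin 2) F => g.1 i j) ⁻¹'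
        Metric.closedBall ((1 : Matrix (Fin 2) (Fin 2) F) i j) r := by
    ext g
    rw [Set.mem_iInter]
    refine forall_congr' fun i => ?_
    rw [Set.mem_iInter]
    refine forall_congr' fun j => ?_
    rw [Set.mem_preimage, Metric.mem_closedBall, dist_eq_norm, Matrix.sub_apply]
  rw [h1]
  refine isOpen_iInter_of_finite fun i => isOpen_iInter_of_finite fun j => ?_
  refine (IsUltrametricDist.isOpen_closedBall _ hr.ne').preimage ?_
  have h2 : Continuous (fun g : SpecialLinearGroup (Fin 2) F => g.1) := continuous_subtype_val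
  exact (continuous_apply j).comp ((continuous_apply i).comp h2)

private theorem Ns_basis {V : Subgroup (SpecialLinearGroup (Fin 2) F)}
    (hV : IsOpen (V : Set (SpecialLinearGroup (Fin 2) F))) :
    ∃ ε : ℝ, 0 < ε ∧ ∀ (r : ℝ) (hr : 0 < r) (hr1 : r ≤ 1), r ≤ ε → Ns F r hr hr1 ≤ V := by
  have h1 : (V : Set (SpecialLinearGroup (Fin 2) F)) ∈ nhds (1 : SpecialLinearGroup (Fin 2) F) :=
    hV.mem_nhds V.one_mem
  have hind : Topology.IsInducing (fun g : SpecialLinearGroup (Fin 2) F =>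
      (fun i j => g.1 i j : Fin 2 → Fin 2 → F)) := Topology.IsInducing.subtypeVal
  rw [hind.nhds_eq_comap, Filter.mem_comap] at h1
  obtain ⟨t, ht, htV⟩ := h1
  obtain ⟨ε, hε, hball⟩ := Metric.nhds_basis_closedBall.mem_iff.1 ht
  refine ⟨ε, hε, fun r hr hr1 hrε g hg => htV (hball ?_)⟩
  rw [Metric.mem_closedBall, dist_pi_le_iff hε.le]
  intro i
  rw [dist_pi_le_iff hε.le]
  intro j
  rw [dist_eq_norm]
  exact (hg i j).trans hrε

/-- powers -/
private theorem Ns_pow {r s : ℝ} {hr : 0 < r} {hr1 : r ≤ 1} {hs : 0 < s} {hs1 : s ≤ 1}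
    (hrs : r * r ≤ s) (p : ℕ) (hp : ‖(p : F)‖ * r ≤ s) {g : SpecialLinearGroup (Fin 2) F}
    (hg : g ∈ Ns F r hr hr1) : g ^ p ∈ Ns F s hs hs1 := by
  have key : ∀ m : ℕ, ∀ i j, ‖((g ^ m).1 - 1 - (m : F) • (g.1 - 1)) i j‖ ≤ s := by
    intro m
    induction m with
    | zero =>
      intro i j
      rw [pow_zero, show (1 : SpecialLinearGroup (Fin 2) F).1 = 1 from rfl, sub_self,
        Nat.cast_zero, zero_smul, sub_zero, Matrix.zero_apply, norm_zero]
      exact hs.le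
    | succ m ih =>
      have e : (g ^ (m + 1)).1 - 1 - ((m + 1 : ℕ) : F) • (g.1 - 1) =
          ((g ^ m).1 - 1 - (m : F) • (g.1 - 1)) + ((g ^ m).1 - 1) * (g.1 - 1) := by
        rw [pow_succ, show (g ^ m * g).1 = (g ^ m).1 * g.1 from rfl, Nat.cast_succ, add_smul,
          one_smul]
        noncomm_ring
      rw [e]
      refine addb F ih fun i j => ?_
      exact (mulb F hr.le (Subgroup.pow_mem _ hg m) hg i j).trans hrs
  intro i j
  have e : (g ^ p).1 - 1 = ((g ^ p).1 - 1 - (p : F) • (g.1 - 1)) + (p : F) • (g.1 - 1) := by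
    abel
  rw [e]
  refine addb F (key p) (fun i j => ?_) i j
  rw [Matrix.smul_apply, norm_smul]
  refine le_trans ?_ hp
  exact mul_le_mul_of_nonneg_left (hg i j) (norm_nonneg _)

end

theorem sl_pro (p : ℕ) [Fact p.Prime] (hp : ‖(p : F)‖ < 1) {ϖ : F} (h0 : 0 < ‖ϖ‖) (h1 : ‖ϖ‖ < 1)
    (h2 : ∀ x : F, ‖x‖ < 1 → ‖x‖ ≤ ‖ϖ‖) :
    ∃ U : Subgroup (SpecialLinearGroup (Fin 2) F), U ≤ SLr F 1 one_pos ⊓ SLr F ‖ϖ‖ h0 ∧
      IsOpen (U : Set (SpecialLinearGroup (Fin 2) F)) ∧ ProP p U := by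
  obtain ⟨w, hw⟩ : ∃ w, w = ‖ϖ‖ := ⟨_, rfl⟩
  have hw0 : 0 < w := by rw [hw]; exact h0
  have hw1 : w ≤ 1 := by rw [hw]; exact h1.le
  have hwk : ∀ k : ℕ, 0 < w ^ (k + 1) := fun k => pow_pos hw0 _
  have hwk1 : ∀ k : ℕ, w ^ (k + 1) ≤ 1 := fun k => pow_le_one₀ hw0.le hw1
  have hpw : ‖(p : F)‖ ≤ w := by rw [hw]; exact h2 _ hp
  obtain ⟨U, hU⟩ : ∃ U, U = Ns F w hw0 hw1 := ⟨_, rfl⟩
  have hU1 : U ≤ SLr F 1 one_pos := by rw [hU]; exact Ns_le F hw1 le_rfl
  have hUo : IsOpen (U : Set (SpecialLinearGroup (Fin 2) F)) := by rw [hU]; exact Ns_open F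
  refine ⟨U, le_inf hU1 ?_, hUo, ?_⟩
  · rw [hU]
    exact Ns_le F hw.le h1.le
  · intro V hV
    obtain ⟨ε, hε, hb⟩ := Ns_basis F hV
    obtain ⟨k, hk⟩ : ∃ k : ℕ, w ^ k < ε :=
      exists_pow_lt_of_lt_one hε (by rw [hw]; exact h1)
    obtain ⟨N, hN⟩ : ∃ N, N = Ns F (w ^ (k + 1)) (hwk k) (hwk1 k) := ⟨_, rfl⟩
    have hNV : N ≤ V := by
      rw [hN]
      refine hb _ _ _ ?_
      have h3 : w ^ (k + 1) ≤ w ^ k := by
        rw [pow_succ]
        exact mul_le_of_le_one_right (pow_nonneg hw0.le k) hw1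
      exact h3.trans hk.le
    have hNU : N ≤ U := by
      rw [hN, hU]
      refine Ns_mono F ?_
      rw [pow_succ]
      exact mul_le_of_le_one_left hw0.le (pow_le_one₀ hw0.le hw1)
    have hNo : IsOpen (N : Set (SpecialLinearGroup (Fin 2) F)) := by rw [hN]; exact Ns_open F
    have hconj : ∀ u ∈ U, ∀ n ∈ N, u * n * u⁻¹ ∈ N := by
      intro u hu n hn
      rw [hN] at hn ⊢
      exact Ns_conj F (hU1 hu) hn
    refine ⟨N, hNV, hNU, hNo, hconj, ?_⟩
    have hpow : ∀ (m : ℕ) (g : SpecialLinearGroup (Fin 2) F), g ∈ U →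
        g ^ (p ^ m) ∈ Ns F (w ^ (m + 1)) (hwk m) (hwk1 m) := by
      intro m g hg
      induction m with
      | zero =>
        have e1 : g ^ p ^ 0 = g := by rw [pow_zero, pow_one]
        rw [e1]
        rw [hU] at hg
        intro i j
        have := hg i j
        rwa [zero_add, pow_one]
      | succ m ih =>
        have e1 : g ^ p ^ (m + 1) = (g ^ p ^ m) ^ p := by rw [pow_succ, pow_mul]
        have e2 : w ^ (m + 1) ≤ w := by
          rw [pow_succ]
          exact mul_le_of_le_one_left hw0.le (pow_le_one₀ hw0.le hw1)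
        have e3 : w ^ (m + 1 + 1) = w * w ^ (m + 1) := by rw [pow_succ w (m + 1), mul_comm]
        rw [e1]
        refine Ns_pow F ?_ p ?_ ih
        · rw [e3]
          exact mul_le_mul_of_nonneg_right e2 (pow_nonneg hw0.le _)
        · rw [e3]
          exact mul_le_mul_of_nonneg_right hpw (pow_nonneg hw0.le _)
    have hnorm : (N.subgroupOf U).Normal := by
      refine ⟨fun n hn u => ?_⟩
      rw [Subgroup.mem_subgroupOf] at hn ⊢
      exact hconj u.1 u.2 n.1 hn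
    have hcomp : CompactSpace U := by
      have hc : IsCompact (U : Set (SpecialLinearGroup (Fin 2) F)) :=
        (slr_compact F 1 one_pos).of_isClosed_subset (U.isClosed_of_isOpen hUo) hU1
      exact isCompact_iff_compactSpace.1 hc
    have hfin : Finite (U ⧸ N.subgroupOf U) := by
      refine Subgroup.quotient_finite_of_isOpen _ ?_
      exact hNo.preimage continuous_subtype_val
    have hpg : IsPGroup p (U ⧸ N.subgroupOf U) := by
      intro x
      induction x using QuotientGroup.induction_on with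
      | H g =>
        refine ⟨k, ?_⟩
        rw [← QuotientGroup.mk_pow, QuotientGroup.eq_one_iff, Subgroup.mem_subgroupOf]
        rw [hN]
        exact hpow k g.1 g.2
    obtain ⟨m, hm⟩ := IsPGroup.iff_card.1 hpg
    exact ⟨m, hm⟩

end Pool.Agent.IWE
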