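import Pool.Agent.IWE.SLDefs

/-! # IWE/SLUnif (MP_88b97d_al, helper45)

`exists_unif`: the open unit ball `{x | ‖x‖ < 1}` is closed (`IsUltrametricDist.isClosed_ball`) and bounded, so compact
(`ProperSpace`); the norm attains its maximum on it at some `ϖ`; there is `x` with `0 < ‖x‖ < 1` (`NormedField.exists_norm_lt_one`),
so `ϖ ≠ 0`.
`iw_eq`: `‖c‖ ≤ ‖ϖ‖` iff `‖c‖ < 1`; `‖ϖ‖⁻¹ ≥ 1`; `(1 : ℝ)⁻¹ = 1`.
-/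

namespace Pool.Agent.IWE

open scoped TensorProduct

variable (F : Type) [NontriviallyNormedField F] [IsUltrametricDist F]

theorem exists_unif [ProperSpace F] :
    ∃ ϖ : F, ϖ ≠ 0 ∧ ‖ϖ‖ < 1 ∧ ∀ x : F, ‖x‖ < 1 → ‖x‖ ≤ ‖ϖ‖ := by
  have hc : IsCompact (Metric.ball (0 : F) 1) :=
    Metric.isCompact_of_isClosed_isBounded (IsUltrametricDist.isClosed_ball 0 1)
      Metric.isBounded_ball
  obtain ⟨ϖ, hϖ, hmax⟩ := hc.exists_isMaxOn ⟨0, Metric.mem_ball_self one_pos⟩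
    continuous_norm.continuousOn
  have hmax' : ∀ x : F, ‖x‖ < 1 → ‖x‖ ≤ ‖ϖ‖ := fun x hx =>
    hmax (by rwa [mem_ball_zero_iff])
  obtain ⟨x, hx0, hx1⟩ := NormedField.exists_norm_lt_one F
  refine ⟨ϖ, ?_, by rwa [mem_ball_zero_iff] at hϖ, hmax'⟩
  have := hmax' x hx1
  exact norm_pos_iff.1 (hx0.trans_le this)

theorem iw_eq {ϖ : F} (h0 : 0 < ‖ϖ‖) (h1 : ‖ϖ‖ < 1) (h2 : ∀ x : F, ‖x‖ < 1 → ‖x‖ ≤ ‖ϖ‖) :
    SLr F 1 one_pos ⊓ SLr F ‖ϖ‖ h0 = Iw F := by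
  ext g
  rw [Subgroup.mem_inf, mem_SLr, mem_SLr, inv_one]
  show _ ↔ (∀ i j, ‖g i j‖ ≤ 1) ∧ ‖g 1 0‖ < 1
  have h3 : 1 ≤ ‖ϖ‖⁻¹ := (one_le_inv₀ h0).2 h1.le
  constructor
  · rintro ⟨⟨a1, a2, a3, a4⟩, -, -, b3, -⟩
    refine ⟨fun i j => ?_, b3.trans_lt h1⟩
    fin_cases i <;> fin_cases j
    · exact a1
    · exact a2
    · exact a3
    · exact a4
  · rintro ⟨a, b⟩
    exact ⟨⟨a 0 0, a 0 1, a 1 0, a 1 1⟩, a 0 0, (a 0 1).trans h3, h2 _ b, a 1 1⟩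

end Pool.Agent.IWE
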