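import Pool.Agent.IWE.SLPing
import Pool.Agent.IWE.SLPro
import Pool.Agent.IWE.SLUnif
import Pool.Agent.IWE.Main

/-! # IWE/SLMain (MP_88b97d_al, helper45)

Products of groups `SL₂(F_i)`.
-/

namespace Pool.Agent.IWE

open scoped TensorProduct

open Matrix

theorem sl_rankOne (F : Type) [NontriviallyNormedField F] [IsUltrametricDist F] [ProperSpace F] (p : ℕ)
    [Fact p.Prime] (hp : ‖(p : F)‖ < 1) :
    ∃ P Q : Subgroup (SpecialLinearGroup (Fin 2) F), RankOne p P Q ∧ P ⊓ Q = Iw F := by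
  obtain ⟨ϖ, hne, h1, h2⟩ := exists_unif F
  have h0 : 0 < ‖ϖ‖ := norm_pos_iff.2 hne
  exact ⟨SLr F 1 one_pos, SLr F ‖ϖ‖ h0, ⟨slr_open F _ _, slr_compact F _ _, slr_open F _ _, slr_compact F _ _,
    sl_amalgam F h0 h1 h2, sl_pro F p hp h0 h1 h2⟩, iw_eq F h0 h1 h2⟩

theorem sl_main {p : ℕ} [Fact p.Prime] {C : Type} [Field C] [CharP C p] [Finite C] (n : ℕ) (F : Fin n → Type)
    [∀ i, NontriviallyNormedField (F i)] [∀ i, IsUltrametricDist (F i)] [∀ i, ProperSpace (F i)]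
    (hp : ∀ i, ‖(p : F i)‖ < 1) (A : RR C (∀ i, SpecialLinearGroup (Fin 2) (F i))) (hA : A.Adm)
    (hf : FinLen A) :
    ∃ B : RR C (∀ i, SpecialLinearGroup (Fin 2) (F i)), B.Adm ∧
      B.InjOn (Subgroup.pi Set.univ (fun i => Iw (F i))) ∧
      ∃ f : A.V →ₗ[C] B.V, IsHom A B f ∧ Function.Injective f := by
  choose P Q h1 h2 using fun i => sl_rankOne (F i) p (hp i)
  obtain ⟨B, hB, hB', f, hf1, hf2⟩ := main n (fun i => SpecialLinearGroup (Fin 2) (F i)) P Q h1 A hA hf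
  refine ⟨B, hB, ?_, f, hf1, hf2⟩
  have : (fun i => P i ⊓ Q i) = fun i => Iw (F i) := funext h2
  rw [this] at hB'
  exact hB'

end Pool.Agent.IWE
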