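import Pool.Agent.IWE.SLGen
import Pool.Agent.IWE.PingPong

/-! # IWE/SLPing (MP_88b97d_al, helper45)

`amalgam_of_pingpong` with `X` = the nonzero vectors of `F × F` (or `Fin 2 → F`, nonzero), `act g (x, y) = (a x + b y, c x + d y)`,
`B₁ = {(x, y) | ‖y‖ < ‖x‖}`, `B₀ = {(x, y) | ‖x‖ ≤ ‖y‖}` (in `X`, so `y ≠ 0`): disjoint, nonempty.
`g ∈ P ∖ Q`: `‖c‖ ≤ 1` and not `‖c‖ ≤ ‖ϖ‖` (as `‖b‖ ≤ 1 ≤ ‖ϖ‖⁻¹`), so `‖c‖ = 1`. For `‖y‖ < ‖x‖`: `‖c x + d y‖ = ‖x‖ ≥ ‖a x + b y‖`. Not onto: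
if `act g '' B₁ = B₀`: the vectors `(a, c) + (u, v)`... simplest: every element `(x', y')` of `act g '' B₁` satisfies
`‖c x' - a y'‖ < ‖y'‖` (`c x' - a y' = - y`, `‖y‖ < ‖x‖ = ‖y'‖`); the vector `(x', y') = ((a + 1)/c, 1)` is in `B₀` and
`c x' - a y' = 1`.
`g ∈ Q ∖ P`: `‖b‖ ≤ ‖ϖ‖⁻¹`, not `‖b‖ ≤ 1` (as `‖c‖ ≤ ‖ϖ‖ ≤ 1`), so `‖b‖ = ‖ϖ‖⁻¹` (`‖x‖ > 1` implies `‖x⁻¹‖ ≤ ‖ϖ‖`). For `‖x‖ ≤ ‖y‖`, `y ≠ 0`:
`‖a x + b y‖ = ‖ϖ‖⁻¹ ‖y‖` and `‖c x + d y‖ ≤ ‖y‖`. Not onto: every `(x', y')` in the image has `‖d x' - b y'‖ = ‖x‖ ≤ ‖y‖ = ‖ϖ‖ ‖x'‖`;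
the vector `(x', y') = (1, (d + 1)/b)`: `‖y'‖ ≤ ‖ϖ‖ < 1 = ‖x'‖`, so it is in `B₁`, and `d x' - b y' = -1`.
-/

namespace Pool.Agent.IWE

open scoped TensorProduct

open Matrix

variable (F : Type) [NontriviallyNormedField F] [IsUltrametricDist F]

theorem sl_amalgam {ϖ : F} (h0 : 0 < ‖ϖ‖) (h1 : ‖ϖ‖ < 1) (h2 : ∀ x : F, ‖x‖ < 1 → ‖x‖ ≤ ‖ϖ‖) :
    IsAmalgam (SLr F 1 one_pos) (SLr F ‖ϖ‖ h0) := by
  have hdet : ∀ g : SpecialLinearGroup (Fin 2) F, g 0 0 * g 1 1 - g 0 1 * g 1 0 = 1 := by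
    intro g
    have := g.2
    rw [Matrix.det_fin_two] at this
    exact this
  have hinv : 1 < ‖ϖ‖⁻¹ := (one_lt_inv₀ h0).2 h1
  have add_eq : ∀ u v : F, ‖v‖ < ‖u‖ → ‖u + v‖ = ‖u‖ := by
    intro u v huv
    rw [IsUltrametricDist.norm_add_eq_max_of_norm_ne_norm huv.ne', max_eq_left huv.le]
  have add_le : ∀ (u v : F) (r : ℝ), ‖u‖ ≤ r → ‖v‖ ≤ r → ‖u + v‖ ≤ r := fun u v r hu hv =>
    (IsUltrametricDist.norm_add_le_max u v).trans (max_le hu hv)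
  let act : SpecialLinearGroup (Fin 2) F → F × F → F × F := fun g v =>
    (g 0 0 * v.1 + g 0 1 * v.2, g 1 0 * v.1 + g 1 1 * v.2)
  refine amalgam_of_pingpong (sl_sup F h0 h1) act ?_ ?_ {v | v.2 ≠ 0 ∧ ‖v.1‖ ≤ ‖v.2‖}
    {v | ‖v.2‖ < ‖v.1‖} ?_ ⟨(0, 1), by simp⟩ ⟨(1, 0), by simp⟩ ?_ ?_
  · intro v
    simp [act]
  · intro g h v
    have e : ∀ i j, (g * h) i j = g i 0 * h 0 j + g i 1 * h 1 j := fun i j => by
      show (g.1 * h.1) i j = _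
      rw [Matrix.mul_apply, Fin.sum_univ_two]
    ext
    · simp only [act, e]
      ring
    · simp only [act, e]
      ring
  · rw [Set.disjoint_left]
    rintro v ⟨_, hv⟩ hv'
    exact absurd hv' (not_lt.2 hv)
  · intro g hg hg'
    obtain ⟨ha, hb, hc, hd⟩ := hg
    rw [inv_one] at hb
    have hc1 : ‖g 1 0‖ = 1 := by
      by_contra hne
      exact hg' ⟨ha, hb.trans hinv.le, h2 _ (lt_of_le_of_ne hc hne), hd⟩
    have key : ∀ v : F × F, ‖v.2‖ < ‖v.1‖ → ‖g 1 0 * v.1 + g 1 1 * v.2‖ = ‖v.1‖ := by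
      intro v hv
      have h3 : ‖g 1 0 * v.1‖ = ‖v.1‖ := by rw [norm_mul, hc1, one_mul]
      rw [add_eq _ _ ?_, h3]
      rw [h3, norm_mul]
      calc ‖g 1 1‖ * ‖v.2‖ ≤ 1 * ‖v.2‖ := mul_le_mul_of_nonneg_right hd (norm_nonneg _)
        _ < ‖v.1‖ := by rw [one_mul]; exact hv
    refine ⟨?_, ?_⟩
    · rintro _ ⟨v, hv, rfl⟩
      have hv' : ‖v.2‖ < ‖v.1‖ := hv
      have h4 := key v hv'
      refine ⟨?_, ?_⟩
      · show g 1 0 * v.1 + g 1 1 * v.2 ≠ 0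
        intro h5
        rw [h5, norm_zero] at h4
        have := norm_nonneg v.2
        linarith
      · show ‖g 0 0 * v.1 + g 0 1 * v.2‖ ≤ ‖g 1 0 * v.1 + g 1 1 * v.2‖
        rw [h4]
        refine add_le _ _ _ ?_ ?_
        · rw [norm_mul]
          calc ‖g 0 0‖ * ‖v.1‖ ≤ 1 * ‖v.1‖ := mul_le_mul_of_nonneg_right ha (norm_nonneg _)
            _ = ‖v.1‖ := one_mul _
        · rw [norm_mul]
          calc ‖g 0 1‖ * ‖v.2‖ ≤ 1 * ‖v.2‖ := mul_le_mul_of_nonneg_right hb (norm_nonneg _)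
            _ ≤ ‖v.1‖ := by rw [one_mul]; exact hv'.le
    · intro hsub
      have hc0 : g 1 0 ≠ 0 := by
        intro h5
        rw [h5, norm_zero] at hc1
        exact zero_ne_one hc1
      have hw : ((g 0 0 + 1) / g 1 0, (1 : F)) ∈ {v : F × F | v.2 ≠ 0 ∧ ‖v.1‖ ≤ ‖v.2‖} := by
        refine ⟨one_ne_zero, ?_⟩
        show ‖(g 0 0 + 1) / g 1 0‖ ≤ ‖(1 : F)‖
        rw [norm_div, hc1, div_one, norm_one]
        exact add_le _ _ _ ha norm_one.le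
      obtain ⟨v, hv, hvw⟩ := hsub hw
      have hv' : ‖v.2‖ < ‖v.1‖ := hv
      have e1 : g 0 0 * v.1 + g 0 1 * v.2 = (g 0 0 + 1) / g 1 0 := congrArg Prod.fst hvw
      have e2 : g 1 0 * v.1 + g 1 1 * v.2 = 1 := congrArg Prod.snd hvw
      have h4 := key v hv'
      rw [e2, norm_one] at h4
      have e3 : g 1 0 * (g 0 0 * v.1 + g 0 1 * v.2) = g 0 0 + 1 := by
        rw [e1]
        field_simp
      have e4 : v.2 = -1 := by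
        have hd := hdet g
        linear_combination (-1 : F) * e3 + g 0 0 * e2 - v.2 * hd
      rw [e4, norm_neg, norm_one, ← h4] at hv'
      exact lt_irrefl _ hv'
  · intro g hg hg'
    obtain ⟨ha, hb, hc, hd⟩ := hg
    have hb1 : ‖g 0 1‖ = ‖ϖ‖⁻¹ := by
      refine le_antisymm hb ?_
      have h3 : 1 < ‖g 0 1‖ := by
        by_contra hne
        exact hg' ⟨ha, by rw [inv_one]; exact not_lt.1 hne, hc.trans h1.le, hd⟩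
      have h4 : ‖(g 0 1)⁻¹‖ < 1 := by
        rw [norm_inv]
        exact inv_lt_one_of_one_lt₀ h3
      have h5 := h2 _ h4
      rw [norm_inv] at h5
      exact (inv_le_comm₀ (by linarith) h0).1 h5
    have key : ∀ v : F × F, v.2 ≠ 0 → ‖v.1‖ ≤ ‖v.2‖ →
        ‖g 0 0 * v.1 + g 0 1 * v.2‖ = ‖ϖ‖⁻¹ * ‖v.2‖ := by
      intro v hv0 hv
      have h3 : ‖g 0 1 * v.2‖ = ‖ϖ‖⁻¹ * ‖v.2‖ := by rw [norm_mul, hb1]
      rw [add_comm, add_eq _ _ ?_, h3]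
      rw [h3, norm_mul]
      have hy : 0 < ‖v.2‖ := norm_pos_iff.2 hv0
      calc ‖g 0 0‖ * ‖v.1‖ ≤ 1 * ‖v.1‖ := mul_le_mul_of_nonneg_right ha (norm_nonneg _)
        _ ≤ 1 * ‖v.2‖ := by rw [one_mul, one_mul]; exact hv
        _ < ‖ϖ‖⁻¹ * ‖v.2‖ := mul_lt_mul_of_pos_right hinv hy
    refine ⟨?_, ?_⟩
    · rintro _ ⟨v, ⟨hv0, hv⟩, rfl⟩
      show ‖g 1 0 * v.1 + g 1 1 * v.2‖ < ‖g 0 0 * v.1 + g 0 1 * v.2‖
      rw [key v hv0 hv]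
      have hy : 0 < ‖v.2‖ := norm_pos_iff.2 hv0
      have h3 : ‖g 1 0 * v.1 + g 1 1 * v.2‖ ≤ ‖v.2‖ := by
        refine add_le _ _ _ ?_ ?_
        · rw [norm_mul]
          calc ‖g 1 0‖ * ‖v.1‖ ≤ 1 * ‖v.2‖ :=
                mul_le_mul (hc.trans h1.le) hv (norm_nonneg _) zero_le_one
            _ = ‖v.2‖ := one_mul _
        · rw [norm_mul]
          calc ‖g 1 1‖ * ‖v.2‖ ≤ 1 * ‖v.2‖ := mul_le_mul_of_nonneg_right hd (norm_nonneg _)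
            _ = ‖v.2‖ := one_mul _
      calc ‖g 1 0 * v.1 + g 1 1 * v.2‖ ≤ 1 * ‖v.2‖ := by rw [one_mul]; exact h3
        _ < ‖ϖ‖⁻¹ * ‖v.2‖ := mul_lt_mul_of_pos_right hinv hy
    · intro hsub
      have hb0 : g 0 1 ≠ 0 := by
        intro h5
        rw [h5, norm_zero] at hb1
        linarith
      have hw : ((1 : F), (g 1 1 + 1) / g 0 1) ∈ {v : F × F | ‖v.2‖ < ‖v.1‖} := by
        show ‖(g 1 1 + 1) / g 0 1‖ < ‖(1 : F)‖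
        rw [norm_div, hb1, norm_one, div_inv_eq_mul]
        calc ‖g 1 1 + 1‖ * ‖ϖ‖ ≤ 1 * ‖ϖ‖ :=
              mul_le_mul_of_nonneg_right (add_le _ _ _ hd norm_one.le) h0.le
          _ < 1 := by rw [one_mul]; exact h1
      obtain ⟨v, ⟨hv0, hv⟩, hvw⟩ := hsub hw
      have e1 : g 0 0 * v.1 + g 0 1 * v.2 = 1 := congrArg Prod.fst hvw
      have e2 : g 1 0 * v.1 + g 1 1 * v.2 = (g 1 1 + 1) / g 0 1 := congrArg Prod.snd hvw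
      have h4 := key v hv0 hv
      rw [e1, norm_one] at h4
      have e3 : g 0 1 * (g 1 0 * v.1 + g 1 1 * v.2) = g 1 1 + 1 := by
        rw [e2]
        field_simp
      have e4 : v.1 = -1 := by
        have hd := hdet g
        linear_combination (-1 : F) * e3 + g 1 1 * e1 - v.1 * hd
      rw [e4, norm_neg, norm_one] at hv
      have h6 : 1 < ‖ϖ‖⁻¹ * ‖v.2‖ :=
        calc (1 : ℝ) < ‖ϖ‖⁻¹ * 1 := by rw [mul_one]; exact hinv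
          _ ≤ ‖ϖ‖⁻¹ * ‖v.2‖ := mul_le_mul_of_nonneg_left hv (inv_pos.2 h0).le
      linarith

end Pool.Agent.IWE
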