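import Pool.Agent.IWE.SLDefs

/-! # IWE/SLTop (MP_88b97d_al, helper45)

`SpecialLinearGroup.isClosedEmbedding_val` (Mathlib.Topology.Algebra.Group.Matrix); the entries are continuous. Open: closed
balls of positive radius are open (`IsUltrametricDist.isOpen_closedBall`). Compact: the set of the matrices with all entries in
closed balls is compact (`ProperSpace`, `isCompact_univ_pi`), its preimage under a closed embedding is compact.
-/

namespace Pool.Agent.IWE

open scoped TensorProduct

open Matrix

variable (F : Type) [NontriviallyNormedField F] [IsUltrametricDist F]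

omit [IsUltrametricDist F] in
private theorem entry_cont (i j : Fin 2) :
    Continuous (fun g : SpecialLinearGroup (Fin 2) F => g i j) :=
  (continuous_subtype_val (p := fun A : Matrix (Fin 2) (Fin 2) F => A.det = 1)).matrix_elem i j

private theorem entry_open (i j : Fin 2) {r : ℝ} (hr : 0 < r) :
    IsOpen {g : SpecialLinearGroup (Fin 2) F | ‖g i j‖ ≤ r} := by
  have h := (IsUltrametricDist.isOpen_closedBall (0 : F) hr.ne').preimage (entry_cont F i j)
  convert h using 1
  ext g
  simp

theorem slr_open (r : ℝ) (hr : 0 < r) :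
    IsOpen (SLr F r hr : Set (SpecialLinearGroup (Fin 2) F)) :=
  (entry_open F 0 0 one_pos).inter ((entry_open F 0 1 (inv_pos.2 hr)).inter
    ((entry_open F 1 0 hr).inter (entry_open F 1 1 one_pos)))

theorem slr_compact [ProperSpace F] (r : ℝ) (hr : 0 < r) :
    IsCompact (SLr F r hr : Set (SpecialLinearGroup (Fin 2) F)) := by
  obtain ⟨R, hR⟩ : ∃ R : Fin 2 → Fin 2 → ℝ, R = ![![1, r⁻¹], ![r, 1]] := ⟨_, rfl⟩
  have hK : IsCompact {m : Matrix (Fin 2) (Fin 2) F | ∀ i j, ‖m i j‖ ≤ R i j} := by
    have h1 : IsCompact (Set.pi Set.univ (fun i : Fin 2 => Set.pi Set.univ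
        (fun j : Fin 2 => Metric.closedBall (0 : F) (R i j))) : Set (Fin 2 → Fin 2 → F)) :=
      isCompact_univ_pi fun i => isCompact_univ_pi fun j => isCompact_closedBall _ _
    have h2 : {m : Matrix (Fin 2) (Fin 2) F | ∀ i j, ‖m i j‖ ≤ R i j} =
        (Set.pi Set.univ (fun i : Fin 2 => Set.pi Set.univ
        (fun j : Fin 2 => Metric.closedBall (0 : F) (R i j))) : Set (Fin 2 → Fin 2 → F)) := by
      apply Set.ext
      intro m
      constructor
      · intro h i _ j _
        rw [mem_closedBall_zero_iff]
        exact h i j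
      · intro h i j
        have := h i (Set.mem_univ _) j (Set.mem_univ _)
        rwa [mem_closedBall_zero_iff] at this
    rw [h2]
    exact h1
  have h := (SpecialLinearGroup.isClosedEmbedding_val (n := Fin 2) (R := F)).isCompact_preimage hK
  have hset : (SLr F r hr : Set (SpecialLinearGroup (Fin 2) F)) =
      Subtype.val ⁻¹' {m : Matrix (Fin 2) (Fin 2) F | ∀ i j, ‖m i j‖ ≤ R i j} := by
    apply Set.ext
    intro g
    constructor
    · rintro ⟨h1, h2, h3, h4⟩ i j
      rw [hR]
      fin_cases i <;> fin_cases j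
      · exact h1
      · exact h2
      · exact h3
      · exact h4
    · intro hg
      have h5 : ∀ i j, ‖g i j‖ ≤ R i j := hg
      rw [hR] at h5
      exact ⟨h5 0 0, h5 0 1, h5 1 0, h5 1 1⟩
  rw [hset]
  exact h

end Pool.Agent.IWE
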