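import Pool.Agent.IWE.TensFix

/-! # IWE/TensAdm (MP_88b97d_al, helper45)

`tens_smooth`: induction on tensors: `v ⊗ w` is fixed by `U.prod U'` (open: `IsOpen.prod`), sums by intersections.
`tens_adm`: let `K` be open compact in `G × H`, `K₁ = {g | (g, 1) ∈ K} ⊓ J`, `K₂ = {h | (1, h) ∈ K} ⊓ L`: open, compact
(`isCompact_of_le`), `K₁.prod K₂ ≤ K`. A vector fixed by `K` is fixed by `K₁ × 1` and `1 × K₂`: by `tens_fix_left` it is the image
of some `y ∈ (A.fix K₁) ⊗ B.V` (`rTensor` of an injective map is injective over a field, so `y` is again fixed by `1 × K₂`), by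
`tens_fix_right` (with `W = A.fix K₁`) `y` comes from `(A.fix K₁) ⊗ (B.fix K₂)`, a finite dimensional space. So `fix K` is contained
in the range of a linear map from a finite dimensional space.
-/

namespace Pool.Agent.IWE

open scoped TensorProduct

variable {C : Type} [Field C] {G : Type} [Group G] [TopologicalSpace G] {H : Type} [Group H] [TopologicalSpace H]


theorem tens_smooth {A : RR C G} {B : RR C H} (hA : A.Smooth) (hB : B.Smooth) : (tens A B).Smooth := by
  intro x
  change A.V ⊗[C] B.V at x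
  induction x with
  | zero => exact ⟨⊤, isOpen_univ, fun g _ => map_zero _⟩
  | tmul v w =>
    obtain ⟨U, hU, h⟩ := hA v
    obtain ⟨U', hU', h'⟩ := hB w
    refine ⟨U.prod U', by rw [Subgroup.coe_prod]; exact hU.prod hU', fun g hg => ?_⟩
    rw [Subgroup.mem_prod] at hg
    show A.ρ g.1 v ⊗ₜ[C] B.ρ g.2 w = v ⊗ₜ[C] w
    rw [h g.1 hg.1, h' g.2 hg.2]
  | add x y hx hy =>
    obtain ⟨U, hU, h⟩ := hx
    obtain ⟨U', hU', h'⟩ := hy
    refine ⟨U ⊓ U', inf_open hU hU', fun g hg => ?_⟩
    rw [map_add, h g hg.1, h' g hg.2]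

theorem tens_adm [IsTopologicalGroup G] [IsTopologicalGroup H] {A : RR C G} {B : RR C H} (hA : A.Adm)
    (hB : B.Adm) {J : Subgroup G} {L : Subgroup H} (oJ : IsOpen (J : Set G)) (cJ : IsCompact (J : Set G))
    (oL : IsOpen (L : Set H)) (cL : IsCompact (L : Set H)) : (tens A B).Adm := by
  refine ⟨tens_smooth hA.1 hB.1, fun K hK hK' => ?_⟩
  let K₁ : Subgroup G := K.comap (MonoidHom.inl G H) ⊓ J
  let K₂ : Subgroup H := K.comap (MonoidHom.inr G H) ⊓ L
  have o1 : IsOpen (K₁ : Set G) := inf_open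
    (hK.preimage (by fun_prop : Continuous (fun g : G => (g, (1 : H))))) oJ
  have c1 : IsCompact (K₁ : Set G) := isCompact_of_le o1 cJ inf_le_right
  have o2 : IsOpen (K₂ : Set H) := inf_open
    (hK.preimage (by fun_prop : Continuous (fun g : H => ((1 : G), g)))) oL
  have c2 : IsCompact (K₂ : Set H) := isCompact_of_le o2 cL inf_le_right
  have f1 : Module.Finite C (A.fix K₁) := hA.2 K₁ o1 c1
  have f2 : Module.Finite C (B.fix K₂) := hB.2 K₂ o2 c2
  let φ : (A.fix K₁) ⊗[C] (B.fix K₂) →ₗ[C] A.V ⊗[C] B.V :=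
    ((A.fix K₁).subtype.rTensor B.V).comp ((B.fix K₂).subtype.lTensor (A.fix K₁))
  have hle : (tens A B).fix K ≤ LinearMap.range φ := by
    intro x hx
    change A.V ⊗[C] B.V at x
    have h1 : ∀ g ∈ K₁, (A.ρ g).rTensor B.V x = x := by
      intro g hg
      have h := hx (g, 1) hg.1
      have h' : TensorProduct.map (A.ρ g) (B.ρ 1) x = x := h
      rw [map_one] at h'
      exact h'
    have h2 : ∀ g ∈ K₂, (B.ρ g).lTensor A.V x = x := by
      intro g hg
      have h := hx (1, g) hg.1
      have h' : TensorProduct.map (A.ρ 1) (B.ρ g) x = x := h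
      rw [map_one] at h'
      exact h'
    obtain ⟨y, hy⟩ := tens_fix_left A B.V K₁ x h1
    have h3 : ∀ g ∈ K₂, (B.ρ g).lTensor (A.fix K₁) y = y := by
      intro g hg
      have hinj : Function.Injective ((A.fix K₁).subtype.rTensor B.V) :=
        Module.Flat.rTensor_preserves_injective_linearMap _ Subtype.val_injective
      apply hinj
      have h4 := h2 g hg
      rw [← hy] at h4
      rw [← LinearMap.comp_apply, LinearMap.rTensor_comp_lTensor] 
      rw [← LinearMap.comp_apply, LinearMap.lTensor_comp_rTensor] at h4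
      exact h4
    obtain ⟨z, hz⟩ := tens_fix_right B (A.fix K₁) K₂ y h3
    exact ⟨z, by rw [LinearMap.comp_apply, hz, hy]⟩
  have f3 : Module.Finite C (LinearMap.range φ) := inferInstance
  exact Submodule.finiteDimensional_of_le hle

end Pool.Agent.IWE
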