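import Pool.Agent.IWE.Xi
import Pool.Agent.IWE.InjRes
import Pool.Agent.IWE.TensAdm

/-! # IWE/TensInj (MP_88b97d_al, helper45)

`tens_inj`: by `exists_retract`, `A` is a retract (`e, r`) of `LCf C G A.V` and `B` of `LCf C H B.V`, so `tens A B` is a retract
(`TensorProduct.map`) of `tens (LCf C G A.V) (LCf C H B.V)`, which by `Xi` (bijective onto `LCs C (G × H) (A.V ⊗ B.V)`, equivariant:
`Xi (g·f ⊗ h·f') (x, y) = f (x g) ⊗ f' (y h)`) is isomorphic to `LCf C (G × H) (A.V ⊗ B.V)`, injective by `LCf_inj`; use
`inj_of_retract` twice (or once with the composites).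
`tens_injOn`: `J` and `L` are compact topological groups; `tens_inj` for `A.res J`, `B.res L`; transport (`inj_comap`) along
`Subgroup.prodEquiv J L : J.prod L ≃* J × L` (continuous with continuous inverse).
-/

namespace Pool.Agent.IWE

open scoped TensorProduct

variable {C : Type} [Field C] {G : Type} [Group G] [TopologicalSpace G] {H : Type} [Group H] [TopologicalSpace H]

omit [TopologicalSpace G] [TopologicalSpace H] in
private theorem map_isHom {A A' : RR C G} {B B' : RR C H} {f : A.V →ₗ[C] A'.V} {f' : B.V →ₗ[C] B'.V}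
    (hf : IsHom A A' f) (hf' : IsHom B B' f') :
    IsHom (tens A B) (tens A' B') (TensorProduct.map f f') := by
  rintro ⟨g, h⟩ v
  show TensorProduct.map f f' (TensorProduct.map (A.ρ g) (B.ρ h) v) =
    TensorProduct.map (A'.ρ g) (B'.ρ h) (TensorProduct.map f f' v)
  rw [← LinearMap.comp_apply, ← LinearMap.comp_apply, ← TensorProduct.map_comp, ← TensorProduct.map_comp]
  congr 2
  · ext v
    exact hf g v
  · ext v
    exact hf' h v

private theorem lcf_tens_inj [IsTopologicalGroup G] [IsTopologicalGroup H] [CompactSpace G]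
    [CompactSpace H] (V : Type) [AddCommGroup V] [Module C V] (W : Type) [AddCommGroup W] [Module C W] :
    (tens (LCf C G V) (LCf C H W)).Inj := by
  let s : (tens (LCf C G V) (LCf C H W)).V →ₗ[C] (LCf C (G × H) (V ⊗[C] W)).V :=
    LinearMap.codRestrict (LCs C (G × H) (V ⊗[C] W)) (Xi C G H V W) (Xi_mem C G H V W)
  have hs1 : Function.Injective s := by
    intro a b hab
    exact Xi_injective C G H V W (congrArg Subtype.val hab)
  have hs2 : Function.Surjective s := by
    intro F
    obtain ⟨t, ht⟩ := Xi_surj C G H V W F.1 F.2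
    exact ⟨t, Subtype.ext ht⟩
  have hs : IsHom (tens (LCf C G V) (LCf C H W)) (LCf C (G × H) (V ⊗[C] W)) s := by
    rintro ⟨g, h⟩ t
    apply Subtype.ext
    funext x
    show Xi C G H V W (TensorProduct.map ((LCf C G V).ρ g) ((LCf C H W).ρ h) t) x =
      Xi C G H V W t (x * (g, h))
    induction t using TensorProduct.induction_on with
    | zero => simp only [map_zero, Pi.zero_apply]
    | tmul f f' => rfl
    | add a b ha hb =>
      rw [map_add, map_add, Pi.add_apply, ha, hb, map_add, Pi.add_apply]
  let E := LinearEquiv.ofBijective s ⟨hs1, hs2⟩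
  have hEs : ∀ v, E v = s v := fun _ => rfl
  have hr : IsHom (LCf C (G × H) (V ⊗[C] W)) (tens (LCf C G V) (LCf C H W)) E.symm.toLinearMap := by
    intro g v
    show E.symm _ = (tens (LCf C G V) (LCf C H W)).ρ g (E.symm v)
    rw [LinearEquiv.symm_apply_eq, hEs, hs g, ← hEs, LinearEquiv.apply_symm_apply]
  exact inj_of_retract s E.symm.toLinearMap hs hr (fun v => E.symm_apply_apply v)
    (LCf_inj C (G × H) (V ⊗[C] W))

theorem tens_inj [IsTopologicalGroup G] [IsTopologicalGroup H] [CompactSpace G] [CompactSpace H]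
    {A : RR C G} {B : RR C H} (hAs : A.Smooth) (hBs : B.Smooth) (hA : A.Inj) (hB : B.Inj) :
    (tens A B).Inj := by
  obtain ⟨eA, rA, heA, hrA, hreA, -⟩ := exists_retract hAs hA
  obtain ⟨eB, rB, heB, hrB, hreB, -⟩ := exists_retract hBs hB
  refine inj_of_retract (TensorProduct.map eA eB) (TensorProduct.map rA rB) (map_isHom heA heB)
    (map_isHom hrA hrB) (fun v => ?_) (lcf_tens_inj A.V B.V)
  show TensorProduct.map rA rB (TensorProduct.map eA eB v) = v
  rw [← LinearMap.comp_apply, ← TensorProduct.map_comp]
  have h1 : rA ∘ₗ eA = LinearMap.id := by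
    ext v
    exact hreA v
  have h2 : rB ∘ₗ eB = LinearMap.id := by
    ext v
    exact hreB v
  rw [h1, h2, TensorProduct.map_id]
  rfl

theorem tens_injOn [IsTopologicalGroup G] [IsTopologicalGroup H] {A : RR C G} {B : RR C H}
    (hAs : A.Smooth) (hBs : B.Smooth) {J : Subgroup G} {L : Subgroup H} (cJ : IsCompact (J : Set G))
    (cL : IsCompact (L : Set H)) (hA : A.InjOn J) (hB : B.InjOn L) :
    (tens A B).InjOn (J.prod L) := by
  have : CompactSpace J := isCompact_iff_compactSpace.1 cJ
  have : CompactSpace L := isCompact_iff_compactSpace.1 cL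
  have h1 := tens_inj (A := A.res J) (B := B.res L) (res_smooth hAs J) (res_smooth hBs L) hA hB
  have h2 := inj_comap (Subgroup.prodEquiv J L) (by
      refine Continuous.prodMk ?_ ?_
      · exact Continuous.subtype_mk (continuous_fst.comp continuous_subtype_val) _
      · exact Continuous.subtype_mk (continuous_snd.comp continuous_subtype_val) _) (by
      refine Continuous.subtype_mk ?_ _
      exact (continuous_subtype_val.comp continuous_fst).prodMk
        (continuous_subtype_val.comp continuous_snd)) h1
  exact h2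

end Pool.Agent.IWE
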