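import Pool.Agent.IWE.Basic

/-! # IWE/Xi (MP_88b97d_al, helper45; proofs by helper22)

The uniformly locally constant functions on a product of compact groups with values in a tensor product.
-/

namespace Pool.Agent.IWE

open scoped TensorProduct

variable (C : Type) [Field C] (G : Type) [Group G] [TopologicalSpace G] (H : Type) [Group H]
  [TopologicalSpace H] (V : Type) [AddCommGroup V] [Module C V] (W : Type) [AddCommGroup W] [Module C W]

/-- `f ⊗ f' ↦ ((x, y) ↦ f x ⊗ f' y)` -/
def Xi : (LCs C G V) ⊗[C] (LCs C H W) →ₗ[C] (G × H → V ⊗[C] W) :=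
  TensorProduct.lift (LinearMap.mk₂ C (fun f f' x => f.1 x.1 ⊗ₜ[C] f'.1 x.2)
    (fun a b c => by funext x; exact TensorProduct.add_tmul _ _ _)
    (fun a b c => by funext x; exact TensorProduct.smul_tmul' _ _ _)
    (fun a b c => by funext x; exact TensorProduct.tmul_add _ _ _)
    (fun a b c => by funext x; exact TensorProduct.tmul_smul _ _ _))

theorem Xi_tmul (f : LCs C G V) (f' : LCs C H W) (x : G × H) :
    Xi C G H V W (f ⊗ₜ f') x = f.1 x.1 ⊗ₜ[C] f'.1 x.2 := rfl

theorem Xi_injective : Function.Injective (Xi C G H V W) := by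
  classical
  intro a a' haa
  rw [← sub_eq_zero]
  have ht : ∀ x, Xi C G H V W (a - a') x = 0 := by
    intro x
    have h1 : ((LinearMap.proj x).comp (Xi C G H V W)) (a - a') = 0 := by
      rw [map_sub]
      show Xi C G H V W a x - Xi C G H V W a' x = 0
      rw [haa, sub_self]
    exact h1
  generalize a - a' = t at ht ⊢
  let b := Module.Basis.ofVectorSpace C (LCs C H W)
  -- expand `t` in the basis of the second factor
  obtain ⟨c, rfl⟩ := (TensorProduct.equivFinsuppOfBasisRight (M := LCs C G V) b).symm.surjective t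
  rw [TensorProduct.equivFinsuppOfBasisRight_symm_apply] at ht ⊢
  have hc : c = 0 := by
    ext i x
    show (c i).1 x = 0
    rw [← Module.forall_dual_apply_eq_zero_iff C ((c i).1 x)]
    intro l
    by_cases hi : i ∈ c.support
    · have h1 : ∑ j ∈ c.support, l ((c j).1 x) • b j = 0 := by
        apply Subtype.ext
        funext y
        have h2 := ht (x, y)
        rw [Finsupp.sum, map_sum, Finset.sum_apply] at h2
        have h3 := congrArg ((TensorProduct.lid C W).toLinearMap.comp (l.rTensor W)) h2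
        rw [map_sum, map_zero] at h3
        rw [AddSubmonoidClass.coe_finsetSum, Finset.sum_apply]
        refine Eq.trans ?_ h3
        refine Finset.sum_congr rfl (fun j _ => ?_)
        rw [Xi_tmul]
        simp
      exact (linearIndependent_iff'.1 b.linearIndependent) c.support _ h1 i hi
    · rw [Finsupp.notMem_support_iff.1 hi]
      show l ((0 : G → V) x) = 0
      simp
  rw [hc, Finsupp.sum_zero_index]

theorem Xi_mem (t : (LCs C G V) ⊗[C] (LCs C H W)) : Xi C G H V W t ∈ LCs C (G × H) (V ⊗[C] W) := by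
  induction t using TensorProduct.induction_on with
  | zero => rw [map_zero]; exact Submodule.zero_mem _
  | tmul f f' =>
    obtain ⟨U, hU, hf⟩ := f.2
    obtain ⟨U', hU', hf'⟩ := f'.2
    refine ⟨U.prod U', ?_, ?_⟩
    · rw [Subgroup.coe_prod]
      exact hU.prod hU'
    · rintro ⟨x, y⟩ ⟨u, u'⟩ hu
      rw [Subgroup.mem_prod] at hu
      rw [Xi_tmul, Xi_tmul]
      show f.1 (x * u) ⊗ₜ[C] f'.1 (y * u') = _
      rw [hf x u hu.1, hf' y u' hu.2]
  | add a b ha hb => rw [map_add]; exact Submodule.add_mem _ ha hb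

open Classical in
/-- the function which is `v` on the coset of `x` and zero elsewhere -/
theorem ind_mem {U : Subgroup G} (hU : IsOpen (U : Set G)) (s : G ⧸ U) (v : V) :
    (fun x : G => if (x : G ⧸ U) = s then v else 0) ∈ LCs C G V := by
  refine ⟨U, hU, ?_⟩
  intro x u hu
  have h : ((x * u : G) : G ⧸ U) = (x : G ⧸ U) := by
    rw [QuotientGroup.eq]
    simpa using hu
  show (if ((x * u : G) : G ⧸ U) = s then v else 0) = (if ((x : G) : G ⧸ U) = s then v else 0)
  rw [h]

theorem Xi_surj [IsTopologicalGroup G] [IsTopologicalGroup H] [CompactSpace G] [CompactSpace H]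
    (F : G × H → V ⊗[C] W) (hF : F ∈ LCs C (G × H) (V ⊗[C] W)) : ∃ t, Xi C G H V W t = F := by
  classical
  obtain ⟨V', hV', hinv⟩ := hF
  let V₁ : Subgroup G := V'.comap (MonoidHom.inl G H)
  let V₂ : Subgroup H := V'.comap (MonoidHom.inr G H)
  have o₁ : IsOpen (V₁ : Set G) := hV'.preimage (by fun_prop : Continuous (fun g : G => (g, (1 : H))))
  have o₂ : IsOpen (V₂ : Set H) := hV'.preimage (by fun_prop : Continuous (fun h : H => ((1 : G), h)))
  have : Finite (G ⧸ V₁) := Subgroup.quotient_finite_of_isOpen V₁ o₁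
  have : Finite (H ⧸ V₂) := Subgroup.quotient_finite_of_isOpen V₂ o₂
  have := Fintype.ofFinite (G ⧸ V₁)
  have := Fintype.ofFinite (H ⧸ V₂)
  -- pure tensors supported on a product of cosets
  have hpure : ∀ (s : G ⧸ V₁) (s' : H ⧸ V₂) (z : V ⊗[C] W),
      ∃ t, Xi C G H V W t = fun x => if (x.1 : G ⧸ V₁) = s ∧ (x.2 : H ⧸ V₂) = s' then z else 0 := by
    intro s s' z
    induction z using TensorProduct.induction_on with
    | zero => exact ⟨0, by funext x; simp⟩
    | tmul v w =>
      refine ⟨(⟨_, ind_mem C G V o₁ s v⟩ : LCs C G V) ⊗ₜ (⟨_, ind_mem C H W o₂ s' w⟩ : LCs C H W), ?_⟩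
      funext x
      rw [Xi_tmul]
      by_cases h1 : (x.1 : G ⧸ V₁) = s
      · by_cases h2 : (x.2 : H ⧸ V₂) = s'
        · simp [h1, h2]
        · simp [h2]
      · simp [h1]
    | add a b ha hb =>
      obtain ⟨ta, hta⟩ := ha
      obtain ⟨tb, htb⟩ := hb
      refine ⟨ta + tb, ?_⟩
      rw [map_add, hta, htb]
      funext x
      show (if _ then a else 0) + (if _ then b else 0) = if _ then a + b else 0
      split_ifs <;> simp
  choose τ hτ using hpure
  refine ⟨∑ s : G ⧸ V₁, ∑ s' : H ⧸ V₂, τ s s' (F (s.out, s'.out)), ?_⟩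
  funext x
  rw [map_sum, Finset.sum_apply]
  rw [Finset.sum_eq_single (x.1 : G ⧸ V₁)]
  · rw [map_sum, Finset.sum_apply, Finset.sum_eq_single (x.2 : H ⧸ V₂)]
    · rw [hτ]
      simp only [and_self, if_true]
      -- `F (out, out) = F x`
      have e1 : (x.1)⁻¹ * (QuotientGroup.mk x.1 : G ⧸ V₁).out ∈ V₁ := by
        rw [← QuotientGroup.eq]
        exact (QuotientGroup.out_eq' _).symm
      have e2 : (x.2)⁻¹ * (QuotientGroup.mk x.2 : H ⧸ V₂).out ∈ V₂ := by
        rw [← QuotientGroup.eq]
        exact (QuotientGroup.out_eq' _).symm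
      set u := (x.1)⁻¹ * (QuotientGroup.mk x.1 : G ⧸ V₁).out with hu
      set u' := (x.2)⁻¹ * (QuotientGroup.mk x.2 : H ⧸ V₂).out with hu'
      have h1 : ((QuotientGroup.mk x.1 : G ⧸ V₁).out, (QuotientGroup.mk x.2 : H ⧸ V₂).out) =
          x * (u, 1) * (1, u') := by
        ext
        · simp [hu]
        · simp [hu']
      have e1' : (u, (1 : H)) ∈ V' := e1
      have e2' : ((1 : G), u') ∈ V' := e2
      rw [h1, hinv _ _ e2', hinv _ _ e1']
    · intro s' _ hs'
      rw [hτ]
      have : ¬ ((x.1 : G ⧸ V₁) = (x.1 : G ⧸ V₁) ∧ (x.2 : H ⧸ V₂) = s') := fun h => hs' h.2.symm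
      exact if_neg this
    · intro h; exact absurd (Finset.mem_univ _) h
  · intro s _ hs
    rw [map_sum, Finset.sum_apply]
    refine Finset.sum_eq_zero (fun s' _ => ?_)
    rw [hτ]
    have : ¬ ((x.1 : G ⧸ V₁) = s ∧ (x.2 : H ⧸ V₂) = s') := fun h => hs h.1.symm
    exact if_neg this
  · intro h; exact absurd (Finset.mem_univ _) h

end Pool.Agent.IWE
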